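import Pool.Agent.T6.H91.DML.Core

set_option autoImplicit false

/-! Orbits over number fields are not integral with respect to an invariant hypersurface. -/

namespace Pool.Agent.T6.H91.DML

open MvPolynomial Pool.Agent.H936R2 Pool.Agent.R847.PC Filter Height
open Height.AdmissibleAbsValues

lemma tendsto_of_growth (H : ℕ → ℝ) (d : ℕ) (hd : 2 ≤ d) (C : ℝ) (hC : 0 ≤ C)
    (h : ∀ n, d * H n - C ≤ H (n + 1)) (hunb : ∀ B : ℝ, ∃ n, B < H n) :
    Tendsto H atTop atTop := by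
  obtain ⟨n0, hn0⟩ := hunb (C + 1)
  have hdR : (2 : ℝ) ≤ d := by exact_mod_cast hd
  have key : ∀ m : ℕ, C + 1 + m ≤ H (n0 + m) := by
    intro m
    induction m with
    | zero => simpa using hn0.le
    | succ m ih =>
      have h1 := h (n0 + m)
      have hm : (0 : ℝ) ≤ m := Nat.cast_nonneg m
      have h2 : (2 : ℝ) * H (n0 + m) ≤ d * H (n0 + m) :=
        mul_le_mul_of_nonneg_right hdR (by linarith)
      have h3 : n0 + (m + 1) = n0 + m + 1 := rfl
      rw [h3]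
      push_cast
      linarith
  rw [tendsto_atTop]
  intro B
  obtain ⟨m, hm⟩ := exists_nat_gt B
  filter_upwards [eventually_ge_atTop (n0 + m)] with n hn
  obtain ⟨l, rfl⟩ := Nat.exists_eq_add_of_le hn
  have h1 := key (m + l)
  rw [← Nat.add_assoc] at h1
  push_cast at h1
  have hl : (0 : ℝ) ≤ l := Nat.cast_nonneg l
  linarith

section

variable {𝕂 : Type} [Field 𝕂] {N : ℕ}

lemma ne_zero_iter [Algebra 𝕂 ℂ] (f : Fin (N + 1) → MvPolynomial (Fin (N + 1)) 𝕂)
    (hf0 : ∀ z : Fin (N + 1) → ℂ, (∀ i, aeval z (f i) = 0) → z = 0)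
    (x0 : Fin (N + 1) → 𝕂) (hx0 : x0 ≠ 0) (n : ℕ) : (pt f)^[n] x0 ≠ 0 := by
  induction n with
  | zero => exact hx0
  | succ n ih =>
    rw [Function.iterate_succ_apply']
    intro h
    apply ih
    have h1 : (fun i => algebraMap 𝕂 ℂ ((pt f)^[n] x0 i)) = 0 := by
      apply hf0
      intro i
      have h2 : aeval (fun i => algebraMap 𝕂 ℂ ((pt f)^[n] x0 i)) (f i) =
          algebraMap 𝕂 ℂ (eval ((pt f)^[n] x0) (f i)) := by
        have h5 := aeval_algebraMap_apply (A := 𝕂) ℂ ((pt f)^[n] x0) (f i)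
        exact h5
      rw [h2]
      have h3 : eval ((pt f)^[n] x0) (f i) = 0 := congrFun h i
      rw [h3, map_zero]
    funext i
    have h4 := congrFun h1 i
    simp only [Pi.zero_apply] at h4 ⊢
    exact (map_eq_zero _).1 h4

/-- Growth of the size at one absolute value. -/
lemma growth_local [Algebra 𝕂 ℂ] (w : AbsoluteValue 𝕂 ℝ) {d : ℕ}
    (f : Fin (N + 1) → MvPolynomial (Fin (N + 1)) 𝕂) (hf : ∀ i, (f i).IsHomogeneous d)
    (hf0 : ∀ z : Fin (N + 1) → ℂ, (∀ i, aeval z (f i) = 0) → z = 0)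
    (x0 : Fin (N + 1) → 𝕂) (hx0 : x0 ≠ 0) :
    ∃ C : ℝ, 0 ≤ C ∧ ∀ n, d * Real.log (mx w ((pt f)^[n] x0)) - C ≤
      Real.log (mx w ((pt f)^[n + 1] x0)) := by
  obtain ⟨c, hc0, hc⟩ := lower w f (fun _ => d) hf hf0
  refine ⟨|Real.log c|, abs_nonneg _, fun n => ?_⟩
  have hne := ne_zero_iter f hf0 x0 hx0 n
  have hne' := ne_zero_iter f hf0 x0 hx0 (n + 1)
  obtain ⟨i, hi⟩ := hc _ hne
  have h1 : c * mx w ((pt f)^[n] x0) ^ d ≤ mx w ((pt f)^[n + 1] x0) := by
    refine hi.trans ?_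
    rw [Function.iterate_succ_apply']
    exact le_mx w (pt f ((pt f)^[n] x0)) i
  have hpos := mx_pos w _ hne
  have h2 : Real.log c + d * Real.log (mx w ((pt f)^[n] x0)) ≤
      Real.log (mx w ((pt f)^[n + 1] x0)) := by
    rw [← Real.log_pow, ← Real.log_mul hc0.ne' (pow_pos hpos _).ne']
    exact Real.log_le_log (mul_pos hc0 (pow_pos hpos _)) h1
  have h3 := neg_abs_le (Real.log c)
  linarith

variable [NumberField 𝕂]

/-- Northcott's theorem for an orbit. -/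
lemma unbounded (x : ℕ → Fin (N + 1) → 𝕂) (hx : ∀ n, x n ≠ 0)
    (hnp : ∀ m n, m < n → ¬ ∃ c : 𝕂, c ≠ 0 ∧ x n = c • x m) (B : ℝ) :
    ∃ n, B < Real.log (mulHeight (x n)) := by
  classical
  by_contra hno
  push Not at hno
  have hcoord : ∀ n, ∃ i, x n i ≠ 0 := fun n => Function.ne_iff.1 (hx n)
  choose i hi using hcoord
  let F : ℕ → Fin (N + 1) × (Fin (N + 1) → 𝕂) := fun n => (i n, fun k => x n k / x n (i n))
  have hfin : (Set.univ ×ˢ Set.pi Set.univ fun _ : Fin (N + 1) =>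
      {y : 𝕂 | mulHeight₁ y ≤ Real.exp B} : Set (Fin (N + 1) × (Fin (N + 1) → 𝕂))).Finite :=
    Set.finite_univ.prod (Set.Finite.pi fun _ => NumberField.finite_setOfPred_mulHeight₁_le 𝕂 _)
  have hmaps : ∀ n, F n ∈ (Set.univ ×ˢ Set.pi Set.univ fun _ : Fin (N + 1) =>
      {y : 𝕂 | mulHeight₁ y ≤ Real.exp B} : Set (Fin (N + 1) × (Fin (N + 1) → 𝕂))) := by
    intro n
    refine ⟨Set.mem_univ _, fun k _ => ?_⟩
    change mulHeight₁ (x n k / x n (i n)) ≤ Real.exp B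
    rw [mulHeight₁_div_eq_mulHeight]
    have h1 : (![x n k, x n (i n)] : Fin 2 → 𝕂) = x n ∘ ![k, i n] := by
      funext j
      fin_cases j <;> rfl
    rw [h1]
    refine (mulHeight_comp_le _ _).trans ?_
    rw [← Real.log_le_iff_le_exp (mulHeight_pos _)]
    exact hno n
  obtain ⟨m, -, n, -, hmn, hF⟩ := Set.infinite_univ.exists_ne_map_eq_of_mapsTo
    (f := F) (fun n _ => hmaps n) hfin
  wlog hlt : m < n generalizing m n
  · exact this n m hmn.symm hF.symm (lt_of_le_of_ne (not_lt.1 hlt) hmn.symm)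
  apply hnp m n hlt
  have h1 : i m = i n := congrArg Prod.fst hF
  have h2 : (fun k => x m k / x m (i m)) = fun k => x n k / x n (i n) := congrArg Prod.snd hF
  refine ⟨x n (i n) / x m (i m), div_ne_zero (hi n) (hi m), ?_⟩
  funext k
  have h3 : x m k / x m (i m) = x n k / x n (i n) := congrFun h2 k
  rw [Pi.smul_apply, smul_eq_mul]
  have h4 := hi n
  have h5 := hi m
  field_simp at h3 ⊢
  linear_combination -h3

variable [Algebra 𝕂 ℂ]

theorem nf_core {d e r : ℕ} (hd : 2 ≤ d)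
    (he : 1 ≤ e) (f : Fin (N + 1) → MvPolynomial (Fin (N + 1)) 𝕂)
    (hf : ∀ i, (f i).IsHomogeneous d)
    (hf0 : ∀ z : Fin (N + 1) → ℂ, (∀ i, aeval z (f i) = 0) → z = 0)
    (g A : MvPolynomial (Fin (N + 1)) 𝕂) (hg : g.IsHomogeneous e)
    (hA : A.IsHomogeneous (e * (d - 1))) (hgA : bind₁ f g = g * A)
    (hvis : ∀ z : Fin (N + 1) → ℂ, z ≠ 0 → aeval z g = 0 → ∀ P : Finset ℕ, P.card = r →
      ∃ t ∈ P, aeval ((pt fun i => map (algebraMap 𝕂 ℂ) (f i))^[t] z) A ≠ 0)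
    (x0 : Fin (N + 1) → 𝕂) (hx0 : x0 ≠ 0)
    (hnp : ∀ m n, m < n → ¬ ∃ c : 𝕂, c ≠ 0 ∧ (pt f)^[n] x0 = c • (pt f)^[m] x0)
    (S : Finset (nonarchAbsVal (K := 𝕂)))
    (hS : ∀ v : nonarchAbsVal (K := 𝕂), v ∉ S → ∀ n, v.val (eval ((pt f)^[n] x0) g) = 1 ∧
      mx v.val ((pt f)^[n] x0) = 1)
    (hg0 : ∀ n, eval ((pt f)^[n] x0) g ≠ 0) : False := by
  classical
  let l : List (AbsoluteValue 𝕂 ℝ) := (archAbsVal (K := 𝕂)).toList
  let J := Fin l.length ⊕ S
  let w : J → AbsoluteValue 𝕂 ℝ := Sum.elim (fun i => l[i.1]) (fun v => v.1.val)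
  have hprodF : ∀ φ : AbsoluteValue 𝕂 ℝ → ℝ, (∀ v : nonarchAbsVal (K := 𝕂), v ∉ S → φ v.val = 1) →
      ∏ j, φ (w j) = ((archAbsVal (K := 𝕂)).map φ).prod *
        ∏ᶠ v : nonarchAbsVal (K := 𝕂), φ v.val := by
    intro φ hφ
    rw [Fintype.prod_sum_type]
    congr 1
    · have h1 : ∏ i : Fin l.length, φ (w (Sum.inl i)) = ∏ i : Fin l.length, φ (l[i.1]) := rfl
      rw [h1, Fin.prod_univ_fun_getElem l φ]
      have h2 : (archAbsVal (K := 𝕂)) = (l : Multiset (AbsoluteValue 𝕂 ℝ)) :=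
        (Multiset.coe_toList _).symm
      rw [h2, Multiset.map_coe, Multiset.prod_coe]
    · rw [finprod_eq_prod_of_mulSupport_subset (s := S)]
      · exact Finset.prod_coe_sort S fun v => φ v.val
      · intro v hv
        by_contra hvS
        exact hv (hφ v hvS)
  have hxne : ∀ n, (pt f)^[n] x0 ≠ 0 := ne_zero_iter f hf0 x0 hx0
  -- the product formula
  have hprod : ∀ n, ∏ j, w j (eval ((pt f)^[n] x0) g) = 1 := by
    intro n
    rw [hprodF (fun v => v (eval ((pt f)^[n] x0) g)) fun v hv => (hS v hv n).1]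
    exact product_formula (hg0 n)
  -- the height
  have hheight : ∀ n, ∑ j, Real.log (mx (w j) ((pt f)^[n] x0)) =
      Real.log (mulHeight ((pt f)^[n] x0)) := by
    intro n
    rw [← Real.log_prod fun j _ => (mx_pos _ _ (hxne n)).ne']
    congr 1
    rw [hprodF (fun v => mx v ((pt f)^[n] x0)) fun v hv => (hS v hv n).2,
      Height.mulHeight_eq (hxne n)]
    rfl
  choose C hC0 hC using fun j => growth_local (w j) f hf hf0 x0 hx0
  have htend : Tendsto (fun n => ∑ j, Real.log (mx (w j) ((pt f)^[n] x0))) atTop atTop := by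
    refine tendsto_of_growth _ d hd (∑ j, C j) (Finset.sum_nonneg fun j _ => hC0 j)
      (fun n => ?_) (fun B => ?_)
    · rw [Finset.mul_sum, ← Finset.sum_sub_distrib]
      exact Finset.sum_le_sum fun j _ => hC j n
    · obtain ⟨n, hn⟩ := unbounded (fun n => (pt f)^[n] x0) hxne hnp B
      exact ⟨n, by rw [hheight]; exact hn⟩
  exact core w hd he f hf hf0 g A hg hA hgA hvis x0 hx0 hprod htend

end

end Pool.Agent.T6.H91.DML
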