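import Pool.Agent.T6.H91.DML.EmbA

set_option autoImplicit false

/-! Places of number fields and embeddings into the algebraic closure of `ℚ_p`. -/

namespace Pool.Agent.T6.H91.DML

open Polynomial Height NumberField Pool.Agent.H936R2 Pool.Agent.R847.Gap Pool.Agent.Y152.BD
open Height.AdmissibleAbsValues IsDedekindDomain

section

variable {𝕂 : Type} [Field 𝕂] [NumberField 𝕂]

lemma place_eq (v : nonarchAbsVal (K := 𝕂)) : ∃ w : HeightOneSpectrum (𝓞 𝕂),
    ∀ x : 𝕂, v.val x = ‖FinitePlace.embedding w x‖ := by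
  obtain ⟨w, hw⟩ := v.2
  refine ⟨w, fun x => ?_⟩
  rw [← hw]
  rfl

lemma place_nonarch (v : nonarchAbsVal (K := 𝕂)) : IsNonarchimedean v.val :=
  AdmissibleAbsValues.isNonarchimedean v.1 v.2

lemma place_integral_le (v : nonarchAbsVal (K := 𝕂)) {x : 𝕂} (hx : IsIntegral ℤ x) :
    v.val x ≤ 1 := by
  obtain ⟨w, hw⟩ := place_eq v
  rw [hw]
  exact FinitePlace.norm_le_one 𝕂 w (⟨x, hx⟩ : 𝓞 𝕂)

lemma place_int_le (v : nonarchAbsVal (K := 𝕂)) (z : ℤ) : v.val (z : 𝕂) ≤ 1 :=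
  place_integral_le v (isIntegral_intCast _)

/-- The elements of absolute value at most one. -/
def vring (v : nonarchAbsVal (K := 𝕂)) : Subring 𝕂 where
  carrier := {x | v.val x ≤ 1}
  zero_mem' := by simp
  one_mem' := by simp
  add_mem' := by
    intro a b ha hb
    simp only [Set.mem_ofPred_eq] at *
    exact (place_nonarch v a b).trans (max_le ha hb)
  mul_mem' := by
    intro a b ha hb
    simp only [Set.mem_ofPred_eq, map_mul] at *
    exact mul_le_one₀ ha (v.val.nonneg _) hb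
  neg_mem' := by
    intro a ha
    simp only [Set.mem_ofPred_eq] at *
    rwa [v.val.map_neg]

lemma mem_vring (v : nonarchAbsVal (K := 𝕂)) (x : 𝕂) : x ∈ vring v ↔ v.val x ≤ 1 := Iff.rfl

lemma place_aeval_le (v : nonarchAbsVal (K := 𝕂)) (G : ℤ[X]) (w : 𝕂) (hw : v.val w ≤ 1) :
    v.val (aeval w G) ≤ 1 := by
  rw [← mem_vring, aeval_eq_sum_range]
  refine Subring.sum_mem _ fun i _ => ?_
  rw [zsmul_eq_mul]
  exact (vring v).mul_mem (place_int_le v _) ((vring v).pow_mem hw i)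

lemma place_exists_prime (v : nonarchAbsVal (K := 𝕂)) :
    ∃ p : ℕ, p.Prime ∧ v.val (p : 𝕂) < 1 := by
  obtain ⟨w, hw⟩ := place_eq v
  have h0 : Ideal.absNorm w.asIdeal ≠ 0 := by
    rw [Ne, Ideal.absNorm_eq_zero_iff]
    exact w.ne_bot
  have h1 : v.val ((Ideal.absNorm w.asIdeal : ℕ) : 𝕂) < 1 := by
    have h2 : ((Ideal.absNorm w.asIdeal : ℕ) : 𝓞 𝕂) ∈ w.asIdeal := Ideal.absNorm_mem _
    have h3 := (FinitePlace.norm_lt_one_iff_mem 𝕂 w ((Ideal.absNorm w.asIdeal : ℕ) : 𝓞 𝕂)).2 h2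
    rw [hw]
    simpa using h3
  by_contra hcon
  push Not at hcon
  have key : ∀ n : ℕ, n ≠ 0 → 1 ≤ v.val (n : 𝕂) := by
    intro n
    induction n using Nat.recOnMul with
    | zero => exact fun h => absurd rfl h
    | one => intro _; simp
    | prime p hp => exact fun _ => hcon p hp
    | mul a b ha hb =>
      intro hab
      rw [Nat.cast_mul, map_mul]
      exact one_le_mul_of_one_le_of_one_le (ha (left_ne_zero_of_mul hab))
        (hb (right_ne_zero_of_mul hab))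
  exact absurd h1 (not_lt.2 (key _ h0))

lemma place_dvd (v : nonarchAbsVal (K := 𝕂)) {p : ℕ} (hp : p.Prime)
    (hvp : v.val (p : 𝕂) < 1) (G : ℤ[X]) (w : 𝕂) (hw : v.val w < 1)
    (hG : aeval w G = 0) : (p : ℤ) ∣ G.coeff 0 := by
  have h1 : ((G.coeff 0 : ℤ) : 𝕂) = -(w * aeval w G.divX) := by
    have h2 : aeval w (G.divX * X + C (G.coeff 0)) = 0 := by
      rw [divX_mul_X_add]
      exact hG
    rw [map_add, map_mul, aeval_X, aeval_C] at h2
    have h3 : algebraMap ℤ 𝕂 (G.coeff 0) = ((G.coeff 0 : ℤ) : 𝕂) := rfl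
    rw [h3] at h2
    linear_combination h2
  have h2 : v.val ((G.coeff 0 : ℤ) : 𝕂) < 1 := by
    rw [h1, AbsoluteValue.map_neg, map_mul]
    exact mul_lt_one_of_nonneg_of_lt_one_left (v.val.nonneg _) hw (place_aeval_le v _ w hw.le)
  by_contra hdvd
  have hpp : Prime (p : ℤ) := Nat.prime_iff_prime_int.1 hp
  obtain ⟨a, b, hab⟩ := (Irreducible.coprime_iff_not_dvd hpp.irreducible).2 hdvd
  have h3 : v.val (((a * p + b * G.coeff 0 : ℤ)) : 𝕂) < 1 := by
    push_cast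
    refine lt_of_le_of_lt (place_nonarch v _ _) (max_lt ?_ ?_)
    · rw [map_mul]
      exact mul_lt_one_of_nonneg_of_lt_one_right (place_int_le v a) (v.val.nonneg _) hvp
    · rw [map_mul]
      exact mul_lt_one_of_nonneg_of_lt_one_right (place_int_le v b) (v.val.nonneg _) h2
  rw [hab, Int.cast_one, map_one] at h3
  exact lt_irrefl _ h3

end

/-- An algebraic number is a zero of an irreducible integral polynomial. -/
lemma exists_irred (t : ℂ) (ht : IsAlgebraic ℚ t) : ∃ G : ℤ[X], Irreducible G ∧ aeval t G = 0 := by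
  obtain ⟨P, hP0, hPt⟩ := (IsFractionRing.isAlgebraic_iff ℤ ℚ ℂ).mpr ht
  obtain ⟨F, hF, hFP⟩ := WfDvdMonoid.exists_factors P hP0
  have h1 : aeval t F.prod = 0 := by
    obtain ⟨q, hq⟩ := hFP.symm.dvd
    obtain ⟨u, hu⟩ := hFP
    rw [← hu, map_mul] at hPt
    rcases mul_eq_zero.1 hPt with h | h
    · exact h
    · exfalso
      have h2 : IsUnit (aeval t (u : ℤ[X])) := u.isUnit.map (aeval t)
      exact h2.ne_zero h
  rw [map_multiset_prod, Multiset.prod_eq_zero_iff, Multiset.mem_map] at h1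
  obtain ⟨G, hGF, hG⟩ := h1
  exact ⟨G, hF G hGF, hG⟩

/-- Embeddings given by places of number fields. -/
theorem near_place (s : Finset ℂ) : ∃ D : ℕ, ∀ (𝕂 : Type) [Field 𝕂] [NumberField 𝕂] [Algebra 𝕂 ℂ]
    (v : nonarchAbsVal (K := 𝕂)), (∀ p : ℕ, p.Prime → p ≤ D → ¬ v.val (p : 𝕂) < 1) →
    ∀ h : 𝕂, v.val h < 1 → ∃ (p : ℕ) (_ : Fact p.Prime) (τ : ℂ →+* PadicAlgCl p),
        (∀ x ∈ s, ‖τ x‖ ≤ 1) ∧ ‖τ (algebraMap 𝕂 ℂ h)‖ < 1 := by
  obtain ⟨D, hD⟩ := emb_alg s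
  refine ⟨D, fun 𝕂 _ _ _ v hv h hh => ?_⟩
  have halg : IsAlgebraic ℚ (algebraMap 𝕂 ℂ h) := by
    have h1 : IsAlgebraic ℚ h := Algebra.IsAlgebraic.isAlgebraic h
    obtain ⟨P, hP0, hP⟩ := h1
    refine ⟨P, hP0, ?_⟩
    rw [aeval_algebraMap_apply, hP, map_zero]
  obtain ⟨G, hG, hGh⟩ := exists_irred _ halg
  obtain ⟨p, hp, hvp⟩ := place_exists_prime v
  have hlt : D < p := by
    by_contra h
    exact hv p hp (not_lt.1 h) hvp
  haveI : Fact p.Prime := ⟨hp⟩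
  have hGh' : aeval h G = 0 := by
    rw [aeval_algebraMap_apply] at hGh
    exact (map_eq_zero _).1 hGh
  have hdvd := place_dvd v hp hvp G h hh hGh'
  obtain ⟨τ, h1, h2⟩ := hD p hlt (algebraMap 𝕂 ℂ h) G hG hGh 0 (by
    intro h
    have h3 : p ∣ 1 := by simpa using h
    exact hp.one_lt.ne' (Nat.dvd_one.1 h3)) (by
    have h3 : Nv G 0 = G.coeff 0 := by
      rw [Nv, Finset.sum_range_succ']
      simp
    rw [h3]
    exact hdvd)
  refine ⟨p, ⟨hp⟩, τ, h1, ?_⟩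
  simpa using h2

/-- A transcendental number is mapped to a number of large norm by some embedding. -/
theorem exists_large (p : ℕ) [hp : Fact p.Prime] (y : ℂ) (hy : Transcendental ℚ y) :
    ∃ τ : ℂ →+* PadicAlgCl p, 1 < ‖τ y‖ := by
  have hp0 : ((p : ℕ) : ℂ) ≠ 0 := by exact_mod_cast hp.out.ne_zero
  have hy0 : y ≠ 0 := by
    rintro rfl
    exact hy isAlgebraic_zero
  have h1 : Transcendental ℚ (((p : ℂ) * y)⁻¹) := by
    intro h
    apply hy
    have h2 := h.inv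
    rw [inv_inv] at h2
    have h3 : y = ((p : ℂ)⁻¹) * ((p : ℂ) * y) := by
      rw [← mul_assoc, inv_mul_cancel₀ hp0, one_mul]
    rw [h3]
    refine IsAlgebraic.mul ?_ h2
    exact (isAlgebraic_algebraMap (R := ℚ) (A := ℂ) (p : ℚ)⁻¹ |> fun h4 => by simpa using h4)
  obtain ⟨τ, hτ⟩ := emb_indep p (fun _ : Fin 1 => ((p : ℂ) * y)⁻¹)
    ((algebraicIndependent_unique_type_iff).2 h1)
  refine ⟨τ, ?_⟩
  have h2 := hτ 0
  have h3 : (τ : ℂ →+* PadicAlgCl p) y = τ y := rfl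
  rw [h3]
  rw [map_inv₀, map_mul, map_natCast, norm_inv, norm_mul] at h2
  have hpn : ‖((p : ℕ) : PadicAlgCl p)‖ < 1 := norm_natCast_p_lt
  have hτy : 0 < ‖τ y‖ := norm_pos_iff.2 ((map_ne_zero τ).2 hy0)
  have hpp : 0 < ‖((p : ℕ) : PadicAlgCl p)‖ := by
    rw [norm_pos_iff]
    exact_mod_cast hp.out.ne_zero
  have h4 : 1 ≤ ‖((p : ℕ) : PadicAlgCl p)‖ * ‖τ y‖ := by
    rwa [inv_le_one₀ (mul_pos hpp hτy)] at h2
  nlinarith

end Pool.Agent.T6.H91.DML
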