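import Pool.Agent.T6.H91.DML.Chn
import Pool.Agent.T6.H91.DML.NF
import Pool.Agent.T6.H91.DML.Plc

set_option autoImplicit false

/-! Points with coordinates in a number field. -/

namespace Pool.Agent.T6.H91.DML

open MvPolynomial Pool.Agent.H936R2 Pool.Agent.R847.PC Height NumberField
open Height.AdmissibleAbsValues

section

variable {𝕂 : Type} [Field 𝕂] [Algebra 𝕂 ℂ] {N : ℕ}

lemma ext_iter (f : Fin (N + 1) → MvPolynomial (Fin (N + 1)) 𝕂) (x : Fin (N + 1) → 𝕂) (n : ℕ) :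
    (pt (ext f))^[n] (fun i => algebraMap 𝕂 ℂ (x i)) =
      fun i => algebraMap 𝕂 ℂ ((pt f)^[n] x i) :=
  pt_map (algebraMap 𝕂 ℂ) f x n

lemma ext_eval (f : Fin (N + 1) → MvPolynomial (Fin (N + 1)) 𝕂) (x : Fin (N + 1) → 𝕂) (n : ℕ)
    (g : MvPolynomial (Fin (N + 1)) 𝕂) :
    aeval ((pt (ext f))^[n] (fun i => algebraMap 𝕂 ℂ (x i))) g =
      algebraMap 𝕂 ℂ (eval ((pt f)^[n] x) g) := by
  rw [ext_iter]
  have h5 := aeval_algebraMap_apply (A := 𝕂) ℂ ((pt f)^[n] x) g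
  exact h5

variable [NumberField 𝕂]

omit [Algebra 𝕂 ℂ] in
lemma finite_bad (B : Finset 𝕂) : {v : nonarchAbsVal (K := 𝕂) | ∃ b ∈ B, 1 < v.val b}.Finite := by
  classical
  have h1 : {v : nonarchAbsVal (K := 𝕂) | ∃ b ∈ B, 1 < v.val b} ⊆
      ⋃ b ∈ B.filter (fun b => b ≠ 0), {v | v.val b ≠ 1} := by
    rintro v ⟨b, hb, hv⟩
    simp only [Set.mem_iUnion]
    refine ⟨b, Finset.mem_filter.2 ⟨hb, ?_⟩, hv.ne'⟩
    rintro rfl
    rw [map_zero] at hv
    exact absurd hv (not_lt.2 zero_le_one)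
  refine Set.Finite.subset ?_ h1
  refine Set.Finite.biUnion (Finset.finite_toSet _) fun b hb => ?_
  exact hasFiniteMulSupport (Finset.mem_filter.1 (Finset.mem_coe.1 hb)).2

omit [Algebra 𝕂 ℂ] in
lemma finite_bad' (D : ℕ) :
    {v : nonarchAbsVal (K := 𝕂) | ∃ p : ℕ, p.Prime ∧ p ≤ D ∧ v.val (p : 𝕂) < 1}.Finite := by
  have h1 : {v : nonarchAbsVal (K := 𝕂) | ∃ p : ℕ, p.Prime ∧ p ≤ D ∧ v.val (p : 𝕂) < 1} ⊆
      ⋃ p ∈ (Finset.range (D + 1)).filter Nat.Prime, {v | v.val (p : 𝕂) ≠ 1} := by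
    rintro v ⟨p, hp, hpD, hv⟩
    simp only [Set.mem_iUnion]
    exact ⟨p, Finset.mem_filter.2 ⟨Finset.mem_range.2 (by omega), hp⟩, hv.ne⟩
  refine Set.Finite.subset ?_ h1
  refine Set.Finite.biUnion (Finset.finite_toSet _) fun p hp => ?_
  refine hasFiniteMulSupport ?_
  have h2 := (Finset.mem_filter.1 (Finset.mem_coe.1 hp)).2
  exact_mod_cast h2.ne_zero

omit [Algebra 𝕂 ℂ] [NumberField 𝕂] in
lemma iter_mem (R : Subring 𝕂) (f : Fin (N + 1) → MvPolynomial (Fin (N + 1)) 𝕂)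
    (hf : ∀ i κ, (f i).coeff κ ∈ R) (x : Fin (N + 1) → 𝕂) (hx : ∀ i, x i ∈ R) (n : ℕ) :
    ∀ i, (pt f)^[n] x i ∈ R := by
  induction n with
  | zero => exact hx
  | succ n ih =>
    intro i
    rw [Function.iterate_succ_apply']
    exact eval_mem_subring R _ ih _ (hf i)

/-- Dynamical Mordell-Lang for points with coordinates in a number field. -/
theorem Chn.alg_point {f : Fin (N + 1) → MvPolynomial (Fin (N + 1)) 𝕂}
    {g A : MvPolynomial (Fin (N + 1)) 𝕂} {k : ℕ}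
    {E : ℕ → Finset (MvPolynomial (Fin (N + 1)) 𝕂)} (h : Chn f g A k E) {d e : ℕ}
    (hd : 2 ≤ d) (he : 1 ≤ e)
    (hf : ∀ i, (f i).IsHomogeneous d) (hg : g.IsHomogeneous e)
    (hA : A.IsHomogeneous (e * (d - 1)))
    (x0 : Fin (N + 1) → 𝕂) (hx0 : x0 ≠ 0) :
    DmlAt (ext f) fun i => algebraMap 𝕂 ℂ (x0 i) := by
  classical
  by_contra hcon
  have hexthom : ∀ i, (ext f i).IsHomogeneous d := fun i => (hf i).map _
  obtain ⟨s, hs⟩ := h.step hf hg
  obtain ⟨i0, hi0⟩ := Function.ne_iff.1 hx0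
  have hi0' : x0 i0 ≠ 0 := hi0
  let B : Finset 𝕂 := s ∪ (Finset.univ.biUnion fun i => (f i).support.image fun κ => (f i).coeff κ) ∪
    (g.support.image fun κ => g.coeff κ) ∪ Finset.univ.image x0 ∪ {(x0 i0)⁻¹}
  let sC : Finset ℂ := B.image (algebraMap 𝕂 ℂ)
  have hBs : ∀ x ∈ s, x ∈ B := fun x hx => by simp [B, hx]
  have hBf : ∀ i κ, κ ∈ (f i).support → (f i).coeff κ ∈ B := by
    intro i κ hκ
    simp only [B, Finset.mem_union, Finset.mem_biUnion, Finset.mem_univ, true_and]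
    exact Or.inl (Or.inl (Or.inl (Or.inr ⟨i, Finset.mem_image_of_mem _ hκ⟩)))
  have hBg : ∀ κ, κ ∈ g.support → g.coeff κ ∈ B := by
    intro κ hκ
    simp only [B, Finset.mem_union]
    exact Or.inl (Or.inl (Or.inr (Finset.mem_image_of_mem _ hκ)))
  have hBx : ∀ i, x0 i ∈ B := by
    intro i
    simp only [B, Finset.mem_union]
    exact Or.inl (Or.inr (Finset.mem_image_of_mem _ (Finset.mem_univ _)))
  have hBi : (x0 i0)⁻¹ ∈ B := by simp [B]
  -- embeddings which are near to the hypersurface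
  have hclaim : ∀ (p : ℕ) [Fact p.Prime] (τ : ℂ →+* PadicAlgCl p), (∀ x ∈ sC, ‖τ x‖ ≤ 1) →
      ∀ n, ¬ ‖τ (algebraMap 𝕂 ℂ (eval ((pt f)^[n] x0) g))‖ < 1 := by
    intro p hp τ hτ n hn
    have hτB : ∀ x ∈ B, ‖τ (algebraMap 𝕂 ℂ x)‖ ≤ 1 := fun x hx =>
      hτ _ (Finset.mem_image_of_mem _ hx)
    apply hcon
    apply hs p τ (fun x hx => hτB x (hBs x hx)) _ 1 one_ne_zero _ _ n
    · rw [one_pow, one_pow, one_mul, ext_eval]
      exact hn
    · intro i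
      rw [one_mul]
      exact hτB _ (hBx i)
    · refine ⟨i0, ?_⟩
      rw [one_mul]
      have h1 := hτB _ (hBx i0)
      have h2 := hτB _ hBi
      have h3 : ‖τ (algebraMap 𝕂 ℂ (x0 i0))‖ * ‖τ (algebraMap 𝕂 ℂ (x0 i0)⁻¹)‖ = 1 := by
        rw [← norm_mul, ← map_mul, ← map_mul, mul_inv_cancel₀ hi0', map_one, map_one, norm_one]
      have h4 := norm_nonneg (τ (algebraMap 𝕂 ℂ (x0 i0)))
      nlinarith
  -- not preperiodic
  have hnp : ∀ m n, m < n → ¬ ∃ c : 𝕂, c ≠ 0 ∧ (pt f)^[n] x0 = c • (pt f)^[m] x0 := by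
    rintro m n hmn ⟨c, hc, hcn⟩
    apply hcon
    obtain ⟨l, rfl⟩ := Nat.exists_eq_add_of_le hmn.le
    refine dml_of_preperiodic (ext f) hexthom _ m l (by omega) (algebraMap 𝕂 ℂ c)
      ((map_ne_zero _).2 hc) ?_
    rw [ext_iter, ext_iter, hcn]
    funext i
    simp only [Pi.smul_apply, smul_eq_mul, map_mul]
  -- not in the hypersurface
  have hg0 : ∀ n, eval ((pt f)^[n] x0) g ≠ 0 := by
    intro n h0
    obtain ⟨D, hD⟩ := emb_alg sC
    obtain ⟨p, hpD, hp⟩ := Nat.exists_infinite_primes (D + 1)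
    have : Fact p.Prime := ⟨hp⟩
    obtain ⟨τ, hτ, -⟩ := hD p (by omega) 0 Polynomial.X Polynomial.irreducible_X (by simp) 0 (by
      intro h
      have h3 : p ∣ 1 := by simpa using h
      exact hp.one_lt.ne' (Nat.dvd_one.1 h3)) (by
      simp [Pool.Agent.Y152.BD.Nv, Finset.sum_range_succ])
    refine hclaim p τ hτ n ?_
    rw [h0, map_zero, map_zero, norm_zero]
    exact one_pos
  obtain ⟨r, hr⟩ := h.visits
  obtain ⟨D, hD⟩ := near_place sC
  have hfin := (finite_bad B).union (finite_bad' (𝕂 := 𝕂) D)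
  refine nf_core hd he f hf h.hf0 g A hg hA h.hgA hr x0 hx0 hnp hfin.toFinset
    (fun v hv n => ?_) hg0
  rw [Set.Finite.mem_toFinset, Set.mem_union, not_or] at hv
  obtain ⟨hv1, hv2⟩ := hv
  have hvB : ∀ b ∈ B, v.val b ≤ 1 := by
    intro b hb
    by_contra hlt
    exact hv1 ⟨b, hb, not_le.1 hlt⟩
  have hcf : ∀ i κ, (f i).coeff κ ∈ vring v := by
    intro i κ
    by_cases hκ : κ ∈ (f i).support
    · exact hvB _ (hBf i κ hκ)
    · rw [notMem_support_iff.1 hκ]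
      exact (vring v).zero_mem
  have hcg : ∀ κ, g.coeff κ ∈ vring v := by
    intro κ
    by_cases hκ : κ ∈ g.support
    · exact hvB _ (hBg κ hκ)
    · rw [notMem_support_iff.1 hκ]
      exact (vring v).zero_mem
  have hxm : ∀ i, (pt f)^[n] x0 i ∈ vring v :=
    iter_mem (vring v) f hcf x0 (fun i => hvB _ (hBx i)) n
  have hgle : v.val (eval ((pt f)^[n] x0) g) ≤ 1 := eval_mem_subring (vring v) _ hxm _ hcg
  have hg1 : v.val (eval ((pt f)^[n] x0) g) = 1 := by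
    refine le_antisymm hgle (not_lt.1 fun hlt => ?_)
    obtain ⟨p, hp, τ, h1, h2⟩ := hD 𝕂 v (fun p hp hpD hlt => hv2 ⟨p, hp, hpD, hlt⟩) _ hlt
    exact hclaim p τ h1 n h2
  refine ⟨hg1, le_antisymm (mx_le hxm) ?_⟩
  by_contra hlt
  rw [not_le] at hlt
  have h1 := (place_nonarch v).eval_mvPolynomial_le hg ((pt f)^[n] x0)
  rw [hg1] at h1
  have h2 : (⨆ s : g.support, v.val (coeff s g)) ≤ 1 := by
    by_cases hne : Nonempty g.support
    · exact ciSup_le fun s => hcg s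
    · have := not_nonempty_iff.1 hne
      rw [Real.iSup_of_isEmpty]
      exact zero_le_one
  have h3 : (⨆ i, v.val ((pt f)^[n] x0 i)) ^ e < 1 := by
    refine pow_lt_one₀ (Real.iSup_nonneg fun i => v.val.nonneg _) hlt (by omega)
  have h4 : (0 : ℝ) ≤ (⨆ i, v.val ((pt f)^[n] x0 i)) ^ e :=
    pow_nonneg (Real.iSup_nonneg fun i => v.val.nonneg _) _
  nlinarith

end

end Pool.Agent.T6.H91.DML
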