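import Pool.Agent.R847.PC.Cert

set_option autoImplicit false

/-! Containments of closed sets defined over a field `𝕂` hold modulo almost all places
(adapted from `Pool.Agent.R847.PC.Cert`, where `𝕂 = ℂ`). -/

namespace Pool.Agent.T6.H91.DML

open MvPolynomial Pool.Agent.H936R2 Pool.Agent.R847.PC

section

variable {𝕂 : Type} [Field 𝕂]

/-- The polynomial has coefficients in `R`. -/
def IntK {ι : Type} (R : Subring 𝕂) (P : MvPolynomial ι 𝕂) : Prop :=
  ∃ Q : MvPolynomial ι R, map R.subtype Q = P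

lemma intK_of_coeff {ι : Type} (R : Subring 𝕂) (P : MvPolynomial ι 𝕂) (h : ∀ κ, P.coeff κ ∈ R) :
    IntK R P := by
  classical
  refine ⟨∑ κ ∈ P.support, monomial κ ⟨P.coeff κ, h κ⟩, ?_⟩
  rw [map_sum]
  conv_rhs => rw [P.as_sum]
  apply Finset.sum_congr rfl
  intro κ _
  rw [map_monomial]
  rfl

section

variable {ι : Type} {R : Subring 𝕂} {k : Type} [CommRing k] (ρ : R →+* k)

/-- The value at a point over `k` of a polynomial with coefficients in `R`. -/
noncomputable def evK (z : ι → k) (P : MvPolynomial ι 𝕂) : k := by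
  classical
  exact if h : IntK R P then eval₂ ρ z h.choose else 0

lemma evK_map (z : ι → k) (Q : MvPolynomial ι R) : evK ρ z (map R.subtype Q) = eval₂ ρ z Q := by
  have h : IntK R (map R.subtype Q) := ⟨Q, rfl⟩
  unfold evK
  rw [dif_pos h]
  congr 1
  apply map_injective R.subtype Subtype.val_injective
  exact h.choose_spec

end

variable [Algebra 𝕂 ℂ]

/-- The Nullstellensatz modulo almost all places. -/
lemma certK {ι : Type} [Finite ι] (I : Finset (MvPolynomial ι 𝕂)) (g : MvPolynomial ι 𝕂)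
    (h : ∀ z : ι → ℂ, (∀ P ∈ I, aeval z P = 0) → aeval z g = 0) :
    ∃ s : Finset 𝕂, ∀ (R : Subring 𝕂), (s : Set 𝕂) ⊆ R → (∀ P ∈ I, IntK R P) → IntK R g →
      ∀ (k : Type) [Field k] (ρ : R →+* k) (z : ι → k), (∀ P ∈ I, evK ρ z P = 0) →
        evK ρ z g = 0 := by
  classical
  have h1 : g ∈ (Ideal.span (I : Set (MvPolynomial ι 𝕂))).radical := by
    rw [← MvPolynomial.vanishingIdeal_zeroLocus_eq_radical (K := ℂ),
      MvPolynomial.mem_vanishingIdeal_iff]
    intro x hx
    rw [MvPolynomial.mem_zeroLocus_iff] at hx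
    exact h x fun P hP => hx P (Ideal.subset_span hP)
  obtain ⟨M, hM⟩ := h1
  obtain ⟨c, hc⟩ := (Submodule.mem_span_finset'.1 hM)
  refine ⟨Finset.univ.biUnion fun P : I => (c P).support.image fun κ => (c P).coeff κ,
    fun R hR hI hg k _ ρ z hz => ?_⟩
  have hcR : ∀ P, IntK R (c P) := by
    intro P
    apply intK_of_coeff
    intro κ
    by_cases hκ : κ ∈ (c P).support
    · apply hR
      simp only [Finset.coe_biUnion, Set.mem_iUnion]
      exact ⟨P, by simp, by
        simp only [Finset.coe_image, Set.mem_image]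
        exact ⟨κ, hκ, rfl⟩⟩
    · rw [notMem_support_iff.1 hκ]
      exact R.zero_mem
  obtain ⟨G, rfl⟩ := hg
  choose C hC using hcR
  have hI' : ∀ P : I, IntK R P.1 := fun P => hI _ P.2
  choose J hJ using hI'
  have heq : G ^ M = ∑ P : I, C P * J P := by
    apply map_injective R.subtype Subtype.val_injective
    rw [map_pow, ← hc, map_sum]
    refine Finset.sum_congr rfl fun P _ => ?_
    rw [map_mul, hC, hJ, smul_eq_mul]
  have h3 := congrArg (eval₂ ρ z) heq
  rw [eval₂_pow, eval₂_sum] at h3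
  have h4 : ∑ P : I, eval₂ ρ z (C P * J P) = 0 := by
    apply Finset.sum_eq_zero
    intro P _
    rw [eval₂_mul]
    have h5 := hz P.1 P.2
    rw [← hJ P, evK_map] at h5
    rw [h5, mul_zero]
  rw [evK_map]
  by_contra hne
  exact pow_ne_zero M hne (h3.trans h4)

/-- The Nullstellensatz modulo almost all places, for finitely many polynomials. -/
lemma certK_finset {ι : Type} [Finite ι] (I J : Finset (MvPolynomial ι 𝕂))
    (h : ∀ z : ι → ℂ, (∀ P ∈ I, aeval z P = 0) → ∀ g ∈ J, aeval z g = 0) :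
    ∃ s : Finset 𝕂, ∀ (R : Subring 𝕂), (s : Set 𝕂) ⊆ R → (∀ P ∈ I, IntK R P) →
      (∀ g ∈ J, IntK R g) → ∀ (k : Type) [Field k] (ρ : R →+* k) (z : ι → k),
        (∀ P ∈ I, evK ρ z P = 0) → ∀ g ∈ J, evK ρ z g = 0 := by
  classical
  have h1 : ∀ g : J, ∃ s : Finset 𝕂, ∀ (R : Subring 𝕂), (s : Set 𝕂) ⊆ R → (∀ P ∈ I, IntK R P) →
      IntK R g.1 → ∀ (k : Type) [Field k] (ρ : R →+* k) (z : ι → k), (∀ P ∈ I, evK ρ z P = 0) →
        evK ρ z g.1 = 0 := fun g => certK I g.1 fun z hz => h z hz g.1 g.2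
  choose s hs using h1
  refine ⟨Finset.univ.biUnion s, fun R hR hI hJ k _ ρ z hz g hg => ?_⟩
  refine hs ⟨g, hg⟩ R (fun x hx => hR ?_) hI (hJ g hg) k ρ z hz
  simp only [Finset.coe_biUnion, Set.mem_iUnion]
  exact ⟨⟨g, hg⟩, by simp, hx⟩

omit [Algebra 𝕂 ℂ] in
/-- The coefficients of finitely many polynomials. -/
lemma coeffsK_finset {ι : Type} (I : Finset (MvPolynomial ι 𝕂)) :
    ∃ s : Finset 𝕂, ∀ (R : Subring 𝕂), (s : Set 𝕂) ⊆ R → ∀ P ∈ I, IntK R P := by
  classical
  refine ⟨I.biUnion fun P => P.support.image fun κ => P.coeff κ, fun R hR P hP => ?_⟩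
  apply intK_of_coeff
  intro κ
  by_cases hκ : κ ∈ P.support
  · apply hR
    simp only [Finset.coe_biUnion, Set.mem_iUnion]
    exact ⟨P, hP, by
      simp only [Finset.coe_image, Set.mem_image]
      exact ⟨κ, hκ, rfl⟩⟩
  · rw [notMem_support_iff.1 hκ]
    exact R.zero_mem

end

section

variable {𝕂 : Type} [Field 𝕂] {ι : Type} [Fintype ι] [DecidableEq ι]

variable {R : Subring 𝕂} {k : Type} [CommRing k] (ρ : R →+* k)

omit [Fintype ι] [DecidableEq ι] in
/-- If `fR` lifts `f` then `ρ (fR)` is the reduction of `f`. -/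
lemma evK_pull (fR : ι → MvPolynomial ι R) (f : ι → MvPolynomial ι 𝕂)
    (hf : ∀ i, map R.subtype (fR i) = f i) (m : ℕ) (g : MvPolynomial ι 𝕂) (hg : IntK R g)
    (z : ι → k) : evK ρ z (pull f m g) = evK ρ ((pt fun i => map ρ (fR i))^[m] z) g := by
  obtain ⟨G, rfl⟩ := hg
  have hf' : f = fun i => map R.subtype (fR i) := funext fun i => (hf i).symm
  have h1 : pull f m (map R.subtype G) = map R.subtype (pull fR m G) := by
    unfold pull
    rw [map_bind₁, hf']
    congr 2
    funext i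
    exact (map_itp R.subtype fR m i).symm
  rw [h1, evK_map, evK_map, eval₂_eq_eval_map, eval₂_eq_eval_map, ← eval_pull]
  congr 1
  unfold pull
  rw [map_bind₁]
  congr 2
  funext i
  exact map_itp ρ fR m i

omit [Fintype ι] [DecidableEq ι] in
lemma intK_pull (fR : ι → MvPolynomial ι R) (f : ι → MvPolynomial ι 𝕂)
    (hf : ∀ i, map R.subtype (fR i) = f i) (m : ℕ) (g : MvPolynomial ι 𝕂) (hg : IntK R g) :
    IntK R (pull f m g) := by
  obtain ⟨G, rfl⟩ := hg
  have hf' : f = fun i => map R.subtype (fR i) := funext fun i => (hf i).symm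
  refine ⟨pull fR m G, ?_⟩
  unfold pull
  rw [map_bind₁, hf']
  congr 2
  funext i
  exact map_itp R.subtype fR m i

lemma evK_jdet (fR : ι → MvPolynomial ι R) (f : ι → MvPolynomial ι 𝕂)
    (hf : ∀ i, map R.subtype (fR i) = f i) (z : ι → k) :
    evK ρ z (jdet f) = (jac (fun i => map ρ (fR i)) z).det := by
  have hf' : f = fun i => map R.subtype (fR i) := funext fun i => (hf i).symm
  have h1 : jdet f = map R.subtype (jdet fR) := by
    rw [map_jdet, hf']
  rw [h1, evK_map, eval₂_eq_eval_map, map_jdet, eval_jdet]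

lemma intK_jdet (fR : ι → MvPolynomial ι R) (f : ι → MvPolynomial ι 𝕂)
    (hf : ∀ i, map R.subtype (fR i) = f i) : IntK R (jdet f) := by
  have hf' : f = fun i => map R.subtype (fR i) := funext fun i => (hf i).symm
  exact ⟨jdet fR, by rw [map_jdet, hf']⟩

end

end Pool.Agent.T6.H91.DML
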