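import Pool.Agent.T6.H91.DML.Cert
import Pool.Agent.H936R2.Crit2

set_option autoImplicit false

/-! Orbits which meet, modulo a place, an invariant hypersurface along which the map is strictly
critically finite are étale modulo this place from some time on. -/

namespace Pool.Agent.T6.H91.DML

open MvPolynomial Pool.Agent.H936R2 Pool.Agent.R847.PC

section

variable {𝕂 : Type} [Field 𝕂] [Algebra 𝕂 ℂ]

lemma aeval_eq_eval_map {ι : Type} (z : ι → ℂ) (P : MvPolynomial ι 𝕂) :
    aeval z P = eval z (map (algebraMap 𝕂 ℂ) P) := by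
  rw [eval_map, aeval_def]

lemma aeval_pull {ι : Type} (f : ι → MvPolynomial ι 𝕂) (m : ℕ) (g : MvPolynomial ι 𝕂)
    (z : ι → ℂ) :
    aeval z (pull f m g) = aeval ((pt fun i => map (algebraMap 𝕂 ℂ) (f i))^[m] z) g := by
  rw [aeval_eq_eval_map, aeval_eq_eval_map]
  have h1 : map (algebraMap 𝕂 ℂ) (pull f m g) =
      pull (fun i => map (algebraMap 𝕂 ℂ) (f i)) m (map (algebraMap 𝕂 ℂ) g) := by
    unfold pull
    rw [map_bind₁]
    congr 2
    funext i
    exact map_itp (algebraMap 𝕂 ℂ) f m i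
  rw [h1, eval_pull]

/-- The polynomials `X_j P`. -/
noncomputable def cone {N : ℕ} (E : Finset (MvPolynomial (Fin (N + 1)) 𝕂)) :
    Finset (MvPolynomial (Fin (N + 1)) 𝕂) := by
  classical
  exact E.biUnion fun P => Finset.univ.image fun j => X j * P

omit [Algebra 𝕂 ℂ] in
lemma mem_cone {N : ℕ} (E : Finset (MvPolynomial (Fin (N + 1)) 𝕂))
    (Q : MvPolynomial (Fin (N + 1)) 𝕂) : Q ∈ cone E ↔ ∃ P ∈ E, ∃ j, Q = X j * P := by
  classical
  unfold cone
  simp only [Finset.mem_biUnion, Finset.mem_image, Finset.mem_univ, true_and]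
  constructor
  · rintro ⟨P, hP, j, rfl⟩
    exact ⟨P, hP, j, rfl⟩
  · rintro ⟨P, hP, j, rfl⟩
    exact ⟨P, hP, j, rfl⟩

lemma cone_vanish {N : ℕ} (E : Finset (MvPolynomial (Fin (N + 1)) 𝕂)) (z : Fin (N + 1) → ℂ) :
    (∀ Q ∈ cone E, aeval z Q = 0) ↔ (z = 0 ∨ ∀ P ∈ E, aeval z P = 0) := by
  constructor
  · intro h
    by_cases hz : z = 0
    · exact Or.inl hz
    · right
      obtain ⟨j, hj⟩ := Function.ne_iff.1 hz
      intro P hP
      have h1 := h _ ((mem_cone E _).2 ⟨P, hP, j, rfl⟩)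
      rw [map_mul, aeval_X] at h1
      exact (mul_eq_zero.1 h1).resolve_left hj
  · rintro (rfl | h) Q hQ
    · obtain ⟨P, hP, j, rfl⟩ := (mem_cone E _).1 hQ
      rw [map_mul, aeval_X]
      simp
    · obtain ⟨P, hP, j, rfl⟩ := (mem_cone E _).1 hQ
      rw [map_mul, h P hP, mul_zero]

theorem chain_etale {N : ℕ} (f : Fin (N + 1) → MvPolynomial (Fin (N + 1)) 𝕂)
    (hf0 : ∀ z : Fin (N + 1) → ℂ, (∀ i, aeval z (f i) = 0) → z = 0)
    (hf1 : pt (fun i => map (algebraMap 𝕂 ℂ) (f i)) 0 = 0)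
    (g : MvPolynomial (Fin (N + 1)) 𝕂)
    (hg : ∀ z : Fin (N + 1) → ℂ, aeval z g = 0 →
      aeval (pt (fun i => map (algebraMap 𝕂 ℂ) (f i)) z) g = 0)
    (k : ℕ) (E : ℕ → Finset (MvPolynomial (Fin (N + 1)) 𝕂))
    (hE0 : ∀ z : Fin (N + 1) → ℂ, z ≠ 0 → aeval z g = 0 → ∀ P ∈ E 0, aeval z P = 0)
    (hinv : ∀ i ≤ k, ∀ z : Fin (N + 1) → ℂ, z ≠ 0 → (∀ P ∈ E i, aeval z P = 0) →
      ∀ P ∈ E i, aeval (pt (fun i => map (algebraMap 𝕂 ℂ) (f i)) z) P = 0)
    (hcrit : ∀ i < k, ∃ m : ℕ, ∀ z : Fin (N + 1) → ℂ, z ≠ 0 → (∀ P ∈ E i, aeval z P = 0) →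
      aeval z (jdet f) = 0 →
      ∀ P ∈ E (i + 1), aeval ((pt fun i => map (algebraMap 𝕂 ℂ) (f i))^[m] z) P = 0)
    (hEk : ∀ z : Fin (N + 1) → ℂ, z ≠ 0 → ∃ P ∈ E k, aeval z P ≠ 0) :
    ∃ s : Finset 𝕂, ∀ (p : ℕ) [Fact p.Prime] (τ : 𝕂 →+* PadicAlgCl p),
      (∀ x ∈ s, ‖τ x‖ ≤ 1) →
      ∀ (F : Fin (N + 1) → MvPolynomial (Fin (N + 1)) (unitBall (PadicAlgCl p))),
      (∀ i, map (unitBall (PadicAlgCl p)).subtype (F i) = map τ (f i)) →
      ∀ b : Fin (N + 1) → unitBall (PadicAlgCl p), (fun i => res (PadicAlgCl p) (b i)) ≠ 0 →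
      ∀ n0 : ℕ, ‖eval (fun i => (((pt F)^[n0] b i : unitBall (PadicAlgCl p)) : PadicAlgCl p))
        (map τ g)‖ < 1 →
      ∃ M : ℕ, ∀ n, M ≤ n → IsUnit (jac F ((pt F)^[n] b)).det := by
  classical
  choose! m hm using hcrit
  have hit0 : ∀ n, (pt fun i => map (algebraMap 𝕂 ℂ) (f i))^[n] 0 = 0 := by
    intro n
    induction n with
    | zero => rfl
    | succ n ih => rw [Function.iterate_succ_apply', ih, hf1]
  -- certificates
  obtain ⟨s0, hs0⟩ := certK_finset (ι := Fin (N + 1)) {g} (cone (E 0)) (by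
    intro z hz Q hQ
    have h1 := hz g (Finset.mem_singleton_self _)
    refine (cone_vanish (E 0) z).2 ?_ Q hQ
    by_cases h : z = 0
    · exact Or.inl h
    · exact Or.inr (hE0 z h h1))
  have hinv' : ∀ i, i ≤ k → ∃ s : Finset 𝕂, ∀ (R : Subring 𝕂), (s : Set 𝕂) ⊆ R →
      (∀ P ∈ cone (E i), IntK R P) → (∀ g ∈ (cone (E i)).image (pull f 1), IntK R g) →
      ∀ (k : Type) [Field k] (ρ : R →+* k) (z : Fin (N + 1) → k),
        (∀ P ∈ cone (E i), evK ρ z P = 0) →
        ∀ g ∈ (cone (E i)).image (pull f 1), evK ρ z g = 0 := by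
    intro i hik
    apply certK_finset
    intro z hz g hg
    obtain ⟨g', hg', rfl⟩ := Finset.mem_image.1 hg
    rw [aeval_pull, Function.iterate_one]
    refine (cone_vanish (E i) _).2 ?_ g' hg'
    rcases (cone_vanish (E i) z).1 hz with rfl | h
    · exact Or.inl hf1
    · by_cases h' : z = 0
      · subst h'
        exact Or.inl hf1
      · exact Or.inr (hinv i hik z h' h)
  choose! s1 hs1 using hinv'
  have hcrit' : ∀ i, i < k → ∃ s : Finset 𝕂, ∀ (R : Subring 𝕂), (s : Set 𝕂) ⊆ R →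
      (∀ P ∈ insert (jdet f) (cone (E i)), IntK R P) →
      (∀ g ∈ (cone (E (i + 1))).image (pull f (m i)), IntK R g) →
      ∀ (k : Type) [Field k] (ρ : R →+* k) (z : Fin (N + 1) → k),
        (∀ P ∈ insert (jdet f) (cone (E i)), evK ρ z P = 0) →
        ∀ g ∈ (cone (E (i + 1))).image (pull f (m i)), evK ρ z g = 0 := by
    intro i hik
    apply certK_finset
    intro z hz g hg
    obtain ⟨g', hg', rfl⟩ := Finset.mem_image.1 hg
    rw [aeval_pull]
    refine (cone_vanish (E (i + 1)) _).2 ?_ g' hg'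
    rcases (cone_vanish (E i) z).1 fun P hP => hz P (Finset.mem_insert_of_mem hP) with rfl | h
    · exact Or.inl (hit0 _)
    · by_cases h' : z = 0
      · subst h'
        exact Or.inl (hit0 _)
      · exact Or.inr (hm i hik z h' h (hz _ (Finset.mem_insert_self _ _)))
  choose! s2 hs2 using hcrit'
  obtain ⟨s3, hs3⟩ := certK_finset (ι := Fin (N + 1)) (cone (E k))
    (Finset.univ.image fun j => (X j : MvPolynomial (Fin (N + 1)) 𝕂)) (by
    intro z hz g hg
    obtain ⟨j, -, rfl⟩ := Finset.mem_image.1 hg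
    rw [aeval_X]
    rcases (cone_vanish (E k) z).1 hz with rfl | h
    · rfl
    · by_contra hne
      obtain ⟨P, hP, hPz⟩ := hEk z (fun h0 => hne (by rw [h0]; rfl))
      exact hPz (h P hP))
  obtain ⟨s4, hs4⟩ := certK_finset (ι := Fin (N + 1)) (Finset.univ.image f)
    (Finset.univ.image fun j => (X j : MvPolynomial (Fin (N + 1)) 𝕂)) (by
    intro z hz g hg
    obtain ⟨j, -, rfl⟩ := Finset.mem_image.1 hg
    rw [aeval_X, hf0 z fun i => hz _ (Finset.mem_image_of_mem _ (Finset.mem_univ _))]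
    rfl)
  obtain ⟨s5, hs5⟩ := certK_finset (ι := Fin (N + 1)) {g} {pull f 1 g} (by
    intro z hz g' hg'
    rw [Finset.mem_singleton.1 hg', aeval_pull, Function.iterate_one]
    exact hg z (hz g (Finset.mem_singleton_self _)))
  -- the coefficients
  obtain ⟨c1, hc1⟩ := coeffsK_finset (Finset.univ.image f)
  obtain ⟨c2, hc2⟩ := coeffsK_finset ((Finset.range (k + 1)).biUnion fun i => cone (E i))
  obtain ⟨c3, hc3⟩ := coeffsK_finset {g}
  let s : Finset 𝕂 := s0 ∪ (Finset.range (k + 1)).biUnion s1 ∪ (Finset.range (k + 1)).biUnion s2 ∪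
    s3 ∪ s4 ∪ s5 ∪ c1 ∪ c2 ∪ c3
  refine ⟨s, fun p hp τ hτ F hF b hb n0 hn0 => ?_⟩
  let R : Subring 𝕂 := (unitBall (PadicAlgCl p)).comap τ
  have hR : ∀ x ∈ s, x ∈ R := fun x hx => hτ x hx
  let σ : R →+* unitBall (PadicAlgCl p) :=
    { toFun := fun x => ⟨τ x.1, x.2⟩
      map_one' := by
        apply Subtype.ext
        exact map_one τ
      map_mul' := fun x y => by
        apply Subtype.ext
        exact map_mul τ x.1 y.1
      map_zero' := by
        apply Subtype.ext
        exact map_zero τ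
      map_add' := fun x y => by
        apply Subtype.ext
        exact map_add τ x.1 y.1 }
  have hσ : ∀ x : R, ((σ x : unitBall (PadicAlgCl p)) : PadicAlgCl p) = τ x.1 := fun x => rfl
  let ρ : R →+* ResF (PadicAlgCl p) := (res (PadicAlgCl p)).comp σ
  have hsub : ∀ t : Finset 𝕂, t ⊆ s → (t : Set 𝕂) ⊆ R := fun t ht x hx => hR x (ht hx)
  have hs0R := hsub s0 (fun x hx => by simp [s, hx])
  have hs3R := hsub s3 (fun x hx => by simp [s, hx])
  have hs4R := hsub s4 (fun x hx => by simp [s, hx])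
  have hs5R := hsub s5 (fun x hx => by simp [s, hx])
  have hc1R := hsub c1 (fun x hx => by simp [s, hx])
  have hc2R := hsub c2 (fun x hx => by simp [s, hx])
  have hc3R := hsub c3 (fun x hx => by simp [s, hx])
  have hs1R : ∀ i, i ≤ k → (s1 i : Set 𝕂) ⊆ R := by
    intro i hi
    apply hsub
    intro x hx
    have : x ∈ (Finset.range (k + 1)).biUnion s1 :=
      Finset.mem_biUnion.2 ⟨i, Finset.mem_range.2 (by omega), hx⟩
    simp only [s, Finset.mem_union]
    tauto
  have hs2R : ∀ i, i ≤ k → (s2 i : Set 𝕂) ⊆ R := by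
    intro i hi
    apply hsub
    intro x hx
    have : x ∈ (Finset.range (k + 1)).biUnion s2 :=
      Finset.mem_biUnion.2 ⟨i, Finset.mem_range.2 (by omega), hx⟩
    simp only [s, Finset.mem_union]
    tauto
  have hfInt : ∀ i, IntK R (f i) := fun i =>
    hc1 R hc1R _ (Finset.mem_image_of_mem _ (Finset.mem_univ _))
  have hEInt : ∀ i, i ≤ k → ∀ g ∈ cone (E i), IntK R g := fun i hi g hg =>
    hc2 R hc2R _ (Finset.mem_biUnion.2 ⟨i, Finset.mem_range.2 (by omega), hg⟩)
  have hgInt : IntK R g := hc3 R hc3R g (Finset.mem_singleton_self _)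
  have hXInt : ∀ g ∈ Finset.univ.image fun j => (X j : MvPolynomial (Fin (N + 1)) 𝕂),
      IntK R g := by
    intro g hg
    obtain ⟨j, -, rfl⟩ := Finset.mem_image.1 hg
    exact ⟨X j, map_X _ _⟩
  choose fR hfR using hfInt
  -- `F` is the reduction of `fR`
  have hFfR : F = fun i => map σ (fR i) := by
    funext i
    apply map_injective (unitBall (PadicAlgCl p)).subtype Subtype.val_injective
    rw [hF i, ← hfR i, map_map, map_map]
    congr 1
  -- the residue orbit
  let zb : ℕ → Fin (N + 1) → ResF (PadicAlgCl p) := fun n i => res _ ((pt F)^[n] b i)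
  have hFb : (fun i => map (res (PadicAlgCl p)) (F i)) = fun i => map ρ (fR i) := by
    funext i
    rw [hFfR]
    simp only
    rw [map_map]
  have hzb : ∀ n l, (pt fun i => map ρ (fR i))^[l] (zb n) = zb (n + l) := by
    intro n l
    rw [← hFb]
    have h1 := pt_map (res (PadicAlgCl p)) F ((pt F)^[n] b) l
    change (pt _)^[l] (zb n) = _ at h1
    rw [h1]
    funext i
    change _ = res _ ((pt F)^[n + l] b i)
    rw [← Function.iterate_add_apply, Nat.add_comm l n]
  -- no zeros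
  have hevX : ∀ (z : Fin (N + 1) → ResF (PadicAlgCl p)) j,
      evK ρ z (X j : MvPolynomial (Fin (N + 1)) 𝕂) = z j := by
    intro z j
    have h1 : (X j : MvPolynomial (Fin (N + 1)) 𝕂) = map R.subtype (X j) := (map_X _ _).symm
    rw [h1, evK_map, eval₂_X]
  have hno : ∀ z : Fin (N + 1) → ResF (PadicAlgCl p), pt (fun i => map ρ (fR i)) z = 0 →
      z = 0 := by
    intro z hz
    funext j
    rw [← hevX z j]
    refine hs4 R hs4R (fun P hP => hc1 R hc1R P hP) hXInt _ ρ z (fun P hP => ?_) _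
      (Finset.mem_image_of_mem _ (Finset.mem_univ _))
    obtain ⟨i, -, rfl⟩ := Finset.mem_image.1 hP
    rw [← hfR i, evK_map, eval₂_eq_eval_map]
    exact congrFun hz i
  have hne : ∀ n, zb n ≠ 0 := by
    intro n
    induction n with
    | zero => exact hb
    | succ n ih =>
      intro h
      apply ih
      apply hno
      have h1 := hzb n 1
      rw [Function.iterate_one] at h1
      rw [h1]
      exact h
  -- the steps
  have hstE : ∀ n, evK ρ (zb n) g = 0 → ∀ l, evK ρ (zb (n + l)) g = 0 := by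
    intro n hn l
    induction l with
    | zero => exact hn
    | succ l ih =>
      have h1 := hs5 R hs5R (fun P hP => by rw [Finset.mem_singleton.1 hP]; exact hgInt)
        (fun P hP => by
          rw [Finset.mem_singleton.1 hP]
          exact intK_pull fR f hfR 1 g hgInt) _ ρ (zb (n + l)) (fun P hP => by
          rw [Finset.mem_singleton.1 hP]
          exact ih) _ (Finset.mem_singleton_self _)
      rw [evK_pull ρ fR f hfR 1 g hgInt, hzb] at h1
      exact h1
  have hst1 : ∀ i, i ≤ k → ∀ n, (∀ P ∈ cone (E i), evK ρ (zb n) P = 0) →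
      ∀ P ∈ cone (E i), evK ρ (zb (n + 1)) P = 0 := by
    intro i hi n hn P hP
    have h1 := hs1 i hi R (hs1R i hi) (hEInt i hi) (fun g hg => by
      obtain ⟨g', hg', rfl⟩ := Finset.mem_image.1 hg
      exact intK_pull fR f hfR 1 g' (hEInt i hi g' hg')) _ ρ (zb n) hn (pull f 1 P)
      (Finset.mem_image_of_mem _ hP)
    rw [evK_pull ρ fR f hfR 1 P (hEInt i hi P hP), hzb] at h1
    exact h1
  have hst1' : ∀ i, i ≤ k → ∀ n, (∀ P ∈ cone (E i), evK ρ (zb n) P = 0) →
      ∀ l, ∀ P ∈ cone (E i), evK ρ (zb (n + l)) P = 0 := by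
    intro i hi n hn l
    induction l with
    | zero => exact hn
    | succ l ih => exact hst1 i hi (n + l) ih
  have hst2 : ∀ i, i < k → ∀ n, (∀ P ∈ cone (E i), evK ρ (zb n) P = 0) →
      evK ρ (zb n) (jdet f) = 0 → ∀ P ∈ cone (E (i + 1)), evK ρ (zb (n + m i)) P = 0 := by
    intro i hi n hn hJ P hP
    have h1 := hs2 i hi R (hs2R i hi.le) (fun g hg => by
      rcases Finset.mem_insert.1 hg with rfl | hg
      · exact intK_jdet fR f hfR
      · exact hEInt i hi.le g hg) (fun g hg => by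
      obtain ⟨g', hg', rfl⟩ := Finset.mem_image.1 hg
      exact intK_pull fR f hfR (m i) g' (hEInt (i + 1) hi g' hg')) _ ρ (zb n) (fun P hP => by
      rcases Finset.mem_insert.1 hP with rfl | hP
      · exact hJ
      · exact hn P hP) (pull f (m i) P) (Finset.mem_image_of_mem _ hP)
    rw [evK_pull ρ fR f hfR (m i) P (hEInt (i + 1) hi P hP), hzb] at h1
    exact h1
  -- the start
  have hstart : evK ρ (zb n0) g = 0 := by
    obtain ⟨G, hG⟩ := hgInt
    rw [← hG, evK_map]
    have h1 : eval₂ ρ (zb n0) G = res (PadicAlgCl p) (eval₂ σ ((pt F)^[n0] b) G) := by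
      have h2 := eval₂_comp_left (res (PadicAlgCl p)) σ ((pt F)^[n0] b) G
      exact h2.symm
    rw [h1, res_eq_zero_iff]
    have h3 : ((eval₂ σ ((pt F)^[n0] b) G : unitBall (PadicAlgCl p)) : PadicAlgCl p) =
        eval (fun i => (((pt F)^[n0] b i : unitBall (PadicAlgCl p)) : PadicAlgCl p))
        (map τ g) := by
      have h4 := eval₂_comp_left (unitBall (PadicAlgCl p)).subtype σ ((pt F)^[n0] b) G
      have h5 : (unitBall (PadicAlgCl p)).subtype (eval₂ σ ((pt F)^[n0] b) G) =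
        ((eval₂ σ ((pt F)^[n0] b) G : unitBall (PadicAlgCl p)) : PadicAlgCl p) := rfl
      rw [← h5, h4, ← hG, eval_map, eval₂_map]
      rfl
    rw [h3]
    exact hn0
  -- periodicity
  obtain ⟨M, q, hq, hper⟩ := res_orbit_periodic p F b
  have hper1 : ∀ n, M ≤ n → zb (n + q) = zb n := by
    intro n hn
    have h1 := hper n hn
    rw [hFb] at h1
    change (pt fun i => map ρ (fR i))^[q] (zb n) = zb n at h1
    rw [hzb] at h1
    exact h1
  have hper2 : ∀ n, M ≤ n → ∀ l, zb (n + l * q) = zb n := by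
    intro n hn l
    induction l with
    | zero => simp
    | succ l ih =>
      have h1 := hper1 (n + l * q) (by omega)
      rw [← ih, ← h1]
      congr 1
      ring
  refine ⟨M + n0, fun n hn => ?_⟩
  by_contra hnu
  have hres : res (PadicAlgCl p) (jac F ((pt F)^[n] b)).det = 0 := by
    by_contra hne
    exact hnu (isUnit_of_res_ne_zero _ hne)
  have hJ : evK ρ (zb n) (jdet f) = 0 := by
    rw [evK_jdet ρ fR f hfR, ← hFb]
    have h2 := jac_map (res (PadicAlgCl p)) F ((pt F)^[n] b)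
    change jac _ (zb n) = _ at h2
    rw [h2, ← RingHom.map_det, hres]
  have hall : ∀ i, i ≤ k → ∀ n', M + n0 ≤ n' → ∀ P ∈ cone (E i), evK ρ (zb n') P = 0 := by
    intro i
    induction i with
    | zero =>
      intro _ n' hn' P hP
      obtain ⟨l, rfl⟩ := Nat.exists_eq_add_of_le (show n0 ≤ n' by omega)
      exact hs0 R hs0R (fun P hP => by rw [Finset.mem_singleton.1 hP]; exact hgInt)
        (hEInt 0 (Nat.zero_le _)) _ ρ _ (fun P hP => by
          rw [Finset.mem_singleton.1 hP]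
          exact hstE n0 hstart l) P hP
    | succ i ih =>
      intro hik n' hn' P hP
      have h1 := hst2 i (by omega) n (ih (by omega) n hn) hJ
      have h2 := hst1' (i + 1) hik _ h1
      have h3 : n + m i ≤ n' + (n + m i) * q := by
        have : n + m i ≤ (n + m i) * q := Nat.le_mul_of_pos_right _ hq
        omega
      obtain ⟨l, hl⟩ := Nat.exists_eq_add_of_le h3
      rw [← hper2 n' (by omega) (n + m i), hl]
      exact h2 l P hP
  have hk := hall k le_rfl n hn
  apply hne n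
  funext j
  rw [← hevX (zb n) j]
  exact hs3 R hs3R (hEInt k le_rfl) hXInt _ ρ (zb n) hk _
    (Finset.mem_image_of_mem _ (Finset.mem_univ _))

end

end Pool.Agent.T6.H91.DML
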