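import Pool.Agent.T6.H91.DML.Dml

set_option autoImplicit false

/-! Chains of closed sets over a field; the étale step. -/

namespace Pool.Agent.T6.H91.DML

open MvPolynomial Pool.Agent.H936R2 Pool.Agent.R847.PC

section

variable {𝕂 : Type} [Field 𝕂] [Algebra 𝕂 ℂ] {N : ℕ}

/-- `f` with coefficients extended to `ℂ`. -/
noncomputable def ext (f : Fin (N + 1) → MvPolynomial (Fin (N + 1)) 𝕂) :
    Fin (N + 1) → MvPolynomial (Fin (N + 1)) ℂ := fun i => map (algebraMap 𝕂 ℂ) (f i)

/-- The data of a map which is strictly critically finite along an invariant hypersurface. -/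
structure Chn (f : Fin (N + 1) → MvPolynomial (Fin (N + 1)) 𝕂)
    (g A : MvPolynomial (Fin (N + 1)) 𝕂) (k : ℕ)
    (E : ℕ → Finset (MvPolynomial (Fin (N + 1)) 𝕂)) : Prop where
  hf0 : ∀ z : Fin (N + 1) → ℂ, (∀ i, aeval z (f i) = 0) → z = 0
  hf1 : pt (ext f) 0 = 0
  hgA : bind₁ f g = g * A
  hE0 : ∀ z : Fin (N + 1) → ℂ, z ≠ 0 → aeval z g = 0 → ∀ P ∈ E 0, aeval z P = 0
  hinv : ∀ i ≤ k, ∀ z : Fin (N + 1) → ℂ, z ≠ 0 → (∀ P ∈ E i, aeval z P = 0) →
      ∀ P ∈ E i, aeval (pt (ext f) z) P = 0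
  hcrit : ∀ i < k, ∃ m : ℕ, ∀ z : Fin (N + 1) → ℂ, z ≠ 0 → (∀ P ∈ E i, aeval z P = 0) →
      (aeval z (jdet f) = 0 ∨ aeval z A = 0) →
      ∀ P ∈ E (i + 1), aeval ((pt (ext f))^[m] z) P = 0
  hEk : ∀ z : Fin (N + 1) → ℂ, z ≠ 0 → ∃ P ∈ E k, aeval z P ≠ 0

lemma Chn.inv {f : Fin (N + 1) → MvPolynomial (Fin (N + 1)) 𝕂}
    {g A : MvPolynomial (Fin (N + 1)) 𝕂} {k : ℕ}
    {E : ℕ → Finset (MvPolynomial (Fin (N + 1)) 𝕂)} (h : Chn f g A k E) :
    ∀ z : Fin (N + 1) → ℂ, aeval z g = 0 → aeval (pt (ext f) z) g = 0 := by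
  intro z hz
  have h1 := aeval_pull f 1 g z
  rw [Function.iterate_one] at h1
  change _ = aeval (pt (ext f) z) g at h1
  rw [← h1]
  have h2 : pull f 1 g = bind₁ f g := by
    unfold pull
    congr 2
    funext i
    change bind₁ (itp f 0) (f i) = f i
    have h3 : itp f 0 = (X : Fin (N + 1) → MvPolynomial (Fin (N + 1)) 𝕂) := rfl
    rw [h3]
    exact aeval_X_left_apply (f i)
  rw [h2, h.hgA, map_mul, hz, zero_mul]

lemma Chn.ne_zero {f : Fin (N + 1) → MvPolynomial (Fin (N + 1)) 𝕂}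
    {g A : MvPolynomial (Fin (N + 1)) 𝕂} {k : ℕ}
    {E : ℕ → Finset (MvPolynomial (Fin (N + 1)) 𝕂)} (h : Chn f g A k E)
    (z : Fin (N + 1) → ℂ) (hz : z ≠ 0) (n : ℕ) : (pt (ext f))^[n] z ≠ 0 := by
  induction n with
  | zero => exact hz
  | succ n ih =>
    rw [Function.iterate_succ_apply']
    intro h0
    apply ih
    apply h.hf0
    intro i
    rw [aeval_eq_eval_map]
    exact congrFun h0 i

/-- The number of visits to `A = 0` of an orbit in `g = 0` is bounded. -/
lemma Chn.visits {f : Fin (N + 1) → MvPolynomial (Fin (N + 1)) 𝕂}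
    {g A : MvPolynomial (Fin (N + 1)) 𝕂} {k : ℕ}
    {E : ℕ → Finset (MvPolynomial (Fin (N + 1)) 𝕂)} (h : Chn f g A k E) :
    ∃ r : ℕ, ∀ z : Fin (N + 1) → ℂ, z ≠ 0 → aeval z g = 0 → ∀ P : Finset ℕ, P.card = r →
      ∃ t ∈ P, aeval ((pt (ext f))^[t] z) A ≠ 0 := by
  classical
  have key : ∀ j, j ≤ k → ∃ M : ℕ, ∀ z : Fin (N + 1) → ℂ, z ≠ 0 →
      (∀ P ∈ E (k - j), aeval z P = 0) → ∀ T : Finset ℕ,
      (∀ t ∈ T, aeval ((pt (ext f))^[t] z) A = 0) → T.card ≤ M := by
    intro j
    induction j with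
    | zero =>
      intro _
      refine ⟨0, fun z hz hE => ?_⟩
      obtain ⟨P, hP, hPz⟩ := h.hEk z hz
      exact absurd (hE P hP) hPz
    | succ j ih =>
      intro hj
      obtain ⟨M, hM⟩ := ih (by omega)
      obtain ⟨m, hm⟩ := h.hcrit (k - (j + 1)) (by omega)
      have hsub : k - (j + 1) + 1 = k - j := by omega
      rw [hsub] at hm
      refine ⟨m + M, fun z hz hE T hT => ?_⟩
      rcases T.eq_empty_or_nonempty with rfl | hne
      · simp
      · set n := T.min' hne with hn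
        have hnT : n ∈ T := T.min'_mem hne
        have hit : ∀ l, ∀ P ∈ E (k - (j + 1)), aeval ((pt (ext f))^[l] z) P = 0 := by
          intro l
          induction l with
          | zero => exact hE
          | succ l ihl =>
            rw [Function.iterate_succ_apply']
            exact h.hinv _ (by omega) _ (h.ne_zero z hz l) ihl
        have h1 := hm ((pt (ext f))^[n] z) (h.ne_zero z hz n) (hit n) (Or.inr (hT n hnT))
        rw [← Function.iterate_add_apply] at h1
        have h2 := hM ((pt (ext f))^[m + n] z) (h.ne_zero z hz _) h1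
          ((T.filter fun t => m + n ≤ t).image fun t => t - (m + n)) (by
            intro t ht
            obtain ⟨t', ht', rfl⟩ := Finset.mem_image.1 ht
            rw [Finset.mem_filter] at ht'
            rw [← Function.iterate_add_apply, Nat.sub_add_cancel ht'.2]
            exact hT t' ht'.1)
        rw [Finset.card_image_of_injOn] at h2
        · have h3 : (T.filter fun t => ¬ m + n ≤ t).card ≤ m := by
            have h4 : (T.filter fun t => ¬ m + n ≤ t) ⊆ Finset.Ico n (m + n) := by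
              intro t ht
              rw [Finset.mem_filter] at ht
              rw [Finset.mem_Ico]
              exact ⟨T.min'_le t ht.1, not_le.1 ht.2⟩
            have h5 := Finset.card_le_card h4
            rw [Nat.card_Ico] at h5
            omega
          have h6 := Finset.card_filter_add_card_filter_not (s := T) (fun t => m + n ≤ t)
          omega
        · intro a ha b hb hab
          have ha' := (Finset.mem_filter.1 (Finset.mem_coe.1 ha)).2
          have hb' := (Finset.mem_filter.1 (Finset.mem_coe.1 hb)).2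
          simp only at hab
          omega
  obtain ⟨M, hM⟩ := key k le_rfl
  rw [Nat.sub_self] at hM
  refine ⟨M + 1, fun z hz hg P hP => ?_⟩
  by_contra hno
  push Not at hno
  have h1 := hM z hz (h.hE0 z hz hg) P hno
  omega

omit [Algebra 𝕂 ℂ] in
/-- Lifting a polynomial with integral coefficients. -/
theorem exists_liftK {p : ℕ} [Fact p.Prime] {ι : Type} (τ : 𝕂 →+* PadicAlgCl p)
    (f : MvPolynomial ι 𝕂) (hf : ∀ κ, ‖τ (f.coeff κ)‖ ≤ 1) :
    ∃ g : MvPolynomial ι (unitBall (PadicAlgCl p)),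
      map (unitBall (PadicAlgCl p)).subtype g = map τ f := by
  have h : map τ f ∈ Set.range (map (σ := ι) (unitBall (PadicAlgCl p)).subtype) := by
    rw [mem_range_map_iff_coeffs_subset]
    intro c hc
    rw [Finset.mem_coe, mem_coeffs_iff] at hc
    obtain ⟨κ, -, rfl⟩ := hc
    rw [coeff_map]
    exact ⟨⟨τ (f.coeff κ), hf κ⟩, rfl⟩
  exact h

/-- If the orbit of `α` meets `g = 0` modulo a suitable place then the return sets of `α` are finite
unions of progressions. -/
theorem Chn.step {f : Fin (N + 1) → MvPolynomial (Fin (N + 1)) 𝕂}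
    {g A : MvPolynomial (Fin (N + 1)) 𝕂} {k : ℕ}
    {E : ℕ → Finset (MvPolynomial (Fin (N + 1)) 𝕂)} (h : Chn f g A k E) {d e : ℕ}
    (hf : ∀ i, (f i).IsHomogeneous d) (hg : g.IsHomogeneous e) :
    ∃ s : Finset 𝕂, ∀ (p : ℕ) [Fact p.Prime] (τ : ℂ →+* PadicAlgCl p),
      (∀ x ∈ s, ‖τ (algebraMap 𝕂 ℂ x)‖ ≤ 1) →
      ∀ (α : Fin (N + 1) → ℂ) (c : PadicAlgCl p), c ≠ 0 → (∀ i, ‖c * τ (α i)‖ ≤ 1) →
      (∃ i, ‖c * τ (α i)‖ = 1) → ∀ n0 : ℕ,
      ‖(c ^ d ^ n0) ^ e * τ (aeval ((pt (ext f))^[n0] α) g)‖ < 1 → DmlAt (ext f) α := by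
  classical
  obtain ⟨s, hs⟩ := chain_etale f h.hf0 h.hf1 g h.inv k E h.hE0 h.hinv (fun i hi => by
    obtain ⟨m, hm⟩ := h.hcrit i hi
    exact ⟨m, fun z hz hE hj => hm z hz hE (Or.inl hj)⟩) h.hEk
  refine ⟨s ∪ Finset.univ.biUnion fun i => (f i).support.image fun κ => (f i).coeff κ,
    fun p hp τ hτ α c hc hα hα1 n0 hn0 => ?_⟩
  let τ' : 𝕂 →+* PadicAlgCl p := τ.comp (algebraMap 𝕂 ℂ)
  have hcoef : ∀ i κ, ‖τ' ((f i).coeff κ)‖ ≤ 1 := by
    intro i κ
    by_cases hκ : κ ∈ (f i).support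
    · apply hτ
      rw [Finset.mem_union]
      right
      simp only [Finset.mem_biUnion, Finset.mem_univ, true_and]
      exact ⟨i, Finset.mem_image_of_mem _ hκ⟩
    · rw [notMem_support_iff.1 hκ, map_zero, norm_zero]
      exact zero_le_one
  choose F hF using fun i => exists_liftK τ' (f i) (hcoef i)
  let b : Fin (N + 1) → unitBall (PadicAlgCl p) := fun i => ⟨c * τ (α i), hα i⟩
  have hb : ∀ i, (b i : PadicAlgCl p) = c * τ (α i) := fun i => rfl
  have hbres : (fun i => res (PadicAlgCl p) (b i)) ≠ 0 := by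
    obtain ⟨i, hi⟩ := hα1
    intro h0
    have h1 : res (PadicAlgCl p) (b i) = 0 := congrFun h0 i
    rw [res_eq_zero_iff, hb, hi] at h1
    exact lt_irrefl _ h1
  have hF' : ∀ i, map (unitBall (PadicAlgCl p)).subtype (F i) = map τ (ext f i) := by
    intro i
    rw [hF i, ext, map_map]
  have hexthom : ∀ i, (ext f i).IsHomogeneous d := fun i => (hf i).map _
  have hFK : (fun i => map (unitBall (PadicAlgCl p)).subtype (F i)) = fun i => map τ (ext f i) :=
    funext hF'
  have hit : (fun i => (((pt F)^[n0] b i : unitBall (PadicAlgCl p)) : PadicAlgCl p)) =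
      fun i => c ^ d ^ n0 * τ ((pt (ext f))^[n0] α i) := by
    have e1 := pt_map (unitBall (PadicAlgCl p)).subtype F b n0
    have e2 := pt_map τ (ext f) α n0
    have e3 := iterate_scale (fun i => map τ (ext f i)) d (fun i => (hexthom i).map _) c
      (fun i => τ (α i)) n0
    have e4 : (fun i => (unitBall (PadicAlgCl p)).subtype (b i)) = fun i => c * τ (α i) :=
      _root_.funext hb
    rw [hFK, e4, e3] at e1
    rw [e2] at e1
    exact e1.symm
  have hn0' : ‖eval (fun i => (((pt F)^[n0] b i : unitBall (PadicAlgCl p)) : PadicAlgCl p))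
      (map τ' g)‖ < 1 := by
    rw [hit, eval_scale _ e (hg.map τ')]
    have e1 : eval (fun i => τ ((pt (ext f))^[n0] α i)) (map τ' g) =
        τ (aeval ((pt (ext f))^[n0] α) g) := by
      rw [eval_map, aeval_def]
      have h2 := eval₂_comp_left τ (algebraMap 𝕂 ℂ) ((pt (ext f))^[n0] α) g
      exact h2.symm
    rw [e1]
    exact hn0
  obtain ⟨M, hM⟩ := hs p τ' (fun x hx => hτ x (Finset.mem_union_left _ hx)) F hF b hbres n0 hn0'
  exact dml_of_unit (ext f) hexthom α τ F hF' c hc b hb M hM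

end

end Pool.Agent.T6.H91.DML
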