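import Pool.Agent.T6.H91.DML.Trans
import Pool.Agent.R847.QP.Lift

set_option autoImplicit false

/-! Endomorphisms with algebraic coefficients which are strictly critically finite along an invariant
hypersurface. -/

namespace Pool.Agent.T6.H91.DML

open MvPolynomial Pool.Agent.H936R2 Pool.Agent.R847.PC NumberField

/-- All coefficients are algebraic numbers. -/
def AlgCoeff {N : ℕ} (P : MvPolynomial (Fin (N + 1)) ℂ) : Prop := ∀ κ, IsAlgebraic ℚ (P.coeff κ)

lemma dmlAt_smul {N d : ℕ} (f : Fin (N + 1) → MvPolynomial (Fin (N + 1)) ℂ)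
    (hf : ∀ i, (f i).IsHomogeneous d) (c : ℂ) (hc : c ≠ 0) (α : Fin (N + 1) → ℂ)
    (h : DmlAt f α) : DmlAt f (c • α) := by
  intro S hS
  obtain ⟨T, hT⟩ := h S hS
  refine ⟨T, ?_⟩
  rw [← hT]
  ext n
  have h1 := iterate_scale f d hf c α n
  change (pt f)^[n] (c • α) = _ at h1
  simp only [Set.mem_ofPred_eq]
  have h3 : ∀ g ∈ S, (eval ((pt f)^[n] (c • α)) g = 0 ↔ eval ((pt f)^[n] α) g = 0) := by
    intro g hg
    obtain ⟨e, he⟩ := hS g hg
    have h4 := eval_scale g e he (c ^ d ^ n) ((pt f)^[n] α)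
    rw [h1, h4, mul_eq_zero]
    constructor
    · rintro (h | h)
      · exact absurd h (pow_ne_zero _ (pow_ne_zero _ hc))
      · exact h
    · exact Or.inr
  constructor
  · exact fun h g hg => (h3 g hg).1 (h g hg)
  · exact fun h g hg => (h3 g hg).2 (h g hg)

lemma dmlAt_zero {N d : ℕ} (hd : 1 ≤ d) (f : Fin (N + 1) → MvPolynomial (Fin (N + 1)) ℂ)
    (hf : ∀ i, (f i).IsHomogeneous d) : DmlAt f 0 := by
  refine dml_of_preperiodic f hf 0 0 1 one_pos 1 one_ne_zero ?_
  rw [one_smul]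
  change pt f 0 = 0
  funext i
  change eval 0 (f i) = 0
  have h1 := Pool.Agent.R847.QP.hom_scale (f i) d (hf i) 0 0
  rw [zero_smul, zero_pow (by omega), zero_mul] at h1
  exact h1

/-- Chains of closed sets with algebraic coefficients along an invariant hypersurface. -/
structure ChC {N : ℕ} (f : Fin (N + 1) → MvPolynomial (Fin (N + 1)) ℂ)
    (g A : MvPolynomial (Fin (N + 1)) ℂ) (k : ℕ)
    (D : ℕ → Set (MvPolynomial (Fin (N + 1)) ℂ)) : Prop where
  hgA : bind₁ f g = g * A
  alg : ∀ i ≤ k, ∀ P ∈ D i, AlgCoeff P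
  hE0 : ∀ z : Fin (N + 1) → ℂ, z ≠ 0 → eval z g = 0 → ∀ P ∈ D 0, eval z P = 0
  hinv : ∀ i ≤ k, ∀ z : Fin (N + 1) → ℂ, z ≠ 0 → (∀ P ∈ D i, eval z P = 0) →
      ∀ P ∈ D i, eval (pt f z) P = 0
  hcrit : ∀ i < k, ∃ m : ℕ, ∀ z : Fin (N + 1) → ℂ, z ≠ 0 → (∀ P ∈ D i, eval z P = 0) →
      ((jac f z).det = 0 ∨ eval z A = 0) →
      ∀ P ∈ D (i + 1), eval ((pt f)^[m] z) P = 0
  hEk : ∀ z : Fin (N + 1) → ℂ, z ≠ 0 → ∃ P ∈ D k, eval z P ≠ 0

theorem main {N d e : ℕ} (hd : 2 ≤ d) (he : 1 ≤ e)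
    (f : Fin (N + 1) → MvPolynomial (Fin (N + 1)) ℂ) (hf : ∀ i, (f i).IsHomogeneous d)
    (hfa : ∀ i, AlgCoeff (f i)) (hf0 : ∀ z : Fin (N + 1) → ℂ, (∀ i, eval z (f i) = 0) → z = 0)
    (g A : MvPolynomial (Fin (N + 1)) ℂ) (hg : g.IsHomogeneous e) (hga : AlgCoeff g)
    (hA : A.IsHomogeneous (e * (d - 1))) (hAa : AlgCoeff A) (k : ℕ)
    (D : ℕ → Set (MvPolynomial (Fin (N + 1)) ℂ)) (h : ChC f g A k D)
    (α : Fin (N + 1) → ℂ) : DmlAt f α := by
  classical
  by_cases hα : α = 0
  · rw [hα]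
    exact dmlAt_zero (by omega) f hf
  obtain ⟨i0, hi0'⟩ := Function.ne_iff.1 hα
  have hi0 : α i0 ≠ 0 := hi0'
  choose B hB hB' using fun i => Pool.Agent.R847.QP.finite_sub (D i)
  -- the finite set of algebraic numbers
  let β : Fin (N + 1) → ℂ := fun j => α j / α i0
  let T : Finset ℂ :=
    (Finset.univ.biUnion fun i => (f i).support.image fun κ => (f i).coeff κ) ∪
    (g.support.image fun κ => g.coeff κ) ∪ (A.support.image fun κ => A.coeff κ) ∪
    ((Finset.range (k + 1)).biUnion fun i => (B i).biUnion fun P =>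
      P.support.image fun κ => P.coeff κ) ∪
    (Finset.univ.image β).filter fun x => IsAlgebraic ℚ x
  have hTf : ∀ i κ, κ ∈ (f i).support → (f i).coeff κ ∈ T := by
    intro i κ hκ
    simp only [T, Finset.mem_union, Finset.mem_biUnion, Finset.mem_univ, true_and]
    exact Or.inl (Or.inl (Or.inl (Or.inl ⟨i, Finset.mem_image_of_mem _ hκ⟩)))
  have hTg : ∀ κ, κ ∈ g.support → g.coeff κ ∈ T := by
    intro κ hκ
    simp only [T, Finset.mem_union]
    exact Or.inl (Or.inl (Or.inl (Or.inr (Finset.mem_image_of_mem _ hκ))))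
  have hTA : ∀ κ, κ ∈ A.support → A.coeff κ ∈ T := by
    intro κ hκ
    simp only [T, Finset.mem_union]
    exact Or.inl (Or.inl (Or.inr (Finset.mem_image_of_mem _ hκ)))
  have hTB : ∀ i ≤ k, ∀ P ∈ B i, ∀ κ, κ ∈ P.support → P.coeff κ ∈ T := by
    intro i hi P hP κ hκ
    simp only [T, Finset.mem_union]
    refine Or.inl (Or.inr ?_)
    simp only [Finset.mem_biUnion, Finset.mem_range]
    exact ⟨i, by omega, P, hP, Finset.mem_image_of_mem _ hκ⟩
  have hTβ : ∀ j, IsAlgebraic ℚ (β j) → β j ∈ T := by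
    intro j hj
    simp only [T, Finset.mem_union]
    exact Or.inr (Finset.mem_filter.2 ⟨Finset.mem_image_of_mem _ (Finset.mem_univ _), hj⟩)
  have hTalg : ∀ x ∈ T, IsAlgebraic ℚ x := by
    intro x hx
    simp only [T, Finset.mem_union, Finset.mem_biUnion, Finset.mem_image, Finset.mem_univ,
      true_and, Finset.mem_range, Finset.mem_filter] at hx
    rcases hx with ((((⟨i, κ, -, rfl⟩ | ⟨κ, -, rfl⟩) | ⟨κ, -, rfl⟩) | ⟨i, hi, P, hP, κ, -, rfl⟩) |
      ⟨-, hx⟩)
    · exact hfa i κ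
    · exact hga κ
    · exact hAa κ
    · exact h.alg i (by omega) P (hB i hP) κ
    · exact hx
  let K : IntermediateField ℚ ℂ := IntermediateField.adjoin ℚ (T : Set ℂ)
  have hfd : FiniteDimensional ℚ K := IntermediateField.finiteDimensional_adjoin fun x hx =>
    (hTalg x hx).isIntegral
  have hnf : NumberField K := { to_charZero := inferInstance, to_finiteDimensional := hfd }
  have hTK : ∀ x ∈ T, x ∈ K := fun x hx => IntermediateField.subset_adjoin ℚ _ hx
  -- lifting polynomials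
  have hlift : ∀ P : MvPolynomial (Fin (N + 1)) ℂ, (∀ κ, κ ∈ P.support → P.coeff κ ∈ T) →
      ∃ Q : MvPolynomial (Fin (N + 1)) K, map (algebraMap K ℂ) Q = P := by
    intro P hP
    have h : P ∈ Set.range (map (σ := Fin (N + 1)) (algebraMap K ℂ)) := by
      rw [mem_range_map_iff_coeffs_subset]
      intro c hc
      rw [Finset.mem_coe, mem_coeffs_iff] at hc
      obtain ⟨κ, hκ, rfl⟩ := hc
      exact ⟨⟨P.coeff κ, hTK _ (hP κ hκ)⟩, rfl⟩
    exact h
  have hinj : Function.Injective (map (σ := Fin (N + 1)) (algebraMap K ℂ)) :=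
    map_injective _ (algebraMap K ℂ).injective
  have hhom : ∀ (Q : MvPolynomial (Fin (N + 1)) K) (e : ℕ),
      (map (algebraMap K ℂ) Q).IsHomogeneous e → Q.IsHomogeneous e := fun Q e hQ =>
    IsHomogeneous.of_map (algebraMap K ℂ).injective hQ
  choose f' hf' using fun i => hlift (f i) (hTf i)
  obtain ⟨g', hg'⟩ := hlift g hTg
  obtain ⟨A', hA'⟩ := hlift A hTA
  have hext : ext f' = f := funext hf'
  have hBl : ∀ i ≤ k, ∃ B'' : Finset (MvPolynomial (Fin (N + 1)) K),
      B''.image (map (algebraMap K ℂ)) = B i := by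
    intro i hi
    have h1 : ((B i : Finset (MvPolynomial (Fin (N + 1)) ℂ)) :
        Set (MvPolynomial (Fin (N + 1)) ℂ)) ⊆ Set.range (map (algebraMap K ℂ)) := by
      intro P hP
      exact hlift P (hTB i hi P hP)
    obtain ⟨B'', -, h2⟩ := Finset.subset_set_image_iff.1
      (show (B i : Set (MvPolynomial (Fin (N + 1)) ℂ)) ⊆ map (algebraMap K ℂ) '' Set.univ by
        rw [Set.image_univ]
        exact h1)
    exact ⟨B'', h2⟩
  choose! E hE using hBl
  have hvan : ∀ i ≤ k, ∀ z : Fin (N + 1) → ℂ, (∀ P ∈ E i, aeval z P = 0) ↔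
      ∀ P ∈ D i, eval z P = 0 := by
    intro i hi z
    constructor
    · intro h1
      by_contra hno
      push Not at hno
      obtain ⟨P, hP, hPz⟩ := hB' i z hno
      rw [← hE i hi] at hP
      obtain ⟨Q, hQ, rfl⟩ := Finset.mem_image.1 hP
      apply hPz
      rw [← aeval_eq_eval_map]
      exact h1 Q hQ
    · intro h1 Q hQ
      rw [aeval_eq_eval_map]
      apply h1
      apply hB i
      rw [← hE i hi]
      exact Finset.mem_image_of_mem _ hQ
  have hChn : Chn f' g' A' k E := by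
    constructor
    · intro z hz
      apply hf0
      intro i
      rw [← hf' i, ← aeval_eq_eval_map]
      exact hz i
    · rw [hext]
      funext i
      change eval 0 (f i) = 0
      have h1 := Pool.Agent.R847.QP.hom_scale (f i) d (hf i) 0 0
      rw [zero_smul, zero_pow (by omega), zero_mul] at h1
      exact h1
    · apply hinj
      rw [map_mul, hg', hA', ← h.hgA, map_bind₁, hg']
      congr 2
    · intro z hz hgz
      rw [hvan 0 (Nat.zero_le _)]
      apply h.hE0 z hz
      rw [← hg', ← aeval_eq_eval_map]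
      exact hgz
    · intro i hi z hz hEz
      rw [hvan i hi] at hEz ⊢
      rw [hext]
      exact h.hinv i hi z hz hEz
    · intro i hi
      obtain ⟨m, hm⟩ := h.hcrit i hi
      refine ⟨m, fun z hz hEz hj => ?_⟩
      rw [hvan i hi.le] at hEz
      rw [hvan (i + 1) hi, hext]
      apply hm z hz hEz
      rcases hj with hj | hj
      · left
        rw [← eval_jdet, ← hext]
        rw [aeval_eq_eval_map, map_jdet] at hj
        exact hj
      · right
        rw [← hA', ← aeval_eq_eval_map]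
        exact hj
    · intro z hz
      by_contra hno
      push Not at hno
      obtain ⟨P, hP, hPz⟩ := h.hEk z hz
      exact hPz ((hvan k le_rfl z).1 hno P hP)
  have hf'hom : ∀ i, (f' i).IsHomogeneous d := fun i => hhom _ _ (by rw [hf' i]; exact hf i)
  have hg'hom : g'.IsHomogeneous e := hhom _ _ (by rw [hg']; exact hg)
  have hA'hom : A'.IsHomogeneous (e * (d - 1)) := hhom _ _ (by rw [hA']; exact hA)
  rw [← hext]
  by_cases halg : ∀ j, IsAlgebraic ℚ (β j)
  · have hαβ : α = α i0 • β := by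
      funext j
      simp only [β, Pi.smul_apply, smul_eq_mul]
      field_simp
    rw [hαβ]
    apply dmlAt_smul _ (fun i => by rw [hext]; exact hf i) _ hi0
    let x0 : Fin (N + 1) → K := fun j => ⟨β j, hTK _ (hTβ j (halg j))⟩
    have hx0 : x0 ≠ 0 := by
      intro h0
      have h1 : x0 i0 = 0 := congrFun h0 i0
      have h2 : β i0 = 0 := congrArg (fun z : K => (z : ℂ)) h1
      simp only [β, div_self hi0] at h2
      exact one_ne_zero h2
    exact hChn.alg_point hd he hf'hom hg'hom hA'hom x0 hx0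
  · push Not at halg
    obtain ⟨j, hj⟩ := halg
    exact hChn.trans_point he hf'hom hg'hom α i0 j hi0 hj

end Pool.Agent.T6.H91.DML
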