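import Pool.Agent.T6.H91.DML.Pf
import Pool.Agent.T6.H91.DML.Main

set_option autoImplicit false

/-! Orbits which are close to an étale preperiodic point at a place. -/

namespace Pool.Agent.T6.H91.DML

open MvPolynomial Height NumberField Pool.Agent.H936R2 Pool.Agent.R847.PC Filter
open Height.AdmissibleAbsValues Pool.Agent.Y199.DM

lemma dmlAt_shift {N : ℕ} (f : Fin (N + 1) → MvPolynomial (Fin (N + 1)) ℂ)
    (α : Fin (N + 1) → ℂ) (n : ℕ) (h : DmlAt f ((pt f)^[n] α)) : DmlAt f α := by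
  classical
  intro S hS
  obtain ⟨T, hT⟩ := h S hS
  refine ⟨T.image (fun q => (q.1, q.2 + n)) ∪ ((Finset.range n).filter fun m =>
    ∀ g ∈ S, eval ((pt f)^[m] α) g = 0).image fun m => (0, m), ?_⟩
  have key : ∀ m, (∀ g ∈ S, eval ((pt f)^[m + n] α) g = 0) ↔
      ∃ q ∈ T, ∃ l : ℕ, m = q.1 * l + q.2 := by
    intro m
    have h1 := Set.ext_iff.1 hT m
    simp only [Set.mem_ofPred_eq] at h1
    rw [← h1, ← Function.iterate_add_apply]
  ext m
  simp only [Set.mem_ofPred_eq, Finset.mem_union, Finset.mem_image, Finset.mem_filter,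
    Finset.mem_range]
  constructor
  · intro hm
    rcases Nat.lt_or_ge m n with hlt | hge
    · exact ⟨(0, m), Or.inr ⟨m, ⟨hlt, hm⟩, rfl⟩, 0, by simp⟩
    · obtain ⟨l, rfl⟩ := Nat.exists_eq_add_of_le' hge
      obtain ⟨q, hq, t, ht⟩ := (key l).1 hm
      exact ⟨(q.1, q.2 + n), Or.inl ⟨q, hq, rfl⟩, t, by rw [ht]; ring⟩
  · rintro ⟨q, (⟨q', hq', rfl⟩ | ⟨m', ⟨-, hm'⟩, rfl⟩), t, rfl⟩
    · simp only
      rw [← Nat.add_assoc, key]
      exact ⟨q', hq', t, rfl⟩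
    · simp only [zero_mul, zero_add]
      exact hm'

section

variable {𝕂 : Type} [Field 𝕂] {N : ℕ}

lemma wd_comm (w : AbsoluteValue 𝕂 ℝ) (x y : Fin (N + 1) → 𝕂) : wd w x y = wd w y x := by
  unfold wd
  congr 1
  funext q
  rw [← AbsoluteValue.map_neg w]
  congr 1
  ring

/-- Parallel vectors. -/
lemma par_of_zero (z w : Fin (N + 1) → 𝕂) (hz : z ≠ 0) (hw : w ≠ 0)
    (h : ∀ i j, z i * w j - z j * w i = 0) : ∃ a : 𝕂, a ≠ 0 ∧ z = a • w := by
  obtain ⟨i, hi'⟩ := Function.ne_iff.1 hw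
  have hi : w i ≠ 0 := hi'
  have hz' : z = (z i / w i) • w := by
    funext j
    rw [Pi.smul_apply, smul_eq_mul]
    have := h i j
    field_simp
    linear_combination -this
  refine ⟨z i / w i, ?_, hz'⟩
  intro h0
  rw [h0, zero_smul] at hz'
  exact hz hz'

end

section

variable {𝕂 : Type} [Field 𝕂] [NumberField 𝕂] [Algebra 𝕂 ℂ] {N : ℕ}

theorem dml_of_close {d : ℕ} (f : Fin (N + 1) → MvPolynomial (Fin (N + 1)) 𝕂)
    (hf : ∀ i, (f i).IsHomogeneous d) (Q : Fin (N + 1) → 𝕂)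
    (hQ : EtalePreperiodic (ext f) fun i => algebraMap 𝕂 ℂ (Q i)) :
    ∃ (B : Finset 𝕂) (D : ℕ), ∀ v : nonarchAbsVal (K := 𝕂), (∀ b ∈ B, v.val b ≤ 1) →
      (∀ p : ℕ, p.Prime → p ≤ D → ¬ v.val (p : 𝕂) < 1) →
      ∀ x : Fin (N + 1) → 𝕂, (∀ i, v.val (x i) ≤ 1) → (∃ i, v.val (x i) = 1) →
      wd v.val x Q < 1 → DmlAt (ext f) fun i => algebraMap 𝕂 ℂ (x i) := by
  classical
  have hexthom : ∀ i, (ext f i).IsHomogeneous d := fun i => (hf i).map _
  obtain ⟨s, n₀, hsub, hs⟩ := exists_units (ext f) hexthom _ hQ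
  let K : Subfield ℂ := (algebraMap 𝕂 ℂ).fieldRange
  have hsK : (s : Set ℂ) ⊆ K := by
    apply hsub K
    · intro i κ
      exact ⟨(f i).coeff κ, by rw [ext, coeff_map]⟩
    · intro i
      exact ⟨Q i, rfl⟩
  have hsB : ∃ s' : Finset 𝕂, s'.image (algebraMap 𝕂 ℂ) = s := by
    obtain ⟨s', -, h2⟩ := Finset.subset_set_image_iff.1
      (show (s : Set ℂ) ⊆ algebraMap 𝕂 ℂ '' Set.univ by
        rw [Set.image_univ]
        intro x hx
        exact hsK hx)
    exact ⟨s', h2⟩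
  obtain ⟨s', hs'⟩ := hsB
  obtain ⟨i0, hi0'⟩ : ∃ i0, Q i0 ≠ 0 := by
    by_contra hno
    push Not at hno
    apply hQ.1 0
    funext i
    rw [Function.iterate_zero, id, hno i, map_zero]
    rfl
  obtain ⟨D, hD⟩ := near_place2
  refine ⟨s' ∪ (Finset.univ.biUnion fun i => (f i).support.image fun κ => (f i).coeff κ) ∪
    Finset.univ.image Q ∪ {(Q i0)⁻¹}, D, fun v hB hvD x hx hxp hclose => ?_⟩
  have hBs : ∀ b ∈ s', v.val b ≤ 1 := fun b hb => hB b (by simp [hb])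
  have hBf : ∀ i κ, v.val ((f i).coeff κ) ≤ 1 := by
    intro i κ
    by_cases hκ : κ ∈ (f i).support
    · apply hB
      simp only [Finset.mem_union, Finset.mem_biUnion, Finset.mem_univ, true_and]
      exact Or.inl (Or.inl (Or.inr ⟨i, Finset.mem_image_of_mem _ hκ⟩))
    · rw [notMem_support_iff.1 hκ, map_zero]
      exact zero_le_one
  have hBQ : ∀ i, v.val (Q i) ≤ 1 := by
    intro i
    apply hB
    simp only [Finset.mem_union]
    exact Or.inl (Or.inr (Finset.mem_image_of_mem _ (Finset.mem_univ _)))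
  have hQi : v.val (Q i0) = 1 := by
    refine le_antisymm (hBQ i0) ?_
    have h1 : v.val (Q i0)⁻¹ ≤ 1 := hB _ (by simp)
    rw [map_inv₀] at h1
    exact (inv_le_one₀ (v.val.pos hi0')).1 h1
  obtain ⟨c, hc1, hc⟩ := exists_mult v Q x hx ⟨i0, hQi⟩
  rw [wd_comm v.val Q x] at hc
  have hc1' : v.val c = 1 := by
    refine le_antisymm hc1 (not_lt.1 fun hlt => ?_)
    obtain ⟨i, hi⟩ := hxp
    have h1 : x i = (x i - c * Q i) + c * Q i := by ring
    have h2 : v.val (x i) < 1 := by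
      rw [h1]
      refine (place_nonarch v _ _).trans_lt (max_lt ((hc i).trans_lt hclose) ?_)
      rw [map_mul]
      calc v.val c * v.val (Q i) ≤ v.val c * 1 :=
            mul_le_mul_of_nonneg_left (hBQ i) (v.val.nonneg _)
        _ < 1 := by rwa [mul_one]
    rw [hi] at h2
    exact lt_irrefl _ h2
  have hc0 : c ≠ 0 := by
    rintro rfl
    rw [map_zero] at hc1'
    exact zero_ne_one hc1'
  obtain ⟨p, hp, τ, hτ1, hτ2⟩ := hD 𝕂 v hvD
  have hτs : ∀ y ∈ s, ‖τ y‖ ≤ 1 := by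
    intro y hy
    rw [← hs'] at hy
    obtain ⟨b, hb, rfl⟩ := Finset.mem_image.1 hy
    exact hτ1 b (hBs b hb)
  obtain ⟨hdet, hne⟩ := hs p τ hτs
  let x' : Fin (N + 1) → 𝕂 := fun i => c⁻¹ * x i
  have hx'1 : ∀ i, v.val (x' i) ≤ 1 := by
    intro i
    simp only [x', map_mul, map_inv₀, hc1', inv_one, one_mul]
    exact hx i
  have hx'Q : ∀ i, v.val (x' i - Q i) < 1 := by
    intro i
    have h1 : x' i - Q i = c⁻¹ * (x i - c * Q i) := by
      simp only [x']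
      rw [mul_sub, ← mul_assoc, inv_mul_cancel₀ hc0, one_mul]
    rw [h1, map_mul, map_inv₀, hc1', inv_one, one_mul]
    exact (hc i).trans_lt hclose
  have hdml := orbit_core τ (ext f) (ext f) (fun i => algebraMap 𝕂 ℂ (x' i))
    (fun i => algebraMap 𝕂 ℂ (Q i))
    (fun i κ => by
      rw [ext, coeff_map]
      exact hτ1 _ (hBf i κ))
    (fun i κ => by
      rw [ext, coeff_map]
      exact hτ1 _ (hBf i κ))
    (fun i κ => by
      rw [sub_self, norm_zero]
      exact one_pos)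
    (fun i => hτ1 _ (hx'1 i)) (fun i => hτ1 _ (hBQ i))
    (fun i => by
      rw [← map_sub, ← map_sub]
      exact hτ2 _ (hx'Q i)) n₀ hdet hne
  have h1 : DmlAt (ext f) fun i => algebraMap 𝕂 ℂ (x' i) := fun S _ => hdml.2 S
  have h2 := dmlAt_smul (ext f) hexthom (algebraMap 𝕂 ℂ c) ((map_ne_zero _).2 hc0) _ h1
  have h3 : (algebraMap 𝕂 ℂ c • fun i => algebraMap 𝕂 ℂ (x' i)) =
      fun i => algebraMap 𝕂 ℂ (x i) := by
    funext i
    simp only [x', Pi.smul_apply, smul_eq_mul, map_mul, map_inv₀]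
    rw [← mul_assoc, mul_inv_cancel₀ ((map_ne_zero _).2 hc0), one_mul]
  rw [h3] at h2
  exact h2

end

end Pool.Agent.T6.H91.DML
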