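import Mathlib

set_option autoImplicit false

/-! The combinatorial core of the height argument. -/

namespace Pool.Agent.T6.H91.DML

open Filter Finset

theorem comb {J : Type} [Fintype J] (L a b : J → ℕ → ℝ) (e d r : ℕ) (he : 1 ≤ e) (hd : 2 ≤ d)
    (c : ℝ) (hc : 0 ≤ c) (h1 : ∀ j n, |L j (n + 1) - d * L j n| ≤ c)
    (ha : ∀ j n, -c ≤ a j n)
    (h3 : ∀ j n, a j (n + 1) = a j n + b j n + e * (L j (n + 1) - d * L j n))
    (h4 : ∀ n, ∑ j, a j n = e * ∑ j, L j n)
    (hH : Tendsto (fun n => ∑ j, L j n) atTop atTop)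
    (hpat : ∀ T : ℕ, ∃ c2 : ℝ, ∀ P : Finset ℕ, P ⊆ range T → P.card = r → ∀ j n,
      c2 < a j n → ∃ t ∈ P, b j (n + t) ≤ c2) : False := by
  classical
  set q := Fintype.card J with hq
  obtain ⟨c2, hc2⟩ := hpat (q * r + 1)
  have hsumb : ∀ n, ∑ j, b j n = e * ((d : ℝ) - 1) * ∑ j, L j n := by
    intro n
    have e1 : ∑ j, a j (n + 1) = ∑ j, a j n + ∑ j, b j n +
        e * (∑ j, L j (n + 1) - d * ∑ j, L j n) := by
      rw [Finset.mul_sum, ← Finset.sum_sub_distrib, Finset.mul_sum, ← Finset.sum_add_distrib,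
        ← Finset.sum_add_distrib]
      exact Finset.sum_congr rfl fun j _ => h3 j n
    rw [h4, h4] at e1
    linear_combination -e1
  -- a large bound
  have hqpos : 0 < q := by
    rw [Nat.pos_iff_ne_zero]
    intro h0
    have : IsEmpty J := Fintype.card_eq_zero_iff.1 (hq ▸ h0)
    have h5 : (fun n => ∑ j, L j n) = fun _ => 0 := by
      funext n
      simp
    rw [h5] at hH
    obtain ⟨n, hn⟩ := (hH.eventually_ge_atTop 1).exists
    norm_num at hn
  have hqR : (0 : ℝ) < q := by exact_mod_cast hqpos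
  obtain ⟨X, hX0, hX1, hX2⟩ : ∃ X : ℝ, 0 ≤ X ∧ c2 < X / q ∧ c2 < X / q - c - e * c := by
    refine ⟨q * (|c2| + 1 + c + e * c), ?_, ?_, ?_⟩
    · positivity
    · rw [mul_div_cancel_left₀ _ hqR.ne']
      have := le_abs_self c2
      have h6 : 0 ≤ e * c := by positivity
      linarith
    · rw [mul_div_cancel_left₀ _ hqR.ne']
      have := le_abs_self c2
      linarith
  obtain ⟨n, hn⟩ := eventually_atTop.1 (hH.eventually_ge_atTop X)
  have hex : ∀ m, n ≤ m → ∃ j, X / q ≤ b j m := by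
    intro m hm
    by_contra hno
    push Not at hno
    have h5 : ∑ j, b j m < ∑ _j : J, X / q := by
      have : Nonempty J := Fintype.card_pos_iff.1 hqpos
      exact Finset.sum_lt_sum_of_nonempty univ_nonempty fun j _ => hno j
    rw [Finset.sum_const, card_univ, ← hq, nsmul_eq_mul, mul_div_cancel₀ _ hqR.ne', hsumb] at h5
    have h6 : X ≤ ∑ j, L j m := hn m hm
    have h7 : (1 : ℝ) ≤ e * ((d : ℝ) - 1) := by
      have h8 : (1 : ℝ) ≤ e := by exact_mod_cast he
      have h9 : (1 : ℝ) ≤ (d : ℝ) - 1 := by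
        have : (2 : ℝ) ≤ d := by exact_mod_cast hd
        linarith
      nlinarith
    nlinarith
  have hJ : Nonempty J := Fintype.card_pos_iff.1 hqpos
  choose! jj hjj using hex
  obtain ⟨j, -, hj⟩ := Finset.exists_lt_card_fiber_of_mul_lt_card_of_maps_to
    (s := (range (q * r + 1)).image fun t => n + t) (t := (univ : Finset J)) (n := r) (f := jj)
    (fun _ _ => mem_univ _) (by
      rw [card_univ, ← hq, card_image_of_injective _ (add_right_injective n), card_range]
      omega)
  set Mj := (((range (q * r + 1)).image fun t => n + t).filter fun x => jj x = j) with hMj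
  have hne : Mj.Nonempty := card_pos.1 (by omega)
  set m0 := Mj.min' hne with hm0
  have hm0mem : m0 ∈ Mj := min'_mem _ _
  have hmem : ∀ x ∈ Mj, n ≤ x ∧ x < n + (q * r + 1) ∧ X / q ≤ b j x := by
    intro x hx
    rw [hMj, mem_filter, mem_image] at hx
    obtain ⟨⟨t, ht, rfl⟩, hx2⟩ := hx
    rw [mem_range] at ht
    refine ⟨by omega, by omega, ?_⟩
    rw [← hx2]
    exact hjj _ (by omega)
  have hlt : ∀ x ∈ Mj.erase m0, m0 < x := by
    intro x hx
    rw [mem_erase] at hx
    exact lt_of_le_of_ne (min'_le _ _ hx.2) (Ne.symm hx.1)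
  have hcard : r ≤ ((Mj.erase m0).image fun x => x - (m0 + 1)).card := by
    rw [card_image_of_injOn]
    · rw [card_erase_of_mem hm0mem]
      omega
    · intro x hx y hy hxy
      have h5 := hlt x (mem_coe.1 hx)
      have h6 := hlt y (mem_coe.1 hy)
      simp only at hxy
      omega
  obtain ⟨P, hP, hPc⟩ := exists_subset_card_eq hcard
  have hPm : ∀ t ∈ P, m0 + 1 + t ∈ Mj := by
    intro t ht
    obtain ⟨x, hx, rfl⟩ := mem_image.1 (hP ht)
    have h5 := hlt x hx
    rw [show m0 + 1 + (x - (m0 + 1)) = x by omega]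
    exact (mem_erase.1 hx).2
  have hPr : P ⊆ range (q * r + 1) := by
    intro t ht
    have h5 := hmem _ (hPm t ht)
    have h6 := hmem _ hm0mem
    rw [mem_range]
    omega
  have hbig : c2 < a j (m0 + 1) := by
    rw [h3]
    have h5 := ha j m0
    have h6 := (hmem _ hm0mem).2.2
    have h7 := (abs_le.1 (h1 j m0)).1
    have h8 : -(e * c) ≤ e * (L j (m0 + 1) - d * L j m0) := by
      have : (0 : ℝ) ≤ e := Nat.cast_nonneg e
      nlinarith
    linarith
  obtain ⟨t, ht, hbt⟩ := hc2 P hPr hPc j (m0 + 1) hbig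
  have h5 := (hmem _ (hPm t ht)).2.2
  linarith

end Pool.Agent.T6.H91.DML
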