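import Mathlib

set_option autoImplicit false

/-! The combinatorial core of the height argument, quantitative form. -/

namespace Pool.Agent.T6.H91.DML

open Filter Finset

theorem comb2 {J : Type} [Fintype J] (L a b : J → ℕ → ℝ) (e d r : ℕ) (he : 1 ≤ e) (hd : 2 ≤ d)
    (c : ℝ) (hc : 0 ≤ c) (h1 : ∀ j n, |L j (n + 1) - d * L j n| ≤ c)
    (ha : ∀ j n, -c ≤ a j n)
    (h3 : ∀ j n, a j (n + 1) = a j n + b j n + e * (L j (n + 1) - d * L j n))
    (hW : ∀ n, ∑ j, a j n ≤ e * ∑ j, L j n)
    (hU : ∀ n, ∑ j, b j n ≤ e * ((d : ℝ) - 1) * ∑ j, L j n)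
    (hH : Tendsto (fun n => ∑ j, L j n) atTop atTop)
    (hpat : ∀ T : ℕ, ∃ c2 : ℝ, ∀ P : Finset ℕ, P ⊆ range T → P.card = r → ∀ j n,
      c2 < a j n → ∃ t ∈ P, b j (n + t) ≤ c2) :
    ∃ δ : ℝ, 0 < δ ∧ ∃ n0 : ℕ, ∀ n, n0 ≤ n →
      δ * ∑ j, L j n ≤ e * ∑ j, L j n - ∑ j, a j n := by
  classical
  set q := Fintype.card J with hq
  set T := q * r + 1 with hT
  obtain ⟨c2, hc2⟩ := hpat T
  have hqpos : 0 < q := by
    rw [Nat.pos_iff_ne_zero]
    intro h0
    have : IsEmpty J := Fintype.card_eq_zero_iff.1 (hq ▸ h0)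
    have h5 : (fun n => ∑ j, L j n) = fun _ => 0 := by
      funext n
      simp
    rw [h5] at hH
    obtain ⟨n, hn⟩ := (hH.eventually_ge_atTop 1).exists
    norm_num at hn
  have hqR : (0 : ℝ) < q := by exact_mod_cast hqpos
  obtain ⟨X, hX0, hX1, hX2⟩ : ∃ X : ℝ, 0 ≤ X ∧ c2 < X / q ∧ c2 < X / q - c - e * c := by
    refine ⟨q * (|c2| + 1 + c + e * c), ?_, ?_, ?_⟩
    · positivity
    · rw [mul_div_cancel_left₀ _ hqR.ne']
      have := le_abs_self c2
      have h6 : 0 ≤ e * c := by positivity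
      linarith
    · rw [mul_div_cancel_left₀ _ hqR.ne']
      have := le_abs_self c2
      linarith
  have hJ : Nonempty J := Fintype.card_pos_iff.1 hqpos
  -- the pigeonhole
  have hpig : ∀ n : ℕ, ¬ ∀ m, n ≤ m → m < n + T → ∃ j, X / q ≤ b j m := by
    intro n hex
    choose! jj hjj using hex
    obtain ⟨j, -, hj⟩ := Finset.exists_lt_card_fiber_of_mul_lt_card_of_maps_to
      (s := (range T).image fun t => n + t) (t := (univ : Finset J)) (n := r) (f := jj)
      (fun _ _ => mem_univ _) (by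
        rw [card_univ, ← hq, card_image_of_injective _ (add_right_injective n), card_range]
        omega)
    set Mj := (((range T).image fun t => n + t).filter fun x => jj x = j) with hMj
    have hne : Mj.Nonempty := card_pos.1 (by omega)
    set m0 := Mj.min' hne with hm0
    have hm0mem : m0 ∈ Mj := min'_mem _ _
    have hmem : ∀ x ∈ Mj, n ≤ x ∧ x < n + T ∧ X / q ≤ b j x := by
      intro x hx
      rw [hMj, mem_filter, mem_image] at hx
      obtain ⟨⟨t, ht, rfl⟩, hx2⟩ := hx
      rw [mem_range] at ht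
      refine ⟨by omega, by omega, ?_⟩
      rw [← hx2]
      exact hjj _ (by omega) (by omega)
    have hlt : ∀ x ∈ Mj.erase m0, m0 < x := by
      intro x hx
      rw [mem_erase] at hx
      exact lt_of_le_of_ne (min'_le _ _ hx.2) (Ne.symm hx.1)
    have hcard : r ≤ ((Mj.erase m0).image fun x => x - (m0 + 1)).card := by
      rw [card_image_of_injOn]
      · rw [card_erase_of_mem hm0mem]
        omega
      · intro x hx y hy hxy
        have h5 := hlt x (mem_coe.1 hx)
        have h6 := hlt y (mem_coe.1 hy)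
        simp only at hxy
        omega
    obtain ⟨P, hP, hPc⟩ := exists_subset_card_eq hcard
    have hPm : ∀ t ∈ P, m0 + 1 + t ∈ Mj := by
      intro t ht
      obtain ⟨x, hx, rfl⟩ := mem_image.1 (hP ht)
      have h5 := hlt x hx
      rw [show m0 + 1 + (x - (m0 + 1)) = x by omega]
      exact (mem_erase.1 hx).2
    have hPr : P ⊆ range T := by
      intro t ht
      have h5 := hmem _ (hPm t ht)
      have h6 := hmem _ hm0mem
      rw [mem_range]
      omega
    have hbig : c2 < a j (m0 + 1) := by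
      rw [h3]
      have h5 := ha j m0
      have h6 := (hmem _ hm0mem).2.2
      have h7 := (abs_le.1 (h1 j m0)).1
      have h8 : -(e * c) ≤ e * (L j (m0 + 1) - d * L j m0) := by
        have : (0 : ℝ) ≤ e := Nat.cast_nonneg e
        nlinarith
      linarith
    obtain ⟨t, ht, hbt⟩ := hc2 P hPr hPc j (m0 + 1) hbig
    have h5 := (hmem _ (hPm t ht)).2.2
    linarith
  -- the total height and the defects
  set H : ℕ → ℝ := fun n => ∑ j, L j n with hHdef
  set W : ℕ → ℝ := fun n => e * H n - ∑ j, a j n with hWdef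
  have hWnn : ∀ n, 0 ≤ W n := fun n => by
    have := hW n
    simp only [hWdef]
    linarith
  have hWs : ∀ n, W (n + 1) = W n + (e * ((d : ℝ) - 1) * H n - ∑ j, b j n) := by
    intro n
    have e1 : ∑ j, a j (n + 1) = ∑ j, a j n + ∑ j, b j n +
        e * (∑ j, L j (n + 1) - d * ∑ j, L j n) := by
      rw [Finset.mul_sum, ← Finset.sum_sub_distrib, Finset.mul_sum, ← Finset.sum_add_distrib,
        ← Finset.sum_add_distrib]
      exact Finset.sum_congr rfl fun j _ => h3 j n
    simp only [hWdef, hHdef]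
    rw [e1]
    ring
  have hWmono : ∀ n m, n ≤ m → W n ≤ W m := by
    intro n m hnm
    induction m, hnm using Nat.le_induction with
    | base => exact le_rfl
    | succ m _ ih =>
      have h5 := hWs m
      have h6 := hU m
      linarith
  have hUW : ∀ m n, m < n → e * ((d : ℝ) - 1) * H m - ∑ j, b j m ≤ W n := by
    intro m n hmn
    have h5 := hWs m
    have h6 := hWnn m
    have h7 := hWmono (m + 1) n hmn
    linarith
  -- growth of the height
  have hHstep : ∀ n, H (n + 1) ≤ d * H n + q * c := by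
    intro n
    have h5 : H (n + 1) - d * H n ≤ ∑ _j : J, c := by
      simp only [hHdef]
      rw [Finset.mul_sum, ← Finset.sum_sub_distrib]
      exact Finset.sum_le_sum fun j _ => (abs_le.1 (h1 j n)).2
    rw [Finset.sum_const, card_univ, nsmul_eq_mul] at h5
    linarith
  have hd1 : (1 : ℝ) ≤ d := by exact_mod_cast (by omega : 1 ≤ d)
  have hHit : ∀ m t, H (m + t) ≤ (d : ℝ) ^ t * H m + t * (d : ℝ) ^ t * (q * c) := by
    intro m t
    induction t with
    | zero => simp
    | succ t ih =>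
      have h5 := hHstep (m + t)
      rw [← Nat.add_assoc]
      have h6 : (d : ℝ) * H (m + t) ≤ d * ((d : ℝ) ^ t * H m + t * (d : ℝ) ^ t * (q * c)) :=
        mul_le_mul_of_nonneg_left ih (by linarith)
      have h7 : (1 : ℝ) ≤ (d : ℝ) ^ (t + 1) := one_le_pow₀ hd1
      have h8 : (q : ℝ) * c ≤ (d : ℝ) ^ (t + 1) * (q * c) :=
        le_mul_of_one_le_left (by positivity) h7
      push_cast
      rw [pow_succ'] at h8 ⊢
      nlinarith
  set DT : ℝ := (d : ℝ) ^ T with hDT
  have hDTpos : 1 ≤ DT := one_le_pow₀ hd1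
  refine ⟨1 / (4 * DT), by positivity, ?_⟩
  obtain ⟨n1, hn1⟩ := eventually_atTop.1 (hH.eventually_ge_atTop (2 * X + 1 + T * (q * c)))
  refine ⟨n1 + T, fun n hn => ?_⟩
  by_contra hlt
  rw [not_le] at hlt
  have hlt' : W n < 1 / (4 * DT) * H n := hlt
  apply hpig (n - T)
  intro m hm1 hm2
  have hmn : m < n := by omega
  have hm : n1 ≤ m := by omega
  have hHm : 2 * X + 1 + T * (q * c) ≤ H m := hn1 m hm
  obtain ⟨t, ht⟩ := Nat.exists_eq_add_of_le hmn.le
  have htT : t ≤ T := by omega
  have h5 := hHit m t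
  rw [← ht] at h5
  have hTc : (0 : ℝ) ≤ T * (q * c) := by positivity
  have hHmpos : 0 ≤ H m := by linarith
  have h6 : (d : ℝ) ^ t ≤ DT := pow_le_pow_right₀ hd1 htT
  have h7 : (d : ℝ) ^ t * H m ≤ DT * H m := mul_le_mul_of_nonneg_right h6 hHmpos
  have h8 : (t : ℝ) * (d : ℝ) ^ t * (q * c) ≤ DT * (T * (q * c)) := by
    have h9 : (t : ℝ) ≤ T := by exact_mod_cast htT
    have h10 : (t : ℝ) * (d : ℝ) ^ t ≤ T * DT :=
      mul_le_mul h9 h6 (by positivity) (by positivity)
    calc (t : ℝ) * (d : ℝ) ^ t * (q * c) ≤ T * DT * (q * c) :=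
          mul_le_mul_of_nonneg_right h10 (by positivity)
      _ = DT * (T * (q * c)) := by ring
  have h9 : H n ≤ 2 * DT * H m := by
    have : DT * (T * (q * c)) ≤ DT * H m :=
      mul_le_mul_of_nonneg_left (by linarith) (by linarith)
    linarith
  have h10 : W n ≤ H m / 2 := by
    have h11 : 1 / (4 * DT) * H n ≤ 1 / (4 * DT) * (2 * DT * H m) :=
      mul_le_mul_of_nonneg_left h9 (by positivity)
    have h12 : 1 / (4 * DT) * (2 * DT * H m) = H m / 2 := by
      field_simp
      ring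
    linarith
  have h11 := hUW m n hmn
  have h12 : H m / 2 ≤ ∑ j, b j m := by
    have h13 : (1 : ℝ) ≤ e * ((d : ℝ) - 1) := by
      have h8 : (1 : ℝ) ≤ e := by exact_mod_cast he
      have h9 : (1 : ℝ) ≤ (d : ℝ) - 1 := by
        have : (2 : ℝ) ≤ d := by exact_mod_cast hd
        linarith
      nlinarith
    have h14 : H m ≤ e * ((d : ℝ) - 1) * H m := le_mul_of_one_le_left hHmpos h13
    linarith
  by_contra hno
  push Not at hno
  have h15 : ∑ j, b j m < ∑ _j : J, X / q :=
    Finset.sum_lt_sum_of_nonempty univ_nonempty fun j _ => hno j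
  rw [Finset.sum_const, card_univ, ← hq, nsmul_eq_mul, mul_div_cancel₀ _ hqR.ne'] at h15
  linarith

end Pool.Agent.T6.H91.DML
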