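import Pool.Agent.T6.H91.DML.Core
import Pool.Agent.T6.H91.DML.Comb2

set_option autoImplicit false

/-! The prime-to-`S` part of the value of the equation of an invariant hypersurface at the points of
an orbit has a positive proportion of the height. -/

namespace Pool.Agent.T6.H91.DML

open MvPolynomial Pool.Agent.H936R2 Pool.Agent.R847.PC Filter

section

variable {𝕂 : Type} [Field 𝕂] {N : ℕ}

variable [Algebra 𝕂 ℂ]

theorem core2 {J : Type} [Fintype J] (w : J → AbsoluteValue 𝕂 ℝ) {d e r : ℕ} (hd : 2 ≤ d)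
    (he : 1 ≤ e) (f : Fin (N + 1) → MvPolynomial (Fin (N + 1)) 𝕂)
    (hf : ∀ i, (f i).IsHomogeneous d)
    (hf0 : ∀ z : Fin (N + 1) → ℂ, (∀ i, aeval z (f i) = 0) → z = 0)
    (g A : MvPolynomial (Fin (N + 1)) 𝕂) (hg : g.IsHomogeneous e)
    (hA : A.IsHomogeneous (e * (d - 1))) (hgA : bind₁ f g = g * A)
    (hvis : ∀ z : Fin (N + 1) → ℂ, z ≠ 0 → aeval z g = 0 → ∀ P : Finset ℕ, P.card = r →
      ∃ t ∈ P, aeval ((pt fun i => map (algebraMap 𝕂 ℂ) (f i))^[t] z) A ≠ 0)
    (x0 : Fin (N + 1) → 𝕂) (hx0 : x0 ≠ 0)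
    (hg0 : ∀ n, eval ((pt f)^[n] x0) g ≠ 0)
    (hprodg : ∀ n, 1 ≤ ∏ j, w j (eval ((pt f)^[n] x0) g))
    (hprodA : ∀ n, 1 ≤ ∏ j, w j (eval ((pt f)^[n] x0) A))
    (hH : Tendsto (fun n => ∑ j, Real.log (mx (w j) ((pt f)^[n] x0))) atTop atTop) :
    ∃ δ : ℝ, 0 < δ ∧ ∃ n0 : ℕ, ∀ n, n0 ≤ n →
      δ * ∑ j, Real.log (mx (w j) ((pt f)^[n] x0)) ≤
        Real.log (∏ j, w j (eval ((pt f)^[n] x0) g)) := by
  classical
  set x : ℕ → Fin (N + 1) → 𝕂 := fun n => (pt f)^[n] x0 with hx
  have hxs : ∀ n, x (n + 1) = pt f (x n) := fun n => Function.iterate_succ_apply' _ _ _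
  have hxne : ∀ n, x n ≠ 0 := by
    intro n
    induction n with
    | zero => exact hx0
    | succ n ih =>
      rw [hxs]
      intro h
      apply ih
      have h1 : (fun i => algebraMap 𝕂 ℂ (x n i)) = 0 := by
        apply hf0
        intro i
        have h2 : aeval (fun i => algebraMap 𝕂 ℂ (x n i)) (f i) =
            algebraMap 𝕂 ℂ (eval (x n) (f i)) := by
          have h5 := aeval_algebraMap_apply (A := 𝕂) ℂ (x n) (f i)
          exact h5
        rw [h2]
        have h3 : eval (x n) (f i) = 0 := congrFun h i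
        rw [h3, map_zero]
      funext i
      have h4 := congrFun h1 i
      simp only [Pi.zero_apply] at h4 ⊢
      exact (map_eq_zero _).1 h4
  have hgne : ∀ j : J, ∀ n, w j (eval (x n) g) ≠ 0 := by
    intro j n h
    exact hg0 n ((w j).eq_zero.1 h)
  have hgs : ∀ n, eval (x (n + 1)) g = eval (x n) g * eval (x n) A := by
    intro n
    have h1 := congrArg (eval (x n)) hgA
    rw [eval_bind, map_mul] at h1
    rw [hxs, ← h1]
    rfl
  have hAne : ∀ j : J, ∀ n, w j (eval (x n) A) ≠ 0 := by
    intro j n h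
    apply hgne j (n + 1)
    rw [hgs, map_mul, h, mul_zero]
  have hmx : ∀ j : J, ∀ n, 0 < mx (w j) (x n) := fun j n => mx_pos _ _ (hxne n)
  -- constants
  choose Cg hCg1 hCg using fun j => eval_le (w j) g e hg
  choose Cf hCf1 hCf using fun j i => eval_le (w j) (f i) d (hf i)
  choose cf hcf0 hcf using fun j => lower (w j) f (fun _ => d) hf hf0
  set L : J → ℕ → ℝ := fun j n => Real.log (mx (w j) (x n)) with hL
  set a : J → ℕ → ℝ := fun j n => e * L j n - Real.log (w j (eval (x n) g)) with ha
  set b : J → ℕ → ℝ := fun j n => (e * (d - 1 : ℕ) : ℕ) * L j n - Real.log (w j (eval (x n) A))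
    with hb
  -- the growth of the sizes
  have hstep : ∀ j, ∃ c : ℝ, 0 ≤ c ∧ ∀ n, |L j (n + 1) - d * L j n| ≤ c := by
    intro j
    refine ⟨|Real.log (cf j)| + |Real.log (∑ i, Cf j i)|, by positivity, fun n => ?_⟩
    have hup : mx (w j) (x (n + 1)) ≤ (∑ i, Cf j i) * mx (w j) (x n) ^ d := by
      apply mx_le
      intro i
      rw [hxs]
      refine (hCf j i (x n)).trans (mul_le_mul_of_nonneg_right ?_ (pow_nonneg (hmx j n).le _))
      exact Finset.single_le_sum (f := Cf j) (fun i _ => zero_le_one.trans (hCf1 j i))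
        (Finset.mem_univ i)
    have hlow : cf j * mx (w j) (x n) ^ d ≤ mx (w j) (x (n + 1)) := by
      obtain ⟨i, hi⟩ := hcf j (x n) (hxne n)
      refine hi.trans ?_
      rw [hxs]
      exact le_mx (w j) (pt f (x n)) i
    have hSpos : 0 < ∑ i, Cf j i := by
      have h1 := Finset.single_le_sum (f := Cf j) (fun i _ => zero_le_one.trans (hCf1 j i))
        (Finset.mem_univ (0 : Fin (N + 1)))
      exact lt_of_lt_of_le zero_lt_one ((hCf1 j 0).trans h1)
    have h1 : Real.log (mx (w j) (x (n + 1))) ≤ Real.log (∑ i, Cf j i) +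
        d * Real.log (mx (w j) (x n)) := by
      rw [← Real.log_pow, ← Real.log_mul hSpos.ne' (pow_pos (hmx j n) _).ne']
      exact Real.log_le_log (hmx j _) hup
    have h2 : Real.log (cf j) + d * Real.log (mx (w j) (x n)) ≤
        Real.log (mx (w j) (x (n + 1))) := by
      rw [← Real.log_pow, ← Real.log_mul (hcf0 j).ne' (pow_pos (hmx j n) _).ne']
      exact Real.log_le_log (mul_pos (hcf0 j) (pow_pos (hmx j n) _)) hlow
    have h3 := le_abs_self (Real.log (∑ i, Cf j i))
    have h4 := neg_abs_le (Real.log (cf j))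
    have h5 := abs_nonneg (Real.log (∑ i, Cf j i))
    have h6 := abs_nonneg (Real.log (cf j))
    rw [abs_le]
    simp only [hL]
    constructor <;> linarith
  choose cs hcs0 hcs using hstep
  have hlow_a : ∀ j n, -(Real.log (Cg j)) ≤ a j n := by
    intro j n
    have h1 : Real.log (w j (eval (x n) g)) ≤ Real.log (Cg j) +
        e * Real.log (mx (w j) (x n)) := by
      rw [← Real.log_pow, ← Real.log_mul (zero_lt_one.trans_le (hCg1 j)).ne'
        (pow_pos (hmx j n) _).ne']
      exact Real.log_le_log (lt_of_le_of_ne ((w j).nonneg _) (hgne j n).symm) (hCg j (x n))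
    simp only [ha, hL]
    linarith
  -- the uniform constant
  set c : ℝ := ∑ j, cs j + ∑ j, |Real.log (Cg j)| with hc
  have hcnn : 0 ≤ c := by
    have h1 := Finset.sum_nonneg fun j (_ : j ∈ Finset.univ) => hcs0 j
    have h2 := Finset.sum_nonneg fun j (_ : j ∈ Finset.univ) => abs_nonneg (Real.log (Cg j))
    linarith
  have hcsc : ∀ j, cs j ≤ c := by
    intro j
    have h1 := Finset.single_le_sum (f := cs) (fun j _ => hcs0 j) (Finset.mem_univ j)
    have h2 := Finset.sum_nonneg fun j (_ : j ∈ Finset.univ) => abs_nonneg (Real.log (Cg j))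
    linarith
  have hCgc : ∀ j, |Real.log (Cg j)| ≤ c := by
    intro j
    have h1 := Finset.single_le_sum (f := fun j => |Real.log (Cg j)|)
      (fun j _ => abs_nonneg _) (Finset.mem_univ j)
    have h2 := Finset.sum_nonneg fun j (_ : j ∈ Finset.univ) => hcs0 j
    linarith
  have hstep' : ∀ j n, |L j (n + 1) - d * L j n| ≤ c := fun j n => (hcs j n).trans (hcsc j)
  -- iterated growth
  have hiter : ∀ j n t, |L j (n + t) - (d ^ t : ℕ) * L j n| ≤ (t * d ^ t : ℕ) * c := by
    intro j n t
    induction t with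
    | zero => simp
    | succ t ih =>
      have h1 := hstep' j (n + t)
      have h2 : L j (n + (t + 1)) - (d ^ (t + 1) : ℕ) * L j n =
          (L j (n + t + 1) - d * L j (n + t)) + d * (L j (n + t) - (d ^ t : ℕ) * L j n) := by
        rw [← Nat.add_assoc]
        push_cast
        ring
      rw [h2]
      refine (abs_add_le _ _).trans ?_
      rw [abs_mul, Nat.abs_cast]
      have h3 : (d : ℝ) * |L j (n + t) - (d ^ t : ℕ) * L j n| ≤ d * ((t * d ^ t : ℕ) * c) :=
        mul_le_mul_of_nonneg_left ih (Nat.cast_nonneg _)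
      have h4 : (1 : ℝ) ≤ (d : ℝ) ^ (t + 1) := one_le_pow₀ (by exact_mod_cast (by omega : 1 ≤ d))
      have h5 : c ≤ (d : ℝ) ^ (t + 1) * c := le_mul_of_one_le_left hcnn h4
      push_cast at h3 ⊢
      have h6 : ((t : ℝ) + 1) * (d : ℝ) ^ (t + 1) * c =
          d * (t * (d : ℝ) ^ t * c) + (d : ℝ) ^ (t + 1) * c := by ring
      rw [h6]
      linarith
  have hlogg : ∀ n, Real.log (∏ j, w j (eval (x n) g)) = ∑ j, Real.log (w j (eval (x n) g)) :=
    fun n => Real.log_prod fun j _ => hgne j n
  have hlogA : ∀ n, Real.log (∏ j, w j (eval (x n) A)) = ∑ j, Real.log (w j (eval (x n) A)) :=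
    fun n => Real.log_prod fun j _ => hAne j n
  have key : ∃ δ : ℝ, 0 < δ ∧ ∃ n0 : ℕ, ∀ n, n0 ≤ n →
      δ * ∑ j, L j n ≤ e * ∑ j, L j n - ∑ j, a j n := by
   refine comb2 L a b e d r he hd c hcnn hstep' ?_ ?_ ?_ ?_ hH ?_
   · intro j n
     have h1 := hlow_a j n
     have h2 := hCgc j
     have h3 := le_abs_self (Real.log (Cg j))
     linarith
   · intro j n
     have h1 : Real.log (w j (eval (x (n + 1)) g)) = Real.log (w j (eval (x n) g)) +
         Real.log (w j (eval (x n) A)) := by
       rw [hgs, map_mul, Real.log_mul (hgne j n) (hAne j n)]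
     simp only [ha, hb]
     rw [h1]
     have h2 : ((e * (d - 1 : ℕ) : ℕ) : ℝ) = e * d - e := by
       rw [Nat.cast_mul, Nat.cast_sub (by omega)]
       push_cast
       ring
     rw [h2]
     ring
   · intro n
     simp only [ha]
     rw [Finset.sum_sub_distrib, Finset.mul_sum]
     have h1 : 0 ≤ ∑ j, Real.log (w j (eval (x n) g)) := by
       rw [← hlogg n]
       exact Real.log_nonneg (hprodg n)
     linarith
   · intro n
     simp only [hb]
     rw [Finset.sum_sub_distrib, ← Finset.mul_sum]
     have h1 : 0 ≤ ∑ j, Real.log (w j (eval (x n) A)) := by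
       rw [← hlogA n]
       exact Real.log_nonneg (hprodA n)
     have h2 : ((e * (d - 1 : ℕ) : ℕ) : ℝ) = e * ((d : ℝ) - 1) := by
       rw [Nat.cast_mul, Nat.cast_sub (by omega)]
       push_cast
       ring
     rw [h2]
     linarith
   · intro T
     -- the constants of the patterns
     have hpat : ∀ (P : Finset ℕ) (j : J), ∃ c2 : ℝ, P.card = r → P ⊆ Finset.range T →
         ∀ n, c2 < a j n → ∃ t ∈ P, b j (n + t) ≤ c2 := by
       intro P j
       by_cases hPr : P.card = r
       swap
       · exact ⟨0, fun h => absurd h hPr⟩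
       obtain ⟨cP, hcP0, hcP⟩ := lower (w j) (Λ := Option P)
         (fun l => l.elim g fun t => pull f t A) (fun l => l.elim e fun t => e * (d - 1) * d ^ (t : ℕ))
         (fun l => by
           rcases l with _ | t
           · exact hg
           · exact pull_hom hf t hA) (fun z hz => by
           by_contra hz0
           have h1 := hz none
           simp only [Option.elim_none] at h1
           obtain ⟨t, ht, hne⟩ := hvis z hz0 h1 P hPr
           have h2 := hz (some ⟨t, ht⟩)
           simp only [Option.elim_some] at h2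
           rw [aeval_pull] at h2
           exact hne h2)
       refine ⟨|Real.log cP| + (e * (d - 1) : ℕ) * ((T * d ^ T : ℕ) * c), fun _ hPT n hn => ?_⟩
       obtain ⟨l, hl⟩ := hcP (x n) (hxne n)
       have hBnn : (0 : ℝ) ≤ (e * (d - 1) : ℕ) * ((T * d ^ T : ℕ) * c) := by positivity
       rcases l with _ | t
       · exfalso
         simp only [Option.elim_none] at hl
         have h1 : Real.log cP + e * L j n ≤ Real.log (w j (eval (x n) g)) := by
           simp only [hL]
           rw [← Real.log_pow, ← Real.log_mul hcP0.ne' (pow_pos (hmx j n) _).ne']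
           exact Real.log_le_log (mul_pos hcP0 (pow_pos (hmx j n) _)) hl
         simp only [ha] at hn
         have h2 := neg_abs_le (Real.log cP)
         linarith
       · simp only [Option.elim_some] at hl
         rw [eval_pull] at hl
         refine ⟨t, t.2, ?_⟩
         have hxt : (pt f)^[(t : ℕ)] (x n) = x (n + t) := by
           simp only [hx]
           rw [← Function.iterate_add_apply, Nat.add_comm (t : ℕ) n]
         rw [hxt] at hl
         have h1 : Real.log cP + (e * (d - 1) * d ^ (t : ℕ) : ℕ) * L j n ≤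
             Real.log (w j (eval (x (n + t)) A)) := by
           simp only [hL]
           rw [← Real.log_pow, ← Real.log_mul hcP0.ne' (pow_pos (hmx j n) _).ne']
           exact Real.log_le_log (mul_pos hcP0 (pow_pos (hmx j n) _)) hl
         have htT : (t : ℕ) < T := Finset.mem_range.1 (hPT t.2)
         have h2 := (abs_le.1 (hiter j n t)).2
         have h3 : ((t * d ^ (t : ℕ) : ℕ) : ℝ) * c ≤ ((T * d ^ T : ℕ) : ℝ) * c := by
           apply mul_le_mul_of_nonneg_right _ hcnn
           exact_mod_cast Nat.mul_le_mul htT.le (Nat.pow_le_pow_right (by omega) htT.le)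
         have h4 : L j (n + t) - (d ^ (t : ℕ) : ℕ) * L j n ≤ ((T * d ^ T : ℕ) : ℝ) * c :=
           h2.trans h3
         have h5 : ((e * (d - 1) : ℕ) : ℝ) * (L j (n + t) - (d ^ (t : ℕ) : ℕ) * L j n) ≤
             (e * (d - 1) : ℕ) * (((T * d ^ T : ℕ) : ℝ) * c) :=
           mul_le_mul_of_nonneg_left h4 (Nat.cast_nonneg _)
         have h6 := neg_abs_le (Real.log cP)
         simp only [hb]
         push_cast at h1 h5 ⊢
         nlinarith
     choose c2 hc2 using hpat
     refine ⟨∑ P ∈ (Finset.range T).powerset, ∑ j, |c2 P j|, fun P hPT hPr j n hn => ?_⟩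
     have hle : c2 P j ≤ ∑ P ∈ (Finset.range T).powerset, ∑ j, |c2 P j| := by
       refine (le_abs_self _).trans ?_
       refine (Finset.single_le_sum (f := fun j => |c2 P j|) (fun j _ => abs_nonneg _)
         (Finset.mem_univ j)).trans ?_
       exact Finset.single_le_sum (f := fun P => ∑ j, |c2 P j|)
         (fun P _ => Finset.sum_nonneg fun j _ => abs_nonneg _) (Finset.mem_powerset.2 hPT)
     obtain ⟨t, ht, h1⟩ := hc2 P j hPr hPT n (lt_of_le_of_lt hle hn)
     exact ⟨t, ht, h1.trans hle⟩
  obtain ⟨δ, hδ, n0, h⟩ := key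
  refine ⟨δ, hδ, n0, fun n hn => ?_⟩
  have h1 := h n hn
  have h2 : e * ∑ j, L j n - ∑ j, a j n = Real.log (∏ j, w j (eval (x n) g)) := by
    rw [hlogg n]
    simp only [ha]
    rw [Finset.sum_sub_distrib, Finset.mul_sum]
    ring
  rw [h2] at h1
  exact h1

end

end Pool.Agent.T6.H91.DML
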