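import Pool.Agent.T6.H91.DML.Ext

set_option autoImplicit false

/-! Passing to iterates. -/

namespace Pool.Agent.T6.H91.DML

open MvPolynomial Pool.Agent.H936R2 Pool.Agent.R847.PC

lemma pt_itp {N : ℕ} (f : Fin (N + 1) → MvPolynomial (Fin (N + 1)) ℂ) (l : ℕ) :
    pt (itp f l) = (pt f)^[l] := by
  funext z i
  exact eval_itp f l z i

lemma dml_of_iterate {N : ℕ} (f : Fin (N + 1) → MvPolynomial (Fin (N + 1)) ℂ) (l : ℕ)
    (hl : 0 < l) (h : ∀ α, DmlAt (itp f l) α) (α : Fin (N + 1) → ℂ) : DmlAt f α := by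
  classical
  intro S hS
  choose T hT using fun r : ℕ => h ((pt f)^[r] α) S hS
  refine ⟨(Finset.range l).biUnion fun r => (T r).image fun q => (l * q.1, l * q.2 + r), ?_⟩
  have key : ∀ n r, (∀ g ∈ S, eval ((pt f)^[l * n + r] α) g = 0) ↔
      ∃ q ∈ T r, ∃ m : ℕ, n = q.1 * m + q.2 := by
    intro n r
    have h1 := Set.ext_iff.1 (hT r) n
    simp only [Set.mem_ofPred_eq] at h1
    rw [← h1, pt_itp, ← Function.iterate_mul, ← Function.iterate_add_apply]
  ext n
  simp only [Set.mem_ofPred_eq, Finset.mem_biUnion, Finset.mem_range, Finset.mem_image]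
  constructor
  · intro hn
    have h1 : n = l * (n / l) + n % l := (Nat.div_add_mod n l).symm
    rw [h1, key] at hn
    obtain ⟨q, hq, m, hm⟩ := hn
    refine ⟨(l * q.1, l * q.2 + n % l), ⟨n % l, Nat.mod_lt _ hl, q, hq, rfl⟩, m, ?_⟩
    conv_lhs => rw [h1, hm]
    ring
  · rintro ⟨-, ⟨r, hr, q, hq, rfl⟩, m, rfl⟩
    have h2 : l * q.1 * m + (l * q.2 + r) = l * (q.1 * m + q.2) + r := by ring
    simp only
    rw [h2, key]
    exact ⟨q, hq, m, rfl⟩

/-- The chain rule. -/
lemma pderiv_bind {n : ℕ} (g : Fin n → MvPolynomial (Fin n) ℂ) (P : MvPolynomial (Fin n) ℂ)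
    (j : Fin n) : pderiv j (bind₁ g P) = ∑ i, bind₁ g (pderiv i P) * pderiv j (g i) := by
  classical
  induction P using MvPolynomial.induction_on with
  | C a => simp
  | add p q hp hq =>
    rw [map_add, map_add, hp, hq, ← Finset.sum_add_distrib]
    refine Finset.sum_congr rfl fun i _ => ?_
    rw [map_add, map_add, add_mul]
  | mul_X p k hp =>
    rw [map_mul, bind₁_X_right, Derivation.leibniz, hp]
    have h1 : ∀ i, bind₁ g (pderiv i (p * X k)) * pderiv j (g i) =
        g k * (bind₁ g (pderiv i p) * pderiv j (g i)) +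
        (if i = k then bind₁ g p * pderiv j (g i) else 0) := by
      intro i
      rw [Derivation.leibniz, smul_eq_mul, smul_eq_mul, pderiv_X]
      by_cases hik : i = k
      · subst hik
        rw [Pi.single_eq_same, if_pos rfl, map_add, map_mul, map_mul, bind₁_X_right, map_one]
        ring
      · rw [Pi.single_eq_of_ne (Ne.symm hik), if_neg hik, map_add, map_mul, map_mul,
          bind₁_X_right, map_zero]
        ring
    rw [Finset.sum_congr rfl fun i _ => h1 i, Finset.sum_add_distrib, ← Finset.mul_sum,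
      Finset.sum_ite_eq' Finset.univ k, if_pos (Finset.mem_univ _), smul_eq_mul, smul_eq_mul]
    ring

lemma jac_itp {N : ℕ} (f : Fin (N + 1) → MvPolynomial (Fin (N + 1)) ℂ) (l : ℕ)
    (z : Fin (N + 1) → ℂ) :
    jac (itp f (l + 1)) z = jac f ((pt f)^[l] z) * jac (itp f l) z := by
  ext i j
  rw [Matrix.mul_apply]
  change eval z (pderiv j (bind₁ (itp f l) (f i))) = _
  rw [pderiv_bind, map_sum]
  refine Finset.sum_congr rfl fun k _ => ?_
  rw [map_mul, Pool.Agent.R847.PC.eval_bind]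
  have h1 : (fun i => eval z (itp f l i)) = (pt f)^[l] z := by
    funext i
    exact eval_itp f l z i
  rw [h1]
  rfl

lemma det_itp {N : ℕ} (f : Fin (N + 1) → MvPolynomial (Fin (N + 1)) ℂ) (l : ℕ)
    (z : Fin (N + 1) → ℂ) (h : (jac (itp f l) z).det = 0) :
    ∃ i < l, (jac f ((pt f)^[i] z)).det = 0 := by
  induction l with
  | zero =>
    exfalso
    have h1 : jac (itp f 0) z = 1 := by
      ext i j
      change eval z (pderiv j (X i)) = _
      rw [pderiv_X, Matrix.one_apply]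
      by_cases hij : i = j
      · subst hij
        rw [Pi.single_eq_same, if_pos rfl, map_one]
      · rw [Pi.single_eq_of_ne hij, if_neg hij, map_zero]
    rw [h1, Matrix.det_one] at h
    exact one_ne_zero h
  | succ l ih =>
    rw [jac_itp, Matrix.det_mul] at h
    rcases mul_eq_zero.1 h with h | h
    · exact ⟨l, Nat.lt_succ_self _, h⟩
    · obtain ⟨i, hi, h1⟩ := ih h
      exact ⟨i, by omega, h1⟩

theorem plane_iter {d : ℕ} (hd : 2 ≤ d) (f : Fin 3 → MvPolynomial (Fin 3) ℂ)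
    (hf : ∀ i, (f i).IsHomogeneous d) (hfa : ∀ i, AlgCoeff (N := 2) (f i))
    (hf0 : ∀ z : Fin 3 → ℂ, (∀ i, eval z (f i) = 0) → z = 0)
    (c : Fin 3 → ℂ) (hc : c ≠ 0) (hca : ∀ i, IsAlgebraic ℚ (c i)) (l : ℕ) (hl : 0 < l)
    (hinv : ∀ z : Fin 3 → ℂ, ∑ i, c i * z i = 0 → ∑ i, c i * (pt f)^[l] z i = 0)
    (hcrit : ∀ z : Fin 3 → ℂ, z ≠ 0 → ∑ i, c i * z i = 0 →
      (∃ i < l, (jac f ((pt f)^[i] z)).det = 0) →
      Prep (N := 2) f z ∧ ¬ Peri (N := 2) f z) (α : Fin 3 → ℂ) : DmlAt (N := 2) f α := by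
  apply dml_of_iterate (N := 2) f l hl
  intro α
  have hdl : 2 ≤ d ^ l := by
    calc 2 ≤ d := hd
      _ = d ^ 1 := (pow_one d).symm
      _ ≤ d ^ l := Nat.pow_le_pow_right (by omega) hl
  refine plane hdl (itp f l) (itp_hom (N := 2) hf l) (AlgCoeff.itp (N := 2) hfa l) ?_ c hc hca ?_
    ?_ α
  · intro z hz
    by_contra hz0
    apply iter_ne_zero (N := 2) f hf0 z hz0 l
    rw [← pt_itp (N := 2)]
    funext i
    exact hz i
  · intro z hz
    rw [pt_itp (N := 2)]
    exact hinv z hz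
  · intro z hz hcz hJ
    obtain ⟨⟨n, q, hq, a, ha, h⟩, h2⟩ := hcrit z hz hcz (det_itp (N := 2) f l z hJ)
    constructor
    · obtain ⟨b, hb, h3⟩ := prep_more (N := 2) f hf z n q a ha h ((l - 1) * n) l
      refine ⟨n, q, hq, b, hb, ?_⟩
      rw [pt_itp (N := 2), ← Function.iterate_mul, ← Function.iterate_mul]
      have h4 : n + (l - 1) * n = l * n := by
        obtain ⟨l', rfl⟩ := Nat.exists_eq_add_of_le hl
        rw [Nat.add_sub_cancel_left]
        ring
      rw [h4, ← Function.iterate_add_apply] at h3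
      rw [show l * (n + q) = q * l + l * n by ring]
      exact h3
    · rintro ⟨q, hq, a, ha, h3⟩
      apply h2
      refine ⟨l * q, Nat.mul_pos hl hq, a, ha, ?_⟩
      rw [Function.iterate_mul, ← pt_itp (N := 2)]
      exact h3

end Pool.Agent.T6.H91.DML
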