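import Pool.Agent.T6.H91.DML.Dich
import Pool.Agent.T6.H91.DML.Iter

set_option autoImplicit false

/-! The dichotomy for points with algebraic coordinates and closed sets over `ℂ`. -/

namespace Pool.Agent.T6.H91.DML

open MvPolynomial Pool.Agent.H936R2 Pool.Agent.R847.PC NumberField Pool.Agent.Y199.DM

/-- The field of the algebraic numbers. -/
noncomputable abbrev QI : IntermediateField ℚ ℂ := algebraicClosure ℚ ℂ

lemma isAlgClosed_QI : IsAlgClosed QI := (algebraicClosure.isAlgClosure ℚ ℂ).isAlgClosed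

/-- Applying a linear map to the coefficients. -/
noncomputable def prj {n : ℕ} (φ : ℂ →ₗ[QI] QI) (P : MvPolynomial (Fin n) ℂ) :
    MvPolynomial (Fin n) QI :=
  ∑ κ ∈ P.support, monomial κ (φ (P.coeff κ))

lemma eval_prj {n : ℕ} (φ : ℂ →ₗ[QI] QI) (P : MvPolynomial (Fin n) ℂ) (z : Fin n → QI) :
    eval z (prj φ P) = φ (eval (fun i => (z i : ℂ)) P) := by
  rw [prj, map_sum, eval_eq', map_sum]
  refine Finset.sum_congr rfl fun κ _ => ?_
  rw [eval_monomial, Finsupp.prod_fintype _ _ fun i => pow_zero _]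
  have h1 : P.coeff κ * ∏ i, ((z i : QI) : ℂ) ^ κ i = (∏ i, z i ^ κ i : QI) • P.coeff κ := by
    rw [IntermediateField.smul_def, smul_eq_mul, mul_comm]
    congr 1
    push_cast
    rfl
  rw [h1, map_smul, smul_eq_mul, mul_comm]

lemma eval_map_QI {n : ℕ} (q : MvPolynomial (Fin n) QI) (z : Fin n → QI) :
    eval (fun i => (z i : ℂ)) (map (algebraMap QI ℂ) q) = ((eval z q : QI) : ℂ) := by
  rw [eval_map]
  have h := eval₂_comp_left (algebraMap QI ℂ) (RingHom.id _) z q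
  rw [RingHom.comp_id] at h
  exact h.symm

theorem dich_C {N d e r : ℕ} (hd : 2 ≤ d) (he : 1 ≤ e)
    (f : Fin (N + 1) → MvPolynomial (Fin (N + 1)) ℂ) (hf : ∀ i, (f i).IsHomogeneous d)
    (hfa : ∀ i, AlgCoeff (f i)) (hf0 : ∀ z : Fin (N + 1) → ℂ, (∀ i, eval z (f i) = 0) → z = 0)
    (g A : MvPolynomial (Fin (N + 1)) ℂ) (hg : g.IsHomogeneous e) (hga : AlgCoeff g)
    (hA : A.IsHomogeneous (e * (d - 1))) (hAa : AlgCoeff A) (hgA : bind₁ f g = g * A)
    (hvis : ∀ z : Fin (N + 1) → ℂ, z ≠ 0 → eval z g = 0 → ∀ P : Finset ℕ, P.card = r →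
      ∃ t ∈ P, eval ((pt f)^[t] z) A ≠ 0)
    (S : Set (MvPolynomial (Fin (N + 1)) ℂ)) (T : Finset (Fin (N + 1) → ℂ))
    (hT : ∀ z : Fin (N + 1) → ℂ, z ≠ 0 → eval z g = 0 → (∀ P ∈ S, eval z P = 0) →
      ∃ w ∈ T, ∃ a : ℂ, a ≠ 0 ∧ z = a • w)
    (hgood : ∀ z : Fin (N + 1) → ℂ, z ≠ 0 → eval z g = 0 → (∀ P ∈ S, eval z P = 0) →
      ∀ n, Peri f ((pt f)^[n] z) → (jac f ((pt f)^[n] z)).det ≠ 0)
    (α : Fin (N + 1) → ℂ) (hα : α ≠ 0) (hαa : ∀ i, IsAlgebraic ℚ (α i))
    (hcon : ¬ DmlAt f α) :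
    (∃ C : ℕ, ∀ n, {m | (∀ P ∈ S, eval ((pt f)^[m] α) P = 0) ∧ n ≤ m ∧ m + C < 2 * n}.ncard ≤
      T.card ^ 2 + 1) ∧
    ((∀ z : Fin (N + 1) → ℂ, z ≠ 0 → eval z g = 0 → (∀ P ∈ S, eval z P = 0) → Prep f z) →
      {m | ∀ P ∈ S, eval ((pt f)^[m] α) P = 0}.Finite) := by
  classical
  have hQI := isAlgClosed_QI
  -- the equations over the algebraic numbers
  let S' : Set (MvPolynomial (Fin (N + 1)) ℂ) :=
    {q | ∃ P ∈ S, ∃ φ : ℂ →ₗ[QI] QI, q = map (algebraMap QI ℂ) (prj φ P)}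
  have hS' : ∀ z : Fin (N + 1) → QI, (∀ q ∈ S', eval (fun i => (z i : ℂ)) q = 0) ↔
      ∀ P ∈ S, eval (fun i => (z i : ℂ)) P = 0 := by
    intro z
    constructor
    · intro h P hP
      rw [← Module.forall_dual_apply_eq_zero_iff QI]
      intro φ
      have h1 := h _ ⟨P, hP, φ, rfl⟩
      rw [eval_map_QI, eval_prj] at h1
      exact_mod_cast h1
    · rintro h _ ⟨P, hP, φ, rfl⟩
      rw [eval_map_QI, eval_prj, h P hP, map_zero]
      rfl
  obtain ⟨B, hB, hB'⟩ := Pool.Agent.R847.QP.finite_sub S'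
  have hBS : ∀ z : Fin (N + 1) → QI, (∀ q ∈ B, eval (fun i => (z i : ℂ)) q = 0) ↔
      ∀ P ∈ S, eval (fun i => (z i : ℂ)) P = 0 := by
    intro z
    rw [← hS']
    constructor
    · intro h
      by_contra hno
      push Not at hno
      obtain ⟨q, hq, hne⟩ := hB' _ hno
      exact hne (h q hq)
    · exact fun h q hq => h q (hB hq)
  have hBalg : ∀ q ∈ B, AlgCoeff q := by
    intro q hq κ
    obtain ⟨P, -, φ, rfl⟩ := hB hq
    rw [coeff_map]
    exact mem_algebraicClosure_iff.1 ((prj φ P).coeff κ).2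
  -- the algebraic points
  let good : (Fin (N + 1) → ℂ) → Prop := fun w => ∃ z : Fin (N + 1) → QI,
    (fun i => (z i : ℂ)) ≠ 0 ∧ eval (fun i => (z i : ℂ)) g = 0 ∧
    (∀ P ∈ S, eval (fun i => (z i : ℂ)) P = 0) ∧ ∃ a : ℂ, a ≠ 0 ∧ (fun i => (z i : ℂ)) = a • w
  let T1 := T.filter good
  have hT1 : ∀ w : T1, good w.1 := fun w => (Finset.mem_filter.1 w.2).2
  choose zz hz0 hzg hzS aa haa hzw using hT1
  let R := T1.card
  let ee : Fin R ≃ T1 := T1.equivFin.symm
  let Qc : Fin R → Fin (N + 1) → ℂ := fun i j => (zz (ee i) j : ℂ)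
  -- the finite set of algebraic numbers
  let U : Finset ℂ :=
    (Finset.univ.biUnion fun i => (f i).support.image fun κ => (f i).coeff κ) ∪
    (g.support.image fun κ => g.coeff κ) ∪ (A.support.image fun κ => A.coeff κ) ∪
    (B.biUnion fun P => P.support.image fun κ => P.coeff κ) ∪
    (Finset.univ.image α) ∪ (Finset.univ.biUnion fun i => Finset.univ.image (Qc i))
  have hUf : ∀ i κ, κ ∈ (f i).support → (f i).coeff κ ∈ U := by
    intro i κ hκ
    simp only [U, Finset.mem_union, Finset.mem_biUnion, Finset.mem_univ, true_and]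
    exact Or.inl (Or.inl (Or.inl (Or.inl (Or.inl ⟨i, Finset.mem_image_of_mem _ hκ⟩))))
  have hUg : ∀ κ, κ ∈ g.support → g.coeff κ ∈ U := by
    intro κ hκ
    simp only [U, Finset.mem_union]
    exact Or.inl (Or.inl (Or.inl (Or.inl (Or.inr (Finset.mem_image_of_mem _ hκ)))))
  have hUA : ∀ κ, κ ∈ A.support → A.coeff κ ∈ U := by
    intro κ hκ
    simp only [U, Finset.mem_union]
    exact Or.inl (Or.inl (Or.inl (Or.inr (Finset.mem_image_of_mem _ hκ))))
  have hUB : ∀ P ∈ B, ∀ κ, κ ∈ P.support → P.coeff κ ∈ U := by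
    intro P hP κ hκ
    simp only [U, Finset.mem_union, Finset.mem_biUnion]
    exact Or.inl (Or.inl (Or.inr ⟨P, hP, Finset.mem_image_of_mem _ hκ⟩))
  have hUα : ∀ j, α j ∈ U := by
    intro j
    simp only [U, Finset.mem_union]
    exact Or.inl (Or.inr (Finset.mem_image_of_mem _ (Finset.mem_univ _)))
  have hUQ : ∀ i j, Qc i j ∈ U := by
    intro i j
    simp only [U, Finset.mem_union, Finset.mem_biUnion, Finset.mem_univ, true_and]
    exact Or.inr ⟨i, Finset.mem_image_of_mem _ (Finset.mem_univ _)⟩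
  have hUalg : ∀ x ∈ U, IsAlgebraic ℚ x := by
    intro x hx
    simp only [U, Finset.mem_union, Finset.mem_biUnion, Finset.mem_image, Finset.mem_univ,
      true_and] at hx
    rcases hx with (((((⟨i, κ, -, rfl⟩ | ⟨κ, -, rfl⟩) | ⟨κ, -, rfl⟩) | ⟨P, hP, κ, -, rfl⟩) |
      ⟨j, rfl⟩) | ⟨i, j, rfl⟩)
    · exact hfa i κ
    · exact hga κ
    · exact hAa κ
    · exact hBalg P hP κ
    · exact hαa j
    · exact mem_algebraicClosure_iff.1 (zz (ee i) j).2
  let K : IntermediateField ℚ ℂ := IntermediateField.adjoin ℚ (U : Set ℂ)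
  have hfd : FiniteDimensional ℚ K := IntermediateField.finiteDimensional_adjoin fun x hx =>
    (hUalg x hx).isIntegral
  have hnf : NumberField K := { to_charZero := inferInstance, to_finiteDimensional := hfd }
  have hUK : ∀ x ∈ U, x ∈ K := fun x hx => IntermediateField.subset_adjoin ℚ _ hx
  have hKQ : K ≤ QI := by
    rw [IntermediateField.adjoin_le_iff]
    intro x hx
    exact mem_algebraicClosure_iff.2 (hUalg x hx)
  letI : Algebra K QI := (IntermediateField.inclusion hKQ).toRingHom.toAlgebra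
  have hcomp : (algebraMap QI ℂ).comp (algebraMap K QI) = algebraMap K ℂ := rfl
  -- lifting polynomials
  have hlift : ∀ P : MvPolynomial (Fin (N + 1)) ℂ, (∀ κ, κ ∈ P.support → P.coeff κ ∈ U) →
      ∃ Q : MvPolynomial (Fin (N + 1)) K, map (algebraMap K ℂ) Q = P := by
    intro P hP
    have h : P ∈ Set.range (map (σ := Fin (N + 1)) (algebraMap K ℂ)) := by
      rw [mem_range_map_iff_coeffs_subset]
      intro c hc
      rw [Finset.mem_coe, mem_coeffs_iff] at hc
      obtain ⟨κ, hκ, rfl⟩ := hc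
      exact ⟨⟨P.coeff κ, hUK _ (hP κ hκ)⟩, rfl⟩
    exact h
  have hinj : Function.Injective (map (σ := Fin (N + 1)) (algebraMap K ℂ)) :=
    map_injective _ (algebraMap K ℂ).injective
  have hhom : ∀ (Q : MvPolynomial (Fin (N + 1)) K) (e : ℕ),
      (map (algebraMap K ℂ) Q).IsHomogeneous e → Q.IsHomogeneous e := fun Q e hQ =>
    IsHomogeneous.of_map (algebraMap K ℂ).injective hQ
  choose f' hf' using fun i => hlift (f i) (hUf i)
  obtain ⟨g', hg'⟩ := hlift g hUg
  obtain ⟨A', hA'⟩ := hlift A hUA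
  have hext : ext f' = f := funext hf'
  obtain ⟨F, hF⟩ : ∃ B'' : Finset (MvPolynomial (Fin (N + 1)) K),
      B''.image (map (algebraMap K ℂ)) = B := by
    have h1 : ((B : Finset (MvPolynomial (Fin (N + 1)) ℂ)) :
        Set (MvPolynomial (Fin (N + 1)) ℂ)) ⊆ Set.range (map (algebraMap K ℂ)) := by
      intro P hP
      exact hlift P (hUB P hP)
    obtain ⟨B'', -, h2⟩ := Finset.subset_set_image_iff.1
      (show (B : Set (MvPolynomial (Fin (N + 1)) ℂ)) ⊆ map (algebraMap K ℂ) '' Set.univ by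
        rw [Set.image_univ]
        exact h1)
    exact ⟨B'', h2⟩
  let x0 : Fin (N + 1) → K := fun j => ⟨α j, hUK _ (hUα j)⟩
  let Q : Fin R → Fin (N + 1) → K := fun i j => ⟨Qc i j, hUK _ (hUQ i j)⟩
  have hx0 : x0 ≠ 0 := by
    intro h0
    apply hα
    funext j
    exact congrArg (fun z : K => (z : ℂ)) (congrFun h0 j)
  have hQ0 : ∀ i, Q i ≠ 0 := by
    intro i h0
    apply hz0 (ee i)
    funext j
    exact congrArg (fun z : K => (z : ℂ)) (congrFun h0 j)
  have hf'hom : ∀ i, (f' i).IsHomogeneous d := fun i => hhom _ _ (by rw [hf' i]; exact hf i)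
  have hg'hom : g'.IsHomogeneous e := hhom _ _ (by rw [hg']; exact hg)
  have hA'hom : A'.IsHomogeneous (e * (d - 1)) := hhom _ _ (by rw [hA']; exact hA)
  have hf'0 : ∀ z : Fin (N + 1) → ℂ, (∀ i, aeval z (f' i) = 0) → z = 0 := by
    intro z hz
    apply hf0
    intro i
    rw [← hf' i, ← aeval_eq_eval_map]
    exact hz i
  have hgA' : bind₁ f' g' = g' * A' := by
    apply hinj
    rw [map_mul, hg', hA', ← hgA, map_bind₁, hg']
    congr 2
  have hvis' : ∀ z : Fin (N + 1) → ℂ, z ≠ 0 → aeval z g' = 0 → ∀ P : Finset ℕ, P.card = r →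
      ∃ t ∈ P, aeval ((pt fun i => map (algebraMap K ℂ) (f' i))^[t] z) A' ≠ 0 := by
    intro z hz hgz P hP
    have h1 : (fun i => map (algebraMap K ℂ) (f' i)) = f := hext
    rw [h1]
    rw [aeval_eq_eval_map, hg'] at hgz
    obtain ⟨t, ht, hne⟩ := hvis z hz hgz P hP
    refine ⟨t, ht, ?_⟩
    rw [aeval_eq_eval_map, hA']
    exact hne
  have haevalQ : ∀ (z : Fin (N + 1) → QI) (P : MvPolynomial (Fin (N + 1)) K),
      ((aeval z P : QI) : ℂ) = eval (fun i => (z i : ℂ)) (map (algebraMap K ℂ) P) := by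
    intro z P
    rw [eval_map, ← hcomp, aeval_def]
    exact eval₂_comp_left (algebraMap QI ℂ) (algebraMap K QI) z P
  have hFB : ∀ z : Fin (N + 1) → QI, (∀ P ∈ F, aeval z P = 0) ↔
      ∀ P ∈ S, eval (fun i => (z i : ℂ)) P = 0 := by
    intro z
    rw [← hBS]
    constructor
    · intro h q hq
      rw [← hF] at hq
      obtain ⟨P, hP, rfl⟩ := Finset.mem_image.1 hq
      rw [← haevalQ, h P hP]
      rfl
    · intro h P hP
      have h1 := h _ (by rw [← hF]; exact Finset.mem_image_of_mem _ hP)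
      rw [← haevalQ] at h1
      exact_mod_cast h1
  have hVE : ∀ z : Fin (N + 1) → QI, z ≠ 0 → aeval z g' = 0 → (∀ P ∈ F, aeval z P = 0) →
      ∃ i, ∀ a b, z a * algebraMap K QI (Q i b) = z b * algebraMap K QI (Q i a) := by
    intro z hz hgz hFz
    rw [hFB] at hFz
    have hgz' : eval (fun i => (z i : ℂ)) g = 0 := by
      rw [← hg', ← haevalQ, hgz]
      rfl
    have hz' : (fun i => (z i : ℂ)) ≠ 0 := by
      intro h0
      apply hz
      funext i
      have h1 : (z i : ℂ) = 0 := congrFun h0 i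
      exact_mod_cast h1
    obtain ⟨w, hw, a, ha, hzw'⟩ := hT _ hz' hgz' hFz
    have hwT1 : w ∈ T1 := Finset.mem_filter.2 ⟨hw, z, hz', hgz', hFz, a, ha, hzw'⟩
    refine ⟨ee.symm ⟨w, hwT1⟩, fun i j => ?_⟩
    have h1 : Qc (ee.symm ⟨w, hwT1⟩) = aa ⟨w, hwT1⟩ • w := by
      have h2 := hzw ⟨w, hwT1⟩
      simp only [Qc, Equiv.apply_symm_apply]
      exact h2
    have h3 : ((z i : QI) : ℂ) * Qc (ee.symm ⟨w, hwT1⟩) j =
        (z j : ℂ) * Qc (ee.symm ⟨w, hwT1⟩) i := by
      have h4 := congrFun hzw' i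
      have h5 := congrFun hzw' j
      simp only [Pi.smul_apply, smul_eq_mul] at h4 h5
      rw [h1, h4, h5, Pi.smul_apply, Pi.smul_apply, smul_eq_mul, smul_eq_mul]
      ring
    apply (algebraMap QI ℂ).injective
    rw [map_mul, map_mul]
    exact h3
  have hQc : ∀ i, (fun l => algebraMap K ℂ (Q i l)) = Qc i := fun i => rfl
  have hQdich : ∀ i, EtalePreperiodic (ext f') (fun l => algebraMap K ℂ (Q i l)) ∨
      NotPrep f' (Q i) := by
    intro i
    by_cases hp : Prep f (Qc i)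
    · left
      rw [hext, hQc]
      obtain ⟨n, q, hq, a, ha, h⟩ := hp
      refine ⟨iter_ne_zero f hf0 _ (hz0 _), n, q, hq, ⟨a, h⟩, fun m hm => ?_⟩
      obtain ⟨l, rfl⟩ := Nat.exists_eq_add_of_le hm
      obtain ⟨b, hb, h1⟩ := prep_more f hf (Qc i) n q a ha h l 1
      rw [Nat.mul_one] at h1
      exact hgood (Qc i) (hz0 _) (hzg _) (hzS _) (n + l) ⟨q, hq, b, hb, h1⟩
    · right
      rintro m n hmn ⟨c, hc, h⟩
      apply hp
      obtain ⟨l, rfl⟩ := Nat.exists_eq_add_of_le hmn.le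
      refine ⟨m, l, by omega, algebraMap K ℂ c, (map_ne_zero _).2 hc, ?_⟩
      rw [← hext, ← hQc, ext_iter, ext_iter, h]
      funext j
      simp only [Pi.smul_apply, smul_eq_mul, map_mul]
  have hcon' : ¬ DmlAt (ext f') fun i => algebraMap K ℂ (x0 i) := by
    rw [hext]
    exact hcon
  obtain ⟨hw, hfin⟩ := dich (Ω := QI) hd he f' hf'hom hf'0 g' A' hg'hom hA'hom hgA' hvis' F Q hQ0
    hVE hQdich x0 hx0 hcon'
  have hret : ∀ m, (∀ P ∈ F, eval ((pt f')^[m] x0) P = 0) ↔ ∀ P ∈ S, eval ((pt f)^[m] α) P = 0 := by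
    intro m
    have h1 := hFB fun i => algebraMap K QI ((pt f')^[m] x0 i)
    have h2 : (fun i => ((algebraMap K QI ((pt f')^[m] x0 i) : QI) : ℂ)) = (pt f)^[m] α := by
      rw [← hext]
      exact (ext_iter f' x0 m).symm
    rw [h2] at h1
    rw [← h1]
    refine forall_congr' fun P => forall_congr' fun _ => ?_
    rw [aeval_alg]
    exact (map_eq_zero _).symm
  simp only [hret] at hw hfin
  constructor
  · obtain ⟨C, hC⟩ := hw
    refine ⟨C, fun n => (hC n).trans ?_⟩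
    have hR : R ≤ T.card := Finset.card_filter_le _ _
    exact Nat.add_le_add_right (Nat.pow_le_pow_left hR 2) 1
  · intro hall
    apply hfin
    intro i
    refine (hQdich i).resolve_right fun hnp => ?_
    obtain ⟨n, q, hq, a, ha, h⟩ := hall (Qc i) (hz0 _) (hzg _) (hzS _)
    -- a preperiodic point with coordinates in `K`
    obtain ⟨j, hj'⟩ := Function.ne_iff.1 (iter_ne_zero f hf0 _ (hz0 (ee i)) n)
    have hj : (pt f)^[n] (Qc i) j ≠ 0 := hj'
    have haK : a ∈ K := by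
      have h1 := congrFun h j
      rw [Pi.smul_apply, smul_eq_mul] at h1
      have h2 : a = (pt f)^[n + q] (Qc i) j / (pt f)^[n] (Qc i) j := by
        rw [h1]
        field_simp
      have h3 : ∀ m, (pt f)^[m] (Qc i) j = algebraMap K ℂ ((pt f')^[m] (Q i) j) := by
        intro m
        rw [← hext, ← hQc, ext_iter]
      rw [h2, h3, h3, ← map_div₀]
      exact ((pt f')^[n + q] (Q i) j / (pt f')^[n] (Q i) j).2
    apply hnp n (n + q) (by omega)
    refine ⟨⟨a, haK⟩, ?_, ?_⟩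
    · intro h0
      exact ha (congrArg (fun z : K => (z : ℂ)) h0)
    · rw [← hext, ← hQc, ext_iter, ext_iter] at h
      funext l
      exact (algebraMap K ℂ).injective (congrFun h l)

end Pool.Agent.T6.H91.DML
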