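import Pool.Agent.T6.H91.DML.Good

set_option autoImplicit false

/-! The dichotomy for orbits over number fields. -/

namespace Pool.Agent.T6.H91.DML

open MvPolynomial Height NumberField Pool.Agent.H936R2 Pool.Agent.R847.PC Filter
open Height.AdmissibleAbsValues Pool.Agent.Y199.DM

/-- The point `Q` is not preperiodic. -/
def NotPrep {𝕂 : Type} [Field 𝕂] {N : ℕ} (f : Fin (N + 1) → MvPolynomial (Fin (N + 1)) 𝕂)
    (Q : Fin (N + 1) → 𝕂) : Prop :=
  ∀ m n, m < n → ¬ ∃ c : 𝕂, c ≠ 0 ∧ (pt f)^[n] Q = c • (pt f)^[m] Q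

lemma aeval_alg {𝕂 Ω : Type} [Field 𝕂] [Field Ω] [Algebra 𝕂 Ω] {N : ℕ} (y : Fin (N + 1) → 𝕂)
    (P : MvPolynomial (Fin (N + 1)) 𝕂) :
    aeval (fun l => algebraMap 𝕂 Ω (y l)) P = algebraMap 𝕂 Ω (eval y P) := by
  have h5 := aeval_algebraMap_apply (A := 𝕂) Ω y P
  exact h5

/-- Logarithmic sizes of wedge products. -/
lemma log_wedge {𝕂 : Type} [Field 𝕂] {N : ℕ} (w : AbsoluteValue 𝕂 ℝ) (x y : Fin (N + 1) → 𝕂)
    (a b : Fin (N + 1)) (h : x a * y b - x b * y a ≠ 0) :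
    Real.log (w (x a * y b - x b * y a)) ≤ 1 + (Real.log (mx w x) + Real.log (mx w y)) := by
  have hx : x ≠ 0 := by
    rintro rfl
    simp at h
  have hy : y ≠ 0 := by
    rintro rfl
    simp at h
  have h1 := Real.log_le_log (w.pos h) (wedge_size w x y a b)
  rw [Real.log_mul two_ne_zero (mul_pos (mx_pos w x hx) (mx_pos w y hy)).ne',
    Real.log_mul (mx_pos w x hx).ne' (mx_pos w y hy).ne'] at h1
  have h2 : Real.log 2 ≤ 1 := by
    have := Real.log_two_lt_d9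
    linarith
  linarith

section

variable {𝕂 : Type} [Field 𝕂] [NumberField 𝕂] [Algebra 𝕂 ℂ] {N : ℕ}
variable {Ω : Type} [Field Ω] [IsAlgClosed Ω] [Algebra 𝕂 Ω]

/-- The key estimate, for orbits outside the invariant hypersurface. -/
theorem dich_key {d e r R : ℕ} (hd : 2 ≤ d) (he : 1 ≤ e)
    (f : Fin (N + 1) → MvPolynomial (Fin (N + 1)) 𝕂) (hf : ∀ i, (f i).IsHomogeneous d)
    (hf0 : ∀ z : Fin (N + 1) → ℂ, (∀ i, aeval z (f i) = 0) → z = 0)
    (g A : MvPolynomial (Fin (N + 1)) 𝕂) (hg : g.IsHomogeneous e)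
    (hA : A.IsHomogeneous (e * (d - 1))) (hgA : bind₁ f g = g * A)
    (hvis : ∀ z : Fin (N + 1) → ℂ, z ≠ 0 → aeval z g = 0 → ∀ P : Finset ℕ, P.card = r →
      ∃ t ∈ P, aeval ((pt fun i => map (algebraMap 𝕂 ℂ) (f i))^[t] z) A ≠ 0)
    (F : Finset (MvPolynomial (Fin (N + 1)) 𝕂)) (Q : Fin R → Fin (N + 1) → 𝕂)
    (hQ0 : ∀ i, Q i ≠ 0)
    (hVE : ∀ z : Fin (N + 1) → Ω, z ≠ 0 → aeval z g = 0 → (∀ P ∈ F, aeval z P = 0) →
      ∃ i, ∀ a b, z a * algebraMap 𝕂 Ω (Q i b) = z b * algebraMap 𝕂 Ω (Q i a))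
    (x0 : Fin (N + 1) → 𝕂) (hx0 : x0 ≠ 0)
    (hcon : ¬ DmlAt (ext f) fun i => algebraMap 𝕂 ℂ (x0 i))
    (hg0 : ∀ n, eval ((pt f)^[n] x0) g ≠ 0) :
    ∃ C0 : ℕ, ∀ n k, (∀ P ∈ F, eval ((pt f)^[n] x0) P = 0) →
      (∀ P ∈ F, eval ((pt f)^[n + k] x0) P = 0) → k + C0 < n →
      ∃ i j, ¬ EtalePreperiodic (ext f) (fun l => algebraMap 𝕂 ℂ (Q i l)) ∧
        ¬ EtalePreperiodic (ext f) (fun l => algebraMap 𝕂 ℂ (Q j l)) ∧
        ∃ c : 𝕂, c ≠ 0 ∧ (pt f)^[k] (Q i) = c • Q j := by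
  classical
  have hexthom : ∀ i, (ext f i).IsHomogeneous d := fun i => (hf i).map _
  set x : ℕ → Fin (N + 1) → 𝕂 := fun n => (pt f)^[n] x0 with hx
  have hxne : ∀ n, x n ≠ 0 := ne_zero_iter f hf0 x0 hx0
  have hQne : ∀ i k, (pt f)^[k] (Q i) ≠ 0 := fun i => ne_zero_iter f hf0 (Q i) (hQ0 i)
  have hxadd : ∀ n k, x (n + k) = (pt f)^[k] (x n) := by
    intro n k
    change (pt f)^[n + k] x0 = (pt f)^[k] ((pt f)^[n] x0)
    rw [Nat.add_comm n k, Function.iterate_add_apply]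
  have hgs : ∀ n, eval (x (n + 1)) g = eval (x n) g * eval (x n) A := by
    intro n
    have h1 := congrArg (eval (x n)) hgA
    rw [eval_bind, map_mul] at h1
    have h2 : x (n + 1) = pt f (x n) := Function.iterate_succ_apply' _ _ _
    rw [h2, ← h1]
    rfl
  have hA0 : ∀ n, eval (x n) A ≠ 0 := by
    intro n h
    apply hg0 (n + 1)
    have := hgs n
    rw [h, mul_zero] at this
    exact this
  -- not preperiodic
  have hnp : ∀ m n, m < n → ¬ ∃ c : 𝕂, c ≠ 0 ∧ (pt f)^[n] x0 = c • (pt f)^[m] x0 := by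
    rintro m n hmn ⟨c, hc, hcn⟩
    apply hcon
    obtain ⟨l, rfl⟩ := Nat.exists_eq_add_of_le hmn.le
    refine dml_of_preperiodic (ext f) hexthom _ m l (by omega) (algebraMap 𝕂 ℂ c)
      ((map_ne_zero _).2 hc) ?_
    rw [ext_iter, ext_iter, hcn]
    funext i
    simp only [Pi.smul_apply, smul_eq_mul, map_mul]
  -- certificates
  obtain ⟨B1, hB1⟩ := cert_good f hf0
  obtain ⟨m, B2, hm, hB2⟩ := cert_close g F Q hVE
  have hclose : ∀ i, ∃ (B : Finset 𝕂) (D : ℕ),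
      EtalePreperiodic (ext f) (fun l => algebraMap 𝕂 ℂ (Q i l)) →
      ∀ v : nonarchAbsVal (K := 𝕂), (∀ b ∈ B, v.val b ≤ 1) →
      (∀ p : ℕ, p.Prime → p ≤ D → ¬ v.val (p : 𝕂) < 1) →
      ∀ x : Fin (N + 1) → 𝕂, (∀ i, v.val (x i) ≤ 1) → (∃ i, v.val (x i) = 1) →
      wd v.val x (Q i) < 1 → DmlAt (ext f) fun i => algebraMap 𝕂 ℂ (x i) := by
    intro i
    by_cases hi : EtalePreperiodic (ext f) (fun l => algebraMap 𝕂 ℂ (Q i l))
    · obtain ⟨B, D, h⟩ := dml_of_close f hf (Q i) hi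
      exact ⟨B, D, fun _ => h⟩
    · exact ⟨∅, 0, fun h => absurd h hi⟩
  choose B3 D3 hBD using hclose
  obtain ⟨i0, hi0⟩ := Function.ne_iff.1 hx0
  have hi0' : x0 i0 ≠ 0 := hi0
  have hQi : ∀ i, ∃ l, Q i l ≠ 0 := fun i => Function.ne_iff.1 (hQ0 i)
  choose l0 hl0 using hQi
  let B : Finset 𝕂 := B1 ∪ B2 ∪ (Finset.univ.biUnion B3) ∪
    (Finset.univ.biUnion fun i => (f i).support.image fun κ => (f i).coeff κ) ∪
    (g.support.image fun κ => g.coeff κ) ∪ (A.support.image fun κ => A.coeff κ) ∪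
    Finset.univ.image x0 ∪ {(x0 i0)⁻¹} ∪ (Finset.univ.biUnion fun i => Finset.univ.image (Q i)) ∪
    Finset.univ.image fun i => (Q i (l0 i))⁻¹
  let D := ∑ i, D3 i
  have hDle : ∀ i, D3 i ≤ D := fun i => Finset.single_le_sum (fun _ _ => Nat.zero_le _)
    (Finset.mem_univ i)
  have hfin := (finite_bad B).union (finite_bad' (𝕂 := 𝕂) D)
  set S : Finset (nonarchAbsVal (K := 𝕂)) := hfin.toFinset with hS
  have hvS : ∀ v : nonarchAbsVal (K := 𝕂), v ∉ S → (∀ b ∈ B, v.val b ≤ 1) ∧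
      ∀ p : ℕ, p.Prime → p ≤ D → ¬ v.val (p : 𝕂) < 1 := by
    intro v hv
    rw [hS, Set.Finite.mem_toFinset, Set.mem_union, not_or] at hv
    obtain ⟨hv1, hv2⟩ := hv
    refine ⟨fun b hb => ?_, fun p hp hpD hlt => hv2 ⟨p, hp, hpD, hlt⟩⟩
    by_contra hlt
    exact hv1 ⟨b, hb, not_le.1 hlt⟩
  have hmem1 : ∀ b ∈ B1, b ∈ B := fun b hb => by simp [B, hb]
  have hmem2 : ∀ b ∈ B2, b ∈ B := fun b hb => by simp [B, hb]
  have hmem3 : ∀ i, ∀ b ∈ B3 i, b ∈ B := by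
    intro i b hb
    simp only [B, Finset.mem_union, Finset.mem_biUnion, Finset.mem_univ, true_and]
    exact Or.inl (Or.inl (Or.inl (Or.inl (Or.inl (Or.inl (Or.inl (Or.inr ⟨i, hb⟩)))))))
  have hmemf : ∀ i κ, κ ∈ (f i).support → (f i).coeff κ ∈ B := by
    intro i κ hκ
    simp only [B, Finset.mem_union, Finset.mem_biUnion, Finset.mem_univ, true_and]
    exact Or.inl (Or.inl (Or.inl (Or.inl (Or.inl (Or.inl (Or.inr
      ⟨i, Finset.mem_image_of_mem _ hκ⟩))))))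
  have hmemg : ∀ κ, κ ∈ g.support → g.coeff κ ∈ B := by
    intro κ hκ
    simp only [B, Finset.mem_union]
    exact Or.inl (Or.inl (Or.inl (Or.inl (Or.inl (Or.inr (Finset.mem_image_of_mem _ hκ))))))
  have hmemA : ∀ κ, κ ∈ A.support → A.coeff κ ∈ B := by
    intro κ hκ
    simp only [B, Finset.mem_union]
    exact Or.inl (Or.inl (Or.inl (Or.inl (Or.inr (Finset.mem_image_of_mem _ hκ)))))
  have hmemx : ∀ i, x0 i ∈ B := by
    intro i
    simp only [B, Finset.mem_union]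
    exact Or.inl (Or.inl (Or.inl (Or.inr (Finset.mem_image_of_mem _ (Finset.mem_univ _)))))
  have hmemxi : (x0 i0)⁻¹ ∈ B := by simp [B]
  have hmemQ : ∀ i l, Q i l ∈ B := by
    intro i l
    simp only [B, Finset.mem_union, Finset.mem_biUnion, Finset.mem_univ, true_and]
    exact Or.inl (Or.inr ⟨i, Finset.mem_image_of_mem _ (Finset.mem_univ _)⟩)
  have hmemQi : ∀ i, (Q i (l0 i))⁻¹ ∈ B := by
    intro i
    simp only [B, Finset.mem_union]
    exact Or.inr (Finset.mem_image_of_mem _ (Finset.mem_univ _))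
  have hone : ∀ (v : nonarchAbsVal (K := 𝕂)) (t : 𝕂), t ≠ 0 → v.val t ≤ 1 → v.val t⁻¹ ≤ 1 →
      v.val t = 1 := by
    intro v t ht h1 h2
    refine le_antisymm h1 ?_
    rw [map_inv₀] at h2
    exact (inv_le_one₀ (v.val.pos ht)).1 h2
  -- local facts
  have hcf : ∀ v : nonarchAbsVal (K := 𝕂), v ∉ S → ∀ i κ, (f i).coeff κ ∈ vring v := by
    intro v hv i κ
    by_cases hκ : κ ∈ (f i).support
    · exact (hvS v hv).1 _ (hmemf i κ hκ)
    · rw [notMem_support_iff.1 hκ]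
      exact (vring v).zero_mem
  have hcg : ∀ v : nonarchAbsVal (K := 𝕂), v ∉ S → ∀ κ, g.coeff κ ∈ vring v := by
    intro v hv κ
    by_cases hκ : κ ∈ g.support
    · exact (hvS v hv).1 _ (hmemg κ hκ)
    · rw [notMem_support_iff.1 hκ]
      exact (vring v).zero_mem
  have hcA : ∀ v : nonarchAbsVal (K := 𝕂), v ∉ S → ∀ κ, A.coeff κ ∈ vring v := by
    intro v hv κ
    by_cases hκ : κ ∈ A.support
    · exact (hvS v hv).1 _ (hmemA κ hκ)
    · rw [notMem_support_iff.1 hκ]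
      exact (vring v).zero_mem
  have hxint : ∀ v : nonarchAbsVal (K := 𝕂), v ∉ S → ∀ n i, v.val (x n i) ≤ 1 := fun v hv n =>
    iter_mem (vring v) f (hcf v hv) x0 (fun i => (hvS v hv).1 _ (hmemx i)) n
  have hxprim : ∀ v : nonarchAbsVal (K := 𝕂), v ∉ S → ∀ n, ∃ i, v.val (x n i) = 1 := fun v hv n =>
    hB1 v (fun b hb => (hvS v hv).1 b (hmem1 b hb)) (hcf v hv) x0
      (fun i => (hvS v hv).1 _ (hmemx i))
      ⟨i0, hone v _ hi0' ((hvS v hv).1 _ (hmemx i0)) ((hvS v hv).1 _ hmemxi)⟩ n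
  have hQint : ∀ v : nonarchAbsVal (K := 𝕂), v ∉ S → ∀ i k l, v.val ((pt f)^[k] (Q i) l) ≤ 1 :=
    fun v hv i k => iter_mem (vring v) f (hcf v hv) (Q i) (fun l => (hvS v hv).1 _ (hmemQ i l)) k
  have hgle : ∀ v : nonarchAbsVal (K := 𝕂), v ∉ S → ∀ n, v.val (eval (x n) g) ≤ 1 :=
    fun v hv n => eval_mem_subring (vring v) _ (hxint v hv n) _ (hcg v hv)
  have hAle : ∀ v : nonarchAbsVal (K := 𝕂), v ∉ S → ∀ n, v.val (eval (x n) A) ≤ 1 :=
    fun v hv n => eval_mem_subring (vring v) _ (hxint v hv n) _ (hcA v hv)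
  have hgmono : ∀ v : nonarchAbsVal (K := 𝕂), v ∉ S → ∀ n k,
      v.val (eval (x (n + k)) g) ≤ v.val (eval (x n) g) := by
    intro v hv n k
    induction k with
    | zero => exact le_rfl
    | succ k ih =>
      rw [← Nat.add_assoc, hgs, map_mul]
      exact (mul_le_of_le_one_right (v.val.nonneg _) (hAle v hv _)).trans ih
  have hmx1 : ∀ v : nonarchAbsVal (K := 𝕂), v ∉ S → ∀ n, mx v.val ((pt f)^[n] x0) = 1 := by
    intro v hv n
    refine le_antisymm (mx_le (hxint v hv n)) ?_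
    obtain ⟨i, hi⟩ := hxprim v hv n
    rw [← hi]
    exact le_mx v.val (x n) i
  -- near the hypersurface
  have hnear : ∀ v : nonarchAbsVal (K := 𝕂), v ∉ S → ∀ n, (∀ P ∈ F, eval (x n) P = 0) →
      v.val (eval (x n) g) < 1 → ∃ i,
        ¬ EtalePreperiodic (ext f) (fun l => algebraMap 𝕂 ℂ (Q i l)) ∧
        wd v.val (x n) (Q i) ^ m ≤ v.val (eval (x n) g) := by
    intro v hv n hn hlt
    obtain ⟨i, hi⟩ := hB2 v (fun b hb => (hvS v hv).1 b (hmem2 b hb))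
      (fun i a => hQint v hv i 0 a) (x n) (hxint v hv n) (hxprim v hv n) hn hlt
    refine ⟨i, fun hEt => ?_, hi⟩
    apply hcon
    apply dmlAt_shift _ _ n
    rw [ext_iter]
    refine hBD i hEt v (fun b hb => (hvS v hv).1 b (hmem3 i b hb))
      (fun p hp hpD => (hvS v hv).2 p hp (hpD.trans (hDle i))) (x n) (hxint v hv n)
      (hxprim v hv n) ?_
    by_contra hge
    rw [not_lt] at hge
    have h1 := one_le_pow₀ hge (n := m)
    linarith
  -- heights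
  obtain ⟨hHt, Cg, hCg0, hCg⟩ := height_growth hd f hf hf0 x0 hx0 hnp S hmx1
  obtain ⟨c1, hc1, n1, hn1⟩ := exp_growth _ d hd Cg hCg0 hCg hHt
  obtain ⟨δ, hδ, n2, hn2⟩ := core2 (ww S) hd he f hf hf0 g A hg hA hgA hvis x0 hx0 hg0
    (fun n => pf_one S _ (hg0 n) fun v hv => hgle v hv n)
    (fun n => pf_one S _ (hA0 n) fun v hv => hAle v hv n) hHt
  choose CQ hCQ0 hCQ using fun (j : JJ S) (i : Fin R) =>
    growth_upper (ww S j) hd f hf (Q i) (hQne i)
  let Cbig : ℝ := ∑ j : JJ S, ∑ p : Fin R × Fin R, (m : ℝ) * (1 + (CQ j p.1 + CQ j p.2))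
  have hCbig0 : 0 ≤ Cbig := by
    refine Finset.sum_nonneg fun j _ => Finset.sum_nonneg fun p _ => ?_
    have h1 := hCQ0 j p.1
    have h2 := hCQ0 j p.2
    positivity
  have hdR : (2 : ℝ) ≤ d := by exact_mod_cast hd
  have hd1 : (1 : ℝ) < d := by linarith
  obtain ⟨t0, ht0⟩ := pow_unbounded_of_one_lt (Cbig / (δ * c1)) hd1
  refine ⟨n1 + n2 + t0, fun n k hn hnk hkn => ?_⟩
  by_contra hno
  push Not at hno
  -- the nonzero wedge products
  have hnonpar : ∀ p : Fin R × Fin R, ∃ q : Fin (N + 1) × Fin (N + 1),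
      ¬ EtalePreperiodic (ext f) (fun l => algebraMap 𝕂 ℂ (Q p.1 l)) →
      ¬ EtalePreperiodic (ext f) (fun l => algebraMap 𝕂 ℂ (Q p.2 l)) →
      (pt f)^[k] (Q p.1) q.1 * Q p.2 q.2 - (pt f)^[k] (Q p.1) q.2 * Q p.2 q.1 ≠ 0 := by
    intro p
    by_contra hall
    push Not at hall
    obtain ⟨h1, h2, -⟩ := hall (0, 0)
    obtain ⟨a, ha, hpar⟩ := par_of_zero ((pt f)^[k] (Q p.1)) (Q p.2) (hQne _ _) (hQ0 _)
      fun i j => (hall (i, j)).2.2
    exact hno p.1 p.2 h1 h2 a ha hpar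
  choose q hq using hnonpar
  let NP : Finset (Fin R × Fin R) := Finset.univ.filter fun p =>
    ¬ EtalePreperiodic (ext f) (fun l => algebraMap 𝕂 ℂ (Q p.1 l)) ∧
    ¬ EtalePreperiodic (ext f) (fun l => algebraMap 𝕂 ℂ (Q p.2 l))
  let y : Fin R × Fin R → 𝕂 := fun p =>
    (pt f)^[k] (Q p.1) (q p).1 * Q p.2 (q p).2 - (pt f)^[k] (Q p.1) (q p).2 * Q p.2 (q p).1
  have hy : ∀ p ∈ NP, y p ≠ 0 := by
    intro p hp
    obtain ⟨-, h1, h2⟩ := Finset.mem_filter.1 hp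
    exact hq p h1 h2
  let Y : 𝕂 := ∏ p ∈ NP, y p ^ m
  have hY0 : Y ≠ 0 := Finset.prod_ne_zero_iff.2 fun p hp => pow_ne_zero _ (hy p hp)
  have hy1 : ∀ v : nonarchAbsVal (K := 𝕂), v ∉ S → ∀ p, v.val (y p) ≤ 1 := by
    intro v hv p
    exact (le_wd v.val _ _ _ _).trans (wd_le_one v (hQint v hv _ _) (hQint v hv _ 0))
  have hYle : ∀ v : nonarchAbsVal (K := 𝕂), v ∉ S → v.val Y ≤ v.val (eval (x n) g) := by
    intro v hv
    have hY : v.val Y = ∏ p ∈ NP, v.val (y p) ^ m := by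
      simp only [Y, map_prod, map_pow]
    rcases (hgle v hv n).lt_or_eq with hlt | heq
    · obtain ⟨i, hi, hwi⟩ := hnear v hv n hn hlt
      obtain ⟨j, hj, hwj⟩ := hnear v hv (n + k) hnk ((hgmono v hv n k).trans_lt hlt)
      have hp : (i, j) ∈ NP := Finset.mem_filter.2 ⟨Finset.mem_univ _, hi, hj⟩
      have h1 : wd v.val ((pt f)^[k] (Q i)) (Q j) ≤
          max (wd v.val (x (n + k)) ((pt f)^[k] (Q i))) (wd v.val (x (n + k)) (Q j)) :=
        wd_tri v _ _ _ (hxint v hv _) (hQint v hv i k) (hQint v hv j 0) (hxprim v hv _)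
      have h2 : wd v.val (x (n + k)) ((pt f)^[k] (Q i)) ≤ wd v.val (x n) (Q i) := by
        rw [hxadd]
        refine wd_iter v f hf (hcf v hv) (x n) (Q i) (hxint v hv n) (hQint v hv i 0)
          (fun l => ?_) k
        rw [← hxadd]
        exact hxprim v hv _
      have h3 : wd v.val ((pt f)^[k] (Q i)) (Q j) ^ m ≤ v.val (eval (x n) g) := by
        rcases le_max_iff.1 h1 with h4 | h4
        · exact (pow_le_pow_left₀ (wd_nonneg _ _ _) (h4.trans h2) m).trans hwi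
        · exact (pow_le_pow_left₀ (wd_nonneg _ _ _) h4 m).trans (hwj.trans (hgmono v hv n k))
      have h4 : v.val (y (i, j)) ^ m ≤ wd v.val ((pt f)^[k] (Q i)) (Q j) ^ m :=
        pow_le_pow_left₀ (v.val.nonneg _) (le_wd v.val _ _ _ _) m
      rw [hY, ← Finset.mul_prod_erase _ _ hp]
      refine (mul_le_of_le_one_right (pow_nonneg (v.val.nonneg _) _) ?_).trans (h4.trans h3)
      exact Finset.prod_le_one (fun p _ => pow_nonneg (v.val.nonneg _) _)
        fun p _ => pow_le_one₀ (v.val.nonneg _) (hy1 v hv p)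
    · rw [heq, hY]
      exact Finset.prod_le_one (fun p _ => pow_nonneg (v.val.nonneg _) _)
        fun p _ => pow_le_one₀ (v.val.nonneg _) (hy1 v hv p)
  have hpf := pf_le S Y (eval (x n) g) hY0 (hg0 n) hYle
  have hlogpf : Real.log (∏ j, ww S j (eval (x n) g)) ≤ Real.log (∏ j, ww S j Y) :=
    Real.log_le_log (Finset.prod_pos fun j _ => (ww S j).pos (hg0 n)) hpf
  have hdk : (1 : ℝ) ≤ (d : ℝ) ^ k := one_le_pow₀ hd1.le
  have hup : Real.log (∏ j, ww S j Y) ≤ Cbig * (d : ℝ) ^ k := by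
    rw [Real.log_prod fun j _ => ((ww S j).pos hY0).ne', Finset.sum_mul]
    refine Finset.sum_le_sum fun j _ => ?_
    have h1 : ww S j Y = ∏ p ∈ NP, ww S j (y p) ^ m := by
      simp only [Y, map_prod, map_pow]
    rw [h1, Real.log_prod fun p hp => (pow_pos ((ww S j).pos (hy p hp)) _).ne', Finset.sum_mul]
    refine (Finset.sum_le_sum (g := fun p => (m : ℝ) * (1 + (CQ j p.1 + CQ j p.2)) * (d : ℝ) ^ k)
      fun p hp => ?_).trans ?_
    · rw [Real.log_pow, mul_assoc]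
      apply mul_le_mul_of_nonneg_left _ (Nat.cast_nonneg _)
      have h2 := log_wedge (ww S j) ((pt f)^[k] (Q p.1)) (Q p.2) (q p).1 (q p).2 (hy p hp)
      have h3 := hCQ j p.1 k
      have h4 := hCQ j p.2 0
      rw [pow_zero, mul_one, Function.iterate_zero, id] at h4
      have h5 : CQ j p.2 ≤ CQ j p.2 * (d : ℝ) ^ k :=
        le_mul_of_one_le_right (hCQ0 j p.2) hdk
      have h6 : (1 + (CQ j p.1 + CQ j p.2)) * (d : ℝ) ^ k =
          (d : ℝ) ^ k + (CQ j p.1 * (d : ℝ) ^ k + CQ j p.2 * (d : ℝ) ^ k) := by ring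
      rw [h6]
      linarith
    · apply Finset.sum_le_sum_of_subset_of_nonneg (Finset.subset_univ _)
      intro p _ _
      have h1 := hCQ0 j p.1
      have h2 := hCQ0 j p.2
      positivity
  have h1 := hn2 n (by omega)
  have h2 := hn1 n (by omega)
  have h3 : δ * (c1 * (d : ℝ) ^ n) ≤ Cbig * (d : ℝ) ^ k :=
    (mul_le_mul_of_nonneg_left h2 hδ.le).trans (h1.trans (hlogpf.trans hup))
  have h4 : (d : ℝ) ^ (k + t0) ≤ (d : ℝ) ^ n := pow_le_pow_right₀ hd1.le (by omega)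
  have h5 : Cbig < δ * c1 * (d : ℝ) ^ t0 := by
    rw [div_lt_iff₀ (mul_pos hδ hc1)] at ht0
    linarith
  have h6 : Cbig * (d : ℝ) ^ k < δ * c1 * (d : ℝ) ^ t0 * (d : ℝ) ^ k :=
    mul_lt_mul_of_pos_right h5 (by positivity)
  have h7 : δ * c1 * (d : ℝ) ^ t0 * (d : ℝ) ^ k = δ * c1 * (d : ℝ) ^ (k + t0) := by
    rw [pow_add]
    ring
  have h8 : δ * c1 * (d : ℝ) ^ (k + t0) ≤ δ * c1 * (d : ℝ) ^ n :=
    mul_le_mul_of_nonneg_left h4 (by positivity)
  have h9 : δ * (c1 * (d : ℝ) ^ n) = δ * c1 * (d : ℝ) ^ n := by ring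
  linarith

/-- The dichotomy over number fields. -/
theorem dich {d e r R : ℕ} (hd : 2 ≤ d) (he : 1 ≤ e)
    (f : Fin (N + 1) → MvPolynomial (Fin (N + 1)) 𝕂) (hf : ∀ i, (f i).IsHomogeneous d)
    (hf0 : ∀ z : Fin (N + 1) → ℂ, (∀ i, aeval z (f i) = 0) → z = 0)
    (g A : MvPolynomial (Fin (N + 1)) 𝕂) (hg : g.IsHomogeneous e)
    (hA : A.IsHomogeneous (e * (d - 1))) (hgA : bind₁ f g = g * A)
    (hvis : ∀ z : Fin (N + 1) → ℂ, z ≠ 0 → aeval z g = 0 → ∀ P : Finset ℕ, P.card = r →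
      ∃ t ∈ P, aeval ((pt fun i => map (algebraMap 𝕂 ℂ) (f i))^[t] z) A ≠ 0)
    (F : Finset (MvPolynomial (Fin (N + 1)) 𝕂)) (Q : Fin R → Fin (N + 1) → 𝕂)
    (hQ0 : ∀ i, Q i ≠ 0)
    (hVE : ∀ z : Fin (N + 1) → Ω, z ≠ 0 → aeval z g = 0 → (∀ P ∈ F, aeval z P = 0) →
      ∃ i, ∀ a b, z a * algebraMap 𝕂 Ω (Q i b) = z b * algebraMap 𝕂 Ω (Q i a))
    (hQ : ∀ i, EtalePreperiodic (ext f) (fun l => algebraMap 𝕂 ℂ (Q i l)) ∨ NotPrep f (Q i))
    (x0 : Fin (N + 1) → 𝕂) (hx0 : x0 ≠ 0)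
    (hcon : ¬ DmlAt (ext f) fun i => algebraMap 𝕂 ℂ (x0 i)) :
    (∃ C : ℕ, ∀ n, {m | (∀ P ∈ F, eval ((pt f)^[m] x0) P = 0) ∧ n ≤ m ∧ m + C < 2 * n}.ncard ≤
      R ^ 2 + 1) ∧
    ((∀ i, EtalePreperiodic (ext f) (fun l => algebraMap 𝕂 ℂ (Q i l))) →
      {m | ∀ P ∈ F, eval ((pt f)^[m] x0) P = 0}.Finite) := by
  classical
  have hexthom : ∀ i, (ext f i).IsHomogeneous d := fun i => (hf i).map _
  set x : ℕ → Fin (N + 1) → 𝕂 := fun n => (pt f)^[n] x0 with hx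
  have hxne : ∀ n, x n ≠ 0 := ne_zero_iter f hf0 x0 hx0
  set Ret : Set ℕ := {m | ∀ P ∈ F, eval ((pt f)^[m] x0) P = 0} with hRet
  have hnp : ∀ m n, m < n → ¬ ∃ c : 𝕂, c ≠ 0 ∧ (pt f)^[n] x0 = c • (pt f)^[m] x0 := by
    rintro m n hmn ⟨c, hc, hcn⟩
    apply hcon
    obtain ⟨l, rfl⟩ := Nat.exists_eq_add_of_le hmn.le
    refine dml_of_preperiodic (ext f) hexthom _ m l (by omega) (algebraMap 𝕂 ℂ c)
      ((map_ne_zero _).2 hc) ?_
    rw [ext_iter, ext_iter, hcn]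
    funext i
    simp only [Pi.smul_apply, smul_eq_mul, map_mul]
  have hgs : ∀ n, eval (x (n + 1)) g = eval (x n) g * eval (x n) A := by
    intro n
    have h1 := congrArg (eval (x n)) hgA
    rw [eval_bind, map_mul] at h1
    have h2 : x (n + 1) = pt f (x n) := Function.iterate_succ_apply' _ _ _
    rw [h2, ← h1]
    rfl
  by_cases hg0 : ∀ n, eval (x n) g ≠ 0
  · obtain ⟨C0, hC0⟩ := dich_key hd he f hf hf0 g A hg hA hgA hvis F Q hQ0 hVE x0 hx0 hcon hg0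
    have hnpQ : ∀ i, ¬ EtalePreperiodic (ext f) (fun l => algebraMap 𝕂 ℂ (Q i l)) →
        NotPrep f (Q i) := fun i hi => (hQ i).resolve_left hi
    constructor
    · refine ⟨C0, fun n => ?_⟩
      have hw := window Ret R (fun i j k =>
        ¬ EtalePreperiodic (ext f) (fun l => algebraMap 𝕂 ℂ (Q i l)) ∧
        ¬ EtalePreperiodic (ext f) (fun l => algebraMap 𝕂 ℂ (Q j l)) ∧
        ∃ c : 𝕂, c ≠ 0 ∧ (pt f)^[k] (Q i) = c • Q j) ?_ C0 ?_ n
      · exact hw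
      · rintro i j k l hkl ⟨hi, -, c, hc, h1⟩ ⟨-, -, c', hc', h2⟩
        refine hnpQ i hi k l hkl ⟨c' * c⁻¹, mul_ne_zero hc' (inv_ne_zero hc), ?_⟩
        rw [h1, h2, smul_smul, mul_assoc, inv_mul_cancel₀ hc, mul_one]
      · intro n k hn hnk hkn
        exact hC0 n k hn hnk hkn
    · intro hall
      apply (Set.finite_le_nat C0).subset
      intro n hn
      change n ≤ C0
      by_contra hlt
      obtain ⟨i, -, hi, -⟩ := hC0 n 0 hn hn (by omega)
      exact hi (hall i)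
  · push Not at hg0
    obtain ⟨n1, hn1⟩ := hg0
    have hg1 : ∀ k, eval (x (n1 + k)) g = 0 := by
      intro k
      induction k with
      | zero => exact hn1
      | succ k ih => rw [← Nat.add_assoc, hgs, ih, zero_mul]
    have hpar : ∀ m ∈ Ret, n1 ≤ m → ∃ i : Fin R, ∃ c : 𝕂, c ≠ 0 ∧ x m = c • Q i := by
      intro m hm hle
      obtain ⟨k, rfl⟩ := Nat.exists_eq_add_of_le hle
      obtain ⟨i, hi⟩ := hVE (fun l => algebraMap 𝕂 Ω (x (n1 + k) l)) (by
        intro h0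
        apply hxne (n1 + k)
        funext l
        have h1 := congrFun h0 l
        simp only [Pi.zero_apply] at h1
        exact (map_eq_zero _).1 h1) (by
        rw [aeval_alg, hg1 k, map_zero]) (by
        intro P hP
        have h6 : eval (x (n1 + k)) P = 0 := hm P hP
        rw [aeval_alg, h6, map_zero])
      obtain ⟨a, ha, hp⟩ := par_of_zero (x (n1 + k)) (Q i) (hxne _) (hQ0 i) (by
        intro a b
        have h1 := hi a b
        rw [← map_mul, ← map_mul] at h1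
        rw [(algebraMap 𝕂 Ω).injective h1, sub_self])
      exact ⟨i, a, ha, hp⟩
    have hfinRet : Ret.Finite := by
      have h1 : (Ret ∩ Set.Ici n1).Finite := by
        by_cases hemp : (Ret ∩ Set.Ici n1).Nonempty
        swap
        · rw [Set.not_nonempty_iff_eq_empty.1 hemp]
          exact Set.finite_empty
        have : Nonempty (Fin R) := by
          obtain ⟨m, hm⟩ := hemp
          exact ⟨(hpar m hm.1 hm.2).choose⟩
        choose! φ c hc hφ using hpar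
        refine Set.Finite.of_injOn (f := φ) (t := Set.univ) (fun _ _ => Set.mem_univ _) ?_
          Set.finite_univ
        intro m hm m' hm' heq
        by_contra hne
        have h2 := hφ m hm.1 hm.2
        have h3 := hφ m' hm'.1 hm'.2
        have hcm := hc m hm.1 hm.2
        have hcm' := hc m' hm'.1 hm'.2
        rw [← heq] at h3
        rcases Nat.lt_or_gt_of_ne hne with hlt | hlt
        · refine hnp m m' hlt ⟨c m' * (c m)⁻¹, mul_ne_zero hcm' (inv_ne_zero hcm), ?_⟩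
          change x m' = _ • x m
          rw [h2, h3, smul_smul, mul_assoc, inv_mul_cancel₀ hcm, mul_one]
        · refine hnp m' m hlt ⟨c m * (c m')⁻¹, mul_ne_zero hcm (inv_ne_zero hcm'), ?_⟩
          change x m = _ • x m'
          rw [h2, h3, smul_smul, mul_assoc, inv_mul_cancel₀ hcm', mul_one]
      refine (h1.union (Set.finite_lt_nat n1)).subset ?_
      intro m hm
      rcases Nat.lt_or_ge m n1 with hlt | hge
      · exact Or.inr hlt
      · exact Or.inl ⟨hm, hge⟩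
    refine ⟨?_, fun _ => hfinRet⟩
    obtain ⟨C, hC⟩ := hfinRet.bddAbove
    refine ⟨C, fun n => ?_⟩
    have : {m | (∀ P ∈ F, eval ((pt f)^[m] x0) P = 0) ∧ n ≤ m ∧ m + C < 2 * n} = ∅ := by
      rw [Set.eq_empty_iff_forall_notMem]
      rintro m ⟨hm, h1, h2⟩
      have := hC (show m ∈ Ret from hm)
      omega
    rw [this, Set.ncard_empty]
    exact Nat.zero_le _

end

end Pool.Agent.T6.H91.DML
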