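import Pool.Agent.T6.H91.DML.Main

set_option autoImplicit false

/-! Division by a linear form; polynomials with algebraic coefficients. -/

namespace Pool.Agent.T6.H91.DML

open MvPolynomial Pool.Agent.H936R2 Pool.Agent.R847.PC

/-- A linear form. -/
noncomputable def lin {K : Type} [Field K] {n : ℕ} (c : Fin n → K) : MvPolynomial (Fin n) K :=
  ∑ i, C (c i) * X i

lemma eval_lin {K : Type} [Field K] {n : ℕ} (c z : Fin n → K) :
    eval z (lin c) = ∑ i, c i * z i := by
  simp [lin]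

lemma lin_hom {K : Type} [Field K] {n : ℕ} (c : Fin n → K) : (lin c).IsHomogeneous 1 := by
  unfold lin
  apply IsHomogeneous.sum
  intro i _
  have h := (isHomogeneous_C (Fin n) (c i)).mul (isHomogeneous_X K i)
  rwa [zero_add] at h

lemma map_lin {K K' : Type} [Field K] [Field K'] (φ : K →+* K') {n : ℕ} (c : Fin n → K) :
    map φ (lin c) = lin fun i => φ (c i) := by
  simp [lin]

/-- A polynomial which vanishes on a hyperplane is divisible by its equation. -/
lemma dvd_of_vanish {K : Type} [Field K] [Infinite K] {n : ℕ} (c : Fin n → K) (hc : c ≠ 0)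
    (P : MvPolynomial (Fin n) K) (hP : ∀ z : Fin n → K, ∑ i, c i * z i = 0 → eval z P = 0) :
    ∃ Q, P = lin c * Q := by
  classical
  obtain ⟨i0, hi0'⟩ := Function.ne_iff.1 hc
  have hi0 : c i0 ≠ 0 := hi0'
  let sub : Fin n → MvPolynomial (Fin n) K := fun i =>
    if i = i0 then X i - C (c i0)⁻¹ * lin c else X i
  let I : Ideal (MvPolynomial (Fin n) K) := Ideal.span {lin c}
  have hlin : Ideal.Quotient.mk I (lin c) = 0 :=
    Ideal.Quotient.eq_zero_iff_mem.2 (Ideal.subset_span rfl)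
  have h1 : (Ideal.Quotient.mkₐ K I).comp (bind₁ sub) = Ideal.Quotient.mkₐ K I := by
    apply algHom_ext
    intro i
    rw [AlgHom.comp_apply, bind₁_X_right]
    change Ideal.Quotient.mk I (sub i) = Ideal.Quotient.mk I (X i)
    by_cases hi : i = i0
    · simp only [sub, if_pos hi]
      rw [map_sub, map_mul, hlin, mul_zero, sub_zero]
    · simp only [sub, if_neg hi]
  have h2 : bind₁ sub P = 0 := by
    apply MvPolynomial.funext
    intro z
    rw [map_zero, Pool.Agent.R847.PC.eval_bind]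
    apply hP
    have h3 : ∀ i, eval z (sub i) = z i - if i = i0 then (c i0)⁻¹ * ∑ j, c j * z j else 0 := by
      intro i
      by_cases hi : i = i0
      · simp only [sub, if_pos hi]
        rw [map_sub, eval_X, map_mul, eval_C, eval_lin]
      · simp only [sub, if_neg hi, sub_zero, eval_X]
    simp only [h3, mul_sub, Finset.sum_sub_distrib, mul_ite, mul_zero, Finset.sum_ite_eq',
      Finset.mem_univ, if_true]
    rw [← mul_assoc, mul_inv_cancel₀ hi0, one_mul, sub_self]
  have h3 : Ideal.Quotient.mk I P = 0 := by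
    have h4 := DFunLike.congr_fun h1 P
    rw [AlgHom.comp_apply, h2, map_zero] at h4
    exact h4.symm
  rw [Ideal.Quotient.eq_zero_iff_mem] at h3
  obtain ⟨Q, hQ⟩ := Ideal.mem_span_singleton.1 h3
  exact ⟨Q, hQ⟩

/-- Quotients of forms are forms. -/
lemma hom_quot {K : Type} [Field K] {σ : Type} (g P Q : MvPolynomial σ K) {e m : ℕ}
    (hg : g.IsHomogeneous e) (hP : P.IsHomogeneous (e + m)) (h : P = g * Q) :
    P = g * homogeneousComponent m Q := by
  classical
  have h1 : homogeneousComponent (e + m) P = P := homogeneousComponent_eq_self hP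
  have h2 : homogeneousComponent (e + m) (g * Q) = g * homogeneousComponent m Q := by
    conv_lhs => rw [← sum_homogeneousComponent Q, Finset.mul_sum, map_sum]
    have h3 : ∀ i, homogeneousComponent (e + m) (g * homogeneousComponent i Q) =
        if i = m then g * homogeneousComponent m Q else 0 := by
      intro i
      have h4 := hg.mul (homogeneousComponent_isHomogeneous i Q)
      rw [homogeneousComponent_of_mem ((mem_homogeneousSubmodule _ _).2 h4)]
      by_cases hi : i = m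
      · rw [if_pos hi, if_pos (by omega), hi]
      · rw [if_neg hi, if_neg (by omega)]
    simp only [h3, Finset.sum_ite_eq']
    split_ifs with hmem
    · rfl
    · have h5 : homogeneousComponent m Q = 0 := by
        apply homogeneousComponent_eq_zero
        rw [Finset.mem_range] at hmem
        omega
      rw [h5, mul_zero]
  rw [← h2, ← h, h1]

/-- The field of algebraic numbers. -/
noncomputable abbrev QQ : Type := algebraicClosure ℚ ℂ

lemma algCoeff_iff {N : ℕ} (P : MvPolynomial (Fin (N + 1)) ℂ) :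
    AlgCoeff P ↔ ∃ Q : MvPolynomial (Fin (N + 1)) QQ, map (algebraMap QQ ℂ) Q = P := by
  constructor
  · intro h
    have h1 : P ∈ Set.range (map (σ := Fin (N + 1)) (algebraMap QQ ℂ)) := by
      rw [mem_range_map_iff_coeffs_subset]
      intro c hc
      rw [Finset.mem_coe, mem_coeffs_iff] at hc
      obtain ⟨κ, hκ, rfl⟩ := hc
      exact ⟨⟨P.coeff κ, mem_algebraicClosure_iff.2 (h κ)⟩, rfl⟩
    exact h1
  · rintro ⟨Q, rfl⟩ κ
    rw [coeff_map]
    exact mem_algebraicClosure_iff.1 (Q.coeff κ).2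

lemma algCoeff_C {N : ℕ} {c : ℂ} (hc : IsAlgebraic ℚ c) :
    AlgCoeff (C c : MvPolynomial (Fin (N + 1)) ℂ) := by
  rw [algCoeff_iff]
  exact ⟨C ⟨c, mem_algebraicClosure_iff.2 hc⟩, by rw [map_C]; rfl⟩

lemma algCoeff_X {N : ℕ} (i : Fin (N + 1)) : AlgCoeff (X i : MvPolynomial (Fin (N + 1)) ℂ) := by
  rw [algCoeff_iff]
  exact ⟨X i, map_X _ _⟩

lemma algCoeff_one {N : ℕ} : AlgCoeff (1 : MvPolynomial (Fin (N + 1)) ℂ) := by
  rw [algCoeff_iff]
  exact ⟨1, map_one _⟩

lemma AlgCoeff.mul {N : ℕ} {P Q : MvPolynomial (Fin (N + 1)) ℂ} (hP : AlgCoeff P)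
    (hQ : AlgCoeff Q) : AlgCoeff (P * Q) := by
  rw [algCoeff_iff] at *
  obtain ⟨P', rfl⟩ := hP
  obtain ⟨Q', rfl⟩ := hQ
  exact ⟨P' * Q', map_mul _ _ _⟩

lemma AlgCoeff.add {N : ℕ} {P Q : MvPolynomial (Fin (N + 1)) ℂ} (hP : AlgCoeff P)
    (hQ : AlgCoeff Q) : AlgCoeff (P + Q) := by
  rw [algCoeff_iff] at *
  obtain ⟨P', rfl⟩ := hP
  obtain ⟨Q', rfl⟩ := hQ
  exact ⟨P' + Q', map_add _ _ _⟩

lemma AlgCoeff.sub {N : ℕ} {P Q : MvPolynomial (Fin (N + 1)) ℂ} (hP : AlgCoeff P)
    (hQ : AlgCoeff Q) : AlgCoeff (P - Q) := by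
  rw [algCoeff_iff] at *
  obtain ⟨P', rfl⟩ := hP
  obtain ⟨Q', rfl⟩ := hQ
  exact ⟨P' - Q', map_sub _ _ _⟩

lemma AlgCoeff.pow {N : ℕ} {P : MvPolynomial (Fin (N + 1)) ℂ} (hP : AlgCoeff P) (n : ℕ) :
    AlgCoeff (P ^ n) := by
  rw [algCoeff_iff] at *
  obtain ⟨P', rfl⟩ := hP
  exact ⟨P' ^ n, map_pow _ _ _⟩

lemma AlgCoeff.prod {N : ℕ} {κ : Type} (s : Finset κ) (P : κ → MvPolynomial (Fin (N + 1)) ℂ)
    (hP : ∀ i ∈ s, AlgCoeff (P i)) : AlgCoeff (∏ i ∈ s, P i) := by
  classical
  induction s using Finset.induction_on with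
  | empty => rw [Finset.prod_empty]; exact algCoeff_one
  | insert a s ha ih =>
    rw [Finset.prod_insert ha]
    exact (hP a (Finset.mem_insert_self _ _)).mul
      (ih fun i hi => hP i (Finset.mem_insert_of_mem hi))

lemma AlgCoeff.itp {N : ℕ} {f : Fin (N + 1) → MvPolynomial (Fin (N + 1)) ℂ}
    (hf : ∀ i, AlgCoeff (f i)) (n : ℕ) (i : Fin (N + 1)) : AlgCoeff (itp f n i) := by
  choose f' hf' using fun i => (algCoeff_iff (f i)).1 (hf i)
  rw [algCoeff_iff]
  refine ⟨Pool.Agent.R847.PC.itp f' n i, ?_⟩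
  rw [map_itp]
  congr 1
  exact _root_.funext hf'

lemma algCoeff_lin {N : ℕ} {c : Fin (N + 1) → ℂ} (hc : ∀ i, IsAlgebraic ℚ (c i)) :
    AlgCoeff (lin c) := by
  rw [algCoeff_iff]
  exact ⟨lin fun i => ⟨c i, mem_algebraicClosure_iff.2 (hc i)⟩, by rw [map_lin]; rfl⟩

/-- The cofactor of an invariant hyperplane. -/
lemma exists_cofactor {N d : ℕ} (hd : 1 ≤ d) (f : Fin (N + 1) → MvPolynomial (Fin (N + 1)) ℂ)
    (hf : ∀ i, (f i).IsHomogeneous d) (hfa : ∀ i, AlgCoeff (f i)) (c : Fin (N + 1) → ℂ)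
    (hc : c ≠ 0) (hca : ∀ i, IsAlgebraic ℚ (c i))
    (hinv : ∀ z : Fin (N + 1) → ℂ, ∑ i, c i * z i = 0 → ∑ i, c i * pt f z i = 0) :
    ∃ A : MvPolynomial (Fin (N + 1)) ℂ, A.IsHomogeneous (1 * (d - 1)) ∧ AlgCoeff A ∧
      bind₁ f (lin c) = lin c * A := by
  choose f' hf' using fun i => (algCoeff_iff (f i)).1 (hfa i)
  let c' : Fin (N + 1) → QQ := fun i => ⟨c i, mem_algebraicClosure_iff.2 (hca i)⟩
  have hcc : ∀ i, algebraMap QQ ℂ (c' i) = c i := fun i => rfl
  have hc' : c' ≠ 0 := by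
    intro h0
    apply hc
    funext i
    rw [← hcc, h0]
    rfl
  have hbl : map (algebraMap QQ ℂ) (bind₁ f' (lin c')) = bind₁ f (lin c) := by
    rw [map_bind₁, map_lin]
    congr 2
    exact _root_.funext hf'
  have hblz : ∀ z, eval z (bind₁ f (lin c)) = ∑ i, c i * pt f z i := by
    intro z
    rw [Pool.Agent.R847.PC.eval_bind, eval_lin]
    rfl
  obtain ⟨Q, hQ⟩ := dvd_of_vanish c' hc' (bind₁ f' (lin c')) (by
    intro z hz
    have h1 : (algebraMap QQ ℂ) (eval z (bind₁ f' (lin c'))) =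
        eval (fun i => algebraMap QQ ℂ (z i)) (bind₁ f (lin c)) := by
      rw [← hbl, eval_map]
      exact eval₂_comp_left (algebraMap QQ ℂ) (RingHom.id _) z _
    rw [hblz, hinv] at h1
    · exact (map_eq_zero _).1 h1
    · have h2 := congrArg (algebraMap QQ ℂ) hz
      rw [map_sum, map_zero] at h2
      rw [← h2]
      refine Finset.sum_congr rfl fun i _ => ?_
      rw [map_mul, hcc])
  have hhom : (bind₁ f (lin c)).IsHomogeneous (1 + (d - 1)) := by
    have h1 := (lin_hom c).aeval f hf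
    rw [show 1 + (d - 1) = d * 1 by omega]
    exact h1
  have h1 := congrArg (map (algebraMap QQ ℂ)) hQ
  rw [hbl, map_mul, map_lin] at h1
  refine ⟨homogeneousComponent (d - 1) (map (algebraMap QQ ℂ) Q), ?_, ?_, ?_⟩
  · rw [one_mul]
    exact homogeneousComponent_isHomogeneous _ _
  · intro κ
    rw [coeff_homogeneousComponent]
    split_ifs
    · exact (algCoeff_iff _).2 ⟨Q, rfl⟩ κ
    · exact isAlgebraic_zero
  · exact hom_quot _ _ _ (lin_hom c) hhom h1

/-- Zeros of the cofactor in the hyperplane are critical. -/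
lemma cofactor_critical {N : ℕ} (f : Fin (N + 1) → MvPolynomial (Fin (N + 1)) ℂ)
    (c : Fin (N + 1) → ℂ) (hc : c ≠ 0) (A : MvPolynomial (Fin (N + 1)) ℂ)
    (hA : bind₁ f (lin c) = lin c * A) (z : Fin (N + 1) → ℂ) (hz : ∑ i, c i * z i = 0)
    (hAz : eval z A = 0) : (jac f z).det = 0 := by
  classical
  have h1 : bind₁ f (lin c) = ∑ i, C (c i) * f i := by
    simp [lin]
  have h2 : ∀ j, (∑ i, c i * jac f z i j) = 0 := by
    intro j
    have h3 := congrArg (fun P => eval z (pderiv j P)) (h1.symm.trans hA)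
    simp only [map_sum, Derivation.leibniz, smul_eq_mul, map_add, map_mul, eval_C, pderiv_C,
      mul_zero, add_zero, hAz, zero_mul] at h3
    rw [eval_lin, hz, zero_mul] at h3
    exact h3
  by_contra hdet
  apply hc
  have h4 : Matrix.vecMul c (jac f z) = 0 := by
    funext j
    exact h2 j
  exact Matrix.eq_zero_of_vecMul_eq_zero hdet h4

end Pool.Agent.T6.H91.DML
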