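import Pool.Agent.T6.H91.DML.Chain

set_option autoImplicit false

/-! Dynamical Mordell-Lang along an orbit which is étale modulo a place from some time on. -/

namespace Pool.Agent.T6.H91.DML

open MvPolynomial Pool.Agent.H936R2 Pool.Agent.R847.PC

/-- The return sets of `α` to all closed subvarieties are finite unions of progressions. -/
def DmlAt {N : ℕ} (f : Fin (N + 1) → MvPolynomial (Fin (N + 1)) ℂ) (α : Fin (N + 1) → ℂ) : Prop :=
  ∀ S : Set (MvPolynomial (Fin (N + 1)) ℂ), (∀ g ∈ S, ∃ e : ℕ, g.IsHomogeneous e) →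
    ∃ T : Finset (ℕ × ℕ), {n : ℕ | ∀ g ∈ S, eval ((pt f)^[n] α) g = 0}
      = {n : ℕ | ∃ q ∈ T, ∃ m : ℕ, n = q.1 * m + q.2}

theorem dml_of_unit {p : ℕ} [hp : Fact p.Prime] {N d : ℕ}
    (f : Fin (N + 1) → MvPolynomial (Fin (N + 1)) ℂ) (hf : ∀ i, (f i).IsHomogeneous d)
    (α : Fin (N + 1) → ℂ) (τ : ℂ →+* PadicAlgCl p)
    (F : Fin (N + 1) → MvPolynomial (Fin (N + 1)) (unitBall (PadicAlgCl p)))
    (hF : ∀ i, map (unitBall (PadicAlgCl p)).subtype (F i) = map τ (f i))
    (c : PadicAlgCl p) (hc : c ≠ 0) (b : Fin (N + 1) → unitBall (PadicAlgCl p))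
    (hb : ∀ i, (b i : PadicAlgCl p) = c * τ (α i)) (M : ℕ)
    (hdet : ∀ n, M ≤ n → IsUnit (jac F ((pt F)^[n] b)).det) : DmlAt f α := by
  intro S hS
  have hFK : (fun i => map (unitBall (PadicAlgCl p)).subtype (F i)) = fun i => map τ (f i) :=
    funext hF
  have hFhomK : ∀ i, (map τ (f i)).IsHomogeneous d := fun i => (hf i).map _
  have hit : ∀ n, (fun i => (((pt F)^[n] b i : unitBall (PadicAlgCl p)) : PadicAlgCl p)) =
      fun i => c ^ d ^ n * τ ((pt f)^[n] α i) := by
    intro n
    have e1 := pt_map (unitBall (PadicAlgCl p)).subtype F b n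
    have e2 := pt_map τ f α n
    have e3 := iterate_scale (fun i => map τ (f i)) d hFhomK c (fun i => τ (α i)) n
    have e4 : (fun i => (unitBall (PadicAlgCl p)).subtype (b i)) = fun i => c * τ (α i) :=
      _root_.funext hb
    rw [hFK, e4, e3] at e1
    rw [e2] at e1
    exact e1.symm
  obtain ⟨n0, k, hk, hret⟩ := return_set p F b M hdet
  apply exists_progressions _ n0 k hk
  intro r hinf t
  have hiff : ∀ n, (∀ g ∈ S, eval ((pt f)^[n] α) g = 0) ↔
      ∀ P ∈ (fun g => map τ g) '' S,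
        eval (fun i => (((pt F)^[n] b i : unitBall (PadicAlgCl p)) : PadicAlgCl p)) P = 0 := by
    intro n
    have hval : ∀ g ∈ S, (eval (fun i => (((pt F)^[n] b i : unitBall (PadicAlgCl p)) :
        PadicAlgCl p)) (map τ g) = 0 ↔ eval ((pt f)^[n] α) g = 0) := by
      intro g hg
      obtain ⟨e, he⟩ := hS g hg
      rw [hit n, eval_scale _ e (he.map τ)]
      have e1 : eval (fun i => τ ((pt f)^[n] α i)) (map τ g) = τ (eval ((pt f)^[n] α) g) := by
        rw [eval_map]
        have h := eval₂_comp_left τ (RingHom.id _) ((pt f)^[n] α) g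
        rw [RingHom.comp_id] at h
        exact h.symm
      rw [e1, mul_eq_zero, map_eq_zero]
      constructor
      · rintro (h | h)
        · exact absurd h (pow_ne_zero _ (pow_ne_zero _ hc))
        · exact h
      · exact Or.inr
    constructor
    · rintro h P ⟨g, hg, rfl⟩
      exact (hval g hg).2 (h g hg)
    · intro h g hg
      exact (hval g hg).1 (h _ ⟨g, hg, rfl⟩)
  simp only [Set.mem_ofPred_eq, hiff] at hinf ⊢
  exact hret _ r hinf t

/-- Dynamical Mordell-Lang for projectively preperiodic points. -/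
theorem dml_of_preperiodic {N d : ℕ} (f : Fin (N + 1) → MvPolynomial (Fin (N + 1)) ℂ)
    (hf : ∀ i, (f i).IsHomogeneous d) (α : Fin (N + 1) → ℂ) (n k : ℕ) (hk : 0 < k) (c : ℂ)
    (hc : c ≠ 0) (h : (pt f)^[n + k] α = c • (pt f)^[n] α) : DmlAt f α := by
  intro S hS
  have hper : ∀ j, ∃ c' : ℂ, c' ≠ 0 ∧ (pt f)^[n + k + j] α = c' • (pt f)^[n + j] α := by
    intro j
    refine ⟨c ^ d ^ j, pow_ne_zero _ hc, ?_⟩
    have h1 := iterate_scale f d hf c ((pt f)^[n] α) j
    have h2 : (fun i => c * (pt f)^[n] α i) = (pt f)^[n + k] α := by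
      rw [h]
      rfl
    rw [h2, ← Function.iterate_add_apply, ← Function.iterate_add_apply] at h1
    rw [show n + k + j = j + (n + k) by ring, h1, show n + j = j + n by ring]
    rfl
  have hiff : ∀ m, n ≤ m → ((∀ g ∈ S, eval ((pt f)^[m + k] α) g = 0) ↔
      ∀ g ∈ S, eval ((pt f)^[m] α) g = 0) := by
    intro m hm
    obtain ⟨j, rfl⟩ := Nat.exists_eq_add_of_le hm
    obtain ⟨c', hc', h1⟩ := hper j
    have h2 : n + j + k = n + k + j := by ring
    rw [h2, h1]
    have h3 : ∀ g ∈ S, (eval (c' • (pt f)^[n + j] α) g = 0 ↔ eval ((pt f)^[n + j] α) g = 0) := by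
      intro g hg
      obtain ⟨e, he⟩ := hS g hg
      have h4 := eval_scale g e he c' ((pt f)^[n + j] α)
      change eval (c' • (pt f)^[n + j] α) g = _ at h4
      rw [h4, mul_eq_zero]
      constructor
      · rintro (h | h)
        · exact absurd h (pow_ne_zero _ hc')
        · exact h
      · exact Or.inr
    constructor
    · exact fun h g hg => (h3 g hg).1 (h g hg)
    · exact fun h g hg => (h3 g hg).2 (h g hg)
  apply exists_progressions _ n k hk
  intro r hinf t
  simp only [Set.mem_ofPred_eq] at hinf ⊢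
  have key : ∀ t, (∀ g ∈ S, eval ((pt f)^[n + r + k * t] α) g = 0) ↔
      ∀ g ∈ S, eval ((pt f)^[n + r] α) g = 0 := by
    intro t
    induction t with
    | zero => simp
    | succ t ih =>
      rw [← ih, show n + r + k * (t + 1) = n + r + k * t + k by ring]
      exact hiff _ (by omega)
  obtain ⟨t0, ht0⟩ := hinf.nonempty
  exact (key t).2 ((key t0).1 ht0)

end Pool.Agent.T6.H91.DML
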