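import Pool.Agent.T6.H91.DML.Plane
import Pool.Agent.R847.PC.Proj

set_option autoImplicit false

/-! Endomorphisms which extend a strictly critically finite endomorphism of a hyperplane. -/

namespace Pool.Agent.T6.H91.DML

open MvPolynomial Pool.Agent.H936R2 Pool.Agent.R847.PC

section

variable {M : ℕ}

/-- `[X_0 (A_0(X_1, …) + X_0 a) : h_i(X_1, …) + X_0 b_i]`. -/
noncomputable def extMap (h : Fin (M + 1) → MvPolynomial (Fin (M + 1)) ℂ)
    (A0 : MvPolynomial (Fin (M + 1)) ℂ) (a : MvPolynomial (Fin (M + 2)) ℂ)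
    (b : Fin (M + 1) → MvPolynomial (Fin (M + 2)) ℂ) :
    Fin (M + 2) → MvPolynomial (Fin (M + 2)) ℂ :=
  Fin.cons (X 0 * (rename Fin.succ A0 + X 0 * a)) fun i => rename Fin.succ (h i) + X 0 * b i

variable (h : Fin (M + 1) → MvPolynomial (Fin (M + 1)) ℂ)
    (A0 : MvPolynomial (Fin (M + 1)) ℂ) (a : MvPolynomial (Fin (M + 2)) ℂ)
    (b : Fin (M + 1) → MvPolynomial (Fin (M + 2)) ℂ)

lemma eval_ren (P : MvPolynomial (Fin (M + 1)) ℂ) (z : Fin (M + 2) → ℂ) :
    eval z (rename Fin.succ P) = eval (fun i : Fin (M + 1) => z i.succ) P := by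
  rw [eval_rename]
  rfl

lemma ext_zero (z : Fin (M + 2) → ℂ) (hz : z 0 = 0) : pt (extMap h A0 a b) z 0 = 0 := by
  change eval z (X 0 * (rename Fin.succ A0 + X 0 * a)) = 0
  rw [map_mul, eval_X, hz, zero_mul]

lemma ext_succ (z : Fin (M + 2) → ℂ) (hz : z 0 = 0) :
    (fun i : Fin (M + 1) => pt (extMap h A0 a b) z i.succ) = pt h fun i => z i.succ := by
  funext i
  change eval z (rename Fin.succ (h i) + X 0 * b i) = eval (fun i : Fin (M + 1) => z i.succ) (h i)
  rw [map_add, map_mul, eval_X, hz, zero_mul, add_zero, eval_ren]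

lemma ext_iter_zero (z : Fin (M + 2) → ℂ) (hz : z 0 = 0) (n : ℕ) :
    (pt (extMap h A0 a b))^[n] z 0 = 0 ∧
    (fun i : Fin (M + 1) => (pt (extMap h A0 a b))^[n] z i.succ) =
      (pt h)^[n] fun i => z i.succ := by
  induction n with
  | zero => exact ⟨hz, rfl⟩
  | succ n ih =>
    rw [Function.iterate_succ_apply', Function.iterate_succ_apply']
    refine ⟨ext_zero _ _ _ _ _ ih.1, ?_⟩
    rw [← ih.2]
    exact ext_succ _ _ _ _ _ ih.1

lemma pderiv_ren_succ (P : MvPolynomial (Fin (M + 1)) ℂ) (j : Fin (M + 1)) :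
    pderiv j.succ (rename Fin.succ P) = rename Fin.succ (pderiv j P) :=
  pderiv_rename (Fin.succ_injective _) j P

lemma ext_jac (z : Fin (M + 2) → ℂ) (hz : z 0 = 0) :
    (jac (extMap h A0 a b) z).det =
      eval (fun i : Fin (M + 1) => z i.succ) A0 * (jac h fun i => z i.succ).det := by
  rw [Matrix.det_succ_row_zero]
  have h1 : ∀ j : Fin (M + 1), jac (extMap h A0 a b) z 0 j.succ = 0 := by
    intro j
    change eval z (pderiv j.succ (X 0 * (rename Fin.succ A0 + X 0 * a))) = 0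
    rw [Derivation.leibniz, pderiv_X_of_ne (Fin.succ_ne_zero j).symm]
    simp [hz]
  have h2 : jac (extMap h A0 a b) z 0 0 = eval (fun i : Fin (M + 1) => z i.succ) A0 := by
    change eval z (pderiv 0 (X 0 * (rename Fin.succ A0 + X 0 * a))) = _
    rw [Derivation.leibniz, pderiv_X_self]
    simp [hz, eval_ren]
  rw [Fin.sum_univ_succ, Finset.sum_eq_zero]
  · rw [add_zero, Fin.val_zero, pow_zero, one_mul, h2]
    congr 2
    ext i j
    change eval z (pderiv ((0 : Fin (M + 2)).succAbove j)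
      (rename Fin.succ (h i) + X 0 * b i)) = eval (fun i : Fin (M + 1) => z i.succ) (pderiv j (h i))
    rw [Fin.succAbove_zero, map_add, pderiv_ren_succ, Derivation.leibniz,
      pderiv_X_of_ne (Fin.succ_ne_zero j).symm]
    simp [hz, eval_ren]
  · intro j _
    rw [h1, mul_zero, zero_mul]

lemma algCoeff_ren {P : MvPolynomial (Fin (M + 1)) ℂ} (hP : AlgCoeff P) :
    AlgCoeff (N := M + 1) (rename Fin.succ P) := by
  obtain ⟨Q, rfl⟩ := (algCoeff_iff P).1 hP
  rw [algCoeff_iff]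
  exact ⟨rename Fin.succ Q, map_rename _ _ _⟩

lemma ext_hom {d : ℕ} (hd : 2 ≤ d) (hh : ∀ i, (h i).IsHomogeneous d)
    (hA0 : A0.IsHomogeneous (d - 1)) (ha : a.IsHomogeneous (d - 2))
    (hb : ∀ i, (b i).IsHomogeneous (d - 1)) (i : Fin (M + 2)) :
    (extMap h A0 a b i).IsHomogeneous d := by
  refine Fin.cases ?_ (fun i => ?_) i
  · change (X 0 * (rename Fin.succ A0 + X 0 * a)).IsHomogeneous d
    have h1 : (X 0 * a).IsHomogeneous (d - 1) := by
      have := (isHomogeneous_X ℂ (0 : Fin (M + 2))).mul ha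
      rwa [show 1 + (d - 2) = d - 1 by omega] at this
    have h2 := (isHomogeneous_X ℂ (0 : Fin (M + 2))).mul ((hA0.rename_isHomogeneous
      (f := Fin.succ)).add h1)
    rwa [show 1 + (d - 1) = d by omega] at h2
  · change (rename Fin.succ (h i) + X 0 * b i).IsHomogeneous d
    have h1 : (X 0 * b i).IsHomogeneous d := by
      have := (isHomogeneous_X ℂ (0 : Fin (M + 2))).mul (hb i)
      rwa [show 1 + (d - 1) = d by omega] at this
    exact ((hh i).rename_isHomogeneous (f := Fin.succ)).add h1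

lemma ext_alg (hh : ∀ i, AlgCoeff (h i)) (hA0 : AlgCoeff A0) (ha : AlgCoeff (N := M + 1) a)
    (hb : ∀ i, AlgCoeff (N := M + 1) (b i)) (i : Fin (M + 2)) :
    AlgCoeff (N := M + 1) (extMap h A0 a b i) := by
  refine Fin.cases ?_ (fun i => ?_) i
  · exact (algCoeff_X (N := M + 1) 0).mul
      ((algCoeff_ren hA0).add ((algCoeff_X (N := M + 1) 0).mul ha))
  · exact (algCoeff_ren (hh i)).add ((algCoeff_X (N := M + 1) 0).mul (hb i))

/-- Extensions of a strictly critically finite endomorphism of a hyperplane. -/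
theorem ext_main {d : ℕ} (hd : 2 ≤ d) (hh : ∀ i, (h i).IsHomogeneous d)
    (hA0 : A0.IsHomogeneous (d - 1)) (ha : a.IsHomogeneous (d - 2))
    (hb : ∀ i, (b i).IsHomogeneous (d - 1))
    (hha : ∀ i, AlgCoeff (h i)) (hA0a : AlgCoeff A0) (haa : AlgCoeff (N := M + 1) a)
    (hba : ∀ i, AlgCoeff (N := M + 1) (b i))
    (hf0 : ∀ z : Fin (M + 2) → ℂ, (∀ i, eval z (extMap h A0 a b i) = 0) → z = 0)
    (k : ℕ) (D : ℕ → Set (MvPolynomial (Fin (M + 1)) ℂ))
    (hDa : ∀ i ≤ k, ∀ P ∈ D i, AlgCoeff P)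
    (hD0 : ∀ z : Fin (M + 1) → ℂ, z ≠ 0 → ∀ P ∈ D 0, eval z P = 0)
    (hinv : ∀ i ≤ k, ∀ z : Fin (M + 1) → ℂ, z ≠ 0 → (∀ P ∈ D i, eval z P = 0) →
      ∀ P ∈ D i, eval (pt h z) P = 0)
    (hcrit : ∀ i < k, ∃ m : ℕ, ∀ z : Fin (M + 1) → ℂ, z ≠ 0 → (∀ P ∈ D i, eval z P = 0) →
      ((jac h z).det = 0 ∨ eval z A0 = 0) →
      ∀ P ∈ D (i + 1), eval ((pt h)^[m] z) P = 0)
    (hDk : ∀ z : Fin (M + 1) → ℂ, z ≠ 0 → ∃ P ∈ D k, eval z P ≠ 0)
    (α : Fin (M + 2) → ℂ) : DmlAt (N := M + 1) (extMap h A0 a b) α := by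
  classical
  let f := extMap h A0 a b
  let A : MvPolynomial (Fin (M + 2)) ℂ := rename Fin.succ A0 + X 0 * a
  let D' : ℕ → Set (MvPolynomial (Fin (M + 2)) ℂ) := fun i => insert (X 0) (rename Fin.succ '' D i)
  have hD' : ∀ i (z : Fin (M + 2) → ℂ), (∀ P ∈ D' i, eval z P = 0) ↔
      (z 0 = 0 ∧ ∀ P ∈ D i, eval (fun i : Fin (M + 1) => z i.succ) P = 0) := by
    intro i z
    simp only [D', Set.mem_insert_iff, forall_eq_or_imp, eval_X, Set.mem_image,
      forall_exists_index, and_imp, forall_apply_eq_imp_iff₂, eval_ren]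
  have hsucc : ∀ z : Fin (M + 2) → ℂ, z ≠ 0 → z 0 = 0 →
      (fun i : Fin (M + 1) => z i.succ) ≠ 0 := by
    intro z hz hz0 h0
    apply hz
    funext i
    refine Fin.cases hz0 (fun i => ?_) i
    exact congrFun h0 i
  have hA1 : A.IsHomogeneous (1 * (d - 1)) := by
    rw [one_mul]
    have h1 : (X 0 * a).IsHomogeneous (d - 1) := by
      have := (isHomogeneous_X ℂ (0 : Fin (M + 2))).mul ha
      rwa [show 1 + (d - 2) = d - 1 by omega] at this
    exact (hA0.rename_isHomogeneous (f := Fin.succ)).add h1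
  have hAa : AlgCoeff (N := M + 1) A :=
    (algCoeff_ren hA0a).add ((algCoeff_X (N := M + 1) 0).mul haa)
  have hC : ChC (N := M + 1) f (X 0) A k D' := by
    constructor
    · rw [bind₁_X_right]
      rfl
    · intro i hi P hP
      rcases Set.mem_insert_iff.1 hP with rfl | ⟨Q, hQ, rfl⟩
      · exact algCoeff_X (N := M + 1) 0
      · exact algCoeff_ren (hDa i hi Q hQ)
    · intro z hz hgz
      rw [eval_X] at hgz
      rw [hD']
      exact ⟨hgz, hD0 _ (hsucc z hz hgz)⟩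
    · intro i hi z hz hDz
      rw [hD'] at hDz ⊢
      refine ⟨ext_zero _ _ _ _ _ hDz.1, ?_⟩
      rw [ext_succ _ _ _ _ _ hDz.1]
      exact hinv i hi _ (hsucc z hz hDz.1) hDz.2
    · intro i hi
      obtain ⟨m, hm⟩ := hcrit i hi
      refine ⟨m, fun z hz hDz hj => ?_⟩
      rw [hD'] at hDz ⊢
      have h1 := ext_iter_zero h A0 a b z hDz.1 m
      refine ⟨h1.1, ?_⟩
      rw [h1.2]
      apply hm _ (hsucc z hz hDz.1) hDz.2
      have hAz : eval z A = eval (fun i : Fin (M + 1) => z i.succ) A0 := by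
        simp only [A, map_add, map_mul, eval_X, hDz.1, zero_mul, add_zero, eval_ren]
      rcases hj with hj | hj
      · have h2 := ext_jac h A0 a b z hDz.1
        change (jac f z).det = _ at h2
        rw [h2] at hj
        rcases mul_eq_zero.1 hj with h3 | h3
        · exact Or.inr h3
        · exact Or.inl h3
      · rw [hAz] at hj
        exact Or.inr hj
    · intro z hz
      by_contra hno
      push Not at hno
      rw [hD'] at hno
      obtain ⟨P, hP, hPz⟩ := hDk _ (hsucc z hz hno.1)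
      exact hPz (hno.2 P hP)
  exact main (N := M + 1) hd le_rfl f (ext_hom h A0 a b hd hh hA0 ha hb)
    (ext_alg h A0 a b hha hA0a haa hba) hf0 (X 0) A (isHomogeneous_X _ _)
    (algCoeff_X (N := M + 1) 0) hA1 hAa k D' hC α

end

/-- The product of linear forms `X_0 - (1 - ζ) X_{φ(t) + 1}`. -/
noncomputable def fsA (M : ℕ) (ζ : ℂ) {r : ℕ} (φ : Fin r → Fin (M + 1)) :
    MvPolynomial (Fin (M + 1)) ℂ := ∏ t, (X 0 - C (1 - ζ) * X (φ t + 1))

lemma fs_crit' {M d : ℕ} {ζ : ℂ} (hd : 2 ≤ d) (x : Fin (M + 1) → ℂ) (i : Fin (M + 1))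
    (hi : x 0 - (1 - ζ) * x (i + 1) = 0) : (jac (fs M d ζ) x).det = 0 := by
  classical
  apply Matrix.det_eq_zero_of_row_eq_zero i
  intro j
  change eval x (pderiv j ((X 0 - C (1 - ζ) * X (i + 1)) ^ d)) = 0
  rw [pderiv_pow]
  simp only [map_mul, map_pow, map_sub, eval_X, eval_C, hi]
  rw [zero_pow (by omega)]
  simp

lemma lin1_hom {M : ℕ} (ζ : ℂ) (i : Fin (M + 1)) : (X 0 - C (1 - ζ) * X i :
      MvPolynomial (Fin (M + 1)) ℂ).IsHomogeneous 1 :=
  (isHomogeneous_X _ _).sub (by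
    have := (isHomogeneous_C (Fin (M + 1)) (1 - ζ)).mul (isHomogeneous_X ℂ i)
    rwa [zero_add] at this)

lemma lin1_alg {M d : ℕ} (hd0 : d ≠ 0) {ζ : ℂ} (hζ : ζ ^ d = 1) (i : Fin (M + 1)) :
    AlgCoeff (X 0 - C (1 - ζ) * X i : MvPolynomial (Fin (M + 1)) ℂ) := by
  have hζa : IsAlgebraic ℚ ζ := by
    refine ⟨Polynomial.X ^ d - 1, ?_, by simp [hζ]⟩
    exact (Polynomial.monic_X_pow_sub_C 1 hd0).ne_zero
  exact (algCoeff_X 0).sub ((algCoeff_C (isAlgebraic_one.sub hζa)).mul (algCoeff_X i))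

lemma fs_hom {M d : ℕ} {ζ : ℂ} (i : Fin (M + 1)) : (fs M d ζ i).IsHomogeneous d := by
  have h2 := (lin1_hom (M := M) ζ (i + 1)).pow d
  rwa [one_mul] at h2

lemma fsA_hom {M r : ℕ} {ζ : ℂ} (φ : Fin r → Fin (M + 1)) : (fsA M ζ φ).IsHomogeneous r := by
  have h1 := IsHomogeneous.prod Finset.univ (fun t => (X 0 - C (1 - ζ) * X (φ t + 1) :
    MvPolynomial (Fin (M + 1)) ℂ)) (fun _ => 1) fun t _ => lin1_hom ζ _
  rw [Finset.sum_const, Finset.card_univ, Fintype.card_fin, smul_eq_mul, mul_one] at h1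
  exact h1

lemma fs_alg {M d : ℕ} (hd0 : d ≠ 0) {ζ : ℂ} (hζ : ζ ^ d = 1) (i : Fin (M + 1)) :
    AlgCoeff (fs M d ζ i) := (lin1_alg hd0 hζ _).pow d

lemma fsA_alg {M d r : ℕ} (hd0 : d ≠ 0) {ζ : ℂ} (hζ : ζ ^ d = 1) (φ : Fin r → Fin (M + 1)) :
    AlgCoeff (fsA M ζ φ) := AlgCoeff.prod _ _ fun t _ => lin1_alg hd0 hζ _

theorem ext_fs {M d : ℕ} (hd : 2 ≤ d) {ζ : ℂ} (hζ : ζ ^ d = 1) (hζ1 : ζ ≠ 1)
    (φ : Fin (d - 1) → Fin (M + 1)) (a : MvPolynomial (Fin (M + 2)) ℂ)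
    (b : Fin (M + 1) → MvPolynomial (Fin (M + 2)) ℂ)
    (ha : a.IsHomogeneous (d - 2)) (hb : ∀ i, (b i).IsHomogeneous (d - 1))
    (haa : AlgCoeff (N := M + 1) a) (hba : ∀ i, AlgCoeff (N := M + 1) (b i))
    (hf0 : ∀ z : Fin (M + 2) → ℂ, (∀ i, eval z (extMap (fs M d ζ) (fsA M ζ φ) a b i) = 0) → z = 0)
    (α : Fin (M + 2) → ℂ) : DmlAt (N := M + 1) (extMap (fs M d ζ) (fsA M ζ φ) a b) α := by
  classical
  have hd0 : d ≠ 0 := by omega
  have hζ0 : ζ ≠ 0 := by
    rintro rfl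
    rw [zero_pow hd0] at hζ
    exact zero_ne_one hζ
  have hζa : IsAlgebraic ℚ ζ := by
    refine ⟨Polynomial.X ^ d - 1, ?_, by simp [hζ]⟩
    exact (Polynomial.monic_X_pow_sub_C 1 hd0).ne_zero
  have hca : IsAlgebraic ℚ (1 - ζ) := isAlgebraic_one.sub hζa
  have hlin : ∀ i : Fin (M + 1), (X 0 - C (1 - ζ) * X i :
      MvPolynomial (Fin (M + 1)) ℂ).IsHomogeneous 1 := fun i =>
    (isHomogeneous_X _ _).sub (by
      have := (isHomogeneous_C (Fin (M + 1)) (1 - ζ)).mul (isHomogeneous_X ℂ i)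
      rwa [zero_add] at this)
  have hlina : ∀ i : Fin (M + 1), AlgCoeff (X 0 - C (1 - ζ) * X i :
      MvPolynomial (Fin (M + 1)) ℂ) := fun i =>
    (algCoeff_X 0).sub ((algCoeff_C hca).mul (algCoeff_X i))
  have hhom : ∀ i, (fs M d ζ i).IsHomogeneous d := by
    intro i
    have h2 := (hlin (i + 1)).pow d
    rwa [one_mul] at h2
  have hA0 : (fsA M ζ φ).IsHomogeneous (d - 1) := by
    have h1 := IsHomogeneous.prod Finset.univ (fun t => (X 0 - C (1 - ζ) * X (φ t + 1) :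
      MvPolynomial (Fin (M + 1)) ℂ)) (fun _ => 1) fun t _ => hlin _
    rw [Finset.sum_const, Finset.card_univ, Fintype.card_fin, smul_eq_mul, mul_one] at h1
    exact h1
  have hne : ∀ x : Fin (M + 1) → ℂ, x ≠ 0 → pt (fs M d ζ) x ≠ 0 := fun x hx h =>
    hx (fs_ne hd0 hζ1 hζ0 x fun i => congrFun h i)
  have hneit : ∀ (x : Fin (M + 1) → ℂ), x ≠ 0 → ∀ n, (pt (fs M d ζ))^[n] x ≠ 0 := by
    intro x hx n
    induction n with
    | zero => exact hx
    | succ n ih =>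
      rw [Function.iterate_succ_apply']
      exact hne _ ih
  let D : ℕ → Set (MvPolynomial (Fin (M + 1)) ℂ) := fun i =>
    if i = M + 1 then {1} else Set.range (vdm (N := M) (M + 2 - i))
  have hDlt : ∀ i, i < M + 1 → ∀ x, (∀ P ∈ D i, eval x P = 0) ↔ nd x < M + 2 - i := by
    intro i hi x
    simp only [D, if_neg (show i ≠ M + 1 by omega)]
    rw [← nd_lt_iff, Set.forall_mem_range]
  have hDlast : ∀ x, ¬ ∀ P ∈ D (M + 1), eval x P = 0 := by
    intro x hx
    simp only [D, if_true, Set.mem_singleton_iff, forall_eq, map_one] at hx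
    exact one_ne_zero hx
  refine ext_main (fs M d ζ) (fsA M ζ φ) a b hd hhom hA0 ha hb (fun i => (hlina _).pow d)
    (AlgCoeff.prod _ _ fun t _ => hlina _) haa hba hf0 (M + 1) D ?_ ?_ ?_ ?_ ?_ α
  · intro i hi P hP
    by_cases h : i = M + 1
    · simp only [D, if_pos h, Set.mem_singleton_iff] at hP
      rw [hP]
      exact algCoeff_one
    · simp only [D, if_neg h] at hP
      obtain ⟨ψ, rfl⟩ := hP
      exact AlgCoeff.prod _ _ fun q _ => (algCoeff_X _).sub (algCoeff_X _)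
  · intro z _
    rw [hDlt 0 (by omega)]
    have := nd_le z
    omega
  · intro i hi z hz hDz
    rcases Nat.lt_or_ge i (M + 1) with h | h
    · rw [hDlt i h] at hDz ⊢
      exact lt_of_le_of_lt (nd_fs_le z) hDz
    · obtain rfl : i = M + 1 := by omega
      exact absurd hDz (hDlast z)
  · intro i hi
    refine ⟨M + 2, fun z hz hDz hj => ?_⟩
    rw [hDlt i hi] at hDz
    have hJ : (jac (fs M d ζ) z).det = 0 := by
      rcases hj with hj | hj
      · exact hj
      · unfold fsA at hj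
        rw [map_prod, Finset.prod_eq_zero_iff] at hj
        obtain ⟨t, -, ht⟩ := hj
        rw [map_sub, map_mul, eval_X, eval_X, eval_C] at ht
        exact fs_crit' hd z (φ t) ht
    have h1 := fs_drop hd0 hζ hζ1 z hz hJ
    have h2 := nd_pos ((pt (fs M d ζ))^[M + 2] z)
    rcases Nat.lt_or_ge (i + 1) (M + 1) with h | h
    · rw [hDlt (i + 1) h]
      omega
    · exfalso
      omega
  · intro z hz
    have h1 := hDlast z
    push Not at h1
    exact h1

/-- The family contains endomorphisms. -/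
lemma ext_fs_ne {M d : ℕ} (hd : 2 ≤ d) {ζ : ℂ} (hζ : ζ ^ d = 1) (hζ1 : ζ ≠ 1)
    (φ : Fin (d - 1) → Fin (M + 1)) (z : Fin (M + 2) → ℂ)
    (hz : ∀ i, eval z (extMap (fs M d ζ) (fsA M ζ φ) (X 0 ^ (d - 2)) (fun _ => 0) i) = 0) :
    z = 0 := by
  have hd0 : d ≠ 0 := by omega
  have hζ0 : ζ ≠ 0 := by
    rintro rfl
    rw [zero_pow hd0] at hζ
    exact zero_ne_one hζ
  have h1 : (fun i : Fin (M + 1) => z i.succ) = 0 := by
    apply fs_ne hd0 hζ1 hζ0
    intro i
    have h2 := hz i.succ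
    change eval z (rename Fin.succ (fs M d ζ i) + X 0 * 0) = 0 at h2
    rwa [mul_zero, add_zero, eval_ren] at h2
  have h2 := hz 0
  change eval z (X 0 * (rename Fin.succ (fsA M ζ φ) + X 0 * X 0 ^ (d - 2))) = 0 at h2
  have hA0 : eval (fun i : Fin (M + 1) => z i.succ) (fsA M ζ φ) = 0 := by
    rw [h1]
    unfold fsA
    rw [map_prod]
    have : 0 < d - 1 := by omega
    apply Finset.prod_eq_zero (Finset.mem_univ (⟨0, this⟩ : Fin (d - 1)))
    simp
  rw [map_mul, map_add, map_mul, map_pow, eval_X, eval_ren, hA0, zero_add] at h2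
  funext i
  refine Fin.cases ?_ (fun i => ?_) i
  · have h3 : z 0 ^ d = 0 := by
      rw [← h2, ← pow_succ', ← pow_succ']
      congr 1
      omega
    exact pow_eq_zero_iff hd0 |>.1 h3
  · exact congrFun h1 i

end Pool.Agent.T6.H91.DML
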