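import Pool.Agent.T6.H91.DML.Iter

set_option autoImplicit false

/-! Cycles on an invariant hypersurface which contain no critical points do not meet the residual
divisor. -/

namespace Pool.Agent.T6.H91.DML

section

open MvPolynomial Pool.Agent.H936R2 Pool.Agent.R847.PC

/-- Substitution of polynomials in one variable. -/
noncomputable def sb {N : ℕ} (u : Fin (N + 1) → Polynomial ℂ) (P : MvPolynomial (Fin (N + 1)) ℂ) :
    Polynomial ℂ := aeval u P

lemma eval_sb {N : ℕ} (u : Fin (N + 1) → Polynomial ℂ) (P : MvPolynomial (Fin (N + 1)) ℂ) (t : ℂ) :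
    (sb u P).eval t = eval (fun i => (u i).eval t) P := by
  have h1 := MvPolynomial.comp_aeval (R := ℂ) u (Polynomial.aeval t)
  have h2 := DFunLike.congr_fun h1 P
  have h3 : (sb u P).eval t = Polynomial.aeval t (aeval u P) := by
    rw [Polynomial.coe_aeval_eq_eval]
    rfl
  rw [h3]
  refine h2.trans ?_
  have h4 : (fun i => Polynomial.aeval t (u i)) = fun i => (u i).eval t := by
    funext i
    rw [Polynomial.coe_aeval_eq_eval]
  change aeval (fun i => Polynomial.aeval t (u i)) P = _
  rw [h4]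
  rfl

/-- The line through `z` with direction `y`. -/
noncomputable def ln {N : ℕ} (z y : Fin (N + 1) → ℂ) : Fin (N + 1) → Polynomial ℂ :=
  fun i => Polynomial.C (z i) + Polynomial.X * Polynomial.C (y i)

lemma eval_ln {N : ℕ} (z y : Fin (N + 1) → ℂ) (P : MvPolynomial (Fin (N + 1)) ℂ) (t : ℂ) :
    (sb (ln z y) P).eval t = eval (z + t • y) P := by
  rw [eval_sb]
  congr 1
  congr 1
  funext i
  rw [ln, Polynomial.eval_add, Polynomial.eval_mul, Polynomial.eval_C, Polynomial.eval_C,
    Polynomial.eval_X]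
  rfl

lemma sb_mul {N : ℕ} (u : Fin (N + 1) → Polynomial ℂ) (P Q : MvPolynomial (Fin (N + 1)) ℂ) :
    sb u (P * Q) = sb u P * sb u Q := map_mul _ _ _

lemma sb_bind {N : ℕ} (u : Fin (N + 1) → Polynomial ℂ)
    (F : Fin (N + 1) → MvPolynomial (Fin (N + 1)) ℂ) (P : MvPolynomial (Fin (N + 1)) ℂ) :
    sb u (bind₁ F P) = sb (fun i => sb u (F i)) P := aeval_bind₁ _ _ _

lemma sb_scale {N e : ℕ} (u : Fin (N + 1) → Polynomial ℂ) (c : ℂ)
    (P : MvPolynomial (Fin (N + 1)) ℂ) (hP : P.IsHomogeneous e) :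
    sb (fun i => Polynomial.C c * u i) P = Polynomial.C (c ^ e) * sb u P := by
  apply Polynomial.funext
  intro t
  rw [eval_sb, Polynomial.eval_mul, Polynomial.eval_C, eval_sb]
  have h1 := Pool.Agent.R847.QP.hom_scale P e hP c (fun i => (u i).eval t)
  rw [← h1]
  congr 1
  congr 1
  funext i
  simp

/-- Taylor expansion. -/
lemma taylor {N : ℕ} (z y : Fin (N + 1) → ℂ) (P : MvPolynomial (Fin (N + 1)) ℂ) :
    ∃ r : Polynomial ℂ, sb (ln z y) P = Polynomial.C (eval z P) +
      Polynomial.X * Polynomial.C (∑ j, eval z (pderiv j P) * y j) + Polynomial.X ^ 2 * r := by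
  classical
  induction P using MvPolynomial.induction_on with
  | C a =>
    refine ⟨0, ?_⟩
    simp [sb]
  | add p q hp hq =>
    obtain ⟨r, hr⟩ := hp
    obtain ⟨s, hs⟩ := hq
    refine ⟨r + s, ?_⟩
    have h1 : sb (ln z y) (p + q) = sb (ln z y) p + sb (ln z y) q := map_add _ _ _
    rw [h1, hr, hs, map_add]
    have h2 : ∑ j, eval z (pderiv j (p + q)) * y j =
        ∑ j, eval z (pderiv j p) * y j + ∑ j, eval z (pderiv j q) * y j := by
      rw [← Finset.sum_add_distrib]
      refine Finset.sum_congr rfl fun j _ => ?_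
      rw [map_add, map_add, add_mul]
    rw [h2, Polynomial.C_add, Polynomial.C_add]
    ring
  | mul_X p i hp =>
    obtain ⟨r, hr⟩ := hp
    have h1 : sb (ln z y) (p * X i) = sb (ln z y) p * (Polynomial.C (z i) +
        Polynomial.X * Polynomial.C (y i)) := by
      rw [sb_mul]
      congr 1
      change aeval (ln z y) (X i) = _
      rw [aeval_X]
      rfl
    have h2 : ∑ j, eval z (pderiv j (p * X i)) * y j =
        z i * ∑ j, eval z (pderiv j p) * y j + eval z p * y i := by
      have h3 : ∀ j, eval z (pderiv j (p * X i)) * y j =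
          z i * (eval z (pderiv j p) * y j) + (if j = i then eval z p * y j else 0) := by
        intro j
        rw [Derivation.leibniz, smul_eq_mul, smul_eq_mul, pderiv_X]
        by_cases hji : j = i
        · subst hji
          rw [Pi.single_eq_same, if_pos rfl]
          simp only [map_add, map_mul, map_one, eval_X]
          ring
        · rw [Pi.single_eq_of_ne (Ne.symm hji), if_neg hji]
          simp only [map_add, map_mul, map_zero, eval_X]
          ring
      rw [Finset.sum_congr rfl fun j _ => h3 j, Finset.sum_add_distrib, ← Finset.mul_sum,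
        Finset.sum_ite_eq' Finset.univ i, if_pos (Finset.mem_univ _)]
    refine ⟨r * (Polynomial.C (z i) + Polynomial.X * Polynomial.C (y i)) +
      Polynomial.C (∑ j, eval z (pderiv j p) * y j) * Polynomial.C (y i), ?_⟩
    rw [h1, hr, h2, map_mul, eval_X, Polynomial.C_add, Polynomial.C_mul, Polynomial.C_mul,
      Polynomial.C_mul]
    ring

end

section

open Polynomial

/-- If `P` vanishes to order `k` at `z` on all lines then the order on `z + t u(t)` can be read off
on the tangent line. -/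
lemma order_curve {N : ℕ} (z : Fin (N + 1) → ℂ) (P : MvPolynomial (Fin (N + 1)) ℂ)
    (k : ℕ) (hk : ∀ y, (X : ℂ[X]) ^ k ∣ sb (ln z y) P) (u : Fin (N + 1) → ℂ[X])
    (hdvd : (X : ℂ[X]) ^ (k + 1) ∣ sb (fun i => C (z i) + X * u i) P) :
    (X : ℂ[X]) ^ (k + 1) ∣ sb (ln z fun i => (u i).eval 0) P := by
  let W : ℂ[X][X] := MvPolynomial.aeval (fun i => C (C (z i)) + X * C (u i)) P
  have hW : ∀ t : ℂ, W.map (evalRingHom t) = sb (ln z fun i => (u i).eval t) P := by
    intro t
    have h1 : W = MvPolynomial.eval₂ (C.comp C) (fun i => C (C (z i)) + X * C (u i)) P := rfl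
    have h2 := MvPolynomial.eval₂_comp_left (Polynomial.mapRingHom (evalRingHom t))
      ((C : ℂ[X] →+* ℂ[X][X]).comp (C : ℂ →+* ℂ[X])) (fun i => C (C (z i)) + X * C (u i)) P
    have h3 : W.map (evalRingHom t) = Polynomial.mapRingHom (evalRingHom t) W := rfl
    rw [h3, h1, h2]
    have h4 : (Polynomial.mapRingHom (evalRingHom t)).comp
        ((C : ℂ[X] →+* ℂ[X][X]).comp (C : ℂ →+* ℂ[X])) = (C : ℂ →+* ℂ[X]) := by
      ext a
      simp
    have h5 : (Polynomial.mapRingHom (evalRingHom t)) ∘ (fun i => C (C (z i)) + X * C (u i)) =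
        ln z fun i => (u i).eval t := by
      funext i
      simp [ln]
    rw [h4, h5]
    rfl
  have hWX : W.eval X = sb (fun i => C (z i) + X * u i) P := by
    have h1 : W = MvPolynomial.eval₂ (C.comp C) (fun i => C (C (z i)) + X * C (u i)) P := rfl
    have h2 := MvPolynomial.eval₂_comp_left (evalRingHom (X : ℂ[X]))
      ((C : ℂ[X] →+* ℂ[X][X]).comp (C : ℂ →+* ℂ[X])) (fun i => C (C (z i)) + X * C (u i)) P
    have h3 : W.eval X = evalRingHom (X : ℂ[X]) W := rfl
    rw [h3, h1, h2]
    have h4 : (evalRingHom (X : ℂ[X])).comp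
        ((C : ℂ[X] →+* ℂ[X][X]).comp (C : ℂ →+* ℂ[X])) = (C : ℂ →+* ℂ[X]) := by
      ext a
      simp
    have h5 : (evalRingHom (X : ℂ[X])) ∘ (fun i => C (C (z i)) + X * C (u i)) =
        fun i => C (z i) + X * u i := by
      funext i
      change eval X (C (C (z i)) + X * C (u i)) = _
      rw [eval_add, eval_mul, eval_C, eval_C, eval_X]
    rw [h4, h5]
    rfl
  have hcoeff : ∀ j (t : ℂ), (W.coeff j).eval t = (sb (ln z fun i => (u i).eval t) P).coeff j := by
    intro j t
    rw [← hW, coeff_map]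
    rfl
  have hXW : (X : ℂ[X][X]) ^ k ∣ W := by
    rw [X_pow_dvd_iff]
    intro j hj
    apply Polynomial.funext
    intro t
    rw [hcoeff, eval_zero]
    exact X_pow_dvd_iff.1 (hk _) j hj
  obtain ⟨V, hV⟩ := hXW
  have h1 : sb (fun i => C (z i) + X * u i) P = X ^ k * V.eval X := by
    rw [← hWX, hV, eval_mul, eval_pow, eval_X]
  rw [h1, pow_succ] at hdvd
  have h2 : (X : ℂ[X]) ∣ V.eval X := (mul_dvd_mul_iff_left (pow_ne_zero k X_ne_zero)).1 hdvd
  have h3 : (V.coeff 0).eval 0 = 0 := by
    have h4 : (V.eval X).coeff 0 = 0 := X_dvd_iff.1 h2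
    rw [coeff_zero_eq_eval_zero] at h4
    have h5 : (V.eval X).eval 0 = (V.map (evalRingHom (0 : ℂ))).eval 0 := by
      have h6 : ∀ V : ℂ[X][X], (V.eval X).eval 0 = (V.map (evalRingHom (0 : ℂ))).eval 0 := by
        intro V
        induction V using Polynomial.induction_on' with
        | add p q hp hq => rw [eval_add, eval_add, hp, hq, Polynomial.map_add, eval_add]
        | monomial n a => simp [map_monomial, eval_monomial]
      exact h6 V
    rw [h5, ← coeff_zero_eq_eval_zero, coeff_map] at h4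
    exact h4
  have h4 : W.coeff k = V.coeff 0 := by
    rw [hV]
    have := coeff_X_pow_mul V k 0
    rwa [Nat.zero_add] at this
  rw [X_pow_dvd_iff]
  intro j hj
  rcases Nat.lt_succ_iff_lt_or_eq.1 hj with hj | rfl
  · exact X_pow_dvd_iff.1 (hk _) j hj
  · rw [← hcoeff, h4, h3]

end

open MvPolynomial Pool.Agent.H936R2 Pool.Agent.R847.PC

/-- The residual divisor does not pass through a fixed point which is not critical. -/
theorem etale_cofactor {N e : ℕ} (F : Fin (N + 1) → MvPolynomial (Fin (N + 1)) ℂ)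
    (g B : MvPolynomial (Fin (N + 1)) ℂ) (hg : g.IsHomogeneous e) (hg0 : g ≠ 0)
    (hgB : bind₁ F g = g * B) (z : Fin (N + 1) → ℂ) (c : ℂ) (hc : c ≠ 0) (hz : pt F z = c • z)
    (hdet : (jac F z).det ≠ 0) : eval z B ≠ 0 := by
  classical
  intro hB
  -- the order
  have hex : ∃ k : ℕ, ¬ ∀ y, (Polynomial.X : Polynomial ℂ) ^ k ∣ sb (ln z y) g := by
    by_contra hno
    push Not at hno
    apply hg0
    apply MvPolynomial.funext
    intro v
    have h1 : sb (ln z (v - z)) g = 0 := by
      by_contra hne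
      have h2 := hno ((sb (ln z (v - z)) g).natDegree + 1) (v - z)
      have h3 := Polynomial.natDegree_le_of_dvd h2 hne
      rw [Polynomial.natDegree_X_pow] at h3
      omega
    have h2 := eval_ln z (v - z) g 1
    rw [h1, Polynomial.eval_zero, one_smul, add_sub_cancel] at h2
    rw [← h2, map_zero]
  obtain ⟨k0, hk0⟩ : ∃ k0, Nat.find hex = k0 := ⟨_, rfl⟩
  have hk0' := Nat.find_spec hex
  rw [hk0] at hk0'
  rcases k0 with _ | k
  · apply hk0'
    intro y
    rw [pow_zero]
    exact one_dvd _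
  have hk : ∀ y, (Polynomial.X : Polynomial ℂ) ^ k ∣ sb (ln z y) g := by
    have := Nat.find_min hex (m := k) (by omega)
    exact not_not.1 this
  push Not at hk0'
  obtain ⟨y0, hy0⟩ := hk0'
  apply hy0
  -- the direction
  set J := jac F z with hJ
  have hJu : IsUnit J.det := isUnit_iff_ne_zero.2 hdet
  let y : Fin (N + 1) → ℂ := J⁻¹.mulVec (c • y0)
  have hJy : J.mulVec y = c • y0 := by
    simp only [y]
    rw [Matrix.mulVec_mulVec, Matrix.mul_nonsing_inv _ hJu, Matrix.one_mulVec]
  choose r hr using fun i => taylor z y (F i)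
  let u : Fin (N + 1) → Polynomial ℂ := fun i =>
    Polynomial.C (y0 i) + Polynomial.X * (Polynomial.C c⁻¹ * r i)
  have hu : ∀ i, sb (ln z y) (F i) =
      Polynomial.C c * (Polynomial.C (z i) + Polynomial.X * u i) := by
    intro i
    rw [hr i]
    have h1 : eval z (F i) = c * z i := congrFun hz i
    have h2 : ∑ j, eval z (pderiv j (F i)) * y j = c * y0 i := congrFun hJy i
    rw [h1, h2]
    simp only [u]
    rw [Polynomial.C_mul, Polynomial.C_mul]
    have h3 : (Polynomial.C c : Polynomial ℂ) * Polynomial.C c⁻¹ = 1 := by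
      rw [← Polynomial.C_mul, mul_inv_cancel₀ hc, Polynomial.C_1]
    linear_combination (-(Polynomial.X ^ 2 * r i)) * h3
  have hu0 : (fun i => (u i).eval 0) = y0 := by
    funext i
    simp [u]
  have h1 : sb (ln z y) (bind₁ F g) =
      Polynomial.C (c ^ e) * sb (fun i => Polynomial.C (z i) + Polynomial.X * u i) g := by
    rw [sb_bind, ← sb_scale _ c g hg]
    congr 1
    funext i
    exact hu i
  have h2 : (Polynomial.X : Polynomial ℂ) ^ (k + 1) ∣ sb (ln z y) (g * B) := by
    rw [sb_mul, pow_succ]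
    refine mul_dvd_mul (hk y) ?_
    rw [Polynomial.X_dvd_iff, Polynomial.coeff_zero_eq_eval_zero, eval_ln, zero_smul, add_zero]
    exact hB
  rw [← hgB, h1] at h2
  have h3 : (Polynomial.X : Polynomial ℂ) ^ (k + 1) ∣
      sb (fun i => Polynomial.C (z i) + Polynomial.X * u i) g := by
    have h4 := h2.mul_left (Polynomial.C (c ^ e)⁻¹)
    rwa [← mul_assoc, ← Polynomial.C_mul, inv_mul_cancel₀ (pow_ne_zero e hc), Polynomial.C_1,
      one_mul] at h4
  have h4 := order_curve z g k hk u h3
  rwa [hu0] at h4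

end Pool.Agent.T6.H91.DML
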