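import Pool.Agent.T6.H91.DML.TransV
import Pool.Agent.T6.H91.DML.Ord

set_option autoImplicit false

/-! The dichotomy: all points; iterates; curves and lines in the plane. -/

namespace Pool.Agent.T6.H91.DML

open MvPolynomial Pool.Agent.H936R2 Pool.Agent.R847.PC

/-- The point `[z]` has algebraic coordinates. -/
def AlgPt {N : ℕ} (z : Fin (N + 1) → ℂ) : Prop := ∃ a : ℂ, a ≠ 0 ∧ ∀ i, IsAlgebraic ℚ (a * z i)

/-- Finite unions of arithmetic progressions. -/
def FU (A : Set ℕ) : Prop := ∃ T : Finset (ℕ × ℕ), A = {n : ℕ | ∃ q ∈ T, ∃ m : ℕ, n = q.1 * m + q.2}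

lemma fu_of_finite {A : Set ℕ} (h : A.Finite) : FU A := by
  classical
  refine ⟨h.toFinset.image fun n => (0, n), ?_⟩
  ext n
  simp only [Finset.mem_image, Set.Finite.mem_toFinset, Set.mem_ofPred_eq]
  constructor
  · intro hn
    exact ⟨(0, n), ⟨n, hn, rfl⟩, 0, by simp⟩
  · rintro ⟨-, ⟨m, hm, rfl⟩, k, rfl⟩
    simpa using hm

lemma window_of_finite {A : Set ℕ} (h : A.Finite) (M : ℕ) :
    ∃ C : ℕ, ∀ n, {m | m ∈ A ∧ n ≤ m ∧ m + C < 2 * n}.ncard ≤ M := by
  obtain ⟨C, hC⟩ := h.bddAbove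
  refine ⟨C, fun n => ?_⟩
  have : {m | m ∈ A ∧ n ≤ m ∧ m + C < 2 * n} = ∅ := by
    rw [Set.eq_empty_iff_forall_notMem]
    rintro m ⟨hm, h1, h2⟩
    have := hC hm
    omega
  rw [this, Set.ncard_empty]
  exact Nat.zero_le _

/-- The return set. -/
def RS {N : ℕ} (f : Fin (N + 1) → MvPolynomial (Fin (N + 1)) ℂ)
    (S : Set (MvPolynomial (Fin (N + 1)) ℂ)) (α : Fin (N + 1) → ℂ) : Set ℕ :=
  {m | ∀ P ∈ S, eval ((pt f)^[m] α) P = 0}

lemma rs_smul {N d : ℕ} (f : Fin (N + 1) → MvPolynomial (Fin (N + 1)) ℂ)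
    (hf : ∀ i, (f i).IsHomogeneous d) (S : Set (MvPolynomial (Fin (N + 1)) ℂ))
    (hS : ∀ P ∈ S, ∃ e : ℕ, P.IsHomogeneous e) (a : ℂ) (ha : a ≠ 0) (α : Fin (N + 1) → ℂ) :
    RS f S (a • α) = RS f S α := by
  ext m
  refine forall_congr' fun P => forall_congr' fun hP => ?_
  obtain ⟨e, he⟩ := hS P hP
  obtain ⟨b, hb, h⟩ := iter_smul f hf a ha α m
  rw [h, Pool.Agent.R847.QP.hom_scale P e he, mul_eq_zero]
  exact ⟨fun h => h.resolve_left (pow_ne_zero _ hb), Or.inr⟩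

section

variable {N d e r : ℕ} (hd : 2 ≤ d) (he : 1 ≤ e)
    (f : Fin (N + 1) → MvPolynomial (Fin (N + 1)) ℂ) (hf : ∀ i, (f i).IsHomogeneous d)
    (hfa : ∀ i, AlgCoeff (f i)) (hf0 : ∀ z : Fin (N + 1) → ℂ, (∀ i, eval z (f i) = 0) → z = 0)
    (g A : MvPolynomial (Fin (N + 1)) ℂ) (hg : g.IsHomogeneous e) (hga : AlgCoeff g)
    (S : Set (MvPolynomial (Fin (N + 1)) ℂ)) (hS : ∀ P ∈ S, ∃ e : ℕ, P.IsHomogeneous e)
    (T : Finset (Fin (N + 1) → ℂ))
    (hT : ∀ z : Fin (N + 1) → ℂ, z ≠ 0 → eval z g = 0 → (∀ P ∈ S, eval z P = 0) →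
      ∃ w ∈ T, ∃ a : ℂ, a ≠ 0 ∧ z = a • w)
    (α : Fin (N + 1) → ℂ) (hα : α ≠ 0) (h : AlgPt α ∨ ∀ P ∈ S, AlgCoeff P)

include hd he hf hfa hf0 hg hga hS hT hα h

theorem dich_all (hA : A.IsHomogeneous (e * (d - 1))) (hAa : AlgCoeff A) (hgA : bind₁ f g = g * A)
    (hvis : ∀ z : Fin (N + 1) → ℂ, z ≠ 0 → eval z g = 0 → ∀ P : Finset ℕ, P.card = r →
      ∃ t ∈ P, eval ((pt f)^[t] z) A ≠ 0)
    (hgood : ∀ z : Fin (N + 1) → ℂ, z ≠ 0 → eval z g = 0 → (∀ P ∈ S, eval z P = 0) →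
      ∀ n, Peri f ((pt f)^[n] z) → (jac f ((pt f)^[n] z)).det ≠ 0) :
    (FU (RS f S α) ∨ ∃ C : ℕ, ∀ n, {m | m ∈ RS f S α ∧ n ≤ m ∧ m + C < 2 * n}.ncard ≤
      T.card ^ 2 + 1) ∧
    ((∀ z : Fin (N + 1) → ℂ, z ≠ 0 → eval z g = 0 → (∀ P ∈ S, eval z P = 0) → Prep f z) →
      FU (RS f S α)) := by
  by_cases hcon : DmlAt f α
  · have h1 : FU (RS f S α) := hcon S hS
    exact ⟨Or.inl h1, fun _ => h1⟩
  by_cases halg : AlgPt α
  · obtain ⟨a, ha, haa⟩ := halg
    have h1 := rs_smul f hf S hS a ha α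
    have hcon' : ¬ DmlAt f (a • α) := fun h2 => hcon (dmlAt_unsmul f hf a ha α h2)
    obtain ⟨h2, h3⟩ := dich_C hd he f hf hfa hf0 g A hg hga hA hAa hgA hvis S T hT hgood (a • α)
      (smul_ne_zero ha hα) haa hcon'
    have h4 : {m | ∀ P ∈ S, eval ((pt f)^[m] (a • α)) P = 0} = RS f S α := h1
    rw [h4] at h3
    refine ⟨Or.inr ?_, fun h5 => fu_of_finite (h3 h5)⟩
    obtain ⟨C, hC⟩ := h2
    refine ⟨C, fun n => ?_⟩
    rw [← h1]
    exact hC n
  · have hSa := h.resolve_left halg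
    obtain ⟨i, hi⟩ := Function.ne_iff.1 hα
    have hi' : α i ≠ 0 := hi
    have h1 : ∃ j, Transcendental ℚ (α j / α i) := by
      by_contra hno
      push Not at hno
      refine halg ⟨(α i)⁻¹, inv_ne_zero hi', fun j => ?_⟩
      rw [← div_eq_inv_mul]
      exact not_not.1 (hno j)
    obtain ⟨j, hj⟩ := h1
    have h2 : (RS f S α).Finite := trans_V (by omega) he f hf hfa hf0 g hg hga (fun z hz => by
      have h3 := congrArg (eval z) hgA
      rw [eval_bind, map_mul, hz, zero_mul] at h3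
      exact h3) S hS hSa T hT hgood α i j hi' hj hcon
    exact ⟨Or.inl (fu_of_finite h2), fun _ => fu_of_finite h2⟩

end

lemma peri_iter {N d : ℕ} (f : Fin (N + 1) → MvPolynomial (Fin (N + 1)) ℂ)
    (hf : ∀ i, (f i).IsHomogeneous d) (z : Fin (N + 1) → ℂ) (h : Peri f z) (i : ℕ) :
    Peri f ((pt f)^[i] z) := by
  obtain ⟨q, hq, a, ha, h⟩ := h
  obtain ⟨b, hb, h1⟩ := prep_more f hf z 0 q a ha (by rw [Nat.zero_add]; exact h) i 1
  rw [Nat.mul_one, Nat.zero_add] at h1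
  exact ⟨q, hq, b, hb, h1⟩

lemma peri_itp {N : ℕ} (f : Fin (N + 1) → MvPolynomial (Fin (N + 1)) ℂ) (l : ℕ) (hl : 0 < l)
    (z : Fin (N + 1) → ℂ) (h : Peri (itp f l) z) : Peri f z := by
  obtain ⟨q, hq, a, ha, h⟩ := h
  rw [pt_itp, ← Function.iterate_mul] at h
  exact ⟨l * q, Nat.mul_pos hl hq, a, ha, h⟩

lemma prep_itp {N d : ℕ} (f : Fin (N + 1) → MvPolynomial (Fin (N + 1)) ℂ)
    (hf : ∀ i, (f i).IsHomogeneous d) (l : ℕ) (hl : 0 < l)
    (z : Fin (N + 1) → ℂ) (h : Prep f z) : Prep (itp f l) z := by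
  obtain ⟨n, q, hq, a, ha, h⟩ := h
  obtain ⟨b, hb, h3⟩ := prep_more f hf z n q a ha h ((l - 1) * n) l
  refine ⟨n, q, hq, b, hb, ?_⟩
  rw [pt_itp, ← Function.iterate_mul, ← Function.iterate_mul]
  have h4 : n + (l - 1) * n = l * n := by
    obtain ⟨l', rfl⟩ := Nat.exists_eq_add_of_le hl
    rw [Nat.add_sub_cancel_left]
    ring
  rw [h4, ← Function.iterate_add_apply] at h3
  rw [show l * (n + q) = q * l + l * n by ring]
  exact h3

lemma fu_iter {N : ℕ} (f : Fin (N + 1) → MvPolynomial (Fin (N + 1)) ℂ) (l : ℕ) (s : Finset ℕ)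
    (S : Set (MvPolynomial (Fin (N + 1)) ℂ)) (α : Fin (N + 1) → ℂ)
    (h : ∀ r ∈ s, FU (RS (itp f l) S ((pt f)^[r] α))) :
    FU {n | ∃ r ∈ s, ∃ m ∈ RS (itp f l) S ((pt f)^[r] α), n = l * m + r} := by
  classical
  choose! T hT using h
  refine ⟨s.biUnion fun r => (T r).image fun q => (l * q.1, l * q.2 + r), ?_⟩
  ext n
  simp only [Set.mem_ofPred_eq, Finset.mem_biUnion, Finset.mem_image]
  constructor
  · rintro ⟨r, hr, m, hm, rfl⟩
    rw [hT r hr] at hm
    obtain ⟨q, hq, k, rfl⟩ := hm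
    exact ⟨(l * q.1, l * q.2 + r), ⟨r, hr, q, hq, rfl⟩, k, by ring⟩
  · rintro ⟨-, ⟨r, hr, q, hq, rfl⟩, k, rfl⟩
    refine ⟨r, hr, q.1 * k + q.2, ?_, by ring⟩
    rw [hT r hr]
    exact ⟨q, hq, k, rfl⟩

lemma rs_iter {N : ℕ} (f : Fin (N + 1) → MvPolynomial (Fin (N + 1)) ℂ) (l : ℕ)
    (S : Set (MvPolynomial (Fin (N + 1)) ℂ)) (α : Fin (N + 1) → ℂ) (m r : ℕ) :
    m ∈ RS (itp f l) S ((pt f)^[r] α) ↔ l * m + r ∈ RS f S α := by
  unfold RS
  simp only [Set.mem_ofPred_eq]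
  rw [pt_itp, ← Function.iterate_mul, ← Function.iterate_add_apply]

section

variable {N d e r l : ℕ} (hd : 2 ≤ d) (he : 1 ≤ e) (hl : 0 < l)
    (f : Fin (N + 1) → MvPolynomial (Fin (N + 1)) ℂ) (hf : ∀ i, (f i).IsHomogeneous d)
    (hfa : ∀ i, AlgCoeff (f i)) (hf0 : ∀ z : Fin (N + 1) → ℂ, (∀ i, eval z (f i) = 0) → z = 0)
    (g A : MvPolynomial (Fin (N + 1)) ℂ) (hg : g.IsHomogeneous e) (hga : AlgCoeff g)
    (hA : A.IsHomogeneous (e * (d ^ l - 1))) (hAa : AlgCoeff A)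
    (hgA : bind₁ (itp f l) g = g * A)

include hd he hl hf hfa hf0 hg hga hA hAa hgA

theorem dich_iter
    (hvis : ∀ z : Fin (N + 1) → ℂ, z ≠ 0 → eval z g = 0 → ∀ P : Finset ℕ, P.card = r →
      ∃ t ∈ P, eval ((pt (itp f l))^[t] z) A ≠ 0)
    (S : Set (MvPolynomial (Fin (N + 1)) ℂ)) (hS : ∀ P ∈ S, ∃ e : ℕ, P.IsHomogeneous e)
    (T : Finset (Fin (N + 1) → ℂ))
    (hT : ∀ z : Fin (N + 1) → ℂ, z ≠ 0 → eval z g = 0 → (∀ P ∈ S, eval z P = 0) →
      ∃ w ∈ T, ∃ a : ℂ, a ≠ 0 ∧ z = a • w)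
    (hgood : ∀ z : Fin (N + 1) → ℂ, z ≠ 0 → eval z g = 0 → (∀ P ∈ S, eval z P = 0) →
      ∀ n, Peri f ((pt f)^[n] z) → (jac f ((pt f)^[n] z)).det ≠ 0)
    (α : Fin (N + 1) → ℂ) (hα : α ≠ 0) (h : AlgPt α ∨ ∀ P ∈ S, AlgCoeff P) :
    (∃ R1 R2 : Set ℕ, RS f S α = R1 ∪ R2 ∧ FU R1 ∧
      ∃ C : ℕ, ∀ n, {m | m ∈ R2 ∧ n ≤ m ∧ m + C < 2 * n}.ncard ≤ l * (T.card ^ 2 + 1)) ∧
    ((∀ z : Fin (N + 1) → ℂ, z ≠ 0 → eval z g = 0 → (∀ P ∈ S, eval z P = 0) → Prep f z) →
      FU (RS f S α)) := by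
  classical
  have hdl : 2 ≤ d ^ l := by
    calc 2 ≤ d := hd
      _ = d ^ 1 := (pow_one d).symm
      _ ≤ d ^ l := Nat.pow_le_pow_right (by omega) hl
  have hne := iter_ne_zero f hf0
  have hall : ∀ r : ℕ, (FU (RS (itp f l) S ((pt f)^[r] α)) ∨ ∃ C : ℕ, ∀ n,
      {m | m ∈ RS (itp f l) S ((pt f)^[r] α) ∧ n ≤ m ∧ m + C < 2 * n}.ncard ≤ T.card ^ 2 + 1) ∧
      ((∀ z : Fin (N + 1) → ℂ, z ≠ 0 → eval z g = 0 → (∀ P ∈ S, eval z P = 0) →
        Prep (itp f l) z) → FU (RS (itp f l) S ((pt f)^[r] α))) := by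
    intro r
    refine dich_all hdl he (itp f l) (itp_hom hf l) (AlgCoeff.itp hfa l) ?_ g A hg hga S hS T hT
      _ (hne α hα r) ?_ hA hAa hgA hvis ?_
    · intro z hz
      by_contra hz0
      apply hne z hz0 l
      rw [← pt_itp]
      funext i
      exact hz i
    · rcases h with ⟨a, ha, haa⟩ | h
      · left
        obtain ⟨b, hb, h1⟩ := iter_smul f hf a ha α r
        refine ⟨b, hb, fun i => ?_⟩
        have h2 := congrFun h1 i
        rw [Pi.smul_apply, smul_eq_mul] at h2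
        rw [← h2]
        have h3 : ∀ i, (pt f)^[r] (a • α) i ∈ QI.toSubalgebra.toSubring := by
          apply iter_mem QI.toSubalgebra.toSubring f
          · intro i κ
            exact mem_algebraicClosure_iff.2 (hfa i κ)
          · intro i
            exact mem_algebraicClosure_iff.2 (haa i)
        exact mem_algebraicClosure_iff.1 (h3 i)
      · exact Or.inr h
    · intro z hz hgz hSz n hper hdet
      have h1 : (pt (itp f l))^[n] z = (pt f)^[l * n] z := by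
        rw [pt_itp, ← Function.iterate_mul]
      rw [h1] at hper hdet
      have h2 := peri_itp f l hl _ hper
      obtain ⟨i, hi, h3⟩ := det_itp f l _ hdet
      have h4 := peri_iter f hf _ h2 i
      rw [← Function.iterate_add_apply] at h3 h4
      exact hgood z hz hgz hSz _ h4 h3
  have hdec : ∀ n, n ∈ RS f S α ↔ n / l ∈ RS (itp f l) S ((pt f)^[n % l] α) := by
    intro n
    rw [rs_iter, Nat.div_add_mod]
  constructor
  · let s1 : Finset ℕ := (Finset.range l).filter fun r => FU (RS (itp f l) S ((pt f)^[r] α))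
    let s2 : Finset ℕ := (Finset.range l).filter fun r => ¬ FU (RS (itp f l) S ((pt f)^[r] α))
    refine ⟨{n | ∃ r ∈ s1, ∃ m ∈ RS (itp f l) S ((pt f)^[r] α), n = l * m + r},
      {n | ∃ r ∈ s2, ∃ m ∈ RS (itp f l) S ((pt f)^[r] α), n = l * m + r}, ?_, ?_, ?_⟩
    · ext n
      constructor
      · intro hn
        have hlt := Nat.mod_lt n hl
        rw [hdec] at hn
        by_cases hF : FU (RS (itp f l) S ((pt f)^[n % l] α))
        · exact Or.inl ⟨n % l, Finset.mem_filter.2 ⟨Finset.mem_range.2 hlt, hF⟩, n / l, hn,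
            (Nat.div_add_mod n l).symm⟩
        · exact Or.inr ⟨n % l, Finset.mem_filter.2 ⟨Finset.mem_range.2 hlt, hF⟩, n / l, hn,
            (Nat.div_add_mod n l).symm⟩
      · rintro (⟨r, -, m, hm, rfl⟩ | ⟨r, -, m, hm, rfl⟩)
        · exact (rs_iter f l S α m r).1 hm
        · exact (rs_iter f l S α m r).1 hm
    · exact fu_iter f l s1 S α fun r hr => (Finset.mem_filter.1 hr).2
    · have hex : ∀ r : ℕ, ∃ C : ℕ, r ∈ s2 → ∀ n,
          {m | m ∈ RS (itp f l) S ((pt f)^[r] α) ∧ n ≤ m ∧ m + C < 2 * n}.ncard ≤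
            T.card ^ 2 + 1 := by
        intro r
        by_cases hr : r ∈ s2
        · obtain ⟨C, hC⟩ := (hall r).1.resolve_left (Finset.mem_filter.1 hr).2
          exact ⟨C, fun _ => hC⟩
        · exact ⟨0, fun h => absurd h hr⟩
      choose C hC using hex
      refine ⟨∑ r ∈ s2, l * C r + l, fun n => ?_⟩
      have hsub : {m | m ∈ {n | ∃ r ∈ s2, ∃ m ∈ RS (itp f l) S ((pt f)^[r] α), n = l * m + r} ∧
          n ≤ m ∧ m + (∑ r ∈ s2, l * C r + l) < 2 * n} ⊆
          ⋃ r ∈ s2, (fun m => l * m + r) '' {m | m ∈ RS (itp f l) S ((pt f)^[r] α) ∧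
            (n - r + (l - 1)) / l ≤ m ∧ m + C r < 2 * ((n - r + (l - 1)) / l)} := by
        rintro _ ⟨⟨r, hr, m, hm, rfl⟩, h1, h2⟩
        simp only [Set.mem_iUnion]
        refine ⟨r, hr, m, ⟨hm, ?_, ?_⟩, rfl⟩
        · apply Nat.le_of_lt_succ
          rw [Nat.div_lt_iff_lt_mul hl]
          have h3 : m.succ * l = l * m + l := by
            rw [Nat.succ_mul, Nat.mul_comm]
          omega
        · have hrl : r < l := Finset.mem_range.1 (Finset.mem_filter.1 hr).1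
          have hCr : l * C r ≤ ∑ r ∈ s2, l * C r :=
            Finset.single_le_sum (f := fun r => l * C r) (fun _ _ => Nat.zero_le _) hr
          set b := (n - r + (l - 1)) / l with hb
          have h3 : n - r ≤ l * b := by
            have h4 : n - r + (l - 1) < (b + 1) * l := by
              rw [hb]
              exact (Nat.div_lt_iff_lt_mul hl).1 (Nat.lt_succ_self _)
            have h5 : (b + 1) * l = l * b + l := by ring
            omega
          have h6 : l * (m + C r) < l * (2 * b) := by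
            have h7 : l * (m + C r) = l * m + l * C r := by ring
            have h8 : l * (2 * b) = 2 * (l * b) := by ring
            omega
          exact Nat.lt_of_mul_lt_mul_left h6
      have hfin : (⋃ r ∈ s2, (fun m => l * m + r) '' {m | m ∈ RS (itp f l) S ((pt f)^[r] α) ∧
            (n - r + (l - 1)) / l ≤ m ∧ m + C r < 2 * ((n - r + (l - 1)) / l)}).Finite := by
        refine Set.Finite.biUnion (Finset.finite_toSet _) fun r _ => Set.Finite.image _ ?_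
        apply (Set.finite_lt_nat (2 * ((n - r + (l - 1)) / l))).subset
        rintro m ⟨-, -, h1⟩
        change m < _
        omega
      refine (Set.ncard_le_ncard hsub hfin).trans ?_
      refine (Finset.set_ncard_biUnion_le _ _).trans ?_
      calc _ ≤ ∑ _r ∈ s2, (T.card ^ 2 + 1) := by
            refine Finset.sum_le_sum fun r hr => ?_
            refine (Set.ncard_image_le ?_).trans (hC r hr _)
            apply (Set.finite_lt_nat (2 * ((n - r + (l - 1)) / l))).subset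
            rintro m ⟨-, -, h1⟩
            change m < _
            omega
        _ = s2.card * (T.card ^ 2 + 1) := by rw [Finset.sum_const, smul_eq_mul]
        _ ≤ l * (T.card ^ 2 + 1) := by
            apply Nat.mul_le_mul_right
            exact (Finset.card_filter_le _ _).trans (Finset.card_range l).le
  · intro hprep
    have h1 := fu_iter f l (Finset.range l) S α fun r _ =>
      (hall r).2 fun z hz hgz hSz => prep_itp f hf l hl z (hprep z hz hgz hSz)
    have h2 : {n | ∃ r ∈ Finset.range l, ∃ m ∈ RS (itp f l) S ((pt f)^[r] α), n = l * m + r} =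
        RS f S α := by
      ext n
      constructor
      · rintro ⟨r, -, m, hm, rfl⟩
        exact (rs_iter f l S α m r).1 hm
      · intro hn
        rw [hdec] at hn
        exact ⟨n % l, Finset.mem_range.2 (Nat.mod_lt n hl), n / l, hn, (Nat.div_add_mod n l).symm⟩
    rw [h2] at h1
    exact h1

omit hd he hl hf hf0 hfa hga hA hAa hgA in
/-- The residual divisor does not meet cycles without critical points. -/
lemma no_resid (hg0 : g ≠ 0) (hgA : bind₁ f g = g * A) (y : Fin (N + 1) → ℂ) (hP : Peri f y)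
    (hnc : ∀ i, (jac f ((pt f)^[i] y)).det ≠ 0) : eval y A ≠ 0 := by
  classical
  obtain ⟨q, hq, a, ha, h⟩ := hP
  have hB : ∀ q : ℕ, ∃ B : MvPolynomial (Fin (N + 1)) ℂ, bind₁ (itp f q) g = g * B ∧
      ∀ z, eval z B = ∏ i ∈ Finset.range q, eval ((pt f)^[i] z) A := by
    intro q
    induction q with
    | zero =>
      refine ⟨1, ?_, fun z => by simp⟩
      rw [mul_one]
      exact aeval_X_left_apply g
    | succ q ih =>
      obtain ⟨B, hB1, hB2⟩ := ih
      refine ⟨B * pull f q A, ?_, fun z => ?_⟩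
      · have h1 : bind₁ (itp f (q + 1)) g = bind₁ (itp f q) (bind₁ f g) := (bind₁_bind₁ _ _ _).symm
        rw [h1, hgA, map_mul, hB1, mul_assoc]
        rfl
      · rw [map_mul, hB2, eval_pull, Finset.prod_range_succ]
  obtain ⟨B, hB1, hB2⟩ := hB q
  have h1 := etale_cofactor (itp f q) g B hg hg0 hB1 y a ha (by rw [pt_itp]; exact h)
    (fun hdet => by
      obtain ⟨i, -, h2⟩ := det_itp f q y hdet
      exact hnc i h2)
  rw [hB2, Finset.prod_ne_zero_iff] at h1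
  exact h1 0 (Finset.mem_range.2 hq)

omit hd he hA hAa hf hfa hga hf0 in
lemma visits_of_finite (hg0 : g ≠ 0) (F0 : Finset (Fin (N + 1) → ℂ))
    (hF0 : ∀ z : Fin (N + 1) → ℂ, z ≠ 0 → eval z g = 0 → eval z A = 0 →
      ∃ w ∈ F0, ∃ a : ℂ, a ≠ 0 ∧ z = a • w)
    (hf0 : ∀ z : Fin (N + 1) → ℂ, (∀ i, eval z (f i) = 0) → z = 0)
    (hnc : ∀ z : Fin (N + 1) → ℂ, z ≠ 0 → eval z g = 0 → Peri f z →
      ∀ i, (jac f ((pt f)^[i] z)).det ≠ 0)
    (z : Fin (N + 1) → ℂ) (hz : z ≠ 0) (hgz : eval z g = 0) (P : Finset ℕ)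
    (hP : P.card = F0.card + 1) : ∃ t ∈ P, eval ((pt (itp f l))^[t] z) A ≠ 0 := by
  classical
  by_contra hno
  push Not at hno
  have hne : ∀ t, (pt (itp f l))^[t] z ≠ 0 := by
    intro t
    rw [pt_itp, ← Function.iterate_mul]
    exact iter_ne_zero f hf0 z hz _
  have hgt : ∀ t, eval ((pt (itp f l))^[t] z) g = 0 := by
    intro t
    induction t with
    | zero => exact hgz
    | succ t ih =>
      have h3 := congrArg (eval ((pt (itp f l))^[t] z)) hgA
      rw [eval_bind, map_mul, ih, zero_mul] at h3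
      rw [Function.iterate_succ_apply']
      exact h3
  have hex : ∀ t ∈ P, ∃ w : Fin (N + 1) → ℂ, w ∈ F0 ∧ ∃ a : ℂ, a ≠ 0 ∧
      (pt (itp f l))^[t] z = a • w := by
    intro t ht
    obtain ⟨w, hw, a, ha, h⟩ := hF0 _ (hne t) (hgt t) (hno t ht)
    exact ⟨w, hw, a, ha, h⟩
  choose! w hw a ha haw using hex
  obtain ⟨t, ht, t', ht', htt, hww⟩ := Finset.exists_ne_map_eq_of_card_lt_of_maps_to
    (s := P) (t := F0) (f := w) (by omega) (fun t ht => hw t ht)
  have key : ∀ t t', t ∈ P → t' ∈ P → t < t' → w t = w t' → False := by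
    intro t t' ht ht' hlt hww
    obtain ⟨q, rfl⟩ := Nat.exists_eq_add_of_le hlt.le
    have h1 := haw t ht
    have h2 := haw _ ht'
    rw [← hww] at h2
    set y := (pt (itp f l))^[t] z with hy
    have h3 : (pt (itp f l))^[q] y = (a (t + q) * (a t)⁻¹) • y := by
      rw [hy, ← Function.iterate_add_apply, Nat.add_comm q t, h2, ← hy, h1, smul_smul, mul_assoc,
        inv_mul_cancel₀ (ha t ht), mul_one]
    have hper : Peri (itp f l) y :=
      ⟨q, by omega, _, mul_ne_zero (ha _ ht') (inv_ne_zero (ha t ht)), h3⟩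
    refine no_resid (itp f l) g A hg hg0 hgA y hper (fun i hdet => ?_) (hno t ht)
    obtain ⟨i', -, h4⟩ := det_itp f l _ hdet
    rw [pt_itp, ← Function.iterate_mul, ← Function.iterate_add_apply] at h4
    exact hnc y (hne t) (hgt t) (peri_itp f l hl y hper) _ h4
  rcases Nat.lt_or_gt_of_ne htt with hlt | hlt
  · exact key t t' ht ht' hlt hww
  · exact key t' t ht' ht hlt hww.symm

end

end Pool.Agent.T6.H91.DML
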