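import Pool.Agent.T6.H91.DML.Close

set_option autoImplicit false

/-! Certificates for good reduction and for the distance to finitely many points; windows. -/

namespace Pool.Agent.T6.H91.DML

open MvPolynomial Height NumberField Pool.Agent.H936R2 Pool.Agent.R847.PC Filter
open Height.AdmissibleAbsValues

/-- Counting in windows. -/
lemma window (Ret : Set ℕ) (R : ℕ) (rel : Fin R → Fin R → ℕ → Prop)
    (huniq : ∀ i j k l, k < l → rel i j k → rel i j l → False) (C0 : ℕ)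
    (h : ∀ n k, n ∈ Ret → n + k ∈ Ret → k + C0 < n → ∃ i j, rel i j k) (n : ℕ) :
    {m ∈ Ret | n ≤ m ∧ m + C0 < 2 * n}.ncard ≤ R ^ 2 + 1 := by
  classical
  set W : Set ℕ := {m ∈ Ret | n ≤ m ∧ m + C0 < 2 * n} with hW
  by_cases hne : W.Nonempty
  swap
  · rw [Set.not_nonempty_iff_eq_empty.1 hne, Set.ncard_empty]
    exact Nat.zero_le _
  have hm0 : sInf W ∈ W := Nat.sInf_mem hne
  set m0 := sInf W with hm0d
  have hmin : ∀ m ∈ W, m0 ≤ m := fun m hm => Nat.sInf_le hm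
  have hex : ∀ m ∈ W, ∃ p : Fin R × Fin R, rel p.1 p.2 (m - m0) := by
    intro m hm
    have h1 := hmin m hm
    obtain ⟨i, j, hij⟩ := h m0 (m - m0) hm0.1 (by
      rw [Nat.add_sub_of_le h1]
      exact hm.1) (by
      have h2 := hm.2.2
      have h3 := hm0.2.1
      omega)
    exact ⟨(i, j), hij⟩
  have : Nonempty (Fin R × Fin R) := ⟨(hex m0 hm0).choose⟩
  choose! φ hφ using hex
  have h1 : W.ncard ≤ (Set.univ : Set (Fin R × Fin R)).ncard := by
    refine Set.ncard_le_ncard_of_injOn φ (fun _ _ => Set.mem_univ _) ?_ Set.finite_univ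
    intro m hm m' hm' heq
    by_contra hne'
    have hrm := hφ m hm
    have hrm' := hφ m' hm'
    rw [← heq] at hrm'
    have := hmin m hm
    have := hmin m' hm'
    rcases Nat.lt_or_gt_of_ne hne' with hlt | hlt
    · exact huniq _ _ _ _ (by omega) hrm hrm'
    · exact huniq _ _ _ _ (by omega) hrm' hrm
  rw [Set.ncard_univ, Nat.card_eq_fintype_card, Fintype.card_prod, Fintype.card_fin] at h1
  calc W.ncard ≤ R * R := h1
    _ ≤ R ^ 2 + 1 := by rw [sq]; omega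

section

variable {𝕂 : Type} [Field 𝕂] [NumberField 𝕂] {N : ℕ}

/-- Good reduction. -/
lemma cert_good [Algebra 𝕂 ℂ] (f : Fin (N + 1) → MvPolynomial (Fin (N + 1)) 𝕂)
    (hf0 : ∀ z : Fin (N + 1) → ℂ, (∀ i, aeval z (f i) = 0) → z = 0) :
    ∃ B : Finset 𝕂, ∀ v : nonarchAbsVal (K := 𝕂), (∀ b ∈ B, v.val b ≤ 1) →
      (∀ i κ, (f i).coeff κ ∈ vring v) → ∀ y : Fin (N + 1) → 𝕂, (∀ i, v.val (y i) ≤ 1) →
      (∃ i, v.val (y i) = 1) → ∀ n, ∃ i, v.val ((pt f)^[n] y i) = 1 := by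
  classical
  choose M B hM hB using fun j : Fin (N + 1) => cert_place (Ω := ℂ) f (X j) fun z hz => by
    rw [aeval_X, hf0 z hz]
    rfl
  refine ⟨Finset.univ.biUnion B, fun v hv hfv y hy hp n => ?_⟩
  induction n with
  | zero => exact hp
  | succ n ih =>
    obtain ⟨j, hj⟩ := ih
    have hyn := iter_mem (vring v) f hfv y hy n
    obtain ⟨l, hl⟩ := hB j v (fun b hb => hv b (Finset.mem_biUnion.2 ⟨j, Finset.mem_univ _, hb⟩))
      _ hyn
    rw [eval_X, hj, one_pow] at hl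
    refine ⟨l, ?_⟩
    have h1 := iter_mem (vring v) f hfv y hy (n + 1) l
    refine le_antisymm h1 ?_
    rw [Function.iterate_succ_apply']
    exact hl

/-- Points near to `g = 0` on `F = 0` are near to one of finitely many points. -/
lemma cert_close {Ω : Type} [Field Ω] [IsAlgClosed Ω] [Algebra 𝕂 Ω] {R : ℕ}
    (g : MvPolynomial (Fin (N + 1)) 𝕂)
    (F : Finset (MvPolynomial (Fin (N + 1)) 𝕂)) (Q : Fin R → Fin (N + 1) → 𝕂)
    (hVE : ∀ z : Fin (N + 1) → Ω, z ≠ 0 → aeval z g = 0 → (∀ P ∈ F, aeval z P = 0) →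
      ∃ i, ∀ a b, z a * algebraMap 𝕂 Ω (Q i b) = z b * algebraMap 𝕂 Ω (Q i a)) :
    ∃ (m : ℕ) (B : Finset 𝕂), 0 < m ∧ ∀ v : nonarchAbsVal (K := 𝕂), (∀ b ∈ B, v.val b ≤ 1) →
      (∀ i a, v.val (Q i a) ≤ 1) → ∀ y : Fin (N + 1) → 𝕂, (∀ i, v.val (y i) ≤ 1) →
      (∃ i, v.val (y i) = 1) → (∀ P ∈ F, eval y P = 0) → v.val (eval y g) < 1 →
      ∃ i, wd v.val y (Q i) ^ m ≤ v.val (eval y g) := by
  classical
  let PP : Option F → MvPolynomial (Fin (N + 1)) 𝕂 := fun o => o.elim g fun P => P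
  let GG : (Fin R → Fin (N + 1) × Fin (N + 1)) × Fin (N + 1) → MvPolynomial (Fin (N + 1)) 𝕂 :=
    fun q => X q.2 * ∏ i, (X (q.1 i).1 * C (Q i (q.1 i).2) - X (q.1 i).2 * C (Q i (q.1 i).1))
  have hcert : ∀ q, ∀ z : Fin (N + 1) → Ω, (∀ l, aeval z (PP l) = 0) → aeval z (GG q) = 0 := by
    intro q z hz
    simp only [GG, map_mul, aeval_X, map_prod, map_sub, aeval_C]
    by_cases hz0 : z = 0
    · rw [hz0, Pi.zero_apply, zero_mul]
    · obtain ⟨i, hi⟩ := hVE z hz0 (hz none) fun P hP => hz (some ⟨P, hP⟩)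
      apply mul_eq_zero_of_right
      apply Finset.prod_eq_zero (Finset.mem_univ i)
      rw [hi, sub_self]
  choose M B hM hB using fun q => cert_place PP (GG q) (hcert q)
  let m0 := ∑ q, M q
  have hm0 : ∀ q, M q ≤ m0 := fun q => Finset.single_le_sum (fun _ _ => Nat.zero_le _)
    (Finset.mem_univ q)
  refine ⟨m0 * R + 1, Finset.univ.biUnion B, Nat.succ_pos _, fun v hv hQv y hy hp hyF hlt => ?_⟩
  obtain ⟨j, hj⟩ := hp
  choose a b hab using fun i => exists_wd v.val y (Q i)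
  let q : (Fin R → Fin (N + 1) × Fin (N + 1)) × Fin (N + 1) := (fun i => (a i, b i), j)
  obtain ⟨l, hl⟩ := hB q v (fun x hx => hv x (Finset.mem_biUnion.2 ⟨q, Finset.mem_univ _, hx⟩)) y hy
  have hG : v.val (eval y (GG q)) = ∏ i, wd v.val y (Q i) := by
    simp only [GG, q, map_mul, eval_X, map_prod, map_sub, eval_C]
    rw [hj, one_mul]
    exact Finset.prod_congr rfl fun i _ => hab i
  rw [hG] at hl
  have hl' : (∏ i, wd v.val y (Q i)) ^ M q ≤ v.val (eval y g) := by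
    rcases l with _ | P
    · exact hl
    · have h0 : eval y (PP (some P)) = 0 := hyF P.1 P.2
      rw [h0, map_zero] at hl
      exact hl.trans (v.val.nonneg _)
  have hw0 : ∀ i, 0 ≤ wd v.val y (Q i) := fun i => wd_nonneg _ _ _
  have hw1 : ∀ i, wd v.val y (Q i) ≤ 1 := fun i => wd_le_one v hy (hQv i)
  have hp0 : 0 ≤ ∏ i, wd v.val y (Q i) := Finset.prod_nonneg fun i _ => hw0 i
  have hp1 : ∏ i, wd v.val y (Q i) ≤ 1 := Finset.prod_le_one (fun i _ => hw0 i) fun i _ => hw1 i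
  have hR : Nonempty (Fin R) := by
    by_contra hno
    rw [not_nonempty_iff] at hno
    rw [Finset.prod_of_isEmpty, one_pow] at hl'
    exact absurd hlt (not_lt.2 hl')
  obtain ⟨i, -, hi⟩ := Finset.exists_min_image Finset.univ (fun i => wd v.val y (Q i))
    Finset.univ_nonempty
  refine ⟨i, ?_⟩
  have h1 : wd v.val y (Q i) ^ R ≤ ∏ i, wd v.val y (Q i) := by
    have h2 : wd v.val y (Q i) ^ R = ∏ _i : Fin R, wd v.val y (Q i) := by simp
    rw [h2]
    exact Finset.prod_le_prod (fun _ _ => hw0 i) fun j _ => hi j (Finset.mem_univ j)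
  calc wd v.val y (Q i) ^ (m0 * R + 1) ≤ wd v.val y (Q i) ^ (m0 * R) :=
        pow_le_pow_of_le_one (hw0 i) (hw1 i) (Nat.le_succ _)
    _ = (wd v.val y (Q i) ^ R) ^ m0 := by rw [← pow_mul, Nat.mul_comm]
    _ ≤ (∏ i, wd v.val y (Q i)) ^ m0 := pow_le_pow_left₀ (pow_nonneg (hw0 i) _) h1 _
    _ ≤ (∏ i, wd v.val y (Q i)) ^ M q := pow_le_pow_of_le_one hp0 hp1 (hm0 q)
    _ ≤ _ := hl'

end

end Pool.Agent.T6.H91.DML
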