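import Pool.Agent.T6.H91.DML.Div

set_option autoImplicit false

/-! Endomorphisms of the plane with an invariant line on which the critical points are strictly
preperiodic. -/

namespace Pool.Agent.T6.H91.DML

open MvPolynomial Pool.Agent.H936R2 Pool.Agent.R847.PC

/-- The points of a line where a form vanishes, if it does not vanish on the line. -/
lemma line_finite (c : Fin 3 → ℂ) (hc : c ≠ 0) (J : MvPolynomial (Fin 3) ℂ) {D : ℕ}
    (hJ : J.IsHomogeneous D) (z1 : Fin 3 → ℂ) (hz1 : ∑ i, c i * z1 i = 0)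
    (hJ1 : eval z1 J ≠ 0) (hz10 : z1 ≠ 0) :
    ∃ F : Finset (Fin 3 → ℂ), ∀ z, z ≠ 0 → ∑ i, c i * z i = 0 → eval z J = 0 →
      ∃ w ∈ F, ∃ a : ℂ, a ≠ 0 ∧ z = a • w := by
  classical
  -- the plane
  let φ : (Fin 3 → ℂ) →ₗ[ℂ] ℂ := ∑ i, c i • LinearMap.proj i
  have hφ : ∀ z, φ z = ∑ i, c i * z i := by
    intro z
    simp [φ]
  have hφ0 : φ ≠ 0 := by
    obtain ⟨i0, hi0⟩ := Function.ne_iff.1 hc
    intro h0
    apply hi0
    have h1 := hφ (Pi.single i0 1)
    rw [h0, LinearMap.zero_apply] at h1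
    rw [Finset.sum_eq_single i0] at h1
    · simpa using h1.symm
    · intro j _ hj
      rw [Pi.single_eq_of_ne hj, mul_zero]
    · intro h
      exact absurd (Finset.mem_univ _) h
  have hker : Module.finrank ℂ (LinearMap.ker φ) = 2 := by
    have h1 := LinearMap.finrank_range_add_finrank_ker φ
    have h2 : LinearMap.range φ = ⊤ := LinearMap.range_eq_top.2 (LinearMap.surjective hφ0)
    rw [h2, finrank_top, Module.finrank_self, Module.finrank_fin_fun] at h1
    omega
  have hz1k : z1 ∈ LinearMap.ker φ := by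
    rw [LinearMap.mem_ker, hφ]
    exact hz1
  have hsp : Submodule.span ℂ {z1} < LinearMap.ker φ := by
    refine lt_of_le_of_ne ?_ fun h => ?_
    · rw [Submodule.span_singleton_le_iff_mem]
      exact hz1k
    · rw [← h, finrank_span_singleton hz10] at hker
      omega
  obtain ⟨z2, hz2k, hz2⟩ := SetLike.exists_of_lt hsp
  have hind : LinearIndependent ℂ ![z1, z2] := by
    rw [LinearIndependent.pair_iff' hz10]
    intro a ha
    apply hz2
    rw [← ha]
    exact Submodule.smul_mem _ _ (Submodule.mem_span_singleton_self _)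
  have hspan : Submodule.span ℂ (Set.range ![z1, z2]) = LinearMap.ker φ := by
    apply Submodule.eq_of_le_of_finrank_eq
    · rw [Submodule.span_le]
      rintro _ ⟨i, rfl⟩
      fin_cases i
      · exact hz1k
      · exact hz2k
    · rw [finrank_span_eq_card hind, hker, Fintype.card_fin]
  have hcomb : ∀ z, ∑ i, c i * z i = 0 → ∃ s t : ℂ, z = s • z1 + t • z2 := by
    intro z hz
    have h1 : z ∈ Submodule.span ℂ (Set.range ![z1, z2]) := by
      rw [hspan, LinearMap.mem_ker, hφ]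
      exact hz
    rw [Matrix.range_cons, Matrix.range_cons, Matrix.range_empty, Set.union_empty,
      Set.singleton_union, Submodule.mem_span_pair] at h1
    obtain ⟨s, t, h⟩ := h1
    exact ⟨s, t, h.symm⟩
  -- the polynomial in one variable
  let r : Polynomial ℂ := aeval (fun i => Polynomial.C (z1 i) + Polynomial.X * Polynomial.C (z2 i)) J
  have hr : ∀ y : ℂ, r.eval y = eval (z1 + y • z2) J := by
    intro y
    have h1 : Polynomial.aeval y r = aeval (fun i => Polynomial.aeval y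
        (Polynomial.C (z1 i) + Polynomial.X * Polynomial.C (z2 i))) J := by
      have h2 := MvPolynomial.comp_aeval (R := ℂ)
        (fun i => Polynomial.C (z1 i) + Polynomial.X * Polynomial.C (z2 i)) (Polynomial.aeval y)
      exact DFunLike.congr_fun h2 J
    have h3 : r.eval y = Polynomial.aeval y r := by rw [Polynomial.coe_aeval_eq_eval]
    rw [h3, h1]
    have h4 : (fun i => Polynomial.aeval y
        (Polynomial.C (z1 i) + Polynomial.X * Polynomial.C (z2 i))) = z1 + y • z2 := by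
      funext i
      simp only [map_add, map_mul, Polynomial.aeval_C, Polynomial.aeval_X, Pi.add_apply,
        Pi.smul_apply, smul_eq_mul, Algebra.algebraMap_self, RingHom.id_apply]
    rw [h4]
    rfl
  have hr0 : r ≠ 0 := by
    intro h0
    apply hJ1
    have h1 := hr 0
    rw [h0, Polynomial.eval_zero, zero_smul, add_zero] at h1
    exact h1.symm
  refine ⟨insert z2 (r.roots.toFinset.image fun y => z1 + y • z2), fun z hz hcz hJz => ?_⟩
  obtain ⟨s, t, rfl⟩ := hcomb z hcz
  by_cases hs : s = 0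
  · subst hs
    rw [zero_smul, zero_add] at hz ⊢
    refine ⟨z2, Finset.mem_insert_self _ _, t, ?_, rfl⟩
    rintro rfl
    rw [zero_smul] at hz
    exact hz rfl
  · have h1 : s • z1 + t • z2 = s • (z1 + (t / s) • z2) := by
      rw [smul_add, smul_smul, mul_div_cancel₀ _ hs]
    refine ⟨z1 + (t / s) • z2, Finset.mem_insert_of_mem (Finset.mem_image.2 ⟨t / s, ?_, rfl⟩), s,
      hs, h1⟩
    rw [Multiset.mem_toFinset, Polynomial.mem_roots hr0, Polynomial.IsRoot.def, hr]
    rw [h1, Pool.Agent.R847.QP.hom_scale J D hJ] at hJz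
    exact (mul_eq_zero.1 hJz).resolve_left (pow_ne_zero _ hs)

/-- Parallel vectors. -/
lemma par_iff {N : ℕ} (z w : Fin (N + 1) → ℂ) (hz : z ≠ 0) (hw : w ≠ 0) :
    (∀ i j, z i * w j - z j * w i = 0) ↔ ∃ a : ℂ, a ≠ 0 ∧ w = a • z := by
  constructor
  · intro h
    obtain ⟨i, hi'⟩ := Function.ne_iff.1 hz
    have hi : z i ≠ 0 := hi'
    have hw' : w = (w i / z i) • z := by
      funext j
      rw [Pi.smul_apply, smul_eq_mul]
      have := h i j
      field_simp
      linear_combination this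
    refine ⟨w i / z i, ?_, hw'⟩
    intro h0
    rw [h0, zero_smul] at hw'
    exact hw hw'
  · rintro ⟨a, -, rfl⟩ i j
    simp only [Pi.smul_apply, smul_eq_mul]
    ring

/-- Projectively preperiodic. -/
def Prep {N : ℕ} (f : Fin (N + 1) → MvPolynomial (Fin (N + 1)) ℂ) (z : Fin (N + 1) → ℂ) : Prop :=
  ∃ n q : ℕ, 0 < q ∧ ∃ a : ℂ, a ≠ 0 ∧ (pt f)^[n + q] z = a • (pt f)^[n] z

/-- Projectively periodic. -/
def Peri {N : ℕ} (f : Fin (N + 1) → MvPolynomial (Fin (N + 1)) ℂ) (z : Fin (N + 1) → ℂ) : Prop :=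
  ∃ q : ℕ, 0 < q ∧ ∃ a : ℂ, a ≠ 0 ∧ (pt f)^[q] z = a • z

lemma iter_smul {N d : ℕ} (f : Fin (N + 1) → MvPolynomial (Fin (N + 1)) ℂ)
    (hf : ∀ i, (f i).IsHomogeneous d) (a : ℂ) (ha : a ≠ 0) (z : Fin (N + 1) → ℂ) (n : ℕ) :
    ∃ b : ℂ, b ≠ 0 ∧ (pt f)^[n] (a • z) = b • (pt f)^[n] z :=
  ⟨a ^ d ^ n, pow_ne_zero _ ha, iterate_scale f d hf a z n⟩

lemma iter_ne_zero {N : ℕ} (f : Fin (N + 1) → MvPolynomial (Fin (N + 1)) ℂ)
    (hf0 : ∀ z : Fin (N + 1) → ℂ, (∀ i, eval z (f i) = 0) → z = 0) (z : Fin (N + 1) → ℂ)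
    (hz : z ≠ 0) (n : ℕ) : (pt f)^[n] z ≠ 0 := by
  induction n with
  | zero => exact hz
  | succ n ih =>
    rw [Function.iterate_succ_apply']
    exact fun h0 => ih (hf0 _ fun i => congrFun h0 i)

/-- A preperiodic point is periodic with period `q t` after `n + l` steps. -/
lemma prep_more {N d : ℕ} (f : Fin (N + 1) → MvPolynomial (Fin (N + 1)) ℂ)
    (hf : ∀ i, (f i).IsHomogeneous d) (z : Fin (N + 1) → ℂ) (n q : ℕ) (a : ℂ) (ha : a ≠ 0)
    (h : (pt f)^[n + q] z = a • (pt f)^[n] z) (l t : ℕ) :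
    ∃ b : ℂ, b ≠ 0 ∧ (pt f)^[q * t] ((pt f)^[n + l] z) = b • (pt f)^[n + l] z := by
  have h1 : ∀ l, ∃ b : ℂ, b ≠ 0 ∧ (pt f)^[q] ((pt f)^[n + l] z) = b • (pt f)^[n + l] z := by
    intro l
    obtain ⟨b, hb, h2⟩ := iter_smul f hf a ha ((pt f)^[n] z) l
    refine ⟨b, hb, ?_⟩
    rw [← Function.iterate_add_apply, show q + (n + l) = l + (n + q) by ring,
      Function.iterate_add_apply, h, h2, ← Function.iterate_add_apply, Nat.add_comm l n]
  induction t with
  | zero => exact ⟨1, one_ne_zero, by rw [Nat.mul_zero, one_smul]; rfl⟩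
  | succ t ih =>
    obtain ⟨b, hb, h2⟩ := ih
    obtain ⟨b', hb', h3⟩ := h1 l
    obtain ⟨b'', hb'', h4⟩ := iter_smul f hf b hb ((pt f)^[n + l] z) q
    refine ⟨b'' * b', mul_ne_zero hb'' hb', ?_⟩
    rw [show q * (t + 1) = q + q * t by ring, Function.iterate_add_apply, h2, h4, h3, smul_smul]

end Pool.Agent.T6.H91.DML
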