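import Pool.Agent.T6.H91.DML.Final

set_option autoImplicit false

/-! Curves and lines in the plane. -/

namespace Pool.Agent.T6.H91.DML

open MvPolynomial Pool.Agent.H936R2 Pool.Agent.R847.PC

/-- Periodic hypersurfaces which meet the residual divisor in finitely many points. -/
theorem curve_iter {N d e l : ℕ} (hd : 2 ≤ d) (he : 1 ≤ e) (hl : 0 < l)
    (f : Fin (N + 1) → MvPolynomial (Fin (N + 1)) ℂ) (hf : ∀ i, (f i).IsHomogeneous d)
    (hfa : ∀ i, AlgCoeff (f i)) (hf0 : ∀ z : Fin (N + 1) → ℂ, (∀ i, eval z (f i) = 0) → z = 0)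
    (g A : MvPolynomial (Fin (N + 1)) ℂ) (hg : g.IsHomogeneous e) (hg0 : g ≠ 0) (hga : AlgCoeff g)
    (hA : A.IsHomogeneous (e * (d ^ l - 1))) (hAa : AlgCoeff A)
    (hgA : bind₁ (itp f l) g = g * A) (F0 : Finset (Fin (N + 1) → ℂ))
    (hF0 : ∀ z : Fin (N + 1) → ℂ, z ≠ 0 → eval z g = 0 → eval z A = 0 →
      ∃ w ∈ F0, ∃ a : ℂ, a ≠ 0 ∧ z = a • w)
    (hnc : ∀ z : Fin (N + 1) → ℂ, z ≠ 0 → eval z g = 0 → Peri f z →
      ∀ i, (jac f ((pt f)^[i] z)).det ≠ 0)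
    (S : Set (MvPolynomial (Fin (N + 1)) ℂ)) (hS : ∀ P ∈ S, ∃ e : ℕ, P.IsHomogeneous e)
    (T : Finset (Fin (N + 1) → ℂ))
    (hT : ∀ z : Fin (N + 1) → ℂ, z ≠ 0 → eval z g = 0 → (∀ P ∈ S, eval z P = 0) →
      ∃ w ∈ T, ∃ a : ℂ, a ≠ 0 ∧ z = a • w)
    (α : Fin (N + 1) → ℂ) (hα : α ≠ 0) (h : AlgPt α ∨ ∀ P ∈ S, AlgCoeff P) :
    (∃ R1 R2 : Set ℕ, RS f S α = R1 ∪ R2 ∧ FU R1 ∧
      ∃ C : ℕ, ∀ n, {m | m ∈ R2 ∧ n ≤ m ∧ m + C < 2 * n}.ncard ≤ l * (T.card ^ 2 + 1)) ∧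
    ((∀ z : Fin (N + 1) → ℂ, z ≠ 0 → eval z g = 0 → (∀ P ∈ S, eval z P = 0) → Prep f z) →
      FU (RS f S α)) := by
  have hne := iter_ne_zero f hf0
  refine dich_iter hd he hl f hf hfa hf0 g A hg hga hA hAa hgA
    (fun z hz hgz P hP => visits_of_finite hl f g A hg hgA hg0 F0 hF0 hf0 hnc z hz hgz P hP)
    S hS T hT ?_ α hα h
  -- the orbits in the hypersurface
  intro z hz hgz _ n hper
  -- the point `Φ^m(z)` with `m ≥ n` divisible by `l` lies in the hypersurface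
  have hgt : ∀ t, eval ((pt f)^[l * t] z) g = 0 := by
    intro t
    rw [Function.iterate_mul, ← pt_itp]
    induction t with
    | zero => exact hgz
    | succ t ih =>
      have h3 := congrArg (eval ((pt (itp f l))^[t] z)) hgA
      rw [eval_bind, map_mul, ih, zero_mul] at h3
      rw [Function.iterate_succ_apply']
      exact h3
  obtain ⟨q, hq, a, ha, h1⟩ := hper
  -- `l * n ≥ n`
  have hln : n ≤ l * n := Nat.le_mul_of_pos_left n hl
  obtain ⟨j, hj⟩ := Nat.exists_eq_add_of_le hln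
  have hy : Peri f ((pt f)^[l * n] z) := by
    have h2 := peri_iter f hf _ ⟨q, hq, a, ha, h1⟩ j
    rw [← Function.iterate_add_apply, Nat.add_comm j n, ← hj] at h2
    exact h2
  have h3 := hnc _ (hne z hz _) (hgt n) hy
  -- go around the cycle
  obtain ⟨b, hb, h4⟩ := prep_more f hf z n q a ha (by
    rw [Nat.add_comm n q, Function.iterate_add_apply]
    exact h1) 0 (j + 1)
  change (pt f)^[q * (j + 1)] ((pt f)^[n] z) = b • (pt f)^[n] z at h4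
  have hqj : j ≤ q * (j + 1) := by nlinarith
  obtain ⟨i, hi⟩ := Nat.exists_eq_add_of_le hqj
  have h5 : (pt f)^[i] ((pt f)^[l * n] z) = b • (pt f)^[n] z := by
    rw [← h4, ← Function.iterate_add_apply, ← Function.iterate_add_apply]
    congr 1
    omega
  intro hdet
  apply h3 i
  rw [h5]
  -- scaling of the Jacobian
  have h6 : jac f (b • (pt f)^[n] z) = b ^ (d - 1) • jac f ((pt f)^[n] z) := by
    ext i' j'
    exact Pool.Agent.R847.QP.hom_scale (pderiv j' (f i')) (d - 1) (hf i').pderiv b _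
  rw [h6, Matrix.det_smul, hdet, mul_zero]

/-- Periodic lines in the plane. -/
theorem line_iter {d : ℕ} (hd : 2 ≤ d) (f : Fin 3 → MvPolynomial (Fin 3) ℂ)
    (hf : ∀ i, (f i).IsHomogeneous d) (hfa : ∀ i, AlgCoeff (N := 2) (f i))
    (hf0 : ∀ z : Fin 3 → ℂ, (∀ i, eval z (f i) = 0) → z = 0)
    (c : Fin 3 → ℂ) (hc : c ≠ 0) (hca : ∀ i, IsAlgebraic ℚ (c i)) (l : ℕ) (hl : 0 < l)
    (hinv : ∀ z : Fin 3 → ℂ, ∑ i, c i * z i = 0 → ∑ i, c i * (pt f)^[l] z i = 0)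
    (z1 : Fin 3 → ℂ) (hz10 : z1 ≠ 0) (hz1 : ∑ i, c i * z1 i = 0)
    (hz1c : ∀ i < l, (jac f ((pt f)^[i] z1)).det ≠ 0)
    (hnc : ∀ z : Fin 3 → ℂ, z ≠ 0 → ∑ i, c i * z i = 0 → Peri (N := 2) f z →
      ∀ i, (jac f ((pt f)^[i] z)).det ≠ 0)
    (S : Set (MvPolynomial (Fin 3) ℂ)) (hS : ∀ P ∈ S, ∃ e : ℕ, P.IsHomogeneous e)
    (z2 : Fin 3 → ℂ) (hz20 : z2 ≠ 0) (hz2 : ∑ i, c i * z2 i = 0) (P2 : MvPolynomial (Fin 3) ℂ)
    (hP2 : P2 ∈ S) (hz2P : eval z2 P2 ≠ 0) :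
    ∃ M : ℕ, ∀ α : Fin 3 → ℂ, α ≠ 0 → (AlgPt (N := 2) α ∨ ∀ P ∈ S, AlgCoeff (N := 2) P) →
    (∃ R1 R2 : Set ℕ, RS (N := 2) f S α = R1 ∪ R2 ∧ FU R1 ∧
      ∃ C : ℕ, ∀ n, {m | m ∈ R2 ∧ n ≤ m ∧ m + C < 2 * n}.ncard ≤ M) ∧
    ((∀ z : Fin 3 → ℂ, z ≠ 0 → ∑ i, c i * z i = 0 → (∀ P ∈ S, eval z P = 0) →
      Prep (N := 2) f z) → FU (RS (N := 2) f S α)) := by
  classical
  have hdl : 2 ≤ d ^ l := by
    calc 2 ≤ d := hd
      _ = d ^ 1 := (pow_one d).symm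
      _ ≤ d ^ l := Nat.pow_le_pow_right (by omega) hl
  obtain ⟨A, hA, hAa, hgA⟩ := exists_cofactor (N := 2) (d := d ^ l) (by omega) (itp f l)
    (itp_hom (N := 2) hf l) (AlgCoeff.itp (N := 2) hfa l) c hc hca (fun z hz => by
      rw [pt_itp (N := 2)]
      exact hinv z hz)
  have hJ1 : eval z1 (jdet (itp f l)) ≠ 0 := by
    rw [eval_jdet]
    intro hdet
    obtain ⟨i, hi, h⟩ := det_itp (N := 2) f l z1 hdet
    exact hz1c i hi h
  have hJhom : ∃ D, (jdet (itp f l)).IsHomogeneous D := by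
    refine ⟨(d ^ l - 1) + (d ^ l - 1) + (d ^ l - 1), ?_⟩
    unfold jdet
    rw [Matrix.det_fin_three]
    have hp : ∀ i j, (pderiv j (itp f l i)).IsHomogeneous (d ^ l - 1) := fun i j =>
      (itp_hom (N := 2) hf l i).pderiv
    simp only [Matrix.of_apply]
    have h3 : ∀ i j k m n o : Fin 3, (pderiv j (itp f l i) * pderiv m (itp f l k) *
        pderiv o (itp f l n)).IsHomogeneous
        ((d ^ l - 1) + (d ^ l - 1) + (d ^ l - 1)) := fun i j k m n o =>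
      ((hp i j).mul (hp k m)).mul (hp n o)
    exact (((((h3 _ _ _ _ _ _).sub (h3 _ _ _ _ _ _)).sub (h3 _ _ _ _ _ _)).add
      (h3 _ _ _ _ _ _)).add (h3 _ _ _ _ _ _)).sub (h3 _ _ _ _ _ _)
  obtain ⟨DJ, hJhom⟩ := hJhom
  obtain ⟨F0, hF0⟩ := line_finite c hc (jdet (itp f l)) hJhom z1 hz1 hJ1 hz10
  obtain ⟨e2, he2⟩ := hS P2 hP2
  obtain ⟨T, hT⟩ := line_finite c hc P2 he2 z2 hz2 hz2P hz20
  have hlin0 : lin c ≠ 0 := by
    intro h0
    obtain ⟨i0, hi0⟩ := Function.ne_iff.1 hc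
    have h1 := eval_lin c (Pi.single i0 1)
    rw [h0, map_zero, Finset.sum_eq_single i0] at h1
    · exact hi0 (by simpa using h1.symm)
    · intro j _ hj
      rw [Pi.single_eq_of_ne hj, mul_zero]
    · intro h
      exact absurd (Finset.mem_univ _) h
  refine ⟨l * (T.card ^ 2 + 1), fun α hα h => ?_⟩
  have := curve_iter (N := 2) hd le_rfl hl f hf hfa hf0 (lin c) A (lin_hom c) hlin0
    (algCoeff_lin (N := 2) hca) hA hAa hgA F0 (fun z hz hgz hAz => by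
      rw [eval_lin] at hgz
      apply hF0 z hz hgz
      rw [eval_jdet]
      exact cofactor_critical (N := 2) (itp f l) c hc A hgA z hgz hAz)
    (fun z hz hgz hper => hnc z hz (by rw [eval_lin] at hgz; exact hgz) hper)
    S hS T (fun z hz hgz hSz => by
      rw [eval_lin] at hgz
      exact hT z hz hgz (hSz P2 hP2)) α hα h
  refine ⟨this.1, fun hprep => this.2 fun z hz hgz hSz => ?_⟩
  rw [eval_lin] at hgz
  exact hprep z hz hgz hSz

end Pool.Agent.T6.H91.DML
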