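import Pool.Agent.T6.H91.DML.Chain
import Pool.Agent.T6.H91.DML.Comb

set_option autoImplicit false

/-! Estimates for absolute values along an orbit. -/

namespace Pool.Agent.T6.H91.DML

open MvPolynomial Pool.Agent.H936R2 Pool.Agent.R847.PC

section

variable {𝕂 : Type} [Field 𝕂] {N : ℕ}

/-- The largest absolute value of a coordinate. -/
noncomputable def mx (w : AbsoluteValue 𝕂 ℝ) (x : Fin (N + 1) → 𝕂) : ℝ := ⨆ i, w (x i)

lemma le_mx (w : AbsoluteValue 𝕂 ℝ) (x : Fin (N + 1) → 𝕂) (i : Fin (N + 1)) : w (x i) ≤ mx w x :=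
  Finite.le_ciSup (fun j => w (x j)) i

lemma exists_mx (w : AbsoluteValue 𝕂 ℝ) (x : Fin (N + 1) → 𝕂) : ∃ i, w (x i) = mx w x := by
  obtain ⟨i, hi⟩ := exists_eq_ciSup_of_finite (f := fun j => w (x j))
  exact ⟨i, hi⟩

lemma mx_pos (w : AbsoluteValue 𝕂 ℝ) (x : Fin (N + 1) → 𝕂) (hx : x ≠ 0) : 0 < mx w x := by
  obtain ⟨i, hi⟩ := Function.ne_iff.1 hx
  exact lt_of_lt_of_le (w.pos hi) (le_mx w x i)

lemma mx_le {w : AbsoluteValue 𝕂 ℝ} {x : Fin (N + 1) → 𝕂} {B : ℝ} (h : ∀ i, w (x i) ≤ B) :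
    mx w x ≤ B := by
  obtain ⟨i, hi⟩ := exists_mx w x
  rw [← hi]
  exact h i

lemma eval_le_of_mx_le (w : AbsoluteValue 𝕂 ℝ) (q : MvPolynomial (Fin (N + 1)) 𝕂) :
    ∃ C : ℝ, 0 ≤ C ∧ ∀ y : Fin (N + 1) → 𝕂, mx w y ≤ 1 → w (eval y q) ≤ C := by
  refine ⟨∑ κ ∈ q.support, w (q.coeff κ), Finset.sum_nonneg fun _ _ => w.nonneg _,
    fun y hy => ?_⟩
  rw [eval_eq]
  refine (AbsoluteValue.sum_le w _ _).trans (Finset.sum_le_sum fun κ _ => ?_)
  rw [map_mul, map_prod]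
  refine mul_le_of_le_one_right (w.nonneg _) ?_
  refine Finset.prod_le_one (fun i _ => w.nonneg _) fun i _ => ?_
  rw [map_pow]
  exact pow_le_one₀ (w.nonneg _) ((le_mx w y i).trans hy)

lemma eval_le (w : AbsoluteValue 𝕂 ℝ) (q : MvPolynomial (Fin (N + 1)) 𝕂) (e : ℕ)
    (hq : q.IsHomogeneous e) :
    ∃ C : ℝ, 1 ≤ C ∧ ∀ y : Fin (N + 1) → 𝕂, w (eval y q) ≤ C * mx w y ^ e := by
  refine ⟨max 1 ((AddMonoidAlgebra.coeff q).sum (fun _ c ↦ w c)), le_max_left _ _, fun y => ?_⟩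
  have h1 := AbsoluteValue.eval_mvPolynomial_le w hq y
  refine h1.trans (mul_le_mul_of_nonneg_right (le_max_right _ _) ?_)
  exact pow_nonneg (Real.iSup_nonneg fun i => w.nonneg _) _

lemma lower_aux (w : AbsoluteValue 𝕂 ℝ) {Λ : Type} [Fintype Λ]
    (P : Λ → MvPolynomial (Fin (N + 1)) 𝕂) (e : Λ → ℕ) (hP : ∀ l, (P l).IsHomogeneous (e l))
    (i : Fin (N + 1)) (K : ℕ)
    (h : (X i : MvPolynomial (Fin (N + 1)) 𝕂) ^ K ∈ Ideal.span (Set.range P)) :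
    ∃ c : ℝ, 0 < c ∧ ∀ x : Fin (N + 1) → 𝕂, x ≠ 0 → w (x i) = mx w x →
      ∃ l, c * mx w x ^ (e l) ≤ w (eval x (P l)) := by
  classical
  rw [Ideal.mem_span_range_iff_exists_fun] at h
  obtain ⟨q, hq⟩ := h
  choose C hC0 hC using fun l => eval_le_of_mx_le w (q l)
  refine ⟨(1 + ∑ l, C l)⁻¹, ?_, fun x hx hi => ?_⟩
  · have := Finset.sum_nonneg fun l (_ : l ∈ Finset.univ) => hC0 l
    positivity
  have hSpos : 0 < 1 + ∑ l, C l := by
    have := Finset.sum_nonneg fun l (_ : l ∈ Finset.univ) => hC0 l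
    linarith
  have hmx := mx_pos w x hx
  have hxi : x i ≠ 0 := by
    intro h0
    rw [h0, map_zero] at hi
    exact hmx.ne hi
  -- the normalized point
  set y : Fin (N + 1) → 𝕂 := fun j => (x i)⁻¹ * x j with hy
  have hyi : y i = 1 := inv_mul_cancel₀ hxi
  have hmy : mx w y ≤ 1 := by
    apply mx_le
    intro j
    rw [hy]
    simp only
    rw [map_mul, map_inv₀, hi, inv_mul_le_iff₀ hmx, mul_one]
    exact le_mx w x j
  have hPy : ∀ l, w (eval y (P l)) = (mx w x ^ (e l))⁻¹ * w (eval x (P l)) := by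
    intro l
    rw [hy, eval_scale (P l) (e l) (hP l) (x i)⁻¹ x, map_mul, map_pow, map_inv₀, hi, inv_pow]
  by_contra hno
  push Not at hno
  have hlt : ∀ l, w (eval y (P l)) < (1 + ∑ l, C l)⁻¹ := by
    intro l
    rw [hPy, inv_mul_lt_iff₀ (pow_pos hmx _), mul_comm]
    exact hno l
  have h1 : (1 : ℝ) ≤ ∑ l, C l * (1 + ∑ l, C l)⁻¹ := by
    have h2 := congrArg (fun p => w (eval y p)) hq
    simp only [map_pow, eval_X, hyi, map_one, one_pow, map_sum, map_mul] at h2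
    refine h2.symm.le.trans ?_
    refine (AbsoluteValue.sum_le w _ _).trans (Finset.sum_le_sum fun l _ => ?_)
    rw [map_mul]
    exact mul_le_mul (hC l y hmy) (hlt l).le (w.nonneg _) (hC0 l)
  rw [← Finset.sum_mul] at h1
  have h3 : (∑ l, C l) * (1 + ∑ l, C l)⁻¹ < 1 := by
    rw [← div_eq_mul_inv, div_lt_one hSpos]
    linarith
  linarith

variable [Algebra 𝕂 ℂ]

lemma lower (w : AbsoluteValue 𝕂 ℝ) {Λ : Type} [Fintype Λ]
    (P : Λ → MvPolynomial (Fin (N + 1)) 𝕂) (e : Λ → ℕ) (hP : ∀ l, (P l).IsHomogeneous (e l))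
    (h : ∀ z : Fin (N + 1) → ℂ, (∀ l, aeval z (P l) = 0) → z = 0) :
    ∃ c : ℝ, 0 < c ∧ ∀ x : Fin (N + 1) → 𝕂, x ≠ 0 →
      ∃ l, c * mx w x ^ (e l) ≤ w (eval x (P l)) := by
  classical
  have h1 : ∀ i : Fin (N + 1), ∃ K : ℕ,
      (X i : MvPolynomial (Fin (N + 1)) 𝕂) ^ K ∈ Ideal.span (Set.range P) := by
    intro i
    have h2 : (X i : MvPolynomial (Fin (N + 1)) 𝕂) ∈ (Ideal.span (Set.range P)).radical := by
      rw [← MvPolynomial.vanishingIdeal_zeroLocus_eq_radical (K := ℂ),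
        MvPolynomial.mem_vanishingIdeal_iff]
      intro z hz
      rw [MvPolynomial.mem_zeroLocus_iff] at hz
      rw [aeval_X, h z fun l => hz _ (Ideal.subset_span ⟨l, rfl⟩)]
      rfl
    obtain ⟨K, hK⟩ := h2
    exact ⟨K, hK⟩
  choose K hK using h1
  choose c hc0 hc using fun i => lower_aux w P e hP i (K i) (hK i)
  obtain ⟨i0, -, hi0⟩ := Finset.exists_min_image (Finset.univ : Finset (Fin (N + 1))) c
    ⟨0, Finset.mem_univ _⟩
  refine ⟨c i0, hc0 i0, fun x hx => ?_⟩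
  obtain ⟨i, hi⟩ := exists_mx w x
  obtain ⟨l, hl⟩ := hc i x hx hi
  refine ⟨l, le_trans ?_ hl⟩
  exact mul_le_mul_of_nonneg_right (hi0 i (Finset.mem_univ _))
    (pow_nonneg (mx_pos w x hx).le _)

end

end Pool.Agent.T6.H91.DML
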