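import Pool.Agent.T6.H91.DML.Wedge
import Pool.Agent.T6.H91.DML.Core2
import Pool.Agent.Y199.DM.Orb

set_option autoImplicit false

/-! The product formula; growth of sizes along orbits. -/

namespace Pool.Agent.T6.H91.DML

open MvPolynomial Height NumberField Pool.Agent.H936R2 Pool.Agent.R847.PC Filter
open Height.AdmissibleAbsValues

section

variable {𝕂 : Type} [Field 𝕂] [NumberField 𝕂] {N : ℕ}

/-- The indices of the archimedean absolute values and of those in `S`. -/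
abbrev JJ (S : Finset (nonarchAbsVal (K := 𝕂))) : Type :=
  Fin ((archAbsVal (K := 𝕂)).toList.length) ⊕ S

/-- The archimedean absolute values and those in `S`. -/
noncomputable def ww (S : Finset (nonarchAbsVal (K := 𝕂))) : JJ S → AbsoluteValue 𝕂 ℝ :=
  Sum.elim (fun i => (archAbsVal (K := 𝕂)).toList[i.1]) (fun v => v.1.val)

lemma prod_ww (S : Finset (nonarchAbsVal (K := 𝕂))) (φ : AbsoluteValue 𝕂 ℝ → ℝ) :
    ∏ j, φ (ww S j) = ((archAbsVal (K := 𝕂)).map φ).prod *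
      ∏ v ∈ S, φ v.val := by
  classical
  rw [Fintype.prod_sum_type]
  congr 1
  · have h1 : ∏ i : Fin (archAbsVal (K := 𝕂)).toList.length, φ (ww S (Sum.inl i)) =
      ∏ i : Fin (archAbsVal (K := 𝕂)).toList.length, φ ((archAbsVal (K := 𝕂)).toList[i.1]) := rfl
    rw [h1, Fin.prod_univ_fun_getElem _ φ]
    have h2 : (archAbsVal (K := 𝕂)) =
        ((archAbsVal (K := 𝕂)).toList : Multiset (AbsoluteValue 𝕂 ℝ)) :=
      (Multiset.coe_toList _).symm
    conv_rhs => rw [h2, Multiset.map_coe, Multiset.prod_coe]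
  · exact Finset.prod_coe_sort S fun v => φ v.val

lemma prod_ww' (S : Finset (nonarchAbsVal (K := 𝕂))) (φ : AbsoluteValue 𝕂 ℝ → ℝ)
    (hφ : ∀ v : nonarchAbsVal (K := 𝕂), v ∉ S → φ v.val = 1) :
    ∏ j, φ (ww S j) = ((archAbsVal (K := 𝕂)).map φ).prod *
      ∏ᶠ v : nonarchAbsVal (K := 𝕂), φ v.val := by
  rw [prod_ww, finprod_eq_prod_of_mulSupport_subset (s := S)]
  intro v hv
  by_contra hvS
  exact hv (hφ v hvS)

lemma pf_one (S : Finset (nonarchAbsVal (K := 𝕂))) (t : 𝕂) (ht : t ≠ 0)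
    (h : ∀ v : nonarchAbsVal (K := 𝕂), v ∉ S → v.val t ≤ 1) : 1 ≤ ∏ j, ww S j t := by
  classical
  have h1 := product_formula (K := 𝕂) ht
  have hfin : (fun v : nonarchAbsVal (K := 𝕂) => v.val t).mulSupport.Finite :=
    hasFiniteMulSupport ht
  have h2 : ∏ᶠ v : nonarchAbsVal (K := 𝕂), v.val t =
      ∏ v ∈ S ∪ hfin.toFinset, v.val t := by
    apply finprod_eq_prod_of_mulSupport_subset
    intro v hv
    rw [Finset.coe_union, Set.mem_union]
    right
    rw [Finset.mem_coe, Set.Finite.mem_toFinset]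
    exact hv
  have h3 : ∏ v ∈ S ∪ hfin.toFinset, v.val t ≤ ∏ v ∈ S, v.val t := by
    rw [← Finset.union_sdiff_self_eq_union, Finset.prod_union Finset.disjoint_sdiff]
    apply mul_le_of_le_one_right
    · exact Finset.prod_nonneg fun v _ => v.val.nonneg _
    · apply Finset.prod_le_one
      · exact fun v _ => v.val.nonneg _
      · intro v hv
        exact h v (Finset.mem_sdiff.1 hv).2
  have h4 : ∏ j, ww S j t = ((archAbsVal (K := 𝕂)).map (· t)).prod * ∏ v ∈ S, v.val t :=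
    prod_ww S fun w => w t
  rw [h4, ← h1, h2]
  apply mul_le_mul_of_nonneg_left h3
  apply Multiset.prod_nonneg
  intro x hx
  obtain ⟨w, -, rfl⟩ := Multiset.mem_map.1 hx
  exact w.nonneg _

lemma pf_le (S : Finset (nonarchAbsVal (K := 𝕂))) (y z : 𝕂) (hy : y ≠ 0) (hz : z ≠ 0)
    (h : ∀ v : nonarchAbsVal (K := 𝕂), v ∉ S → v.val y ≤ v.val z) :
    ∏ j, ww S j z ≤ ∏ j, ww S j y := by
  have h1 := pf_one S (y / z) (div_ne_zero hy hz) fun v hv => by
    rw [map_div₀]
    exact div_le_one_of_le₀ (h v hv) (v.val.nonneg _)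
  have h2 : ∏ j, ww S j (y / z) = (∏ j, ww S j y) / ∏ j, ww S j z := by
    rw [← Finset.prod_div_distrib]
    exact Finset.prod_congr rfl fun j _ => map_div₀ _ _ _
  rw [h2] at h1
  have h3 : 0 < ∏ j, ww S j z := Finset.prod_pos fun j _ => (ww S j).pos hz
  rwa [one_le_div h3] at h1

/-- The height of the points of an orbit which is not preperiodic grows. -/
lemma height_growth [Algebra 𝕂 ℂ] {d : ℕ} (hd : 2 ≤ d)
    (f : Fin (N + 1) → MvPolynomial (Fin (N + 1)) 𝕂) (hf : ∀ i, (f i).IsHomogeneous d)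
    (hf0 : ∀ z : Fin (N + 1) → ℂ, (∀ i, aeval z (f i) = 0) → z = 0)
    (x0 : Fin (N + 1) → 𝕂) (hx0 : x0 ≠ 0)
    (hnp : ∀ m n, m < n → ¬ ∃ c : 𝕂, c ≠ 0 ∧ (pt f)^[n] x0 = c • (pt f)^[m] x0)
    (S : Finset (nonarchAbsVal (K := 𝕂)))
    (hS : ∀ v : nonarchAbsVal (K := 𝕂), v ∉ S → ∀ n, mx v.val ((pt f)^[n] x0) = 1) :
    Tendsto (fun n => ∑ j, Real.log (mx (ww S j) ((pt f)^[n] x0))) atTop atTop ∧
    ∃ C : ℝ, 0 ≤ C ∧ ∀ n, d * (∑ j, Real.log (mx (ww S j) ((pt f)^[n] x0))) - C ≤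
      ∑ j, Real.log (mx (ww S j) ((pt f)^[n + 1] x0)) := by
  have hxne : ∀ n, (pt f)^[n] x0 ≠ 0 := ne_zero_iter f hf0 x0 hx0
  have hheight : ∀ n, ∑ j, Real.log (mx (ww S j) ((pt f)^[n] x0)) =
      Real.log (mulHeight ((pt f)^[n] x0)) := by
    intro n
    rw [← Real.log_prod fun j _ => (mx_pos _ _ (hxne n)).ne']
    congr 1
    rw [prod_ww' S (fun v => mx v ((pt f)^[n] x0)) fun v hv => hS v hv n,
      Height.mulHeight_eq (hxne n)]
    rfl
  choose C hC0 hC using fun j => growth_local (ww S j) f hf hf0 x0 hx0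
  have hgr : ∀ n, d * (∑ j, Real.log (mx (ww S j) ((pt f)^[n] x0))) - ∑ j, C j ≤
      ∑ j, Real.log (mx (ww S j) ((pt f)^[n + 1] x0)) := by
    intro n
    rw [Finset.mul_sum, ← Finset.sum_sub_distrib]
    exact Finset.sum_le_sum fun j _ => hC j n
  refine ⟨?_, ∑ j, C j, Finset.sum_nonneg fun j _ => hC0 j, hgr⟩
  refine tendsto_of_growth _ d hd (∑ j, C j) (Finset.sum_nonneg fun j _ => hC0 j) hgr
    (fun B => ?_)
  obtain ⟨n, hn⟩ := unbounded (fun n => (pt f)^[n] x0) hxne hnp B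
  exact ⟨n, by rw [hheight]; exact hn⟩

end

lemma exp_growth (H : ℕ → ℝ) (d : ℕ) (hd : 2 ≤ d) (C : ℝ) (hC : 0 ≤ C)
    (h : ∀ n, d * H n - C ≤ H (n + 1)) (ht : Tendsto H atTop atTop) :
    ∃ c : ℝ, 0 < c ∧ ∃ n0 : ℕ, ∀ n, n0 ≤ n → c * (d : ℝ) ^ n ≤ H n := by
  obtain ⟨n0, hn0⟩ := (ht.eventually_ge_atTop (C + 1)).exists
  have hdR : (2 : ℝ) ≤ d := by exact_mod_cast hd
  have hdpos : (0 : ℝ) < d := by linarith
  have key : ∀ m : ℕ, (d : ℝ) ^ m + C ≤ H (n0 + m) := by
    intro m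
    induction m with
    | zero => simpa [add_comm] using hn0
    | succ m ih =>
      have h1 := h (n0 + m)
      have h2 : (d : ℝ) * ((d : ℝ) ^ m + C) ≤ d * H (n0 + m) :=
        mul_le_mul_of_nonneg_left ih hdpos.le
      have h3 : n0 + (m + 1) = n0 + m + 1 := rfl
      rw [h3, pow_succ']
      nlinarith
  refine ⟨((d : ℝ) ^ n0)⁻¹, by positivity, n0, fun n hn => ?_⟩
  obtain ⟨m, rfl⟩ := Nat.exists_eq_add_of_le hn
  rw [pow_add, ← mul_assoc, inv_mul_cancel₀ (by positivity), one_mul]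
  have := key m
  linarith

section

variable {𝕂 : Type} [Field 𝕂] {N : ℕ}

/-- Upper bounds for the sizes along an orbit. -/
lemma growth_upper (w : AbsoluteValue 𝕂 ℝ) {d : ℕ} (hd : 2 ≤ d)
    (f : Fin (N + 1) → MvPolynomial (Fin (N + 1)) 𝕂) (hf : ∀ i, (f i).IsHomogeneous d)
    (x0 : Fin (N + 1) → 𝕂) (hne : ∀ n, (pt f)^[n] x0 ≠ 0) :
    ∃ C : ℝ, 0 ≤ C ∧ ∀ n, Real.log (mx w ((pt f)^[n] x0)) ≤ C * (d : ℝ) ^ n := by
  choose Cf hCf1 hCf using fun i => eval_le w (f i) d (hf i)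
  have hSpos : 1 ≤ ∑ i, Cf i := by
    have h1 := Finset.single_le_sum (f := Cf) (fun i _ => zero_le_one.trans (hCf1 i))
      (Finset.mem_univ (0 : Fin (N + 1)))
    exact (hCf1 0).trans h1
  set c := Real.log (∑ i, Cf i) with hc
  have hc0 : 0 ≤ c := Real.log_nonneg hSpos
  have hdR : (2 : ℝ) ≤ d := by exact_mod_cast hd
  have hstep : ∀ n, Real.log (mx w ((pt f)^[n + 1] x0)) ≤
      d * Real.log (mx w ((pt f)^[n] x0)) + c := by
    intro n
    have hpos := mx_pos w _ (hne n)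
    have hup : mx w ((pt f)^[n + 1] x0) ≤ (∑ i, Cf i) * mx w ((pt f)^[n] x0) ^ d := by
      apply mx_le
      intro i
      rw [Function.iterate_succ_apply']
      refine (hCf i ((pt f)^[n] x0)).trans
        (mul_le_mul_of_nonneg_right ?_ (pow_nonneg hpos.le _))
      exact Finset.single_le_sum (f := Cf) (fun i _ => zero_le_one.trans (hCf1 i))
        (Finset.mem_univ i)
    have h1 := Real.log_le_log (mx_pos w _ (hne (n + 1))) hup
    rw [Real.log_mul (by linarith) (pow_pos hpos _).ne', Real.log_pow] at h1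
    linarith
  refine ⟨|Real.log (mx w x0)| + c, by positivity, fun n => ?_⟩
  have key : Real.log (mx w ((pt f)^[n] x0)) ≤
      (|Real.log (mx w x0)| + c) * (d : ℝ) ^ n - c := by
    induction n with
    | zero =>
      have := le_abs_self (Real.log (mx w x0))
      simpa using this
    | succ n ih =>
      have h1 := hstep n
      have h2 : (d : ℝ) * Real.log (mx w ((pt f)^[n] x0)) ≤
          d * ((|Real.log (mx w x0)| + c) * (d : ℝ) ^ n - c) :=
        mul_le_mul_of_nonneg_left ih (by linarith)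
      rw [pow_succ]
      nlinarith
  linarith

/-- The sizes of the coordinates of a wedge product. -/
lemma wedge_size (w : AbsoluteValue 𝕂 ℝ) (x y : Fin (N + 1) → 𝕂) (a b : Fin (N + 1)) :
    w (x a * y b - x b * y a) ≤ 2 * (mx w x * mx w y) := by
  have h1 : ∀ a b, w (x a * y b) ≤ mx w x * mx w y := by
    intro a b
    rw [map_mul]
    exact mul_le_mul (le_mx w x a) (le_mx w y b) (w.nonneg _)
      ((w.nonneg _).trans (le_mx w x a))
  have h2 : w (x a * y b - x b * y a) ≤ w (x a * y b) + w (x b * y a) := by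
    rw [sub_eq_add_neg]
    refine (w.add_le _ _).trans ?_
    rw [AbsoluteValue.map_neg]
  linarith [h1 a b, h1 b a]

end

end Pool.Agent.T6.H91.DML
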