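import Pool.Agent.T6.H91.DML.Line

set_option autoImplicit false

/-! Endomorphisms of the plane with an invariant line on which the critical points are strictly
preperiodic. -/

namespace Pool.Agent.T6.H91.DML

open MvPolynomial Pool.Agent.H936R2 Pool.Agent.R847.PC

/-- `Φ^q` fixes the point `z`. -/
noncomputable def fixPol {N : ℕ} (f : Fin (N + 1) → MvPolynomial (Fin (N + 1)) ℂ) (q : ℕ) :
    Set (MvPolynomial (Fin (N + 1)) ℂ) :=
  Set.range fun ij : Fin (N + 1) × Fin (N + 1) => X ij.1 * itp f q ij.2 - X ij.2 * itp f q ij.1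

lemma eval_itp {N : ℕ} (f : Fin (N + 1) → MvPolynomial (Fin (N + 1)) ℂ) (q : ℕ)
    (z : Fin (N + 1) → ℂ) (i : Fin (N + 1)) : eval z (itp f q i) = (pt f)^[q] z i := by
  have h1 := eval_pull f q (X i) z
  unfold pull at h1
  rw [bind₁_X_right, eval_X] at h1
  exact h1

lemma fixPol_iff {N : ℕ} (f : Fin (N + 1) → MvPolynomial (Fin (N + 1)) ℂ)
    (hf0 : ∀ z : Fin (N + 1) → ℂ, (∀ i, eval z (f i) = 0) → z = 0) (q : ℕ)
    (z : Fin (N + 1) → ℂ) (hz : z ≠ 0) :
    (∀ P ∈ fixPol f q, eval z P = 0) ↔ ∃ a : ℂ, a ≠ 0 ∧ (pt f)^[q] z = a • z := by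
  rw [← par_iff z _ hz (iter_ne_zero f hf0 z hz q)]
  constructor
  · intro h i j
    have h1 := h _ ⟨(i, j), rfl⟩
    simp only [map_sub, map_mul, eval_X, eval_itp] at h1
    exact h1
  · rintro h _ ⟨⟨i, j⟩, rfl⟩
    simp only [map_sub, map_mul, eval_X, eval_itp]
    exact h i j

theorem plane {d : ℕ} (hd : 2 ≤ d) (f : Fin 3 → MvPolynomial (Fin 3) ℂ)
    (hf : ∀ i, (f i).IsHomogeneous d) (hfa : ∀ i, AlgCoeff (N := 2) (f i))
    (hf0 : ∀ z : Fin 3 → ℂ, (∀ i, eval z (f i) = 0) → z = 0)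
    (c : Fin 3 → ℂ) (hc : c ≠ 0) (hca : ∀ i, IsAlgebraic ℚ (c i))
    (hinv : ∀ z : Fin 3 → ℂ, ∑ i, c i * z i = 0 → ∑ i, c i * pt f z i = 0)
    (hcrit : ∀ z : Fin 3 → ℂ, z ≠ 0 → ∑ i, c i * z i = 0 → (jac f z).det = 0 →
      Prep (N := 2) f z ∧ ¬ Peri (N := 2) f z) (α : Fin 3 → ℂ) : DmlAt (N := 2) f α := by
  classical
  obtain ⟨A, hA, hAa, hgA⟩ := exists_cofactor (N := 2) (by omega) f hf hfa c hc hca hinv
  -- the line is invariant
  have hinvn : ∀ n, ∀ z : Fin 3 → ℂ, ∑ i, c i * z i = 0 → ∑ i, c i * (pt f)^[n] z i = 0 := by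
    intro n
    induction n with
    | zero => exact fun z hz => hz
    | succ n ih =>
      intro z hz
      rw [Function.iterate_succ_apply']
      exact hinv _ (ih z hz)
  have hne := iter_ne_zero (N := 2) f hf0
  -- a noncritical point of the line
  have hex : ∃ z1 : Fin 3 → ℂ, z1 ≠ 0 ∧ ∑ i, c i * z1 i = 0 ∧ eval z1 (jdet f) ≠ 0 := by
    have hz : ∃ z : Fin 3 → ℂ, z ≠ 0 ∧ ∑ i, c i * z i = 0 := by
      by_cases h : c 0 = 0 ∧ c 1 = 0
      · refine ⟨Pi.single 0 1, ?_, ?_⟩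
        · intro h0
          have := congrFun h0 0
          simp at this
        · simp [Fin.sum_univ_three, h.1]
      · refine ⟨![c 1, -c 0, 0], ?_, ?_⟩
        · intro h0
          apply h
          have h1 := congrFun h0 0
          have h2 := congrFun h0 1
          simp at h1 h2
          exact ⟨h2, h1⟩
        · simp [Fin.sum_univ_three]
          ring
    obtain ⟨z, hz0, hz⟩ := hz
    by_contra hno
    push Not at hno
    have hall : ∀ w : Fin 3 → ℂ, w ≠ 0 → ∑ i, c i * w i = 0 → (jac f w).det = 0 := by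
      intro w hw hcw
      rw [← eval_jdet]
      exact hno w hw hcw
    obtain ⟨⟨n, q, hq, a, ha, h⟩, -⟩ := hcrit z hz0 hz (hall z hz0 hz)
    obtain ⟨b, hb, h1⟩ := prep_more (N := 2) f hf z n q a ha h 0 1
    have h2 := hcrit ((pt f)^[n + 0] z) (hne z hz0 _) (hinvn _ z hz)
      (hall _ (hne z hz0 _) (hinvn _ z hz))
    exact h2.2 ⟨q * 1, by omega, b, hb, h1⟩
  obtain ⟨z1, hz10, hz1, hJ1⟩ := hex
  have hJhom : ∃ D, (jdet f).IsHomogeneous D := by
    refine ⟨(d - 1) + (d - 1) + (d - 1), ?_⟩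
    unfold jdet
    rw [Matrix.det_fin_three]
    have hp : ∀ i j, (pderiv j (f i)).IsHomogeneous (d - 1) := fun i j => (hf i).pderiv
    simp only [Matrix.of_apply]
    have h3 : ∀ i j k l m n : Fin 3, (pderiv j (f i) * pderiv l (f k) * pderiv n (f m)).IsHomogeneous
        ((d - 1) + (d - 1) + (d - 1)) := fun i j k l m n => ((hp i j).mul (hp k l)).mul (hp m n)
    exact (((((h3 _ _ _ _ _ _).sub (h3 _ _ _ _ _ _)).sub (h3 _ _ _ _ _ _)).add
      (h3 _ _ _ _ _ _)).add (h3 _ _ _ _ _ _)).sub (h3 _ _ _ _ _ _)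
  obtain ⟨DJ, hJhom⟩ := hJhom
  obtain ⟨F, hF⟩ := line_finite c hc (jdet f) hJhom z1 hz1 hJ1 hz10
  let F' := F.filter fun w => w ≠ 0 ∧ ∑ i, c i * w i = 0 ∧ (jac f w).det = 0
  have hprep : ∀ w : Fin 3 → ℂ, ∃ n q : ℕ, w ∈ F' → 0 < q ∧ ∃ a : ℂ, a ≠ 0 ∧
      (pt f)^[n + q] w = a • (pt f)^[n] w := by
    intro w
    by_cases hw : w ∈ F'
    · obtain ⟨-, hw0, hwc, hwJ⟩ := Finset.mem_filter.1 hw
      obtain ⟨⟨n, q, hq, a, ha, h⟩, -⟩ := hcrit w hw0 hwc hwJ
      exact ⟨n, q, fun _ => ⟨hq, a, ha, h⟩⟩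
    · exact ⟨0, 0, fun h => absurd h hw⟩
  choose nn qq hnq using hprep
  let m := ∑ w ∈ F', nn w
  let q := ∏ w ∈ F', qq w
  have hqpos : 0 < q := Finset.prod_pos fun w hw => (hnq w hw).1
  -- after `m` steps the critical points are fixed by `Φ^q`
  have hfix : ∀ z : Fin 3 → ℂ, z ≠ 0 → ∑ i, c i * z i = 0 → (jac f z).det = 0 →
      ∃ b : ℂ, b ≠ 0 ∧ (pt f)^[q] ((pt f)^[m] z) = b • (pt f)^[m] z := by
    intro z hz hcz hJz
    have hJz' : eval z (jdet f) = 0 := by
      rw [eval_jdet]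
      exact hJz
    obtain ⟨w, hwF, a, ha, hzw⟩ := hF z hz hcz hJz'
    have hw0 : w ≠ 0 := by
      rintro rfl
      rw [smul_zero] at hzw
      exact hz hzw
    have hwz : w = a⁻¹ • z := by
      rw [hzw, smul_smul, inv_mul_cancel₀ ha, one_smul]
    have hwc : ∑ i, c i * w i = 0 := by
      have h1 : ∑ i, c i * w i = a⁻¹ * ∑ i, c i * z i := by
        rw [Finset.mul_sum]
        refine Finset.sum_congr rfl fun i _ => ?_
        rw [hwz, Pi.smul_apply, smul_eq_mul]
        ring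
      rw [h1, hcz, mul_zero]
    have hwJ : (jac f w).det = 0 := by
      rw [← eval_jdet, hwz, Pool.Agent.R847.QP.hom_scale (jdet f) DJ hJhom, hJz', mul_zero]
    have hwF' : w ∈ F' := Finset.mem_filter.2 ⟨hwF, hw0, hwc, hwJ⟩
    obtain ⟨-, a', ha', h⟩ := hnq w hwF'
    obtain ⟨l, hl⟩ := Nat.exists_eq_add_of_le
      (Finset.single_le_sum (f := nn) (fun w _ => Nat.zero_le _) hwF')
    obtain ⟨t, ht⟩ := Finset.dvd_prod_of_mem qq hwF'
    obtain ⟨b, hb, h1⟩ := prep_more (N := 2) f hf w (nn w) (qq w) a' ha' h l t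
    have h2 : (pt f)^[q] ((pt f)^[m] w) = b • (pt f)^[m] w := by
      change (pt f)^[∏ w ∈ F', qq w] ((pt f)^[∑ w ∈ F', nn w] w) = b • (pt f)^[∑ w ∈ F', nn w] w
      rw [ht, hl]
      exact h1
    obtain ⟨b1, hb1, h3⟩ := iter_smul (N := 2) f hf a ha w m
    obtain ⟨b2, hb2, h4⟩ := iter_smul (N := 2) f hf b1 hb1 ((pt f)^[m] w) q
    refine ⟨b2 * b * b1⁻¹, mul_ne_zero (mul_ne_zero hb2 hb) (inv_ne_zero hb1), ?_⟩
    rw [hzw, h3, h4, h2, smul_smul, smul_smul, mul_assoc, mul_assoc, inv_mul_cancel₀ hb1, mul_one]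
  -- the chain
  let D : ℕ → Set (MvPolynomial (Fin 3) ℂ) := fun i =>
    if i = 0 then {lin c} else if i = 1 then insert (lin c) (fixPol (N := 2) f q) else {1}
  have hD0 : ∀ z : Fin 3 → ℂ, (∀ P ∈ D 0, eval z P = 0) ↔ ∑ i, c i * z i = 0 := by
    intro z
    simp only [D, if_true, Set.mem_singleton_iff, forall_eq, eval_lin]
  have hD1 : ∀ z : Fin 3 → ℂ, z ≠ 0 → ((∀ P ∈ D 1, eval z P = 0) ↔ (∑ i, c i * z i = 0 ∧
      ∃ a : ℂ, a ≠ 0 ∧ (pt f)^[q] z = a • z)) := by
    intro z hz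
    have h1 := fixPol_iff (N := 2) f hf0 q z hz
    simp only [D, one_ne_zero, if_false, if_true, Set.mem_insert_iff, forall_eq_or_imp, eval_lin]
    rw [h1]
  have hD2 : ∀ z : Fin 3 → ℂ, ¬ ∀ P ∈ D 2, eval z P = 0 := by
    intro z h
    simp only [D, OfNat.ofNat_ne_zero, OfNat.ofNat_ne_one, if_false, Set.mem_singleton_iff,
      forall_eq, map_one] at h
    exact one_ne_zero h
  have hChC : ChC (N := 2) f (lin c) A 2 D := by
    constructor
    · exact hgA
    · intro i hi P hP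
      simp only [D] at hP
      split_ifs at hP with h0 h1
      · rw [Set.mem_singleton_iff.1 hP]
        exact algCoeff_lin (N := 2) hca
      · rcases Set.mem_insert_iff.1 hP with rfl | ⟨ij, rfl⟩
        · exact algCoeff_lin (N := 2) hca
        · exact ((algCoeff_X _).mul (AlgCoeff.itp hfa q _)).sub
            ((algCoeff_X _).mul (AlgCoeff.itp hfa q _))
      · rw [Set.mem_singleton_iff.1 hP]
        exact algCoeff_one
    · intro z hz hgz
      rw [hD0]
      rw [eval_lin] at hgz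
      exact hgz
    · intro i hi z hz hDz
      have hfz : pt f z ≠ 0 := hne z hz 1
      interval_cases i
      · rw [hD0] at hDz ⊢
        exact hinv z hDz
      · rw [hD1 z hz] at hDz
        rw [hD1 _ hfz]
        obtain ⟨h1, a, ha, h2⟩ := hDz
        obtain ⟨b, hb, h3⟩ := iter_smul (N := 2) f hf a ha z 1
        refine ⟨hinv z h1, b, hb, ?_⟩
        have h4 : (pt f)^[q] (pt f z) = pt f ((pt f)^[q] z) :=
          (Function.iterate_succ_apply (pt f) q z).symm.trans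
            (Function.iterate_succ_apply' (pt f) q z)
        rw [h4, h2]
        exact h3
      · exact absurd hDz (hD2 z)
    · intro i hi
      interval_cases i
      · refine ⟨m, fun z hz hDz hj => ?_⟩
        rw [hD0] at hDz
        rw [Nat.zero_add, hD1 _ (hne z hz m)]
        have hJ : (jac f z).det = 0 := by
          rcases hj with hj | hj
          · exact hj
          · exact cofactor_critical (N := 2) f c hc A hgA z hDz hj
        exact ⟨hinvn m z hDz, hfix z hz hDz hJ⟩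
      · refine ⟨0, fun z hz hDz hj => ?_⟩
        exfalso
        rw [hD1 z hz] at hDz
        have hJ : (jac f z).det = 0 := by
          rcases hj with hj | hj
          · exact hj
          · exact cofactor_critical (N := 2) f c hc A hgA z hDz.1 hj
        exact (hcrit z hz hDz.1 hJ).2 ⟨q, hqpos, hDz.2⟩
    · intro z hz
      have h1 := hD2 z
      push Not at h1
      exact h1
  exact main (N := 2) hd le_rfl f hf hfa hf0 (lin c) A (lin_hom c) (algCoeff_lin (N := 2) hca) hA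
    hAa 2 D hChC α

end Pool.Agent.T6.H91.DML
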