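import Pool.Agent.T6.H91.DML.Trans

set_option autoImplicit false

/-! An embedding into the algebraic closure of `ℚ_p` compatible with a place of a number field. -/

namespace Pool.Agent.T6.H91.DML

open Polynomial Height NumberField Pool.Agent.H936R2 Pool.Agent.R847.Gap Pool.Agent.Y152.BD
open Height.AdmissibleAbsValues IsDedekindDomain

lemma norm_integral_le {p : ℕ} [hp : Fact p.Prime] {y : PadicAlgCl p} (hy : IsIntegral ℤ y) :
    ‖y‖ ≤ 1 := by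
  by_contra hlt
  rw [not_le] at hlt
  have hy0 : y ≠ 0 := by
    rintro rfl
    rw [norm_zero] at hlt
    linarith
  obtain ⟨P, hP, hPy⟩ := hy
  have h1 : eval₂ (algebraMap ℤ (PadicAlgCl p)) y⁻¹ P.reverse = 0 := by
    have hinv : Invertible y := invertibleOfNonzero hy0
    have h2 := (eval₂_reverse_eq_zero_iff (algebraMap ℤ (PadicAlgCl p)) y P).2 hPy
    rwa [invOf_eq_inv] at h2
  have hz : ‖y⁻¹‖ < 1 := by
    rw [norm_inv]
    exact inv_lt_one_of_one_lt₀ hlt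
  let z : unitBall (PadicAlgCl p) := ⟨y⁻¹, hz.le⟩
  have h2 : (1 : PadicAlgCl p) = -(y⁻¹ * ((aeval z P.reverse.divX : unitBall (PadicAlgCl p)) :
      PadicAlgCl p)) := by
    have h3 : P.reverse = P.reverse.divX * X + C 1 := by
      conv_lhs => rw [← divX_mul_X_add P.reverse]
      rw [coeff_zero_reverse, hP.leadingCoeff]
    rw [h3, eval₂_add, eval₂_mul, eval₂_X, eval₂_C, map_one] at h1
    have h4 : ((aeval z P.reverse.divX : unitBall (PadicAlgCl p)) : PadicAlgCl p) =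
        eval₂ (algebraMap ℤ (PadicAlgCl p)) y⁻¹ P.reverse.divX := by
      have h5 : ((aeval z P.reverse.divX : unitBall (PadicAlgCl p)) : PadicAlgCl p) =
        (unitBall (PadicAlgCl p)).subtype (aeval z P.reverse.divX) := rfl
      rw [h5, aeval_def, hom_eval₂]
      congr 1
    rw [h4]
    linear_combination h1
  have h3 : ‖(1 : PadicAlgCl p)‖ < 1 := by
    rw [h2, norm_neg, norm_mul]
    calc ‖y⁻¹‖ * ‖((aeval z P.reverse.divX : unitBall (PadicAlgCl p)) : PadicAlgCl p)‖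
        ≤ ‖y⁻¹‖ * 1 := mul_le_mul_of_nonneg_left (unitBall_norm_le _) (norm_nonneg _)
      _ < 1 := by rwa [mul_one]
  rw [norm_one] at h3
  exact lt_irrefl _ h3

/-- Embeddings given by places of number fields. -/
theorem near_place2 : ∃ D : ℕ, ∀ (𝕂 : Type) [Field 𝕂] [NumberField 𝕂] [Algebra 𝕂 ℂ]
    (v : nonarchAbsVal (K := 𝕂)), (∀ p : ℕ, p.Prime → p ≤ D → ¬ v.val (p : 𝕂) < 1) →
      ∃ (p : ℕ) (_ : Fact p.Prime) (τ : ℂ →+* PadicAlgCl p),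
        (∀ x : 𝕂, v.val x ≤ 1 → ‖τ (algebraMap 𝕂 ℂ x)‖ ≤ 1) ∧
        ∀ x : 𝕂, v.val x < 1 → ‖τ (algebraMap 𝕂 ℂ x)‖ < 1 := by
  classical
  obtain ⟨D, hD⟩ := emb_alg ∅
  refine ⟨D, fun 𝕂 _ _ _ v hv => ?_⟩
  obtain ⟨w, hw⟩ := place_eq v
  obtain ⟨p, hp, hvp⟩ := place_exists_prime v
  have hlt : D < p := by
    by_contra h
    exact hv p hp (not_lt.1 h) hvp
  have : Fact p.Prime := ⟨hp⟩
  have hpw : ((p : ℕ) : 𝓞 𝕂) ∈ w.asIdeal := by
    rw [← FinitePlace.norm_lt_one_iff_mem 𝕂 w, ← hw]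
    simpa using hvp
  have hp0 : ((p : ℕ) : 𝓞 𝕂) ≠ 0 := by exact_mod_cast hp.ne_zero
  -- prime avoidance
  have hspan : Ideal.span {((p : ℕ) : 𝓞 𝕂)} ≠ 0 := by
    rw [Ne, Ideal.zero_eq_bot, Ideal.span_singleton_eq_bot]
    exact hp0
  have hfin := Ideal.finite_factors hspan
  let PP : Finset (HeightOneSpectrum (𝓞 𝕂)) := hfin.toFinset.erase w
  have hPP : ∀ u : HeightOneSpectrum (𝓞 𝕂), u ≠ w → ((p : ℕ) : 𝓞 𝕂) ∈ u.asIdeal → u ∈ PP := by
    intro u hu hpu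
    refine Finset.mem_erase.2 ⟨hu, ?_⟩
    rw [Set.Finite.mem_toFinset]
    change u.asIdeal ∣ _
    rw [Ideal.dvd_span_singleton]
    exact hpu
  have hav : ∃ π : 𝓞 𝕂, π ∈ w.asIdeal ∧ ∀ u ∈ PP, π ∉ u.asIdeal := by
    by_contra hno
    push Not at hno
    have h1 : ((w.asIdeal : Ideal (𝓞 𝕂)) : Set (𝓞 𝕂)) ⊆
        ⋃ u ∈ ((PP : Finset (HeightOneSpectrum (𝓞 𝕂))) : Set (HeightOneSpectrum (𝓞 𝕂))),
          (u.asIdeal : Set (𝓞 𝕂)) := by
      intro π hπ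
      obtain ⟨u, hu, h2⟩ := hno π hπ
      simp only [Set.mem_iUnion]
      exact ⟨u, hu, h2⟩
    rw [Ideal.subset_union_prime (f := fun u : HeightOneSpectrum (𝓞 𝕂) => u.asIdeal) w w
      (fun u _ _ _ => u.isPrime)] at h1
    obtain ⟨u, hu, h2⟩ := h1
    have h3 : w.asIdeal = u.asIdeal := w.isMaximal.eq_of_le u.isPrime.ne_top h2
    exact (Finset.mem_erase.1 hu).1 (HeightOneSpectrum.ext h3.symm)
  obtain ⟨π, hπw, hπu⟩ := hav
  have hvπ : v.val (π : 𝕂) < 1 := by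
    rw [hw]
    exact (FinitePlace.norm_lt_one_iff_mem 𝕂 w π).2 hπw
  -- the embedding
  obtain ⟨G, hG, hGh⟩ := exists_irred _ (isAlgebraic_map (𝕂 := 𝕂) (π : 𝕂))
  have hGh' : aeval (π : 𝕂) G = 0 := by
    rw [aeval_algebraMap_apply] at hGh
    exact (map_eq_zero _).1 hGh
  have hdvd := place_dvd v hp hvp G (π : 𝕂) hvπ hGh'
  obtain ⟨τ, -, h2⟩ := hD p hlt (algebraMap 𝕂 ℂ (π : 𝕂)) G hG hGh 0 (by
    intro h
    have h3 : p ∣ 1 := by simpa using h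
    exact hp.one_lt.ne' (Nat.dvd_one.1 h3)) (by
    have h3 : Nv G 0 = G.coeff 0 := by
      rw [Nv, Finset.sum_range_succ']
      simp
    rw [h3]
    exact hdvd)
  have hτπ : ‖τ (algebraMap 𝕂 ℂ (π : 𝕂))‖ < 1 := by simpa using h2
  have hint : ∀ x : 𝓞 𝕂, ‖τ (algebraMap 𝕂 ℂ (x : 𝕂))‖ ≤ 1 := by
    intro x
    apply norm_integral_le
    have h3 : IsIntegral ℤ (x : 𝕂) := x.2
    exact (h3.map (algebraMap 𝕂 ℂ).toIntAlgHom).map τ.toIntAlgHom
  -- the prime ideal of `τ`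
  let q : Ideal (𝓞 𝕂) :=
    { carrier := {x | ‖τ (algebraMap 𝕂 ℂ (x : 𝕂))‖ < 1}
      add_mem' := by
        intro a b ha hb
        simp only [Set.mem_ofPred_eq, map_add] at *
        exact (IsUltrametricDist.norm_add_le_max _ _).trans_lt (max_lt ha hb)
      zero_mem' := by simp
      smul_mem' := by
        intro a b hb
        simp only [Set.mem_ofPred_eq, smul_eq_mul, map_mul, norm_mul] at *
        calc _ ≤ 1 * ‖τ (algebraMap 𝕂 ℂ (b : 𝕂))‖ :=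
              mul_le_mul_of_nonneg_right (hint a) (norm_nonneg _)
          _ < 1 := by rwa [one_mul] }
  have hmq : ∀ x : 𝓞 𝕂, x ∈ q ↔ ‖τ (algebraMap 𝕂 ℂ (x : 𝕂))‖ < 1 := fun x => Iff.rfl
  have hqp : q.IsPrime := by
    refine ⟨?_, ?_⟩
    · rw [Ideal.ne_top_iff_one, hmq]
      simp
    · intro a b hab
      by_contra hno
      push Not at hno
      rw [hmq, hmq] at hno
      rw [hmq] at hab
      have h3 : ‖τ (algebraMap 𝕂 ℂ (a : 𝕂))‖ = 1 := le_antisymm (hint a) (not_lt.1 hno.1)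
      have h4 : ‖τ (algebraMap 𝕂 ℂ (b : 𝕂))‖ = 1 := le_antisymm (hint b) (not_lt.1 hno.2)
      simp only [map_mul, norm_mul] at hab
      rw [h3, h4, one_mul] at hab
      exact lt_irrefl _ hab
  have hpq : ((p : ℕ) : 𝓞 𝕂) ∈ q := by
    rw [hmq]
    simp only [map_natCast]
    exact norm_natCast_p_lt
  have hq0 : q ≠ ⊥ := by
    intro h0
    rw [h0, Ideal.mem_bot] at hpq
    exact hp0 hpq
  let u : HeightOneSpectrum (𝓞 𝕂) := ⟨q, hqp, hq0⟩
  have huw : u = w := by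
    by_contra hne
    exact hπu u (hPP u hne hpq) hτπ
  have hqw : ∀ x : 𝓞 𝕂, ‖τ (algebraMap 𝕂 ℂ (x : 𝕂))‖ < 1 ↔ x ∈ w.asIdeal := by
    intro x
    rw [← huw]
    exact Iff.rfl
  -- integral elements at `v`
  have hfrac : ∀ x : 𝕂, v.val x ≤ 1 → ∃ n d : 𝓞 𝕂, d ∉ w.asIdeal ∧ x * (d : 𝕂) = (n : 𝕂) := by
    intro x hx
    have h3 : w.valuation 𝕂 x ≤ 1 := by
      rw [hw, FinitePlace.norm_embedding'] at hx
      have h4 := (WithZeroMulInt.toNNReal_le_one_iff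
        (NumberField.HeightOneSpectrum.one_lt_absNorm_nnreal w)).1 (by exact_mod_cast hx)
      exact h4
    obtain ⟨n, d, hd⟩ := w.exists_primeCompl_mul_eq_of_integer x h3
    exact ⟨n, d, d.2, hd⟩
  have hval : ∀ d : 𝓞 𝕂, d ∉ w.asIdeal → ‖τ (algebraMap 𝕂 ℂ (d : 𝕂))‖ = 1 := by
    intro d hd
    refine le_antisymm (hint d) (not_lt.1 fun h => hd ((hqw d).1 h))
  refine ⟨p, ⟨hp⟩, τ, fun x hx => ?_, fun x hx => ?_⟩
  · obtain ⟨n, d, hd, h3⟩ := hfrac x hx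
    have h4 : ‖τ (algebraMap 𝕂 ℂ x)‖ * ‖τ (algebraMap 𝕂 ℂ (d : 𝕂))‖ =
        ‖τ (algebraMap 𝕂 ℂ (n : 𝕂))‖ := by
      rw [← norm_mul, ← map_mul, ← map_mul, h3]
    rw [hval d hd, mul_one] at h4
    rw [h4]
    exact hint n
  · obtain ⟨n, d, hd, h3⟩ := hfrac x hx.le
    have h4 : ‖τ (algebraMap 𝕂 ℂ x)‖ * ‖τ (algebraMap 𝕂 ℂ (d : 𝕂))‖ =
        ‖τ (algebraMap 𝕂 ℂ (n : 𝕂))‖ := by
      rw [← norm_mul, ← map_mul, ← map_mul, h3]
    rw [hval d hd, mul_one] at h4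
    rw [h4, hqw]
    have h5 : v.val x * v.val (d : 𝕂) = v.val (n : 𝕂) := by rw [← map_mul, h3]
    have h6 : v.val (d : 𝕂) = 1 := by
      rw [hw]
      exact (FinitePlace.norm_eq_one_iff_notMem 𝕂 w d).2 hd
    rw [h6, mul_one] at h5
    rw [← FinitePlace.norm_lt_one_iff_mem 𝕂 w, ← hw]
    change v.val (n : 𝕂) < 1
    rw [← h5]
    exact hx

end Pool.Agent.T6.H91.DML
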