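import Pool.Agent.T6.H91.DML.AlgPt

set_option autoImplicit false

/-! Points with transcendental coordinates. -/

namespace Pool.Agent.T6.H91.DML

open MvPolynomial Pool.Agent.H936R2 Pool.Agent.R847.PC NumberField Pool.Agent.R847.Gap

section

variable {𝕂 : Type} [Field 𝕂] [NumberField 𝕂] [Algebra 𝕂 ℂ] {N : ℕ}

omit [NumberField 𝕂] in
lemma isAlgebraic_map [NumberField 𝕂] (x : 𝕂) : IsAlgebraic ℚ (algebraMap 𝕂 ℂ x) := by
  have h1 : IsAlgebraic ℚ x := Algebra.IsAlgebraic.isAlgebraic x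
  obtain ⟨P, hP0, hP⟩ := h1
  refine ⟨P, hP0, ?_⟩
  rw [Polynomial.aeval_algebraMap_apply, hP, map_zero]

/-- Algebraic numbers are integral at all embeddings for almost all primes. -/
lemma integral_all (s : Finset ℂ) (hs : ∀ x ∈ s, IsAlgebraic ℚ x) :
    ∃ D : ℕ, ∀ (p : ℕ) [Fact p.Prime], D < p → ∀ τ : ℂ →+* PadicAlgCl p,
      ∀ x ∈ s, ‖τ x‖ ≤ 1 := by
  obtain ⟨m, y, hy, hyA, D, hD⟩ := exists_noether s
  refine ⟨D, fun p hp hlt τ => hD p hlt τ fun j => ?_⟩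
  exfalso
  have h1 : Transcendental ℚ (y j) := hy.transcendental j
  apply h1
  have h2 : ∀ z ∈ Algebra.adjoin ℚ (s : Set ℂ), IsAlgebraic ℚ z := by
    intro z hz
    induction hz using Algebra.adjoin_induction with
    | mem x hx => exact hs x hx
    | algebraMap q => exact isAlgebraic_algebraMap q
    | add x y _ _ hx hy => exact hx.add hy
    | mul x y _ _ hx hy => exact hx.mul hy
  exact h2 _ (hyA j)

lemma exists_prim {p : ℕ} [Fact p.Prime] (τ : ℂ →+* PadicAlgCl p) (α : Fin (N + 1) → ℂ)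
    (hα : α ≠ 0) : ∃ i, τ (α i) ≠ 0 ∧ ∀ j, ‖τ (α j)‖ ≤ ‖τ (α i)‖ := by
  obtain ⟨i, -, hi⟩ := Finset.exists_max_image Finset.univ (fun j => ‖τ (α j)‖)
    (Finset.univ_nonempty)
  refine ⟨i, ?_, fun j => hi j (Finset.mem_univ _)⟩
  obtain ⟨j, hj⟩ := Function.ne_iff.1 hα
  have h1 : 0 < ‖τ (α j)‖ := norm_pos_iff.2 ((map_ne_zero τ).2 hj)
  exact norm_pos_iff.1 (lt_of_lt_of_le h1 (hi j (Finset.mem_univ _)))

/-- Dynamical Mordell-Lang for points which are not algebraic. -/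
theorem Chn.trans_point {f : Fin (N + 1) → MvPolynomial (Fin (N + 1)) 𝕂}
    {g A : MvPolynomial (Fin (N + 1)) 𝕂} {k : ℕ}
    {E : ℕ → Finset (MvPolynomial (Fin (N + 1)) 𝕂)} (h : Chn f g A k E) {d e : ℕ}
    (he : 1 ≤ e) (hf : ∀ i, (f i).IsHomogeneous d) (hg : g.IsHomogeneous e)
    (α : Fin (N + 1) → ℂ) (i j : Fin (N + 1)) (hi : α i ≠ 0)
    (hij : Transcendental ℚ (α j / α i)) : DmlAt (ext f) α := by
  classical
  obtain ⟨s, hs⟩ := h.step hf hg
  obtain ⟨D, hD⟩ := integral_all (s.image (algebraMap 𝕂 ℂ)) (by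
    intro x hx
    obtain ⟨y, -, rfl⟩ := Finset.mem_image.1 hx
    exact isAlgebraic_map y)
  obtain ⟨p, hpD, hp⟩ := Nat.exists_infinite_primes (D + 1)
  have : Fact p.Prime := ⟨hp⟩
  have hα0 : α ≠ 0 := fun h0 => hi (congrFun h0 i)
  have key : ∀ τ : ℂ →+* PadicAlgCl p, (∃ k, ‖τ (aeval α g)‖ < ‖τ (α k)‖ ^ e) →
      DmlAt (ext f) α := by
    rintro τ ⟨k, hk⟩
    obtain ⟨i1, hi1, hmax⟩ := exists_prim τ α hα0
    have hpos : 0 < ‖τ (α i1)‖ := norm_pos_iff.2 hi1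
    refine hs p τ (fun x hx => hD p (by omega) τ _ (Finset.mem_image_of_mem _ hx)) α
      (τ (α i1))⁻¹ (inv_ne_zero hi1) (fun l => ?_) ⟨i1, ?_⟩ 0 ?_
    · rw [norm_mul, norm_inv, ← div_eq_inv_mul, div_le_one hpos]
      exact hmax l
    · rw [inv_mul_cancel₀ hi1, norm_one]
    · rw [pow_zero, pow_one, Function.iterate_zero, id, norm_mul, norm_pow, norm_inv, inv_pow,
        ← div_eq_inv_mul, div_lt_one (pow_pos hpos _)]
      exact hk.trans_le (pow_le_pow_left₀ (norm_nonneg _) (hmax k) e)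
  by_cases hgα : aeval α g = 0
  · obtain ⟨τ⟩ := exists_embedding p
    refine key τ ⟨i, ?_⟩
    rw [hgα, map_zero, norm_zero]
    exact pow_pos (norm_pos_iff.2 ((map_ne_zero τ).2 hi)) _
  · have hex : ∃ k, Transcendental ℚ (α k ^ e / aeval α g) := by
      by_contra hno
      push Not at hno
      have h1 : IsAlgebraic ℚ (α j ^ e / aeval α g) := not_not.1 (hno j)
      have h2 : IsAlgebraic ℚ (α i ^ e / aeval α g) := not_not.1 (hno i)
      have h3 : IsAlgebraic ℚ ((α j / α i) ^ e) := by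
        have h4 : (α j / α i) ^ e = (α j ^ e / aeval α g) * (α i ^ e / aeval α g)⁻¹ := by
          have h5 : α i ^ e ≠ 0 := pow_ne_zero _ hi
          rw [div_pow]
          field_simp
        rw [h4]
        exact h1.mul h2.inv
      exact hij (IsAlgebraic.of_pow (by omega) h3)
    obtain ⟨k, hk⟩ := hex
    obtain ⟨τ, hτ⟩ := exists_large p _ hk
    refine key τ ⟨k, ?_⟩
    rw [map_div₀, norm_div, map_pow, norm_pow] at hτ
    exact (one_lt_div (norm_pos_iff.2 ((map_ne_zero τ).2 hgα))).1 hτ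

end

end Pool.Agent.T6.H91.DML
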