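import Pool.Agent.T6.H91.DML.Desc

set_option autoImplicit false

/-! Points which are not algebraic. -/

namespace Pool.Agent.T6.H91.DML

open MvPolynomial Pool.Agent.H936R2 Pool.Agent.R847.PC NumberField Pool.Agent.Y199.DM
open Pool.Agent.R847.Gap

lemma dmlAt_unsmul {N d : ℕ} (f : Fin (N + 1) → MvPolynomial (Fin (N + 1)) ℂ)
    (hf : ∀ i, (f i).IsHomogeneous d) (c : ℂ) (hc : c ≠ 0) (α : Fin (N + 1) → ℂ)
    (h : DmlAt f (c • α)) : DmlAt f α := by
  have h1 := dmlAt_smul f hf c⁻¹ (inv_ne_zero hc) _ h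
  rwa [smul_smul, inv_mul_cancel₀ hc, one_smul] at h1

/-- Orbits of points which are `p`-adically near to an étale preperiodic point. -/
lemma dml_of_close_emb {N d : ℕ} (f : Fin (N + 1) → MvPolynomial (Fin (N + 1)) ℂ)
    (hf : ∀ i, (f i).IsHomogeneous d) (hfa : ∀ i, AlgCoeff (f i)) (Q : Fin (N + 1) → ℂ)
    (hQ : EtalePreperiodic f Q) (hQa : ∀ i, IsAlgebraic ℚ (Q i)) :
    ∃ D : ℕ, ∀ (p : ℕ) [Fact p.Prime], D < p → ∀ τ : ℂ →+* PadicAlgCl p,
      ∀ x : Fin (N + 1) → ℂ, (∀ i, ‖τ (x i)‖ ≤ 1) → (∃ i, ‖τ (x i)‖ = 1) →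
      (∀ a b, ‖τ (x a * Q b - x b * Q a)‖ < 1) → DmlAt f x := by
  classical
  obtain ⟨s, n₀, hsub, hs⟩ := exists_units f hf _ hQ
  have hsK : (s : Set ℂ) ⊆ QI.toSubfield := by
    apply hsub QI.toSubfield
    · intro i κ
      exact mem_algebraicClosure_iff.2 (hfa i κ)
    · intro i
      exact mem_algebraicClosure_iff.2 (hQa i)
  obtain ⟨i0, hi0'⟩ : ∃ i0, Q i0 ≠ 0 := Function.ne_iff.1 (hQ.1 0)
  let U : Finset ℂ := s ∪ (Finset.univ.biUnion fun i => (f i).support.image fun κ => (f i).coeff κ) ∪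
    Finset.univ.image Q ∪ {(Q i0)⁻¹}
  have hU : ∀ x ∈ U, IsAlgebraic ℚ x := by
    intro x hx
    simp only [U, Finset.mem_union, Finset.mem_biUnion, Finset.mem_image, Finset.mem_univ,
      true_and, Finset.mem_singleton] at hx
    rcases hx with ((hx | ⟨i, κ, -, rfl⟩) | ⟨i, rfl⟩) | rfl
    · exact mem_algebraicClosure_iff.1 (hsK hx)
    · exact hfa i κ
    · exact hQa i
    · exact (hQa i0).inv
  obtain ⟨D, hD⟩ := integral_all U hU
  refine ⟨D, fun p hp hlt τ x hx hxp hclose => ?_⟩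
  have hτU := hD p hlt τ
  have hτs : ∀ y ∈ s, ‖τ y‖ ≤ 1 := fun y hy => hτU y (by simp [U, hy])
  have hτf : ∀ i κ, ‖τ ((f i).coeff κ)‖ ≤ 1 := by
    intro i κ
    by_cases hκ : κ ∈ (f i).support
    · apply hτU
      simp only [U, Finset.mem_union, Finset.mem_biUnion, Finset.mem_univ, true_and]
      exact Or.inl (Or.inl (Or.inr ⟨i, Finset.mem_image_of_mem _ hκ⟩))
    · rw [notMem_support_iff.1 hκ, map_zero, norm_zero]
      exact zero_le_one
  have hτQ : ∀ i, ‖τ (Q i)‖ ≤ 1 := by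
    intro i
    apply hτU
    simp only [U, Finset.mem_union]
    exact Or.inl (Or.inr (Finset.mem_image_of_mem _ (Finset.mem_univ _)))
  have hτQi : ‖τ (Q i0)‖ = 1 := by
    refine le_antisymm (hτQ i0) ?_
    have h1 : ‖τ (Q i0)⁻¹‖ ≤ 1 := hτU _ (by simp [U])
    rw [map_inv₀, norm_inv] at h1
    exact (inv_le_one₀ (norm_pos_iff.2 ((map_ne_zero τ).2 hi0'))).1 h1
  obtain ⟨hdet, hne⟩ := hs p τ hτs
  let c : ℂ := x i0 / Q i0
  have hc1 : ‖τ c‖ ≤ 1 := by
    simp only [c, map_div₀, norm_div, hτQi, div_one]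
    exact hx i0
  have hxc : ∀ j, ‖τ (x j - c * Q j)‖ < 1 := by
    intro j
    have h1 : x j - c * Q j = (Q i0)⁻¹ * (x j * Q i0 - x i0 * Q j) := by
      simp only [c]
      field_simp
    rw [h1, map_mul, norm_mul, map_inv₀, norm_inv, hτQi, inv_one, one_mul]
    exact hclose j i0
  have hc1' : ‖τ c‖ = 1 := by
    refine le_antisymm hc1 (not_lt.1 fun hlt => ?_)
    obtain ⟨i, hi⟩ := hxp
    have h1 : x i = (x i - c * Q i) + c * Q i := by ring
    have h2 : ‖τ (x i)‖ < 1 := by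
      rw [h1, map_add]
      refine (IsUltrametricDist.norm_add_le_max _ _).trans_lt (max_lt (hxc i) ?_)
      rw [map_mul, norm_mul]
      calc ‖τ c‖ * ‖τ (Q i)‖ ≤ ‖τ c‖ * 1 := mul_le_mul_of_nonneg_left (hτQ i) (norm_nonneg _)
        _ < 1 := by rwa [mul_one]
    rw [hi] at h2
    exact lt_irrefl _ h2
  have hc0 : c ≠ 0 := by
    intro h0
    rw [h0, map_zero, norm_zero] at hc1'
    exact zero_ne_one hc1'
  let x' : Fin (N + 1) → ℂ := fun i => c⁻¹ * x i
  have hdml := orbit_core τ f f x' Q hτf hτf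
    (fun i κ => by
      rw [sub_self, norm_zero]
      exact one_pos)
    (fun i => by
      simp only [x', map_mul, map_inv₀, norm_mul, norm_inv, hc1', inv_one, one_mul]
      exact hx i) hτQ
    (fun i => by
      have h1 : x' i - Q i = c⁻¹ * (x i - c * Q i) := by
        simp only [x']
        rw [mul_sub, ← mul_assoc, inv_mul_cancel₀ hc0, one_mul]
      rw [← map_sub, h1, map_mul, map_inv₀, norm_mul, norm_inv, hc1', inv_one, one_mul]
      exact hxc i) n₀ hdet hne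
  have h1 : DmlAt f (c⁻¹ • x) := fun S _ => hdml.2 S
  exact dmlAt_unsmul f hf c⁻¹ (inv_ne_zero hc0) x h1

lemma eval_int {N : ℕ} {p : ℕ} [Fact p.Prime] (τ : ℂ →+* PadicAlgCl p)
    (P : MvPolynomial (Fin (N + 1)) ℂ) (hP : ∀ κ, ‖τ (P.coeff κ)‖ ≤ 1) (x : Fin (N + 1) → ℂ)
    (hx : ∀ i, ‖τ (x i)‖ ≤ 1) : ‖τ (eval x P)‖ ≤ 1 := by
  let R : Subring ℂ :=
    { carrier := {y | ‖τ y‖ ≤ 1}
      zero_mem' := by simp
      one_mem' := by simp
      add_mem' := by
        intro a b ha hb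
        simp only [Set.mem_ofPred_eq, map_add] at *
        exact (IsUltrametricDist.norm_add_le_max _ _).trans (max_le ha hb)
      mul_mem' := by
        intro a b ha hb
        simp only [Set.mem_ofPred_eq, map_mul, norm_mul] at *
        exact mul_le_one₀ ha (norm_nonneg _) hb
      neg_mem' := by
        intro a ha
        simp only [Set.mem_ofPred_eq, map_neg, norm_neg] at *
        exact ha }
  exact eval_mem_subring R x hx P hP

/-- Embeddings which move the point near to a hypersurface. -/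
lemma exists_near {N E : ℕ} (hE : 1 ≤ E) (p : ℕ) [hp : Fact p.Prime] (α : Fin (N + 1) → ℂ)
    (i j : Fin (N + 1)) (hi : α i ≠ 0) (hij : Transcendental ℚ (α j / α i)) (t : ℂ) :
    ∃ (τ : ℂ →+* PadicAlgCl p) (k : Fin (N + 1)), ‖τ t‖ < ‖τ (α k)‖ ^ E := by
  by_cases ht : t = 0
  · obtain ⟨τ⟩ := exists_embedding p
    refine ⟨τ, i, ?_⟩
    rw [ht, map_zero, norm_zero]
    exact pow_pos (norm_pos_iff.2 ((map_ne_zero τ).2 hi)) _
  · have hex : ∃ k, Transcendental ℚ (α k ^ E / t) := by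
      by_contra hno
      push Not at hno
      have h1 : IsAlgebraic ℚ (α j ^ E / t) := not_not.1 (hno j)
      have h2 : IsAlgebraic ℚ (α i ^ E / t) := not_not.1 (hno i)
      have h3 : IsAlgebraic ℚ ((α j / α i) ^ E) := by
        have h4 : (α j / α i) ^ E = (α j ^ E / t) * (α i ^ E / t)⁻¹ := by
          have h5 : α i ^ E ≠ 0 := pow_ne_zero _ hi
          rw [div_pow]
          field_simp
        rw [h4]
        exact h1.mul h2.inv
      exact hij (IsAlgebraic.of_pow (by omega) h3)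
    obtain ⟨k, hk⟩ := hex
    obtain ⟨τ, hτ⟩ := exists_large p _ hk
    refine ⟨τ, k, ?_⟩
    rw [map_div₀, norm_div, map_pow, norm_pow] at hτ
    exact (one_lt_div (norm_pos_iff.2 ((map_ne_zero τ).2 ht))).1 hτ

theorem trans_V {N d e : ℕ} (hd : 1 ≤ d) (he : 1 ≤ e)
    (f : Fin (N + 1) → MvPolynomial (Fin (N + 1)) ℂ) (hf : ∀ i, (f i).IsHomogeneous d)
    (hfa : ∀ i, AlgCoeff (f i)) (hf0 : ∀ z : Fin (N + 1) → ℂ, (∀ i, eval z (f i) = 0) → z = 0)
    (g : MvPolynomial (Fin (N + 1)) ℂ) (hg : g.IsHomogeneous e) (hga : AlgCoeff g)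
    (hinv : ∀ z : Fin (N + 1) → ℂ, eval z g = 0 → eval (pt f z) g = 0)
    (S : Set (MvPolynomial (Fin (N + 1)) ℂ)) (hS : ∀ P ∈ S, ∃ e : ℕ, P.IsHomogeneous e)
    (hSa : ∀ P ∈ S, AlgCoeff P) (T : Finset (Fin (N + 1) → ℂ))
    (hT : ∀ z : Fin (N + 1) → ℂ, z ≠ 0 → eval z g = 0 → (∀ P ∈ S, eval z P = 0) →
      ∃ w ∈ T, ∃ a : ℂ, a ≠ 0 ∧ z = a • w)
    (hgood : ∀ z : Fin (N + 1) → ℂ, z ≠ 0 → eval z g = 0 → (∀ P ∈ S, eval z P = 0) →
      ∀ n, Peri f ((pt f)^[n] z) → (jac f ((pt f)^[n] z)).det ≠ 0)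
    (α : Fin (N + 1) → ℂ) (i j : Fin (N + 1)) (hi : α i ≠ 0)
    (hij : Transcendental ℚ (α j / α i)) (hcon : ¬ DmlAt f α) :
    {m | ∀ P ∈ S, eval ((pt f)^[m] α) P = 0}.Finite := by
  classical
  by_contra hinf
  have hinf' : {m | ∀ P ∈ S, eval ((pt f)^[m] α) P = 0}.Infinite := hinf
  obtain ⟨n, hn⟩ := hinf'.nonempty
  have hα0 : α ≠ 0 := fun h0 => hi (congrFun h0 i)
  have hne := iter_ne_zero f hf0
  set x : Fin (N + 1) → ℂ := (pt f)^[n] α with hx
  have hx0 : x ≠ 0 := hne α hα0 n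
  -- infinitely many returns of `x`
  have hinfx : {m | ∀ P ∈ S, eval ((pt f)^[m] x) P = 0}.Infinite := by
    intro hfin
    apply hinf'
    refine ((hfin.image fun m => m + n).union (Set.finite_lt_nat n)).subset ?_
    intro m hm
    rcases Nat.lt_or_ge m n with hlt | hge
    · exact Or.inr hlt
    · left
      obtain ⟨l, rfl⟩ := Nat.exists_eq_add_of_le' hge
      refine ⟨l, fun P hP => ?_, rfl⟩
      have h1 := hm P hP
      rw [Function.iterate_add_apply] at h1
      exact h1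
  -- lifts
  have hlift : ∀ P : MvPolynomial (Fin (N + 1)) ℂ, AlgCoeff P →
      ∃ Q : MvPolynomial (Fin (N + 1)) QI, map (algebraMap QI ℂ) Q = P := fun P hP =>
    (algCoeff_iff P).1 hP
  choose f' hf' using fun i => hlift (f i) (hfa i)
  obtain ⟨g', hg'⟩ := hlift g hga
  have hhom : ∀ (Q : MvPolynomial (Fin (N + 1)) QI) (e : ℕ),
      (map (algebraMap QI ℂ) Q).IsHomogeneous e → Q.IsHomogeneous e := fun Q e hQ =>
    IsHomogeneous.of_map (algebraMap QI ℂ).injective hQ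
  have hf'hom : ∀ i, (f' i).IsHomogeneous d := fun i => hhom _ _ (by rw [hf' i]; exact hf i)
  have hg'hom : g'.IsHomogeneous e := hhom _ _ (by rw [hg']; exact hg)
  have hff : (fun i => map (algebraMap QI ℂ) (f' i)) = f := funext hf'
  have hpull : ∀ (m : ℕ) (P : MvPolynomial (Fin (N + 1)) QI),
      map (algebraMap QI ℂ) (pull f' m P) = pull f m (map (algebraMap QI ℂ) P) := by
    intro m P
    unfold pull
    rw [map_bind₁]
    congr 2
    funext l
    rw [map_itp, hff]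
  have hevz : ∀ (z : Fin (N + 1) → QI) (P : MvPolynomial (Fin (N + 1)) QI),
      eval (fun l => (z l : ℂ)) (map (algebraMap QI ℂ) P) = ((eval z P : QI) : ℂ) :=
    fun z P => eval_map_QI P z
  -- the ideal of `x`
  let I : Set (MvPolynomial (Fin (N + 1)) QI) :=
    {P | (∃ e : ℕ, P.IsHomogeneous e) ∧ eval x (map (algebraMap QI ℂ) P) = 0}
  have hspec : ∀ z : Fin (N + 1) → QI, (∀ P ∈ I, eval z P = 0) → ∀ m,
      (∀ P ∈ S, eval ((pt f)^[m] x) P = 0) →
      ∀ P ∈ S, eval ((pt f)^[m] fun l => (z l : ℂ)) P = 0 := by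
    intro z hz m hm P hP
    obtain ⟨P', hP'⟩ := hlift P (hSa P hP)
    obtain ⟨eP, heP⟩ := hS P hP
    have hP'hom : P'.IsHomogeneous eP := hhom _ _ (by rw [hP']; exact heP)
    have h1 : pull f' m P' ∈ I := by
      refine ⟨⟨_, pull_hom hf'hom m hP'hom⟩, ?_⟩
      rw [hpull, hP', eval_pull]
      exact hm P hP
    have h2 := hz _ h1
    have h3 := hevz z (pull f' m P')
    rw [h2, hpull, hP', eval_pull] at h3
    rw [h3]
    rfl
  -- the points
  let good : (Fin (N + 1) → ℂ) → Prop := fun w => ∃ z : Fin (N + 1) → QI,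
    (fun l => (z l : ℂ)) ≠ 0 ∧ (∀ P ∈ I, eval z P = 0) ∧ eval z g' = 0 ∧
      ∃ a : ℂ, a ≠ 0 ∧ (fun l => (z l : ℂ)) = a • w
  let T1 := T.filter good
  have hT1 : ∀ w : T1, good w.1 := fun w => (Finset.mem_filter.1 w.2).2
  choose zz hz0 hzI hzg aa haa hzw using hT1
  have hgz : ∀ z : Fin (N + 1) → QI, eval z g' = 0 → eval (fun l => (z l : ℂ)) g = 0 := by
    intro z hz
    rw [← hg', hevz, hz]
    rfl
  have hSz : ∀ z : Fin (N + 1) → QI, (∀ P ∈ I, eval z P = 0) →
      ∀ P ∈ S, eval (fun l => (z l : ℂ)) P = 0 := fun z hz => hspec z hz 0 hn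
  have hginv : ∀ z : Fin (N + 1) → ℂ, eval z g = 0 → ∀ m, eval ((pt f)^[m] z) g = 0 := by
    intro z hz m
    induction m with
    | zero => exact hz
    | succ m ih =>
      rw [Function.iterate_succ_apply']
      exact hinv _ ih
  have hprep : ∀ z : Fin (N + 1) → QI, (fun l => (z l : ℂ)) ≠ 0 → (∀ P ∈ I, eval z P = 0) →
      eval z g' = 0 → Prep f fun l => (z l : ℂ) := by
    intro z hz hzI hzg
    by_contra hnp
    apply hinfx
    have hpar : ∀ m ∈ {m | ∀ P ∈ S, eval ((pt f)^[m] x) P = 0}, ∃ w : T, ∃ a : ℂ, a ≠ 0 ∧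
        ((pt f)^[m] fun l => (z l : ℂ)) = a • w.1 := by
      intro m hm
      obtain ⟨w, hw, a, ha, h⟩ := hT _ (hne _ hz m) (hginv _ (hgz z hzg) m) (hspec z hzI m hm)
      exact ⟨⟨w, hw⟩, a, ha, h⟩
    have : Nonempty T := ⟨(hpar 0 (by simpa using hn)).choose⟩
    choose! φ c hc hφ using hpar
    refine Set.Finite.of_injOn (f := φ) (t := Set.univ) (fun _ _ => Set.mem_univ _) ?_
      Set.finite_univ
    intro m hm m' hm' heq
    by_contra hne'
    have h2 := hφ m hm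
    have h3 := hφ m' hm'
    have hcm := hc m hm
    have hcm' := hc m' hm'
    rw [← heq] at h3
    rcases Nat.lt_or_gt_of_ne hne' with hlt | hlt
    · obtain ⟨l, rfl⟩ := Nat.exists_eq_add_of_le hlt.le
      refine hnp ⟨m, l, by omega, c (m + l) * (c m)⁻¹, mul_ne_zero hcm' (inv_ne_zero hcm), ?_⟩
      rw [h2, h3, smul_smul, mul_assoc, inv_mul_cancel₀ hcm, mul_one]
    · obtain ⟨l, rfl⟩ := Nat.exists_eq_add_of_le hlt.le
      refine hnp ⟨m', l, by omega, c (m' + l) * (c m')⁻¹, mul_ne_zero hcm (inv_ne_zero hcm'), ?_⟩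
      rw [h2, h3, smul_smul, mul_assoc, inv_mul_cancel₀ hcm', mul_one]
  -- the points are étale preperiodic
  let Q : T1 → Fin (N + 1) → ℂ := fun w l => (zz w l : ℂ)
  have hQa : ∀ w l, IsAlgebraic ℚ (Q w l) := fun w l => mem_algebraicClosure_iff.1 (zz w l).2
  have hEt : ∀ w, EtalePreperiodic f (Q w) := by
    intro w
    obtain ⟨n, q, hq, a, ha, h⟩ := hprep (zz w) (hz0 w) (hzI w) (hzg w)
    refine ⟨hne _ (hz0 w), n, q, hq, ⟨a, h⟩, fun m hm => ?_⟩
    obtain ⟨l, rfl⟩ := Nat.exists_eq_add_of_le hm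
    obtain ⟨b, hb, h1⟩ := prep_more f hf (Q w) n q a ha h l 1
    rw [Nat.mul_one] at h1
    exact hgood (Q w) (hz0 w) (hgz _ (hzg w)) (hSz _ (hzI w)) (n + l) ⟨q, hq, b, hb, h1⟩
  choose D1 hD1 using fun w => dml_of_close_emb f hf hfa (Q w) (hEt w) (hQa w)
  -- certificates
  have : IsAlgClosed QI := isAlgClosed_QI
  let GG : (T1 → Fin (N + 1) × Fin (N + 1)) × Fin (N + 1) → MvPolynomial (Fin (N + 1)) QI :=
    fun q => X q.2 * ∏ w, (X (q.1 w).1 * C (zz w (q.1 w).2) - X (q.1 w).2 * C (zz w (q.1 w).1))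
  have hcert : ∀ q, ∃ (M : ℕ) (b : MvPolynomial (Fin (N + 1)) QI),
      0 < M ∧ ∀ y : Fin (N + 1) → ℂ, (∀ P ∈ I, eval y (map (algebraMap QI ℂ) P) = 0) →
        eval y (map (algebraMap QI ℂ) (GG q)) ^ M =
          eval y (map (algebraMap QI ℂ) b) * eval y g := by
    intro q
    have h1 : GG q ∈ (Ideal.span (insert g' I)).radical := by
      rw [← MvPolynomial.vanishingIdeal_zeroLocus_eq_radical (K := QI),
        MvPolynomial.mem_vanishingIdeal_iff]
      intro z hz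
      rw [MvPolynomial.mem_zeroLocus_iff] at hz
      have hzg : eval z g' = 0 := hz g' (Ideal.subset_span (Set.mem_insert _ _))
      have hzI : ∀ P ∈ I, eval z P = 0 := fun P hP =>
        hz P (Ideal.subset_span (Set.mem_insert_of_mem _ hP))
      change eval z (GG q) = 0
      simp only [GG, map_mul, eval_X, map_prod, map_sub, eval_C]
      by_cases hz0' : z = 0
      · rw [hz0', Pi.zero_apply, zero_mul]
      · have hzc : (fun l => (z l : ℂ)) ≠ 0 := by
          intro h0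
          apply hz0'
          funext l
          have h1 : (z l : ℂ) = 0 := congrFun h0 l
          exact_mod_cast h1
        obtain ⟨w, hw, a, ha, h⟩ := hT _ hzc (hgz z hzg) (hSz z hzI)
        have hwT1 : w ∈ T1 := Finset.mem_filter.2 ⟨hw, z, hzc, hzI, hzg, a, ha, h⟩
        apply mul_eq_zero_of_right
        apply Finset.prod_eq_zero (Finset.mem_univ (⟨w, hwT1⟩ : T1))
        have h2 := hzw ⟨w, hwT1⟩
        apply (algebraMap QI ℂ).injective
        rw [map_sub, map_mul, map_mul, map_zero]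
        have h3 : ∀ l, algebraMap QI ℂ (z l) = a * w l := fun l => congrFun h l
        have h4 : ∀ l, algebraMap QI ℂ (zz ⟨w, hwT1⟩ l) = aa ⟨w, hwT1⟩ * w l := fun l =>
          congrFun h2 l
        rw [h3, h3, h4, h4]
        ring
    obtain ⟨M, hM⟩ := h1
    have hM1 : GG q ^ (M + 1) ∈ Ideal.span (insert g' I) := by
      rw [pow_succ]
      exact Ideal.mul_mem_right _ _ hM
    rw [Ideal.mem_span_insert] at hM1
    obtain ⟨b, pI, hpI, heq⟩ := hM1
    refine ⟨M + 1, b, Nat.succ_pos _, fun y hy => ?_⟩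
    have h2 : eval y (map (algebraMap QI ℂ) pI) = 0 := by
      have h3 : Ideal.span I ≤ RingHom.ker ((eval y).comp (map (algebraMap QI ℂ))) := by
        rw [Ideal.span_le]
        intro P hP
        exact hy P hP
      exact h3 hpI
    rw [← map_pow, ← map_pow, heq, map_add, map_add, h2, add_zero, map_mul, map_mul, hg']
  choose M b hM hMb using hcert
  have hgoodred : ∀ l : Fin (N + 1), ∃ (M : ℕ) (c : Fin (N + 1) → MvPolynomial (Fin (N + 1)) QI),
      X l ^ M = ∑ i, c i * f' i := by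
    intro l
    have h1 : (X l : MvPolynomial (Fin (N + 1)) QI) ∈ (Ideal.span (Set.range f')).radical := by
      rw [← MvPolynomial.vanishingIdeal_zeroLocus_eq_radical (K := QI),
        MvPolynomial.mem_vanishingIdeal_iff]
      intro z hz
      rw [MvPolynomial.mem_zeroLocus_iff] at hz
      change eval z (X l) = 0
      rw [eval_X]
      have h2 : (fun l => (z l : ℂ)) = 0 := by
        apply hf0
        intro i
        have h3 : eval z (f' i) = 0 := hz _ (Ideal.subset_span ⟨i, rfl⟩)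
        rw [← hf', hevz, h3]
        rfl
      have h3 : (z l : ℂ) = 0 := congrFun h2 l
      exact_mod_cast h3
    obtain ⟨M, hM⟩ := h1
    obtain ⟨c, hc⟩ := (Submodule.mem_span_range_iff_exists_fun _).1 hM
    exact ⟨M, c, by rw [← hc]; rfl⟩
  choose Mr cr hcr using hgoodred
  -- the prime
  let U : Finset ℂ := (Finset.univ.biUnion fun i => (f i).support.image fun κ => (f i).coeff κ) ∪
    (g.support.image fun κ => g.coeff κ) ∪
    (Finset.univ.biUnion fun q => (b q).support.image fun κ => (((b q).coeff κ : QI) : ℂ)) ∪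
    (Finset.univ.biUnion fun l => Finset.univ.biUnion fun i =>
      (cr l i).support.image fun κ => (((cr l i).coeff κ : QI) : ℂ))
  have hU : ∀ y ∈ U, IsAlgebraic ℚ y := by
    intro y hy
    simp only [U, Finset.mem_union, Finset.mem_biUnion, Finset.mem_image, Finset.mem_univ,
      true_and] at hy
    rcases hy with ((⟨i, κ, -, rfl⟩ | ⟨κ, -, rfl⟩) | ⟨q, κ, -, rfl⟩) | ⟨l, i, κ, -, rfl⟩
    · exact hfa i κ
    · exact hga κ
    · exact mem_algebraicClosure_iff.1 ((b q).coeff κ).2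
    · exact mem_algebraicClosure_iff.1 ((cr l i).coeff κ).2
  obtain ⟨D, hD⟩ := integral_all U hU
  obtain ⟨p, hpD, hp⟩ := Nat.exists_infinite_primes (D + ∑ w, D1 w + 1)
  have : Fact p.Prime := ⟨hp⟩
  -- the embedding
  have hE : 1 ≤ e * d ^ n := Nat.mul_pos he (Nat.pow_pos (by omega))
  obtain ⟨τ, k, hτk⟩ := exists_near hE p α i j hi hij (eval x g)
  have hτU := hD p (by omega) τ
  have hτf : ∀ i κ, ‖τ ((f i).coeff κ)‖ ≤ 1 := by
    intro i κ
    by_cases hκ : κ ∈ (f i).support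
    · apply hτU
      simp only [U, Finset.mem_union, Finset.mem_biUnion, Finset.mem_univ, true_and]
      exact Or.inl (Or.inl (Or.inl ⟨i, Finset.mem_image_of_mem _ hκ⟩))
    · rw [notMem_support_iff.1 hκ, map_zero, norm_zero]
      exact zero_le_one
  have hτb : ∀ q κ, ‖τ ((map (algebraMap QI ℂ) (b q)).coeff κ)‖ ≤ 1 := by
    intro q κ
    rw [coeff_map]
    by_cases hκ : κ ∈ (b q).support
    · apply hτU
      simp only [U, Finset.mem_union, Finset.mem_biUnion, Finset.mem_univ, true_and]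
      exact Or.inl (Or.inr ⟨q, Finset.mem_image_of_mem (fun κ => (((b q).coeff κ : QI) : ℂ)) hκ⟩)
    · rw [notMem_support_iff.1 hκ, map_zero, map_zero, norm_zero]
      exact zero_le_one
  have hτc : ∀ l i κ, ‖τ ((map (algebraMap QI ℂ) (cr l i)).coeff κ)‖ ≤ 1 := by
    intro l i κ
    rw [coeff_map]
    by_cases hκ : κ ∈ (cr l i).support
    · apply hτU
      simp only [U, Finset.mem_union, Finset.mem_biUnion, Finset.mem_univ, true_and]
      exact Or.inr ⟨l, i, Finset.mem_image_of_mem (fun κ => (((cr l i).coeff κ : QI) : ℂ)) hκ⟩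
    · rw [notMem_support_iff.1 hκ, map_zero, map_zero, norm_zero]
      exact zero_le_one
  -- good reduction
  have hred : ∀ y : Fin (N + 1) → ℂ, (∀ i, ‖τ (y i)‖ ≤ 1) → (∃ i, ‖τ (y i)‖ = 1) →
      (∀ i, ‖τ (pt f y i)‖ ≤ 1) ∧ ∃ i, ‖τ (pt f y i)‖ = 1 := by
    intro y hy ⟨l, hl⟩
    have h1 : ∀ i, ‖τ (pt f y i)‖ ≤ 1 := fun i => eval_int τ _ (hτf i) y hy
    refine ⟨h1, ?_⟩
    by_contra hno
    push Not at hno
    have h2 := congrArg (fun P => eval y (map (algebraMap QI ℂ) P)) (hcr l)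
    simp only [map_pow, map_X, eval_X, map_sum, map_mul, hf'] at h2
    have h3 : ‖τ (∑ i, eval y (map (algebraMap QI ℂ) (cr l i)) * eval y (f i))‖ < 1 := by
      rw [map_sum]
      obtain ⟨i1, -, hi1⟩ := IsUltrametricDist.exists_norm_finsetSum_le_of_nonempty
        (Finset.univ_nonempty (α := Fin (N + 1)))
        (fun i => τ (eval y (map (algebraMap QI ℂ) (cr l i)) * eval y (f i)))
      refine hi1.trans_lt ?_
      rw [map_mul, norm_mul]
      have h4 : ‖τ (eval y (map (algebraMap QI ℂ) (cr l i1)))‖ ≤ 1 := eval_int τ _ (hτc l i1) y hy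
      have h5 : ‖τ (eval y (f i1))‖ < 1 := lt_of_le_of_ne (h1 i1) (hno i1)
      calc _ ≤ 1 * ‖τ (eval y (f i1))‖ := mul_le_mul_of_nonneg_right h4 (norm_nonneg _)
        _ < 1 := by rwa [one_mul]
    rw [← h2, map_pow, norm_pow, hl, one_pow] at h3
    exact lt_irrefl _ h3
  obtain ⟨i1, hi1, hmax⟩ := exists_prim τ α hα0
  have hpos : 0 < ‖τ (α i1)‖ := norm_pos_iff.2 hi1
  have hi1' : α i1 ≠ 0 := fun h0 => hi1 (by rw [h0, map_zero])
  let α' : Fin (N + 1) → ℂ := (α i1)⁻¹ • α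
  have hα'1 : ∀ l, ‖τ (α' l)‖ ≤ 1 := by
    intro l
    simp only [α', Pi.smul_apply, smul_eq_mul, map_mul, map_inv₀, norm_mul, norm_inv]
    rw [← div_eq_inv_mul, div_le_one hpos]
    exact hmax l
  have hα'2 : ∃ l, ‖τ (α' l)‖ = 1 := by
    refine ⟨i1, ?_⟩
    simp only [α', Pi.smul_apply, smul_eq_mul]
    rw [inv_mul_cancel₀ hi1', map_one, norm_one]
  have hredn : ∀ m, (∀ i, ‖τ ((pt f)^[m] α' i)‖ ≤ 1) ∧ ∃ i, ‖τ ((pt f)^[m] α' i)‖ = 1 := by
    intro m
    induction m with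
    | zero => exact ⟨hα'1, hα'2⟩
    | succ m ih =>
      rw [Function.iterate_succ_apply']
      exact hred _ ih.1 ih.2
  set y : Fin (N + 1) → ℂ := (pt f)^[n] α' with hy
  have hyx : y = ((α i1)⁻¹ ^ d ^ n) • x := iterate_scale f d hf (α i1)⁻¹ α n
  have hc0 : (α i1)⁻¹ ^ d ^ n ≠ 0 := pow_ne_zero _ (inv_ne_zero hi1')
  obtain ⟨hy1, l0, hl0⟩ := hredn n
  have hgy : ‖τ (eval y g)‖ < 1 := by
    have h1 : eval y g = ((α i1)⁻¹ ^ d ^ n) ^ e * eval x g := by
      rw [hyx]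
      exact Pool.Agent.R847.QP.hom_scale g e hg _ x
    rw [h1, ← pow_mul, map_mul, map_pow, map_inv₀, norm_mul, norm_pow, norm_inv, inv_pow,
      ← div_eq_inv_mul, div_lt_one (pow_pos hpos _), Nat.mul_comm]
    exact hτk.trans_le (pow_le_pow_left₀ (norm_nonneg _) (hmax k) _)
  have hyI : ∀ P ∈ I, eval y (map (algebraMap QI ℂ) P) = 0 := by
    rintro P ⟨⟨eP, heP⟩, hP⟩
    rw [hyx, Pool.Agent.R847.QP.hom_scale _ eP (heP.map _), hP, mul_zero]
  -- near to one of the points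
  have hnear : ∃ w : T1, ∀ a b, ‖τ (y a * Q w b - y b * Q w a)‖ < 1 := by
    by_contra hno
    push Not at hno
    choose a b' hab using hno
    let q : (T1 → Fin (N + 1) × Fin (N + 1)) × Fin (N + 1) := (fun w => (a w, b' w), l0)
    have h1 := hMb q y hyI
    have h2 : ‖τ (eval y (map (algebraMap QI ℂ) (GG q)) ^ M q)‖ < 1 := by
      rw [h1, map_mul, norm_mul]
      have h3 := eval_int τ _ (hτb q) y hy1
      calc _ ≤ 1 * ‖τ (eval y g)‖ := mul_le_mul_of_nonneg_right h3 (norm_nonneg _)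
        _ < 1 := by rwa [one_mul]
    have h3 : 1 ≤ ‖τ (eval y (map (algebraMap QI ℂ) (GG q)))‖ := by
      simp only [GG, q, map_mul, map_X, eval_X, map_prod, map_sub, map_C, eval_C, norm_mul]
      rw [hl0, one_mul, norm_prod]
      have h5 : ∏ _w : T1, (1 : ℝ) ≤ ∏ w : T1,
          ‖τ (y (a w)) * τ ((algebraMap QI ℂ) (zz w (b' w))) -
            τ (y (b' w)) * τ ((algebraMap QI ℂ) (zz w (a w)))‖ := by
        refine Finset.prod_le_prod (fun _ _ => zero_le_one) fun w _ => ?_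
        have h4 := hab w
        rw [map_sub, map_mul, map_mul] at h4
        exact h4
      rw [Finset.prod_const_one] at h5
      exact h5
    rw [map_pow, norm_pow] at h2
    exact absurd h2 (not_lt.2 (one_le_pow₀ h3))
  obtain ⟨w, hw⟩ := hnear
  have hle : D1 w ≤ ∑ w, D1 w := Finset.single_le_sum (fun _ _ => Nat.zero_le _) (Finset.mem_univ w)
  have h1 := hD1 w p (by omega) τ y hy1 ⟨l0, hl0⟩ hw
  rw [hyx] at h1
  exact hcon (dmlAt_shift f α n (dmlAt_unsmul f hf _ hc0 x h1))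

end Pool.Agent.T6.H91.DML
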