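import Pool.Agent.T6.H91.DML.Plc2

set_option autoImplicit false

/-! Distances of points of projective space at the places of a number field. -/

namespace Pool.Agent.T6.H91.DML

open MvPolynomial Height NumberField Pool.Agent.H936R2 Pool.Agent.R847.PC
open Height.AdmissibleAbsValues

section

variable {𝕂 : Type} [Field 𝕂] {N : ℕ}

/-- The distance of two points. -/
noncomputable def wd (w : AbsoluteValue 𝕂 ℝ) (x y : Fin (N + 1) → 𝕂) : ℝ :=
  ⨆ q : Fin (N + 1) × Fin (N + 1), w (x q.1 * y q.2 - x q.2 * y q.1)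

lemma le_wd (w : AbsoluteValue 𝕂 ℝ) (x y : Fin (N + 1) → 𝕂) (a b : Fin (N + 1)) :
    w (x a * y b - x b * y a) ≤ wd w x y :=
  Finite.le_ciSup (fun q : Fin (N + 1) × Fin (N + 1) => w (x q.1 * y q.2 - x q.2 * y q.1)) (a, b)

lemma exists_wd (w : AbsoluteValue 𝕂 ℝ) (x y : Fin (N + 1) → 𝕂) :
    ∃ a b, w (x a * y b - x b * y a) = wd w x y := by
  obtain ⟨q, hq⟩ := exists_eq_ciSup_of_finite
    (f := fun q : Fin (N + 1) × Fin (N + 1) => w (x q.1 * y q.2 - x q.2 * y q.1))
  exact ⟨q.1, q.2, hq⟩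

lemma wd_nonneg (w : AbsoluteValue 𝕂 ℝ) (x y : Fin (N + 1) → 𝕂) : 0 ≤ wd w x y :=
  Real.iSup_nonneg fun _ => w.nonneg _

lemma wd_le {w : AbsoluteValue 𝕂 ℝ} {x y : Fin (N + 1) → 𝕂} {t : ℝ}
    (h : ∀ a b, w (x a * y b - x b * y a) ≤ t) : wd w x y ≤ t := by
  obtain ⟨a, b, hab⟩ := exists_wd w x y
  rw [← hab]
  exact h a b

end

section

variable {𝕂 : Type} [Field 𝕂] [NumberField 𝕂] {N : ℕ}

lemma place_sub_le (v : nonarchAbsVal (K := 𝕂)) (a b : 𝕂) :
    v.val (a - b) ≤ max (v.val a) (v.val b) := by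
  rw [sub_eq_add_neg]
  exact (place_nonarch v _ _).trans (by rw [AbsoluteValue.map_neg])

lemma place_add_le (v : nonarchAbsVal (K := 𝕂)) {a b : 𝕂} {t : ℝ} (ha : v.val a ≤ t)
    (hb : v.val b ≤ t) : v.val (a + b) ≤ t :=
  (place_nonarch v _ _).trans (max_le ha hb)

lemma place_mul_le (v : nonarchAbsVal (K := 𝕂)) {a b : 𝕂} {t : ℝ} (ha : v.val a ≤ 1)
    (hb : v.val b ≤ t) : v.val (a * b) ≤ t := by
  rw [map_mul]
  calc v.val a * v.val b ≤ 1 * v.val b := mul_le_mul_of_nonneg_right ha (v.val.nonneg _)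
    _ ≤ t := by rwa [one_mul]

lemma wd_le_one (v : nonarchAbsVal (K := 𝕂)) {x y : Fin (N + 1) → 𝕂}
    (hx : ∀ i, v.val (x i) ≤ 1) (hy : ∀ i, v.val (y i) ≤ 1) : wd v.val x y ≤ 1 := by
  apply wd_le
  intro a b
  exact (place_sub_le v _ _).trans
    (max_le (place_mul_le v (hx _) (hy _)) (place_mul_le v (hx _) (hy _)))

lemma eval_close (v : nonarchAbsVal (K := 𝕂)) (P : MvPolynomial (Fin (N + 1)) 𝕂)
    (hP : ∀ κ, P.coeff κ ∈ vring v) (x y : Fin (N + 1) → 𝕂) (hx : ∀ i, v.val (x i) ≤ 1)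
    (hy : ∀ i, v.val (y i) ≤ 1) (t : ℝ) (ht : 0 ≤ t) (h : ∀ i, v.val (x i - y i) ≤ t) :
    v.val (eval x P - eval y P) ≤ t := by
  obtain ⟨Q, rfl⟩ := intK_of_coeff (vring v) P hP
  have hint : ∀ (z : Fin (N + 1) → 𝕂), (∀ i, v.val (z i) ≤ 1) →
      ∀ Q : MvPolynomial (Fin (N + 1)) (vring v), v.val (eval z (map (vring v).subtype Q)) ≤ 1 := by
    intro z hz Q
    refine eval_mem_subring (vring v) z hz _ fun κ => ?_
    rw [coeff_map]
    exact (Q.coeff κ).2
  clear hP
  induction Q using MvPolynomial.induction_on with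
  | C a => simpa using ht
  | add p q hp hq =>
    rw [map_add, map_add, map_add]
    have h1 : eval x (map (vring v).subtype p) + eval x (map (vring v).subtype q) -
        (eval y (map (vring v).subtype p) + eval y (map (vring v).subtype q)) =
        (eval x (map (vring v).subtype p) - eval y (map (vring v).subtype p)) +
        (eval x (map (vring v).subtype q) - eval y (map (vring v).subtype q)) := by ring
    rw [h1]
    exact place_add_le v hp hq
  | mul_X p i hp =>
    rw [map_mul, map_X, map_mul, map_mul, eval_X, eval_X]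
    have h1 : eval x (map (vring v).subtype p) * x i - eval y (map (vring v).subtype p) * y i =
        eval x (map (vring v).subtype p) * (x i - y i) +
        y i * (eval x (map (vring v).subtype p) - eval y (map (vring v).subtype p)) := by ring
    rw [h1]
    exact place_add_le v (place_mul_le v (hint x hx p) (h i)) (place_mul_le v (hy i) hp)

/-- If `x` is primitive then `y` is close to a multiple of `x`. -/
lemma exists_mult (v : nonarchAbsVal (K := 𝕂)) (x y : Fin (N + 1) → 𝕂)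
    (hy : ∀ i, v.val (y i) ≤ 1) (hp : ∃ i, v.val (x i) = 1) :
    ∃ c : 𝕂, v.val c ≤ 1 ∧ ∀ j, v.val (y j - c * x j) ≤ wd v.val x y := by
  obtain ⟨i, hi⟩ := hp
  have hi0 : x i ≠ 0 := by
    intro h0
    rw [h0, map_zero] at hi
    exact zero_ne_one hi
  refine ⟨y i / x i, ?_, fun j => ?_⟩
  · rw [map_div₀, hi, div_one]
    exact hy i
  · have h1 : y j - y i / x i * x j = (x i)⁻¹ * (x i * y j - x j * y i) := by
      field_simp
    rw [h1, map_mul, map_inv₀, hi, inv_one, one_mul]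
    exact le_wd v.val x y i j

/-- The map does not increase distances at places of good reduction. -/
lemma wd_step (v : nonarchAbsVal (K := 𝕂)) {d : ℕ}
    (f : Fin (N + 1) → MvPolynomial (Fin (N + 1)) 𝕂) (hf : ∀ i, (f i).IsHomogeneous d)
    (hfv : ∀ i κ, (f i).coeff κ ∈ vring v) (x y : Fin (N + 1) → 𝕂)
    (hx : ∀ i, v.val (x i) ≤ 1) (hy : ∀ i, v.val (y i) ≤ 1) (hp : ∃ i, v.val (x i) = 1) :
    wd v.val (pt f x) (pt f y) ≤ wd v.val x y := by
  obtain ⟨c, hc, hcy⟩ := exists_mult v x y hy hp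
  have hcx : ∀ i, v.val (c * x i) ≤ 1 := fun i => place_mul_le v hc (hx i)
  have hclose : ∀ a, v.val (eval y (f a) - c ^ d * eval x (f a)) ≤ wd v.val x y := by
    intro a
    have h1 := eval_close v (f a) (hfv a) y (fun i => c * x i) hy hcx _ (wd_nonneg _ _ _) hcy
    have h2 := eval_scale (f a) d (hf a) c x
    rw [h2] at h1
    exact h1
  have hint : ∀ a, v.val (eval x (f a)) ≤ 1 := fun a => eval_mem_subring (vring v) x hx _ (hfv a)
  apply wd_le
  intro a b
  change v.val (eval x (f a) * eval y (f b) - eval x (f b) * eval y (f a)) ≤ _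
  have h1 : eval x (f a) * eval y (f b) - eval x (f b) * eval y (f a) =
      eval x (f a) * (eval y (f b) - c ^ d * eval x (f b)) -
      eval x (f b) * (eval y (f a) - c ^ d * eval x (f a)) := by ring
  rw [h1]
  exact (place_sub_le v _ _).trans (max_le (place_mul_le v (hint a) (hclose b))
    (place_mul_le v (hint b) (hclose a)))

/-- The triangle inequality. -/
lemma wd_tri (v : nonarchAbsVal (K := 𝕂)) (x y z : Fin (N + 1) → 𝕂)
    (hx : ∀ i, v.val (x i) ≤ 1) (hy : ∀ i, v.val (y i) ≤ 1) (hz : ∀ i, v.val (z i) ≤ 1)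
    (hp : ∃ i, v.val (x i) = 1) :
    wd v.val y z ≤ max (wd v.val x y) (wd v.val x z) := by
  obtain ⟨c, hc, hcy⟩ := exists_mult v x y hy hp
  obtain ⟨c', hc', hcz⟩ := exists_mult v x z hz hp
  set t := max (wd v.val x y) (wd v.val x z) with ht
  have h1 : ∀ j, v.val (y j - c * x j) ≤ t := fun j => (hcy j).trans (le_max_left _ _)
  have h2 : ∀ j, v.val (z j - c' * x j) ≤ t := fun j => (hcz j).trans (le_max_right _ _)
  have hcx : ∀ i, v.val (c * x i) ≤ 1 := fun i => place_mul_le v hc (hx i)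
  apply wd_le
  intro a b
  have h3 : y a * z b - y b * z a =
      (z b * (y a - c * x a) + (c * x a) * (z b - c' * x b)) -
      (z a * (y b - c * x b) + (c * x b) * (z a - c' * x a)) := by ring
  rw [h3]
  exact (place_sub_le v _ _).trans (max_le
    (place_add_le v (place_mul_le v (hz b) (h1 a)) (place_mul_le v (hcx a) (h2 b)))
    (place_add_le v (place_mul_le v (hz a) (h1 b)) (place_mul_le v (hcx b) (h2 a))))

/-- Iterates. -/
lemma wd_iter (v : nonarchAbsVal (K := 𝕂)) {d : ℕ}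
    (f : Fin (N + 1) → MvPolynomial (Fin (N + 1)) 𝕂) (hf : ∀ i, (f i).IsHomogeneous d)
    (hfv : ∀ i κ, (f i).coeff κ ∈ vring v) (x y : Fin (N + 1) → 𝕂)
    (hx : ∀ i, v.val (x i) ≤ 1) (hy : ∀ i, v.val (y i) ≤ 1)
    (hp : ∀ n, ∃ i, v.val ((pt f)^[n] x i) = 1) (n : ℕ) :
    wd v.val ((pt f)^[n] x) ((pt f)^[n] y) ≤ wd v.val x y := by
  induction n with
  | zero => exact le_rfl
  | succ n ih =>
    rw [Function.iterate_succ_apply', Function.iterate_succ_apply']
    exact (wd_step v f hf hfv _ _ (iter_mem (vring v) f hfv x hx n)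
      (iter_mem (vring v) f hfv y hy n) (hp n)).trans ih

/-- Certificates at the places of a number field. -/
lemma cert_place {Ω : Type} [Field Ω] [IsAlgClosed Ω] [Algebra 𝕂 Ω] {Λ : Type} [Fintype Λ]
    [Nonempty Λ]
    (P : Λ → MvPolynomial (Fin (N + 1)) 𝕂) (G : MvPolynomial (Fin (N + 1)) 𝕂)
    (h : ∀ z : Fin (N + 1) → Ω, (∀ l, aeval z (P l) = 0) → aeval z G = 0) :
    ∃ (M : ℕ) (B : Finset 𝕂), 0 < M ∧ ∀ v : nonarchAbsVal (K := 𝕂), (∀ b ∈ B, v.val b ≤ 1) →
      ∀ y : Fin (N + 1) → 𝕂, (∀ i, v.val (y i) ≤ 1) →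
        ∃ l, v.val (eval y G) ^ M ≤ v.val (eval y (P l)) := by
  classical
  have h1 : G ∈ (Ideal.span (Set.range P)).radical := by
    rw [← MvPolynomial.vanishingIdeal_zeroLocus_eq_radical (K := Ω),
      MvPolynomial.mem_vanishingIdeal_iff]
    intro x hx
    rw [MvPolynomial.mem_zeroLocus_iff] at hx
    exact h x fun l => hx _ (Ideal.subset_span ⟨l, rfl⟩)
  obtain ⟨M, hM⟩ := h1
  have hM1 : G ^ (M + 1) ∈ Ideal.span (Set.range P) := by
    rw [pow_succ]
    exact Ideal.mul_mem_right _ _ hM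
  obtain ⟨c, hc⟩ := (Submodule.mem_span_range_iff_exists_fun _).1 hM1
  refine ⟨M + 1, Finset.univ.biUnion fun l => (c l).support.image fun κ => (c l).coeff κ,
    Nat.succ_pos _, fun v hv y hy => ?_⟩
  have hcl : ∀ l, v.val (eval y (c l)) ≤ 1 := by
    intro l
    refine eval_mem_subring (vring v) y hy _ fun κ => ?_
    by_cases hκ : κ ∈ (c l).support
    · apply hv
      simp only [Finset.mem_biUnion, Finset.mem_univ, true_and]
      exact ⟨l, Finset.mem_image_of_mem _ hκ⟩
    · rw [notMem_support_iff.1 hκ]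
      exact (vring v).zero_mem
  have h2 : eval y G ^ (M + 1) = ∑ l, eval y (c l) * eval y (P l) := by
    rw [← map_pow, ← hc, map_sum]
    refine Finset.sum_congr rfl fun l _ => ?_
    rw [smul_eq_mul, map_mul]
  obtain ⟨l, -, hl⟩ := (place_nonarch v).finset_image_add_of_nonempty
    (fun l => eval y (c l) * eval y (P l)) (Finset.univ_nonempty (α := Λ))
  refine ⟨l, ?_⟩
  rw [← map_pow, h2]
  exact hl.trans (place_mul_le v (hcl l) le_rfl)

end

end Pool.Agent.T6.H91.DML
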